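import Pool.Agent.MSG.Rlt

/-! # MSG / H0: Hilbert's theorem 90 for continuous cocycles, and for the cyclic extension

PROOFS.
* `h90cont`: `Ξ g = 1` on an open subgroup `U` (`Ξ` is locally constant, `Ξ 1 = 1`; the set `{g | Ξ g = 1}` contains a neighbourhood of `1`; by
  `hG.basis` there is `x₀` with `stab x₀` in it, take `U = stab x₀`).  Then `Ξ (g u) = Ξ g * g • Ξ u = Ξ g` for `u ∈ U`.  The cosets `g U` are finitely many
  (`G` compact); for `x` fixed by `U` put `P x = ∑_{g U} Ξ g * (g • x)` (well defined).  The monoid homomorphisms `x ↦ g • x` from the multiplicative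
  monoid of the elements fixed by `U` to `Ω`, one for each coset, are pairwise different: if `g` and `g'` agree then `g⁻¹ g'` fixes all elements
  fixed by `U`, so `g⁻¹ g' ∈ U` (`hG.sep`, open subgroups are closed).  By `linearIndependent_monoidHom` there is `x` with
  `P = P x ≠ 0` (`Ξ g ≠ 0`).  `h • P = ∑ h • Ξ g * (h g • x) = ∑ Ξ (h g) / Ξ h * (h g • x) = P / Ξ h`.  So `θ = P⁻¹` has `Ξ h = h • θ / θ`.
-/

set_option autoImplicit false
set_option linter.unusedVariables false

namespace MSG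

universe u v w

open Pool.Agent.Helper14.Massey

variable {G : Type u} {Ω : Type v} [Group G] [TopologicalSpace G] [Field Ω] [MulSemiringAction G Ω] {p : ℕ} {ζ : Ω}

theorem h90cont (hG : GA G Ω) (Ξ : G → Ω) (h0 : ∀ g, Ξ g ≠ 0) (hl : IsLocallyConstant Ξ)
    (h : ∀ g h : G, Ξ (g * h) = Ξ g * g • Ξ h) : ∃ θ : Ω, θ ≠ 0 ∧ ∀ g : G, Ξ g = g • θ / θ := by
  classical
  haveI := hG.top
  haveI := hG.cpt
  have h1 : Ξ 1 = 1 := by
    have e := h 1 1
    rw [mul_one, one_smul] at e
    have e2 : Ξ 1 * (Ξ 1 - 1) = 0 := by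
      rw [mul_sub, ← e, mul_one, sub_self]
    rcases mul_eq_zero.mp e2 with e3 | e3
    · exact absurd e3 (h0 1)
    · exact sub_eq_zero.mp e3
  obtain ⟨x₀, hx₀⟩ := hG.basis {g | Ξ g = Ξ 1} (hl.isOpen_fiber (Ξ 1)) rfl
  set U : Subgroup G := MulAction.stabilizer G x₀ with hU
  have hUo : IsOpen (U : Set G) := hG.stab x₀
  have hUc : IsClosed (U : Set G) := Subgroup.isClosed_of_isOpen U hUo
  have hUΞ : ∀ u ∈ U, Ξ u = 1 := by
    intro u hu
    rw [← h1]
    exact hx₀ u (MulAction.mem_stabilizer_iff.mp hu)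
  have hinv : ∀ g : G, ∀ u ∈ U, Ξ (g * u) = Ξ g := by
    intro g u hu
    rw [h, hUΞ u hu, smul_one, mul_one]
  haveI : Finite (G ⧸ U) := Subgroup.quotient_finite_of_isOpen U hUo
  haveI : Fintype (G ⧸ U) := Fintype.ofFinite _
  let M : Submonoid Ω :=
    { carrier := {x | ∀ u ∈ U, u • x = x}
      mul_mem' := by
        intro a b ha hb u hu
        rw [smul_mul', ha u hu, hb u hu]
      one_mem' := by
        intro u _
        exact smul_one u }
  let φ : (G ⧸ U) → (M →* Ω) := fun q =>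
    { toFun := fun x => q.out • (x : Ω)
      map_one' := by simp
      map_mul' := by
        intro a b
        simp }
  have hφ : Function.Injective φ := by
    intro q q' hqq
    by_contra hne
    have hn : (q.out)⁻¹ * q'.out ∉ U := by
      intro hmem
      apply hne
      have := QuotientGroup.eq.mpr hmem
      rwa [QuotientGroup.out_eq', QuotientGroup.out_eq'] at this
    obtain ⟨x, hx, hx'⟩ := hG.sep U hUc _ hn
    apply hx'
    have e : q.out • x = q'.out • x := DFunLike.congr_fun hqq (⟨x, hx⟩ : M)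
    rw [mul_smul, ← e, inv_smul_smul]
  have hli : LinearIndependent Ω (fun q : G ⧸ U => ((φ q : M →* Ω) : M → Ω)) :=
    (linearIndependent_monoidHom M Ω).comp φ hφ
  obtain ⟨x, hxM, hP⟩ : ∃ x : Ω, (∀ u ∈ U, u • x = x) ∧ ∑ q : G ⧸ U, Ξ q.out * q.out • x ≠ 0 := by
    by_contra hcon
    push Not at hcon
    have hz : ∑ q : G ⧸ U, Ξ q.out • ((φ q : M →* Ω) : M → Ω) = 0 := by
      funext y
      rw [Finset.sum_apply, Pi.zero_apply]
      have := hcon y.1 y.2
      exact this
    have := (Fintype.linearIndependent_iff.mp hli) (fun q => Ξ q.out) hz ((1 : G) : G ⧸ U)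
    exact h0 _ this
  have hF : ∀ g : G, Ξ g * g • x = Ξ ((g : G ⧸ U).out) * ((g : G ⧸ U).out) • x := by
    intro g
    obtain ⟨u, hu⟩ := QuotientGroup.mk_out_eq_mul U g
    rw [hu, hinv g u.1 u.2, mul_smul, hxM u.1 u.2]
  have hh : ∀ k : G, k • (∑ q : G ⧸ U, Ξ q.out * q.out • x) =
      (∑ q : G ⧸ U, Ξ q.out * q.out • x) / Ξ k := by
    intro k
    rw [Finset.smul_sum, eq_div_iff (h0 k), Finset.sum_mul]
    rw [← Equiv.sum_comp (MulAction.toPerm k : Equiv.Perm (G ⧸ U)) (fun q => Ξ q.out * q.out • x)]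
    refine Finset.sum_congr rfl fun q _ => ?_
    have e1 : ((MulAction.toPerm k : Equiv.Perm (G ⧸ U)) q) = ((k * q.out : G) : G ⧸ U) := by
      rw [MulAction.toPerm_apply]
      conv_lhs => rw [← QuotientGroup.out_eq' q]
      rfl
    rw [e1, ← hF (k * q.out), h, smul_mul', mul_smul]
    ring
  refine ⟨(∑ q : G ⧸ U, Ξ q.out * q.out • x)⁻¹, inv_ne_zero hP, fun g => ?_⟩
  rw [smul_inv'', hh g]
  have hg := h0 g
  field_simp

end MSG
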