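import Pool.Agent.MSG.Uq

/-! # MSG / Un: `c ^ cy` is trivial if and only if `c` is a norm; `c ^ cy` and Kummer characters

`θ : G → ZMod q` continuous homomorphism, `N` its kernel, `θ g₀ = 1`.

PROOFS.
* `cy_zu`: `(θ g).val + (θ h).val = (θ (g h)).val + q * cy θ g h`, so `cy` satisfies the additive cocycle identity; `c` is fixed by `G`.
* `norm_of_cy`: `c ^ cy g h = Ξ g * g • Ξ h / Ξ (g h)`.  On `N` (`cy = 0`) `Ξ` is a cocycle, `Ξ m = m • t / t` (`h90cont` for the group `N`; `GA.sub`).  Replace `Ξ g` by `Ξ g * t / (g • t)`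
  (same coboundary): now `Ξ = 1` on `N`.  For `m ∈ N`: `cy g m = 0`, so `Ξ (g m) = Ξ g`; `cy m g = 0`, so `Ξ (m g) = m • Ξ g`; `m g = g (g⁻¹ m g)`, so `m • Ξ g = Ξ g`.  Put `y = Ξ g₀`.  For
  `i + 1 < q`: `cy (g₀ ^ i) g₀ = 0`, so `Ξ (g₀ ^ (i+1)) = Ξ (g₀ ^ i) * g₀ ^ i • y`; for `i + 1 = q`: `c = Ξ (g₀ ^ (q-1)) * g₀ ^ (q-1) • y / Ξ (g₀ ^ q)`, `Ξ (g₀ ^ q) = 1`.  So `c = ∏_{i < q} g₀ ^ i • y`.
  (For `q = 1` everything is trivial: `N = G`, `cy = 1` always?  No: `q = 1`: `(θ g).val + (θ h).val = 0 < 1`, `cy = 0`; then `c` is `∏_{i < 1} g₀ ^ i • y = y` with `y = c`; treat `q = 1` separately.)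
* `cy_of_norm`: `c = ∏_{i < q} g₀ ^ i • y`, `y` fixed by `N`: `Ξ g = ∏_{i < (θ g).val} g₀ ^ i • y`; `g • Ξ h = g₀ ^ (θ g).val • Ξ h` (values fixed by `N`: `g₀ ^ i • y` is fixed by `N` because `N` is normal;
  `g₀ ^ q ∈ N`).
* `cy_km`: `r = rt q c`, `Ξ g = r ^ (θ g).val`: `Ξ g * g • Ξ h / Ξ (g h) = (g • r / r) ^ (θ h).val * r ^ ((θ g).val + (θ h).val - (θ (g h)).val) = zp ζ (km q ζ c g * θ h) * c ^ cy θ g h`.
-/

set_option autoImplicit false
set_option linter.unusedVariables false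

namespace MSG

universe u v w

open Pool.Agent.Helper14.Massey

variable {G : Type u} {Ω : Type v} [Group G] [TopologicalSpace G] [Field Ω] [MulSemiringAction G Ω]

omit [TopologicalSpace G] in
theorem cy_eq {q : ℕ} [NeZero q] {θ : G → ZMod q} (hadd : ∀ g h, θ (g * h) = θ g + θ h) (g h : G) :
    (θ g).val + (θ h).val = (θ (g * h)).val + q * cy θ g h := by
  unfold cy
  rw [hadd]
  split_ifs with h1
  · rw [mul_one]
    exact ZMod.val_add_val_of_le h1
  · rw [mul_zero, add_zero]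
    exact (ZMod.val_add_of_lt (not_le.1 h1)).symm

omit [TopologicalSpace G] in
theorem cy_co {q : ℕ} [NeZero q] {θ : G → ZMod q} (hadd : ∀ g h, θ (g * h) = θ g + θ h)
    (g h l : G) : cy θ h l + cy θ g (h * l) = cy θ (g * h) l + cy θ g h := by
  have h1 := cy_eq hadd h l
  have h2 := cy_eq hadd g (h * l)
  have h3 := cy_eq hadd (g * h) l
  have h4 := cy_eq hadd g h
  rw [mul_assoc] at h3
  have h5 : q * (cy θ h l + cy θ g (h * l)) = q * (cy θ (g * h) l + cy θ g h) := by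
    rw [mul_add, mul_add]
    omega
  exact Nat.eq_of_mul_eq_mul_left (Nat.pos_of_ne_zero (NeZero.ne q)) h5

omit [TopologicalSpace G] in
theorem cy_zero_right {q : ℕ} [NeZero q] {θ : G → ZMod q} (g : G) {m : G} (hm : θ m = 0) :
    cy θ g m = 0 := by
  unfold cy
  rw [hm, ZMod.val_zero, add_zero, if_neg (not_le.2 (ZMod.val_lt _))]

omit [TopologicalSpace G] in
theorem cy_zero_left {q : ℕ} [NeZero q] {θ : G → ZMod q} (g : G) {m : G} (hm : θ m = 0) :
    cy θ m g = 0 := by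
  unfold cy
  rw [hm, ZMod.val_zero, zero_add, if_neg (not_le.2 (ZMod.val_lt _))]

omit [TopologicalSpace G] in
theorem hom_one {q : ℕ} {θ : G → ZMod q} (hadd : ∀ g h, θ (g * h) = θ g + θ h) : θ 1 = 0 := by
  have h := hadd 1 1
  rw [mul_one] at h
  exact (left_eq_add.1 h)

omit [TopologicalSpace G] in
theorem hom_pow {q : ℕ} {θ : G → ZMod q} (hadd : ∀ g h, θ (g * h) = θ g + θ h) {g : G}
    (hg : θ g = 1) (i : ℕ) : θ (g ^ i) = (i : ZMod q) := by
  induction i with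
  | zero => rw [pow_zero, hom_one hadd, Nat.cast_zero]
  | succ i ih => rw [pow_succ, hadd, ih, hg, Nat.cast_succ]

omit [TopologicalSpace G] in
theorem hom_conj {q : ℕ} {θ : G → ZMod q} (hadd : ∀ g h, θ (g * h) = θ g + θ h) (g m : G)
    (hm : θ m = 0) : θ (g⁻¹ * m * g) = 0 := by
  have h := hadd g⁻¹ g
  rw [inv_mul_cancel, hom_one hadd] at h
  rw [hadd, hadd, hm, add_zero, ← h]

theorem cy_zu (hG : GA G Ω) {q : ℕ} [NeZero q] {θ : G → ZMod q} (hθ : Continuous θ)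
    (hadd : ∀ g h, θ (g * h) = θ g + θ h) {c : Ω} (hc : Fx G c) : Zu G (fun g h => c ^ cy θ g h) := by
  refine ⟨fun g h => pow_ne_zero _ hc.1, ?_, fun g h l => ?_⟩
  · have h1 : IsLocallyConstant (fun x : G × G => (θ x.1, θ x.2)) :=
      (IsLocallyConstant.iff_continuous _).2
        ((hθ.comp continuous_fst).prodMk (hθ.comp continuous_snd))
    exact h1.comp (fun p : ZMod q × ZMod q => c ^ (if q ≤ p.1.val + p.2.val then 1 else 0))
  · rw [smul_pow', hc.2 g, ← pow_add, ← pow_add, cy_co hadd]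

theorem norm_of_cy (hG : GA G Ω) {q : ℕ} [NeZero q] {θ : G → ZMod q} (hθ : Continuous θ)
    (hadd : ∀ g h, θ (g * h) = θ g + θ h) {g₀ : G} (hg₀ : θ g₀ = 1) {N : Subgroup G} (hN : ∀ g, g ∈ N ↔ θ g = 0)
    {c : Ω} (hc : Fx G c) (h : Cu (fun g h : G => c ^ cy θ g h) (fun _ _ => 1)) :
    ∃ y : Ω, y ≠ 0 ∧ (∀ g ∈ N, g • y = y) ∧ c = ∏ i ∈ Finset.range q, g₀ ^ i • y := by
  have hq0 : 0 < q := Nat.pos_of_ne_zero (NeZero.ne q)
  by_cases hq1 : q = 1
  · subst hq1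
    exact ⟨c, hc.1, fun g _ => hc.2 g, by rw [Finset.prod_range_one, pow_zero, one_smul]⟩
  have hq2 : 1 < q := by omega
  obtain ⟨Ξ, hΞ0, hΞl, hΞ'⟩ := h
  have hΞ : ∀ g h, c ^ cy θ g h = Ξ g * g • Ξ h / Ξ (g * h) := fun g h => by
    have h1 := hΞ' g h
    rw [one_mul] at h1
    exact h1
  have hNcl : IsClosed (N : Set G) := by
    have : (N : Set G) = θ ⁻¹' {0} := by
      ext g
      exact hN g
    rw [this]
    exact (isClosed_discrete _).preimage hθ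
  have hGN := hG.sub N hNcl
  obtain ⟨t, ht0, ht⟩ := h90cont hGN (fun m : N => Ξ m) (fun m => hΞ0 m)
    (hΞl.comp_continuous continuous_subtype_val) (by
      intro g h
      have h1 := hΞ g h
      rw [cy_zero_left _ ((hN g).1 g.2), pow_zero, eq_comm, div_eq_one_iff_eq (hΞ0 _)] at h1
      exact h1.symm)
  have hgt : ∀ g : G, g • t ≠ 0 := fun g hg => ht0 (smul_eq_zero_iff_eq g |>.1 hg)
  set Ξ₂ : G → Ω := fun g => Ξ g * t / (g • t) with hΞ₂
  have h20 : ∀ g, Ξ₂ g ≠ 0 := fun g => div_ne_zero (mul_ne_zero (hΞ0 g) ht0) (hgt g)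
  have h2 : ∀ g h, c ^ cy θ g h * Ξ₂ (g * h) = Ξ₂ g * g • Ξ₂ h := by
    intro g h
    have h3 := hΞ g h
    have h4 : g • Ξ₂ h = g • Ξ h * (g • t) / ((g * h) • t) := by
      simp only [hΞ₂]
      rw [smul_div₀', smul_mul', mul_smul]
    rw [h3, h4]
    simp only [hΞ₂]
    have e1 := hgt g
    have e2 := hgt (g * h)
    have e3 := hΞ0 (g * h)
    field_simp
  have h2N : ∀ m, m ∈ N → Ξ₂ m = 1 := by
    intro m hm
    have h3 := ht ⟨m, hm⟩
    simp only at h3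
    have e1 := hgt m
    have h4 : Ξ m = m • t / t := h3
    simp only [hΞ₂]
    rw [h4]
    field_simp
  have hA : ∀ g, ∀ m ∈ N, Ξ₂ (g * m) = Ξ₂ g := by
    intro g m hm
    have h3 := h2 g m
    rw [cy_zero_right g ((hN m).1 hm), pow_zero, one_mul, h2N m hm, smul_one, mul_one] at h3
    exact h3
  have hB : ∀ g, ∀ m ∈ N, m • Ξ₂ g = Ξ₂ g := by
    intro g m hm
    have h3 := h2 m g
    rw [cy_zero_left g ((hN m).1 hm), pow_zero, one_mul, h2N m hm, one_mul] at h3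
    have h4 : g⁻¹ * m * g ∈ N := (hN _).2 (hom_conj hadd g m ((hN m).1 hm))
    have h5 : m * g = g * (g⁻¹ * m * g) := by group
    rw [← h3, h5, hA g _ h4]
  have h11 : (1 : ZMod q).val = 1 := by
    have : Fact (1 < q) := ⟨hq2⟩
    exact ZMod.val_one q
  have hval : ∀ i, i < q → (θ (g₀ ^ i)).val = i := by
    intro i hi
    rw [hom_pow hadd hg₀, ZMod.val_natCast, Nat.mod_eq_of_lt hi]
  have hrec : ∀ i, i < q → Ξ₂ (g₀ ^ i) = ∏ j ∈ Finset.range i, g₀ ^ j • Ξ₂ g₀ := by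
    intro i
    induction i with
    | zero =>
      intro _
      rw [pow_zero, Finset.prod_range_zero, h2N 1 (one_mem N)]
    | succ i ih =>
      intro hi
      have h3 := h2 (g₀ ^ i) g₀
      have h4 : cy θ (g₀ ^ i) g₀ = 0 := by
        unfold cy
        rw [hval i (by omega), hg₀, h11, if_neg (by omega)]
      rw [h4, pow_zero, one_mul, ← pow_succ] at h3
      rw [h3, Finset.prod_range_succ, ih (by omega)]
  refine ⟨Ξ₂ g₀, h20 g₀, hB g₀, ?_⟩
  obtain ⟨k, rfl⟩ : ∃ k, q = k + 1 := ⟨q - 1, by omega⟩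
  have h3 := h2 (g₀ ^ k) g₀
  have h4 : cy θ (g₀ ^ k) g₀ = 1 := by
    unfold cy
    rw [hval k (by omega), hg₀, h11, if_pos le_rfl]
  have h5 : g₀ ^ (k + 1) ∈ N := by
    rw [hN, hom_pow hadd hg₀, ZMod.natCast_self]
  rw [h4, pow_one, ← pow_succ, h2N _ h5, mul_one, hrec k (by omega)] at h3
  rw [h3, Finset.prod_range_succ]

theorem cy_of_norm (hG : GA G Ω) {q : ℕ} [NeZero q] {θ : G → ZMod q} (hθ : Continuous θ)
    (hadd : ∀ g h, θ (g * h) = θ g + θ h) {g₀ : G} (hg₀ : θ g₀ = 1) {N : Subgroup G} (hN : ∀ g, g ∈ N ↔ θ g = 0)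
    {y : Ω} (hy : y ≠ 0) (hy' : ∀ g ∈ N, g • y = y) :
    Cu (fun g h : G => (∏ i ∈ Finset.range q, g₀ ^ i • y) ^ cy θ g h) (fun _ _ => 1) := by
  have hfix : ∀ m ∈ N, ∀ i : ℕ, m • g₀ ^ i • y = g₀ ^ i • y := by
    intro m hm i
    have h4 : (g₀ ^ i)⁻¹ * m * g₀ ^ i ∈ N := (hN _).2 (hom_conj hadd _ m ((hN m).1 hm))
    have h5 : m * g₀ ^ i = g₀ ^ i * ((g₀ ^ i)⁻¹ * m * g₀ ^ i) := by group
    rw [← mul_smul, h5, mul_smul, hy' _ h4]
  set P : ℕ → Ω := fun k => ∏ i ∈ Finset.range k, g₀ ^ i • y with hP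
  have hne : ∀ g : G, g • y ≠ 0 := fun g hg => hy (smul_eq_zero_iff_eq g |>.1 hg)
  have hP0 : ∀ k, P k ≠ 0 := fun k => Finset.prod_ne_zero_iff.2 fun i _ => hne _
  have hPN : ∀ m ∈ N, ∀ k, m • P k = P k := by
    intro m hm k
    simp only [hP]
    rw [Finset.smul_prod']
    exact Finset.prod_congr rfl fun i _ => hfix m hm i
  have hPa : ∀ k l, P k * g₀ ^ k • P l = P (k + l) := by
    intro k l
    simp only [hP]
    rw [Finset.prod_range_add, Finset.smul_prod']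
    congr 1
    refine Finset.prod_congr rfl fun i _ => ?_
    rw [← mul_smul, ← pow_add]
  have hgq : g₀ ^ q ∈ N := by rw [hN, hom_pow hadd hg₀, ZMod.natCast_self]
  have hPq : ∀ l, P (q + l) = P q * P l := by
    intro l
    rw [← hPa, hPN _ hgq]
  refine ⟨fun g => P (θ g).val, fun g => hP0 _, ?_, fun g h => ?_⟩
  · exact ((IsLocallyConstant.iff_continuous _).2 hθ).comp (fun z : ZMod q => P z.val)
  · have h1 : g • P (θ h).val = g₀ ^ (θ g).val • P (θ h).val := by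
      have hm : (g₀ ^ (θ g).val)⁻¹ * g ∈ N := by
        rw [hN]
        have h2 := hadd (g₀ ^ (θ g).val) ((g₀ ^ (θ g).val)⁻¹ * g)
        rw [mul_inv_cancel_left, hom_pow hadd hg₀, ZMod.natCast_zmod_val] at h2
        exact (left_eq_add.1 h2)
      have h3 : g = g₀ ^ (θ g).val * ((g₀ ^ (θ g).val)⁻¹ * g) := by group
      conv_lhs => rw [h3, mul_smul, hPN _ hm]
    show P q ^ cy θ g h = 1 * (P (θ g).val * g • P (θ h).val / P (θ (g * h)).val)
    rw [h1, hPa, one_mul, cy_eq hadd g h, eq_div_iff (hP0 _)]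
    unfold cy
    split_ifs with h2
    · rw [pow_one, mul_one, add_comm (θ (g * h)).val q, hPq]
    · rw [pow_zero, one_mul, mul_zero, add_zero]

theorem zp_val_pow {q : ℕ} {ζ : Ω} (hz : PZ q ζ) (κ : ZMod q) (l : ℕ) :
    zp ζ κ ^ l = zp ζ (κ * (l : ZMod q)) := by
  induction l with
  | zero => rw [pow_zero, Nat.cast_zero, mul_zero, zp_zero hz]
  | succ l ih => rw [pow_succ, ih, Nat.cast_succ, mul_add, mul_one, zp_add hz]

/-- comparison of `c ^ cy` with the cup product -/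
theorem cy_km (hG : GA G Ω) {q : ℕ} {ζ : Ω} (hz : PZ q ζ) (hζ : ∀ g : G, g • ζ = ζ) {θ : G → ZMod q} (hθ : Continuous θ)
    (hadd : ∀ g h, θ (g * h) = θ g + θ h) {c : Ω} (hc : Fx G c) :
    Cu (fun g h : G => zp ζ (km q ζ c g * θ h) * c ^ cy θ g h) (fun _ _ => 1) := by
  have := hz.neZero
  have := hG.alg
  have hr : rt q c ^ q = c := rt_pow hz c
  have hr0 : rt q c ≠ 0 := rt_ne hz hc.1
  refine ⟨fun g => rt q c ^ (θ g).val, fun g => pow_ne_zero _ hr0, ?_, fun g h => ?_⟩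
  · exact ((IsLocallyConstant.iff_continuous _).2 hθ).comp (fun z : ZMod q => rt q c ^ z.val)
  · have h1 : g • rt q c = zp ζ (km q ζ c g) * rt q c := km_root hz hc.1 hr (hζ g) (hc.2 g)
    have h2 : zp ζ (km q ζ c g) ^ (θ h).val = zp ζ (km q ζ c g * θ h) := by
      rw [zp_val_pow hz, ZMod.natCast_zmod_val]
    rw [one_mul, smul_pow', h1, mul_pow, h2, eq_div_iff (pow_ne_zero _ hr0)]
    have h3 : rt q c ^ (θ g).val * rt q c ^ (θ h).val =
        c ^ cy θ g h * rt q c ^ (θ (g * h)).val := by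
      rw [← pow_add, cy_eq hadd g h, pow_add, pow_mul, hr]
      ring
    calc zp ζ (km q ζ c g * θ h) * c ^ cy θ g h * rt q c ^ (θ (g * h)).val
        = zp ζ (km q ζ c g * θ h) * (c ^ cy θ g h * rt q c ^ (θ (g * h)).val) := by ring
      _ = rt q c ^ (θ g).val * (zp ζ (km q ζ c g * θ h) * rt q c ^ (θ h).val) := by
          rw [← h3]; ring

end MSG
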