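import Pool.Agent.MSG.Mor

/-! # MSG / Mox: existence and uniqueness of morphisms

PROOFS.
* `exists_Mo`: `Ω` is algebraic over `F = FixedPoints.subfield G Ω` (`GA.algebraic`), `Ω'` is algebraically closed, so `φ` extends to
  `ψ : Ω →+* Ω'` (`IsAlgClosed.lift` for the `F`-algebra structure on `Ω'` given by `φ`).  For `g ∈ G'` and `x ∈ Ω` the element
  `g • ψ x` is a root of the image under `φ` of `∏_{y ∈ G x} (X - y)` (coefficients in `F`, their images are fixed by `G'`), so it is in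
  `ψ (G x)`.  So `σ = ψ⁻¹ ∘ g ∘ ψ` is a ring homomorphism `Ω → Ω` which fixes `F`; by `GA.exists_smul` `σ = r g • ·` for a unique
  `r g ∈ G` (`GA.faithful`).  `r` is a homomorphism by uniqueness.  Continuity (it is enough at `1`, `continuous_of_continuousAt_one`): for an open `U ∋ 1`
  choose `x` with `stab x ⊆ U` (`basis`); if `g ∈ G'` fixes `ψ x` then `r g` fixes `x`.
* `Mo.conj`: `m'.ψ x` is a root of the image of `∏_{y ∈ G x} (X - y)` under `m.ψ` (which agrees with `m'.ψ` on the fixed elements), so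
  `m'.ψ x ∈ m.ψ Ω`; `σ = m.ψ⁻¹ ∘ m'.ψ` fixes the fixed elements, so `σ = c • ·`.  Then
  `m.ψ (c • m'.r g • x) = m'.ψ (m'.r g • x) = g • m'.ψ x = g • m.ψ (c • x) = m.ψ (m.r g • c • x)`, so `c m'.r g = m.r g c`.
* `Mo.conj_co`: `Mo.conj` and `Co_conj`.
-/

set_option autoImplicit false
set_option linter.unusedVariables false

namespace MSG

universe u v w

open Pool.Agent.Helper14.Massey

variable {G Ω G' Ω' : Type u} [Group G] [TopologicalSpace G] [Field Ω] [MulSemiringAction G Ω]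
  [Group G'] [TopologicalSpace G'] [Field Ω'] [MulSemiringAction G' Ω'] {n : ℕ} {ζ : Ω}

private theorem mox_root (hG : GA G Ω) (u v : Ω →+* Ω') (h : ∀ x : Ω, (∀ g : G, g • x = x) → u x = v x)
    (x : Ω) : ∃ g : G, v x = u (g • x) := by
  classical
  have hfin := hG.orbit_finite x
  let s : Finset Ω := hfin.toFinset
  let P : Polynomial Ω := ∏ y ∈ s, (Polynomial.X - Polynomial.C y)
  have hmem : ∀ (g : G) (y : Ω), y ∈ s → g • y ∈ s := by
    intro g y hy
    have hy' : y ∈ MulAction.orbit G x := hfin.mem_toFinset.1 hy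
    obtain ⟨k, rfl⟩ := hy'
    exact hfin.mem_toFinset.2 ⟨g * k, mul_smul g k x⟩
  have hP : ∀ g : G, P.map (MulSemiringAction.toRingHom G Ω g) = P := by
    intro g
    show Polynomial.map (MulSemiringAction.toRingHom G Ω g) (∏ y ∈ s, (Polynomial.X - Polynomial.C y)) = P
    rw [Polynomial.map_prod]
    refine Finset.prod_bij (fun y _ => g • y) (fun y hy => hmem g y hy)
      (fun y _ z _ hyz => MulAction.injective g hyz)
      (fun y hy => ⟨g⁻¹ • y, hmem g⁻¹ y hy, smul_inv_smul g y⟩) (fun y _ => ?_)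
    rw [Polynomial.map_sub, Polynomial.map_X, Polynomial.map_C]
    rfl
  have hc : ∀ (g : G) (i : ℕ), g • P.coeff i = P.coeff i := by
    intro g i
    have h1 : (P.map (MulSemiringAction.toRingHom G Ω g)).coeff i = P.coeff i := by rw [hP g]
    rw [Polynomial.coeff_map] at h1
    exact h1
  have huv : P.map u = P.map v := by
    ext i
    rw [Polynomial.coeff_map, Polynomial.coeff_map]
    exact h _ fun g => hc g i
  have hx : Polynomial.eval x P = 0 := by
    show Polynomial.eval x (∏ y ∈ s, (Polynomial.X - Polynomial.C y)) = 0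
    rw [Polynomial.eval_prod]
    refine Finset.prod_eq_zero (i := x) (hfin.mem_toFinset.2 (MulAction.mem_orbit_self x)) ?_
    simp
  have h1 : Polynomial.eval (v x) (P.map u) = 0 := by
    rw [huv, Polynomial.eval_map, Polynomial.eval₂_at_apply, hx, map_zero]
  have h2 : P.map u = ∏ y ∈ s, (Polynomial.X - Polynomial.C (u y)) := by
    show Polynomial.map u (∏ y ∈ s, (Polynomial.X - Polynomial.C y)) = _
    rw [Polynomial.map_prod]
    refine Finset.prod_congr rfl fun y _ => ?_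
    rw [Polynomial.map_sub, Polynomial.map_X, Polynomial.map_C]
  rw [h2, Polynomial.eval_prod, Finset.prod_eq_zero_iff] at h1
  obtain ⟨y, hy, hy'⟩ := h1
  obtain ⟨g, rfl⟩ := hfin.mem_toFinset.1 hy
  refine ⟨g, ?_⟩
  rw [Polynomial.eval_sub, Polynomial.eval_X, Polynomial.eval_C, sub_eq_zero] at hy'
  exact hy'

private theorem mox_conj (hG : GA G Ω) (u v : Ω →+* Ω') (h : ∀ x : Ω, (∀ g : G, g • x = x) → u x = v x) :
    ∃ c : G, ∀ x, v x = u (c • x) := by
  have hr : ∀ x, v x ∈ u.range := by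
    intro x
    obtain ⟨g, hg⟩ := mox_root hG u v h x
    exact ⟨g • x, hg.symm⟩
  let e : Ω ≃+* u.range := RingEquiv.ofBijective u.rangeRestrict
    ⟨fun a b hab => u.injective (congrArg Subtype.val hab), u.rangeRestrict_surjective⟩
  let σ : Ω →+* Ω := (e.symm : u.range →+* Ω).comp (v.codRestrict u.range hr)
  have hσ : ∀ x, u (σ x) = v x := by
    intro x
    have h1 : e (e.symm (v.codRestrict u.range hr x)) = v.codRestrict u.range hr x := e.apply_symm_apply _
    exact congrArg Subtype.val h1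
  obtain ⟨c, hc⟩ := hG.exists_smul σ (fun x hx => u.injective (by rw [hσ, h x hx]))
  exact ⟨c, fun x => by rw [← hc x, hσ]⟩

private theorem mox_faith (hG : GA G Ω) {a b : G} (h : ∀ x : Ω, a • x = b • x) : a = b := by
  have h1 : b⁻¹ * a = 1 := by
    refine hG.faithful fun x => ?_
    rw [mul_smul, h x, inv_smul_smul]
  rw [← mul_one b, ← h1, mul_inv_cancel_left]

theorem exists_Mo (hG : GA G Ω) (hG' : GA G' Ω') (φ : FixedPoints.subfield G Ω →+* Ω')
    (hφ : ∀ x (g : G'), g • φ x = φ x) : ∃ m : Mo G Ω G' Ω', ∀ x : FixedPoints.subfield G Ω, m.ψ (x : Ω) = φ x := by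
  have := hG.algebraic
  have := hG'.alg
  have := hG.top
  have := hG'.top
  obtain ⟨ψ, hψ⟩ : ∃ ψ : Ω →+* Ω', ∀ x : FixedPoints.subfield G Ω, ψ (x : Ω) = φ x := by
    let _ : Algebra (FixedPoints.subfield G Ω) Ω' := φ.toAlgebra
    let l : Ω →ₐ[FixedPoints.subfield G Ω] Ω' := IsAlgClosed.lift
    exact ⟨l.toRingHom, fun x => l.commutes x⟩
  have hex : ∀ g : G', ∃ c : G, ∀ x, g • ψ x = ψ (c • x) := by
    intro g
    obtain ⟨c, hc⟩ := mox_conj hG ψ ((MulSemiringAction.toRingHom G' Ω' g).comp ψ) (fun x hx => by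
      show ψ x = g • ψ x
      have h1 := hψ ⟨x, hx⟩
      have h2 : ψ x = φ ⟨x, hx⟩ := h1
      rw [h2, hφ])
    exact ⟨c, hc⟩
  choose r hr using hex
  let R : G' →* G := MonoidHom.mk' r (fun g h => mox_faith hG fun x => ψ.injective (by
    rw [← hr, mul_smul, hr h x, hr g, mul_smul]))
  refine ⟨⟨ψ, R, ?_, fun g x => (hr g x).symm⟩, hψ⟩
  refine continuous_of_continuousAt_one R ?_
  rw [ContinuousAt, map_one]
  intro U hU
  obtain ⟨V, hVU, hV, hV1⟩ := mem_nhds_iff.1 hU
  obtain ⟨x, hx⟩ := hG.basis V hV hV1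
  have h1 : {g : G' | g • ψ x = ψ x} ∈ nhds (1 : G') :=
    (hG'.stab (ψ x)).mem_nhds (one_smul G' (ψ x))
  refine Filter.mem_map.2 (Filter.mem_of_superset h1 fun g hg => hVU (hx _ (ψ.injective ?_)))
  show ψ (r g • x) = ψ x
  rw [← hr g x]
  exact hg

theorem Mo.conj (hG : GA G Ω) (m m' : Mo G Ω G' Ω') (h : ∀ x : Ω, (∀ g : G, g • x = x) → m.ψ x = m'.ψ x) :
    ∃ c : G, (∀ x, m'.ψ x = m.ψ (c • x)) ∧ ∀ g, m'.r g = c⁻¹ * m.r g * c := by
  obtain ⟨c, hc⟩ := mox_conj hG m.ψ m'.ψ h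
  refine ⟨c, hc, fun g => ?_⟩
  have h1 : c * m'.r g = m.r g * c := by
    refine mox_faith hG fun x => m.ψ.injective ?_
    rw [mul_smul, mul_smul, ← hc, m'.comp, hc, m.comp]
  rw [mul_assoc, ← h1, inv_mul_cancel_left]

theorem Mo.conj_co (hG : GA G Ω) (m m' : Mo G Ω G' Ω') (h : ∀ x : Ω, (∀ g : G, g • x = x) → m.ψ x = m'.ψ x)
    {f : G → G → ZMod n} (hf : f ∈ Z2 n G) : Co (fun x y => f (m'.r x) (m'.r y)) (fun x y => f (m.r x) (m.r y)) := by
  have := hG.top
  obtain ⟨c, _, hc⟩ := Mo.conj hG m m' h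
  have h1 := Co_comp m.r m.cont (Co_conj hf c)
  simp only [hc]
  exact h1

end MSG
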