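import Pool.Agent.MSG.Uh
import Pool.Agent.MSG.Mox

/-! # MSG / Uo: `Ωˣ`-cochains under morphisms of pairs

`m : Mo G Ω G' Ω'`; `pbu m f g h = m.ψ (f (m.r g) (m.r h))`.

PROOFS.
* `pbu_Zu`, `pbu_Cu`: `m.ψ (m.r g • x) = g • m.ψ x`; witness `m.ψ ∘ Ξ ∘ m.r`.  `pbu_CuN`: on `N.comap m.r`.
* `pbu_hs`: `km n (m.ψ ζ) (m.ψ a) g = km n ζ a (m.r g)` (`Mo.km`), `m.ψ (zp ζ j) = zp (m.ψ ζ) j`.
* `pbu_conj`: `Mo.conj`: `m'.ψ x = m.ψ (c • x)`, `m'.r g = c⁻¹ * m.r g * c`; so `pbu m' f = pbu m (cju c f)`, and `cju c f ~ f` (`Cu_conj`), `pbu_Cu`.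
-/

set_option autoImplicit false
set_option linter.unusedVariables false

namespace MSG

universe u v w

open Pool.Agent.Helper14.Massey

variable {G Ω G' Ω' : Type u} [Group G] [TopologicalSpace G] [Field Ω] [MulSemiringAction G Ω]
  [Group G'] [TopologicalSpace G'] [Field Ω'] [MulSemiringAction G' Ω'] {n : ℕ} {ζ : Ω} {f f' : G → G → Ω} {N : Subgroup G}

/-- pull back of an `Ωˣ`-cochain -/
def pbu (m : Mo G Ω G' Ω') (f : G → G → Ω) (g h : G') : Ω' := m.ψ (f (m.r g) (m.r h))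

theorem pbu_Zu (m : Mo G Ω G' Ω') (hf : Zu G f) : Zu G' (pbu m f) := by
  refine ⟨fun g h => (map_ne_zero m.ψ).2 (hf.ne _ _), ?_, fun g h l => ?_⟩
  · have h1 : Continuous (fun q : G' × G' => (m.r q.1, m.r q.2)) :=
      (m.cont.comp continuous_fst).prodMk (m.cont.comp continuous_snd)
    have h2 := (hf.lc.comp_continuous h1).comp m.ψ
    exact h2
  · show g • m.ψ (f (m.r h) (m.r l)) * m.ψ (f (m.r g) (m.r (h * l))) =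
      m.ψ (f (m.r (g * h)) (m.r l)) * m.ψ (f (m.r g) (m.r h))
    rw [← m.comp, ← map_mul, ← map_mul, map_mul m.r, map_mul m.r, hf.co]

theorem pbu_Cu (m : Mo G Ω G' Ω') (h : Cu f f') : Cu (pbu m f) (pbu m f') := by
  obtain ⟨Ξ, h1, h2, h3⟩ := h
  refine ⟨fun g => m.ψ (Ξ (m.r g)), fun g => (map_ne_zero m.ψ).2 (h1 _), ?_, fun g h => ?_⟩
  · exact (h2.comp_continuous m.cont).comp m.ψ
  · show m.ψ (f (m.r g) (m.r h)) = m.ψ (f' (m.r g) (m.r h)) *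
      (m.ψ (Ξ (m.r g)) * g • m.ψ (Ξ (m.r h)) / m.ψ (Ξ (m.r (g * h))))
    rw [h3, map_mul m.ψ, map_div₀, map_mul m.ψ, m.comp, map_mul m.r]

theorem pbu_CuN (m : Mo G Ω G' Ω') (h : CuN N f f') : CuN (N.comap m.r) (pbu m f) (pbu m f') := by
  obtain ⟨Ξ, h1, h2, h3⟩ := h
  have hc : Continuous (fun x : N.comap m.r => (⟨m.r (x : G'), x.2⟩ : N)) :=
    (m.cont.comp continuous_subtype_val).subtype_mk _
  refine ⟨fun g => m.ψ (Ξ ⟨m.r (g : G'), g.2⟩), fun g => (map_ne_zero m.ψ).2 (h1 _), ?_, fun g h => ?_⟩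
  · exact (h2.comp_continuous hc).comp m.ψ
  · have h4 := h3 ⟨m.r (g : G'), g.2⟩ ⟨m.r (h : G'), h.2⟩
    have h5 : (⟨m.r (g : G'), g.2⟩ * ⟨m.r (h : G'), h.2⟩ : N) = ⟨m.r ((g * h : N.comap m.r) : G'), (g * h).2⟩ := by
      apply Subtype.ext
      show m.r (g : G') * m.r (h : G') = m.r ((g : G') * (h : G'))
      rw [map_mul]
    rw [h5] at h4
    show m.ψ (f (m.r (g : G')) (m.r (h : G'))) = m.ψ (f' (m.r (g : G')) (m.r (h : G'))) *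
      (m.ψ (Ξ ⟨m.r (g : G'), g.2⟩) * (g : G') • m.ψ (Ξ ⟨m.r (h : G'), h.2⟩) /
        m.ψ (Ξ ⟨m.r ((g * h : N.comap m.r) : G'), (g * h).2⟩))
    have h6 : f (m.r (g : G')) (m.r (h : G')) = f' (m.r (g : G')) (m.r (h : G')) *
      (Ξ ⟨m.r (g : G'), g.2⟩ * m.r (g : G') • Ξ ⟨m.r (h : G'), h.2⟩ /
        Ξ ⟨m.r ((g * h : N.comap m.r) : G'), (g * h).2⟩) := h4
    rw [h6, map_mul m.ψ, map_div₀, map_mul m.ψ, m.comp]

theorem pbu_zp (m : Mo G Ω G' Ω') (ζ : Ω) (F : G → G → ZMod n) :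
    pbu m (fun g h => zp ζ (F g h)) = fun g h => zp (m.ψ ζ) (F (m.r g) (m.r h)) := by
  funext g h
  exact map_pow m.ψ _ _

theorem pbu_hs (m : Mo G Ω G' Ω') [IsAlgClosed Ω] [IsAlgClosed Ω'] (hz : PZ n ζ) (hζ : ∀ g ∈ N, g • ζ = ζ) {a b : Ω}
    (ha : FxM N a) (hb : FxM N b) {g h : G'} (hg : m.r g ∈ N) (hh : m.r h ∈ N) :
    pbu m (hs n ζ a b) g h = hs n (m.ψ ζ) (m.ψ a) (m.ψ b) g h := by
  show m.ψ (zp ζ (km n ζ a (m.r g) * km n ζ b (m.r h))) = zp (m.ψ ζ) (km n (m.ψ ζ) (m.ψ a) g * km n (m.ψ ζ) (m.ψ b) h)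
  rw [Mo.km m hz ha.1 (hζ _ hg) (ha.2 _ hg), Mo.km m hz hb.1 (hζ _ hh) (hb.2 _ hh)]
  exact map_pow m.ψ _ _

theorem pbu_conj (hG : GA G Ω) (m m' : Mo G Ω G' Ω') (h : ∀ x : Ω, (∀ g : G, g • x = x) → m.ψ x = m'.ψ x)
    (hf : Zu G f) : Cu (pbu m' f) (pbu m f) := by
  obtain ⟨c, h1, h2⟩ := Mo.conj hG m m' h
  have h3 : pbu m' f = pbu m (cju c f) := by
    funext x y
    show m'.ψ (f (m'.r x) (m'.r y)) = m.ψ (c • f (c⁻¹ * m.r x * c) (c⁻¹ * m.r y * c))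
    rw [h1, h2, h2]
  rw [h3]
  exact pbu_Cu m (Cu_conj hG hf c)

end MSG
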