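import Pool.Agent.MSG.TS3

/-! # MSG / RT: the theorem of Rosset and Tate: transfers of symbols are sums of symbols

UNIFORM VERSION: the entries `a i`, `b i ∈ Ω^G` are the same for all odd `n`, all primitive roots `ζ` and all groups `H` (definition `SyU`).

`A : SubMulAction G Ω` is a finite `G`-stable subset of `Ω`; the family `a ↦ a` is `Subtype.val`.

PROOFS.
* `SyU_congr`, `SyU_add`, `SyU_zero`, `SyU_one`: as `Sy_congr`, `Sy_add`, `Sy_zero`, `Sy_one` in Sya.lean.
* `rosset_tate_u` from `rt_sub_u`: let `A` be the image of `x` (a finite `G`-stable set not containing `0`) and `π : S → A`, `π s = x s`.  `x = val ∘ π`, so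
  `tH x y ~ tH_A (val, nm π y)` (`tH_proj_right`), for all `n`, `ζ`, `ι`.
* `rt_sub_u` from `rt_main`: `A` finite, `0 ∉ A`, `y : A → Ω` equivariant.  The interpolation polynomial `P` (degree `< #A`, `P a = y a`;
  `Lagrange.interpolate`) has coefficients fixed by `G` (uniqueness).  So it is enough to show, for all `P : Ω[X]` with coefficients fixed by `G`,
  `P a ≠ 0` on `A` and `natDegree P < #A`: `SyU (tH_A (val, P a))` (`rt_main`).
* `rt_main`: strong induction on `N = #A`; inner induction on `natDegree P`.  `P` constant `= c ≠ 0`: `tH_const_right`, `SyU_one`.  Otherwise let `r` be a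
  root of `P`, `B = G r` (finite: `GA.orbit_finite`; all of `B` are roots of `P`), `Q = ∏_{b ∈ B} (X - b)`, `P = Q * P'` with `P'` again fixed by `G`, of
  smaller degree; `#B ≤ natDegree P < #A`.  `tH_A (val, P a) ~ tH_A (val, Q a) + tH_A (val, P' a)` (`tH_mul_right`).
  If `r = 0`: `B = {0}`, `Q a = a`, `tH_self`.  If `r ≠ 0`: on `A × B` (diagonal action) let `u (a,b) = a`, `v (a,b) = b`, `u ≠ v`.
  `Q a = nm (fst) (u - v) a`, so `tH_A (val, Q a) ~ tH_{A×B} (u, u - v)` (`tH_proj_right` backwards) `~ tH (u, v) + tH (v, u - v)` (`rt_add`);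
  `tH_{A×B} (u, v) ~ tH_A (val, ∏ b)` (`tH_proj_right`, `∏_b b` is constant on `A`, fixed by `G`) is a symbol (`tH_const_right`), and
  `tH_{A×B} (v, u - v) ~ tH_B (val, b ↦ ∏_a (a - b))` (`tH_proj_right` for `snd`) is `SyU` by the outer induction (`#B < #A`; use the statement for
  arbitrary equivariant families on `B`, i.e. `rt_sub_u`).
  All choices (`P`, `r`, `B`, `Q`) are independent of `n`, `ζ`, `H`, `ι`.
* `rosset_tate`: the case of one `n`, `ζ`, `ι`.
-/

set_option autoImplicit false
set_option linter.unusedVariables false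

namespace MSG

universe u v w x

open Pool.Agent.Helper14.Massey

namespace RTAux

open Polynomial

section alg

variable {G : Type u} {Ω : Type v} [Group G] [Field Ω] [MulSemiringAction G Ω]

/-- the coefficients of `P` are fixed by `G` -/
def Fp (G : Type u) {Ω : Type v} [Group G] [Field Ω] [MulSemiringAction G Ω] (P : Polynomial Ω) : Prop :=
  ∀ g : G, P.map (MulSemiringAction.toRingHom G Ω g) = P

theorem Fp.eval {P : Polynomial Ω} (h : Fp G P) (g : G) (x : Ω) : P.eval (g • x) = g • P.eval x := by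
  have h1 : (P.map (MulSemiringAction.toRingHom G Ω g)).eval
      (MulSemiringAction.toRingHom G Ω g x) = MulSemiringAction.toRingHom G Ω g (P.eval x) :=
    Polynomial.eval_map_apply _ _
  rw [h g] at h1
  exact h1

theorem Fp.of_mul {P Q R : Polynomial Ω} (hP : P = Q * R) (h : Fp G P) (hQ : Fp G Q) (hQ0 : Q ≠ 0) :
    Fp G R := by
  intro g
  have h1 := h g
  rw [hP, Polynomial.map_mul, hQ g] at h1
  exact mul_left_cancel₀ hQ0 h1

theorem Fp_X : Fp G (X : Polynomial Ω) := fun _ => Polynomial.map_X _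

/-- the orbit of `r` -/
def orb (G : Type u) {Ω : Type v} [Group G] [Field Ω] [MulSemiringAction G Ω] (r : Ω) :
    SubMulAction G Ω where
  carrier := MulAction.orbit G r
  smul_mem' := by
    rintro g x ⟨h, rfl⟩
    exact ⟨g * h, mul_smul g h r⟩

/-- the polynomial with roots `B` -/
noncomputable def qB (B : SubMulAction G Ω) [Fintype B] : Polynomial Ω := ∏ b : B, (X - C (b : Ω))

theorem Fp_qB (B : SubMulAction G Ω) [Fintype B] : Fp G (qB B) := by
  intro g
  unfold qB
  rw [Polynomial.map_prod]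
  refine Fintype.prod_equiv (MulAction.toPerm g) _ _ fun b => ?_
  rw [Polynomial.map_sub, Polynomial.map_X, Polynomial.map_C]
  rfl

theorem qB_ne (B : SubMulAction G Ω) [Fintype B] : qB B ≠ 0 :=
  (monic_prod_X_sub_C _ _).ne_zero

theorem qB_deg (B : SubMulAction G Ω) [Fintype B] : (qB B).natDegree = Fintype.card B := by
  unfold qB
  rw [natDegree_finsetProd_X_sub_C_eq_card]
  rfl

theorem nm_fst {A B : Type*} [Fintype A] [Fintype B] (x : A × B → Ω) (a : A) :
    nm (Prod.fst : A × B → A) x a = ∏ b : B, x (a, b) := by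
  classical
  unfold nm
  rw [Finset.prod_filter, Fintype.prod_prod_type, Finset.prod_eq_single a]
  · exact Finset.prod_congr rfl fun b _ => if_pos rfl
  · intro a' _ ha'
    exact Finset.prod_eq_one fun b _ => if_neg ha'
  · intro h
    exact absurd (Finset.mem_univ a) h

theorem ev_val {A : SubMulAction G Ω} (h0 : (0 : Ω) ∉ A) : Ev G (fun a : A => (a : Ω)) :=
  fun a => ⟨fun h => h0 (h ▸ a.2), fun _ => rfl⟩

theorem ev_eval {A : SubMulAction G Ω} {P : Polynomial Ω} (hP : Fp G P)
    (h : ∀ a : A, P.eval (a : Ω) ≠ 0) : Ev G (fun a : A => P.eval (a : Ω)) :=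
  fun a => ⟨h a, fun g => hP.eval g a⟩

end alg

section top

variable {G : Type u} {Ω : Type v} [Group G] [TopologicalSpace G] [Field Ω] [MulSemiringAction G Ω]

theorem os_val (hG : GA G Ω) (A : SubMulAction G Ω) : OS G A := by
  intro a
  have e : {g : G | g • a = a} = {g : G | g • (a : Ω) = (a : Ω)} := by
    ext g
    exact Subtype.ext_iff
  rw [e]
  exact hG.stab _

theorem os_prod (hG : GA G Ω) (A B : SubMulAction G Ω) : OS G (A × B) := by
  rintro ⟨a, b⟩
  have e : {g : G | g • (a, b) = (a, b)} = {g : G | g • a = a} ∩ {g : G | g • b = b} := by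
    ext g
    exact Prod.ext_iff
  rw [e]
  exact (os_val hG A a).inter (os_val hG B b)

end top

end RTAux

/-- a family of cochains `F n ζ ι` (for all `n`, `ζ`, `H`, `ι`) is uniformly a sum of symbols with entries in `Ω^G` -/
def SyU (G : Type u) {Ω : Type v} [Field Ω] [Group G] [TopologicalSpace G] [SMul G Ω]
    (F : ∀ (n : ℕ) (ζ : Ω) (H : Type w) [Group H] (ι : H →* G), H → H → ZMod n) : Prop :=
  ∃ (m : ℕ) (a b : Fin m → Ω), (∀ i, Fx G (a i)) ∧ (∀ i, Fx G (b i)) ∧
    ∀ (n : ℕ) (ζ : Ω) (H : Type w) [Group H] [TopologicalSpace H] (ι : H →* G), PZ n ζ → Continuous ι →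
      (∀ h : H, ι h • ζ = ζ) → Co (F n ζ H ι) (fun g h => ∑ i, km n ζ (a i) (ι g) * km n ζ (b i) (ι h))

section

variable {G : Type u} {Ω : Type v} {S : Type x} [Group G] [TopologicalSpace G]
  [Field Ω] [MulSemiringAction G Ω] [MulAction G S] [Fintype S]

theorem SyU_congr {F F' : ∀ (n : ℕ) (ζ : Ω) (H : Type w) [Group H] (ι : H →* G), H → H → ZMod n}
    (h : ∀ (n : ℕ) (ζ : Ω) (H : Type w) [Group H] [TopologicalSpace H] (ι : H →* G), PZ n ζ → Continuous ι →
      (∀ h : H, ι h • ζ = ζ) → Co (F n ζ H ι) (F' n ζ H ι)) (hF : SyU G F') : SyU G F := by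
  obtain ⟨m, a, b, ha, hb, hc⟩ := hF
  exact ⟨m, a, b, ha, hb, fun n ζ H _ _ ι hz hc' hι =>
    Co_trans (h n ζ H ι hz hc' hι) (hc n ζ H ι hz hc' hι)⟩

theorem SyU_zero : SyU.{u, v, w} G (Ω := Ω) (fun _ _ _ _ _ _ _ => 0) := by
  refine ⟨0, fun i => i.elim0, fun i => i.elim0, fun i => i.elim0, fun i => i.elim0,
    fun n ζ H _ _ ι _ _ _ => ?_⟩
  refine ⟨fun _ => 0, continuous_const, fun g h => ?_⟩
  simp

theorem SyU_add {F F' : ∀ (n : ℕ) (ζ : Ω) (H : Type w) [Group H] (ι : H →* G), H → H → ZMod n}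
    (hF : SyU G F) (hF' : SyU G F') : SyU G (fun n ζ H _ ι x y => F n ζ H ι x y + F' n ζ H ι x y) := by
  obtain ⟨m, a, b, ha, hb, hc⟩ := hF
  obtain ⟨m', a', b', ha', hb', hc'⟩ := hF'
  refine ⟨m + m', Fin.append a a', Fin.append b b', ?_, ?_, ?_⟩
  · intro i
    refine Fin.addCases (fun j => ?_) (fun j => ?_) i
    · rw [Fin.append_left]
      exact ha j
    · rw [Fin.append_right]
      exact ha' j
  · intro i
    refine Fin.addCases (fun j => ?_) (fun j => ?_) i
    · rw [Fin.append_left]
      exact hb j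
    · rw [Fin.append_right]
      exact hb' j
  · intro n ζ H _ _ ι hz hcι hι
    have h1 := Co_add (hc n ζ H ι hz hcι hι) (hc' n ζ H ι hz hcι hι)
    have e : (fun g h : H => ∑ i : Fin (m + m'),
        km n ζ (Fin.append a a' i) (ι g) * km n ζ (Fin.append b b' i) (ι h)) =
        fun g h : H => (∑ i, km n ζ (a i) (ι g) * km n ζ (b i) (ι h)) +
          ∑ i, km n ζ (a' i) (ι g) * km n ζ (b' i) (ι h) := by
      funext g h
      rw [Fin.sum_univ_add]
      simp only [Fin.append_left, Fin.append_right]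
    rw [e]
    exact h1

theorem SyU_one {a b : Ω} (ha : Fx G a) (hb : Fx G b) :
    SyU.{u, v, w} G (fun n ζ H _ ι x y => km n ζ a (ι x) * km n ζ b (ι y)) := by
  refine ⟨1, fun _ => a, fun _ => b, fun _ => ha, fun _ => hb, fun n ζ H _ _ ι _ _ _ => ?_⟩
  simpa using Co_refl (fun x y : H => km n ζ a (ι x) * km n ζ b (ι y))

end

/-! ### the induction -/

namespace RTAux

open Polynomial

section top

variable {G : Type u} {Ω : Type v} [Group G] [TopologicalSpace G] [Field Ω] [MulSemiringAction G Ω] (hG : GA G Ω)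

include hG

theorem step {N : ℕ}
    (IH : ∀ M < N, ∀ (B : SubMulAction G Ω) [Fintype B], Fintype.card B = M → (0 : Ω) ∉ B →
      ∀ y : B → Ω, Ev G y → SyU.{u, v, w} G (fun n ζ H _ ι => tH n ζ ι (fun b : B => (b : Ω)) y))
    (A : SubMulAction G Ω) [Fintype A] (hA : Fintype.card A = N) (h0 : (0 : Ω) ∉ A) :
    ∀ (d : ℕ) (P : Polynomial Ω), P.natDegree = d → d < N → Fp G P → (∀ a : A, P.eval (a : Ω) ≠ 0) →
      SyU.{u, v, w} G (fun n ζ H _ ι => tH n ζ ι (fun a : A => (a : Ω)) (fun a : A => P.eval (a : Ω))) := by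
  have hEA : Ev G (fun a : A => (a : Ω)) := ev_val h0
  have hOA : OS G A := os_val hG A
  intro d
  induction d using Nat.strong_induction_on with
  | _ d ih =>
  intro P hPd hdN hP hne
  have hApos : 0 < Fintype.card A := by omega
  obtain ⟨a0⟩ : Nonempty A := Fintype.card_pos_iff.1 hApos
  have hP0 : P ≠ 0 := fun h => hne a0 (by rw [h, eval_zero])
  rcases Nat.eq_zero_or_pos d with hd | hd
  · -- constant polynomials
    obtain ⟨c, hcP⟩ : ∃ c, P = C c := ⟨_, eq_C_of_natDegree_eq_zero (hPd.trans hd)⟩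
    have hev : (fun a : A => P.eval (a : Ω)) = fun _ => c := by
      funext a
      rw [hcP, eval_C]
    have hcF : Fx G c := by
      refine ⟨?_, fun g => ?_⟩
      · have := hne a0
        rwa [hcP, eval_C] at this
      · have := hP.eval g (a0 : Ω)
        rw [hcP, eval_C, eval_C] at this
        exact this.symm
    rw [hev]
    exact SyU_congr (F' := fun n ζ H _ ι g h => km n ζ (∏ a : A, (a : Ω)) (ι g) * km n ζ c (ι h))
      (fun n ζ H _ _ ι hz hc hι => tH_const_right hG hz hOA hc hι hEA hcF) (SyU_one (Fx_prod hEA) hcF)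
  · have := hG.alg
    have hdeg : P.degree ≠ 0 := by
      intro h
      have h1 : P.natDegree = 0 := natDegree_eq_of_degree_eq_some h
      exact hd.ne' (hPd.symm.trans h1)
    obtain ⟨r, hr⟩ := IsAlgClosed.exists_root P hdeg
    -- reduction to a factor
    have red : ∀ Q P' : Polynomial Ω, P = Q * P' → Fp G Q → 0 < Q.natDegree →
        SyU.{u, v, w} G (fun n ζ H _ ι => tH n ζ ι (fun a : A => (a : Ω)) (fun a : A => Q.eval (a : Ω))) →
        SyU.{u, v, w} G (fun n ζ H _ ι => tH n ζ ι (fun a : A => (a : Ω)) (fun a : A => P.eval (a : Ω))) := by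
      intro Q P' hPQ hQ hQd hQS
      have hQ0 : Q ≠ 0 := fun h => hP0 (by rw [hPQ, h, zero_mul])
      have hP'0 : P' ≠ 0 := fun h => hP0 (by rw [hPQ, h, mul_zero])
      have hP' : Fp G P' := Fp.of_mul hPQ hP hQ hQ0
      have hQe : ∀ a : A, Q.eval (a : Ω) ≠ 0 := fun a h =>
        hne a (by rw [hPQ, eval_mul, h, zero_mul])
      have hP'e : ∀ a : A, P'.eval (a : Ω) ≠ 0 := fun a h =>
        hne a (by rw [hPQ, eval_mul, h, mul_zero])
      have hdd : d = Q.natDegree + P'.natDegree := by
        rw [← hPd, hPQ, natDegree_mul hQ0 hP'0]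
      have h1 := ih P'.natDegree (by omega) P' rfl (by omega) hP' hP'e
      have hev : (fun a : A => P.eval (a : Ω)) =
          fun a : A => Q.eval (a : Ω) * P'.eval (a : Ω) := by
        funext a
        rw [hPQ, eval_mul]
      rw [hev]
      exact SyU_congr (F' := fun n ζ H _ ι g h => tH n ζ ι (fun a : A => (a : Ω)) (fun a : A => Q.eval (a : Ω)) g h +
          tH n ζ ι (fun a : A => (a : Ω)) (fun a : A => P'.eval (a : Ω)) g h)
        (fun n ζ H _ _ ι hz hc hι => tH_mul_right hG hz hOA hc hι hEA (ev_eval hQ hQe) (ev_eval hP' hP'e))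
        (SyU_add hQS h1)
    by_cases hr0 : r = 0
    · have hX : (X : Polynomial Ω) ∣ P := by
        rw [X_dvd_iff, coeff_zero_eq_eval_zero]
        rw [hr0] at hr
        exact hr
      obtain ⟨P', hP'⟩ := hX
      refine red X P' hP' Fp_X (by rw [natDegree_X]; exact one_pos) ?_
      have hev : (fun a : A => (X : Polynomial Ω).eval (a : Ω)) = fun a : A => (a : Ω) := by
        funext a
        rw [eval_X]
      rw [hev]
      exact SyU_congr (F' := fun _ _ _ _ _ _ _ => 0)
        (fun n ζ H _ _ ι hz hc hι => tH_self hG hz hOA hc hι hEA) SyU_zero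
    · -- the orbit of `r`
      haveI hfin : Finite (orb G r) := (hG.orbit_finite r).to_subtype
      haveI : Fintype (orb G r) := Fintype.ofFinite _
      have hrB : r ∈ orb G r := MulAction.mem_orbit_self r
      have hroot : ∀ b : orb G r, P.eval (b : Ω) = 0 := by
        rintro ⟨_, g, rfl⟩
        change P.eval (g • r) = 0
        rw [hP.eval g r, hr.eq_zero, smul_zero]
      have h0B : (0 : Ω) ∉ orb G r := by
        rintro ⟨g, hg⟩
        have hg' : g • r = 0 := hg
        exact hr0 ((smul_eq_zero_iff_eq g).1 hg')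
      have hdvd : qB (orb G r) ∣ P := by
        refine Finset.prod_dvd_of_coprime ?_ ?_
        · intro b _ b' _ hbb'
          exact pairwise_coprime_X_sub_C Subtype.val_injective hbb'
        · intro b _
          exact dvd_iff_isRoot.2 (hroot b)
      obtain ⟨P', hP'⟩ := hdvd
      have hcard : 0 < Fintype.card (orb G r) := Fintype.card_pos_iff.2 ⟨⟨r, hrB⟩⟩
      have hcardd : Fintype.card (orb G r) ≤ d := by
        rw [← qB_deg, ← hPd]
        exact natDegree_le_of_dvd ⟨P', hP'⟩ hP0
      refine red (qB (orb G r)) P' hP' (Fp_qB _) (by rw [qB_deg]; exact hcard) ?_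
      have hEB : Ev G (fun b : orb G r => (b : Ω)) := ev_val h0B
      have hOB : OS G (orb G r) := os_val hG _
      have hOAB : OS G (A × orb G r) := os_prod hG A (orb G r)
      have hne' : ∀ s : A × orb G r, (s.1 : Ω) ≠ (s.2 : Ω) := by
        intro s hs
        exact hne s.1 (by rw [hs]; exact hroot s.2)
      have hu : Ev G (fun s : A × orb G r => (s.1 : Ω)) := fun s => hEA s.1
      have hv : Ev G (fun s : A × orb G r => (s.2 : Ω)) := fun s => hEB s.2
      have huv : Ev G (fun s : A × orb G r => (s.1 : Ω) - (s.2 : Ω)) := fun s =>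
        ⟨sub_ne_zero.2 (hne' s), fun g => (smul_sub g (s.1 : Ω) (s.2 : Ω)).symm⟩
      have hev : (fun a : A => (qB (orb G r)).eval (a : Ω)) =
          nm (Prod.fst : A × orb G r → A) (fun s => (s.1 : Ω) - (s.2 : Ω)) := by
        funext a
        rw [nm_fst]
        unfold qB
        rw [eval_prod]
        exact Finset.prod_congr rfl fun b _ => by rw [eval_sub, eval_X, eval_C]
      rw [hev]
      refine SyU_congr (F' := fun n ζ H _ ι => tH n ζ ι (fun s : A × orb G r => (s.1 : Ω))
          (fun s => (s.1 : Ω) - (s.2 : Ω))) (fun n ζ H _ _ ι hz hc hι => Co_symm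
          (tH_proj_right hG hz hOAB hOA hc hι (π := (Prod.fst : A × orb G r → A)) (fun _ _ => rfl) hEA huv)) ?_
      refine SyU_congr (F' := fun n ζ H _ ι g h => tH n ζ ι (fun s : A × orb G r => (s.1 : Ω))
          (fun s => (s.2 : Ω)) g h + tH n ζ ι (fun s : A × orb G r => (s.2 : Ω))
          (fun s => (s.1 : Ω) - (s.2 : Ω)) g h) (fun n ζ H _ _ ι hz hc hι =>
          rt_add hG hz hOAB hc hι hu hv hne') (SyU_add ?_ ?_)
      · refine SyU_congr (F' := fun n ζ H _ ι => tH n ζ ι (fun a : A => (a : Ω))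
          (nm (Prod.fst : A × orb G r → A) (fun s => (s.2 : Ω)))) (fun n ζ H _ _ ι hz hc hι =>
          tH_proj_right hG hz hOAB hOA hc hι (π := (Prod.fst : A × orb G r → A)) (fun _ _ => rfl) hEA hv) ?_
        have hev2 : nm (Prod.fst : A × orb G r → A) (fun s => (s.2 : Ω)) =
            fun _ => ∏ b : orb G r, (b : Ω) := by
          funext a
          rw [nm_fst]
        rw [hev2]
        exact SyU_congr (F' := fun n ζ H _ ι g h => km n ζ (∏ a : A, (a : Ω)) (ι g) *
            km n ζ (∏ b : orb G r, (b : Ω)) (ι h))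
          (fun n ζ H _ _ ι hz hc hι => tH_const_right hG hz hOA hc hι hEA (Fx_prod hEB))
          (SyU_one (Fx_prod hEA) (Fx_prod hEB))
      · refine SyU_congr (F' := fun n ζ H _ ι => tH n ζ ι (fun b : orb G r => (b : Ω))
          (nm (Prod.snd : A × orb G r → orb G r) (fun s => (s.1 : Ω) - (s.2 : Ω)))) (fun n ζ H _ _ ι hz hc hι =>
          tH_proj_right hG hz hOAB hOB hc hι (π := (Prod.snd : A × orb G r → orb G r)) (fun _ _ => rfl) hEB huv) ?_
        refine IH (Fintype.card (orb G r)) (by omega) (orb G r) rfl h0B _ ?_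
        exact Ev.nm (fun _ _ => rfl) huv

theorem main : ∀ (N : ℕ) (A : SubMulAction G Ω) [Fintype A], Fintype.card A = N → (0 : Ω) ∉ A →
    ∀ y : A → Ω, Ev G y → SyU.{u, v, w} G (fun n ζ H _ ι => tH n ζ ι (fun a : A => (a : Ω)) y) := by
  intro N
  induction N using Nat.strong_induction_on with
  | _ N IH =>
  intro A _ hA h0 y hy
  classical
  rcases Nat.eq_zero_or_pos N with hN | hN
  · have hem : IsEmpty A := Fintype.card_eq_zero_iff.1 (hA.trans hN)
    refine SyU_congr (F' := fun _ _ _ _ _ _ _ => 0) (fun n ζ H _ _ ι hz hc hι => ?_) SyU_zero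
    have e : tH n ζ ι (fun a : A => (a : Ω)) y = fun _ _ => 0 := by
      funext g h
      unfold tH tS
      exact Fintype.sum_empty _
    rw [e]
    exact Co_refl _
  · obtain ⟨a0⟩ : Nonempty A := Fintype.card_pos_iff.1 (by omega)
    have hinj : Set.InjOn (fun a : A => (a : Ω)) (Finset.univ : Finset A) :=
      Subtype.val_injective.injOn
    set P : Polynomial Ω := Lagrange.interpolate Finset.univ (fun a : A => (a : Ω)) y with hPdef
    have hPe : ∀ a : A, P.eval (a : Ω) = y a := fun a =>
      Lagrange.eval_interpolate_at_node y hinj (Finset.mem_univ a)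
    have hPdeg : P.degree < ((Finset.univ : Finset A).card : ℕ) :=
      Lagrange.degree_interpolate_lt y hinj
    have hPF : Fp G P := by
      intro g
      refine Lagrange.eq_interpolate_of_eval_eq y hinj ?_ ?_
      · rw [degree_map]
        exact hPdeg
      · intro a _
        have h1 : (a : Ω) = MulSemiringAction.toRingHom G Ω g ((g⁻¹ • a : A) : Ω) := by
          change (a : Ω) = g • (g⁻¹ • (a : Ω))
          rw [smul_inv_smul]
        change (P.map (MulSemiringAction.toRingHom G Ω g)).eval (a : Ω) = y a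
        rw [h1, eval_map_apply, hPe]
        change g • y (g⁻¹ • a) = y a
        rw [← (hy (g⁻¹ • a)).2 g, smul_inv_smul]
    have hne : ∀ a : A, P.eval (a : Ω) ≠ 0 := fun a => by
      rw [hPe]
      exact (hy a).1
    have hP0 : P ≠ 0 := fun h => hne a0 (by rw [h, eval_zero])
    have hnd : P.natDegree < N := by
      rw [natDegree_lt_iff_degree_lt hP0]
      rw [Finset.card_univ, hA] at hPdeg
      exact hPdeg
    have h1 := step hG IH A hA h0 P.natDegree P rfl hnd hPF hne
    have hev : (fun a : A => P.eval (a : Ω)) = y := funext hPe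
    rw [hev] at h1
    exact h1

end top

end RTAux

section

variable {G : Type u} {Ω : Type v} {S : Type x} [Group G] [TopologicalSpace G]
  [Field Ω] [MulSemiringAction G Ω] [MulAction G S] [Fintype S]

/-- the statement for a finite stable subset of `Ω` not containing `0` -/
theorem rt_sub_u (hG : GA G Ω) (A : SubMulAction G Ω)
    [Fintype A] (h0 : (0 : Ω) ∉ A) (y : A → Ω) (hy : Ev G y) :
    SyU.{u, v, w} G (fun n ζ H _ ι => tH n ζ ι (fun a : A => (a : Ω)) y) := by
  exact RTAux.main.{u, v, w} hG _ A rfl h0 y hy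

theorem rosset_tate_u (hG : GA G Ω) (hS : OS G S) {x y : S → Ω} (hx : Ev G x) (hy : Ev G y) :
    SyU.{u, v, w} G (fun n ζ H _ ι => tH n ζ ι x y) := by
  classical
  let A : SubMulAction G Ω :=
    { carrier := Set.range x
      smul_mem' := by
        rintro g _ ⟨s, rfl⟩
        exact ⟨g • s, (hx s).2 g⟩ }
  have hfin : Finite A := (Set.finite_range x).to_subtype
  have : Fintype A := Fintype.ofFinite _
  have h0 : (0 : Ω) ∉ A := by
    rintro ⟨s, hs⟩
    exact (hx s).1 hs
  let π : S → A := fun s => ⟨x s, s, rfl⟩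
  have hπ : ∀ (g : G) s, π (g • s) = g • π s := fun g s => Subtype.ext ((hx s).2 g)
  refine SyU_congr (F' := fun n ζ H _ ι => tH n ζ ι (fun a : A => (a : Ω)) (nm π y))
    (fun n ζ H _ _ ι hz hc hι =>
      tH_proj_right hG hz hS (RTAux.os_val hG A) hc hι (π := π) hπ (RTAux.ev_val h0) hy) ?_
  exact rt_sub_u hG A h0 _ (Ev.nm hπ hy)

end

section

variable {G : Type u} {H : Type w} {Ω : Type v} {S : Type x} [Group G] [TopologicalSpace G] [Group H] [TopologicalSpace H]
  [Field Ω] [MulSemiringAction G Ω] [MulAction G S] [Fintype S] {n : ℕ} {ζ : Ω} {ι : H →* G}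

theorem rosset_tate (hG : GA G Ω) (hz : PZ n ζ) (hS : OS G S) (hc : Continuous ι) (hι : ∀ h : H, ι h • ζ = ζ)
    {x y : S → Ω} (hx : Ev G x) (hy : Ev G y) : Sy n ζ ι (tH n ζ ι x y) := by
  obtain ⟨m, a, b, ha, hb, h⟩ := rosset_tate_u.{u, v, w} hG hS hx hy
  exact ⟨m, a, b, ha, hb, h n ζ H ι hz hc hι⟩

end

end MSG
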