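import Pool.Agent.MSG.Uc

/-! # MSG / Uf: from a closed subgroup to an open one, chains of closed subgroups

PROOFS.
* `open_invariant`: a locally constant function `f` on `G × G` (`G` compact) is invariant under an open normal subgroup `W`: `f (g w) (h w') = f g h`: for every `(g, h)` there is an open normal `W` with `f` constant on
  `g W × h W` (`GA.pf` or `basis` and the normal core of a stabilizer), finitely many such sets cover `G × G`; intersect.
* `CuN_fin`: `Ξ : P → Ω` locally constant with `f / f' = dΞ` on `P`.  `Ξ` has finitely many values (`P` compact).  Choose an open normal `W` of `G` such that `f` and `f'` are invariant under `W`, `Ξ (g w) = Ξ g` for `g ∈ P`,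
  `w ∈ P ∩ W` (compactness of `P`), and `W` fixes the values of `Ξ`.  `U = P ⊔ W = P W` is an open subgroup.  Put `Ξ' (g w) = Ξ g` for `g ∈ P`, `w ∈ W` (well defined: `g w = g₁ w₁` gives `g⁻¹ g₁ = w w₁⁻¹ ∈ P ∩ W`), locally constant.  For `x = g w`, `y = h w'`:
  `x y = (g h) (h⁻¹ w h w')`, `f x y = f g h`, `x • Ξ' y = g • w • Ξ h = g • Ξ h`.
* `exists_le`: the sets `N k \ U` are closed, decreasing, with empty intersection in the compact group `G`.
-/

set_option autoImplicit false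
set_option linter.unusedVariables false

namespace MSG

universe u v w

open Pool.Agent.Helper14.Massey

variable {G : Type u} {Ω : Type v} [Group G] [TopologicalSpace G] [Field Ω] [MulSemiringAction G Ω]

/-- a locally constant function on a compact group is invariant under a member of a basis of open subgroups -/
theorem Uf_lc_inv {K : Type*} {X : Type*} [Group K] [TopologicalSpace K] [IsTopologicalGroup K] [CompactSpace K]
    {F : K → X} (hF : IsLocallyConstant F) {ι : Type*} (S : ι → Subgroup K) (hS : ∀ i, IsOpen (S i : Set K))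
    (hb : ∀ U : Set K, IsOpen U → (1 : K) ∈ U → ∃ i, (S i : Set K) ⊆ U) :
    ∃ i, ∀ k, ∀ w ∈ S i, F (k * w) = F k := by
  have h1 : ∀ k : K, ∃ i, ∀ w ∈ S i, F (k * w) = F k := by
    intro k
    have ho : IsOpen ((fun w : K => k * w) ⁻¹' (F ⁻¹' {F k})) := (hF.isOpen_fiber (F k)).preimage (continuous_const_mul k)
    obtain ⟨i, hi⟩ := hb _ ho (by simp)
    exact ⟨i, fun w hw => hi hw⟩
  choose i hi using h1
  obtain ⟨t, ht⟩ := isCompact_univ.elim_finite_subcover
    (fun k : K => (fun x : K => k⁻¹ * x) ⁻¹' (S (i k) : Set K))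
    (fun k => (hS (i k)).preimage (continuous_const_mul k⁻¹))
    (fun k _ => Set.mem_iUnion.mpr ⟨k, by simp [(S (i k)).one_mem]⟩)
  have ho : IsOpen (⋂ k ∈ t, (S (i k) : Set K)) := isOpen_biInter_finset fun k _ => hS (i k)
  obtain ⟨j, hj⟩ := hb _ ho (by simp)
  refine ⟨j, fun k w hw => ?_⟩
  obtain ⟨k₀, hk₀⟩ := Set.mem_iUnion.mp (ht (Set.mem_univ k))
  obtain ⟨hk₀t, hk⟩ := Set.mem_iUnion.mp hk₀
  have hk' : k₀⁻¹ * k ∈ S (i k₀) := hk
  have hw' : w ∈ S (i k₀) := by
    have := hj hw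
    rw [Set.mem_iInter₂] at this
    exact this k₀ hk₀t
  have e1 : F (k * w) = F k₀ := by
    have := hi k₀ (k₀⁻¹ * k * w) ((S (i k₀)).mul_mem hk' hw')
    rwa [show k₀ * (k₀⁻¹ * k * w) = k * w by group] at this
  have e2 : F k = F k₀ := by
    have := hi k₀ (k₀⁻¹ * k) hk'
    rwa [show k₀ * (k₀⁻¹ * k) = k by group] at this
  rw [e1, e2]

/-- the open normal subgroups form a basis at `1` -/
theorem Uf_exists_normal (hG : GA G Ω) {V : Set G} (hV : IsOpen V) (h1 : (1 : G) ∈ V) :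
    ∃ W : Subgroup G, W.Normal ∧ IsOpen (W : Set G) ∧ (W : Set G) ⊆ V := by
  have i1 := hG.top
  have i2 := hG.cpt
  obtain ⟨x, hx⟩ := hG.basis V hV h1
  have hop : IsOpen ((MulAction.stabilizer G x : Subgroup G) : Set G) := hG.stab x
  have hcl : IsClosed ((MulAction.stabilizer G x : Subgroup G) : Set G) := Subgroup.isClosed_of_isOpen _ hop
  have i3 : Finite (G ⧸ MulAction.stabilizer G x) := Subgroup.quotient_finite_of_isOpen _ hop
  have i4 : (MulAction.stabilizer G x).FiniteIndex := Subgroup.finiteIndex_of_finite_quotient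
  have i5 : (MulAction.stabilizer G x).normalCore.FiniteIndex := inferInstance
  refine ⟨(MulAction.stabilizer G x).normalCore, inferInstance, ?_, ?_⟩
  · exact Subgroup.isOpen_of_isClosed_of_finiteIndex _ (Subgroup.normalCore_isClosed _ hcl)
  · intro g hg
    exact hx g ((MulAction.stabilizer G x).normalCore_le hg)

theorem open_invariant (hG : GA G Ω) {X : Type w} {f : G → G → X} (hf : IsLocallyConstant (fun q : G × G => f q.1 q.2)) :
    ∃ W : Subgroup G, W.Normal ∧ IsOpen (W : Set G) ∧ ∀ g h, ∀ w ∈ W, ∀ w' ∈ W, f (g * w) (h * w') = f g h := by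
  have i1 := hG.top
  have i2 := hG.cpt
  obtain ⟨⟨W, hWn, hWo⟩, hW⟩ := Uf_lc_inv hf (ι := {W : Subgroup G // W.Normal ∧ IsOpen (W : Set G)})
    (fun W => W.1.prod W.1) (fun W => by
      rw [Subgroup.coe_prod]
      exact W.2.2.prod W.2.2) (by
      intro U hU h1
      obtain ⟨A, B, hA, hB, hA1, hB1, hAB⟩ := isOpen_prod_iff.mp hU 1 1 h1
      obtain ⟨W, hWn, hWo, hW⟩ := Uf_exists_normal hG (hA.inter hB) ⟨hA1, hB1⟩
      refine ⟨⟨W, hWn, hWo⟩, ?_⟩
      rintro ⟨a, b⟩ ⟨ha, hb⟩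
      exact hAB ⟨(hW ha).1, (hW hb).2⟩)
  refine ⟨W, hWn, hWo, fun g h w hw w' hw' => ?_⟩
  exact hW (g, h) (w, w') ⟨hw, hw'⟩

theorem CuN_fin (hG : GA G Ω) {f f' : G → G → Ω} (hf : IsLocallyConstant (fun q : G × G => f q.1 q.2))
    (hf' : IsLocallyConstant (fun q : G × G => f' q.1 q.2)) {P : Subgroup G} (hP : IsClosed (P : Set G))
    (h : CuN P f f') : ∃ U : Subgroup G, IsOpen (U : Set G) ∧ P ≤ U ∧ CuN U f f' := by
  have i1 := hG.top
  have i2 := hG.cpt
  have i3 : CompactSpace P := isCompact_iff_compactSpace.mp hP.isCompact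
  obtain ⟨Ξ, hne, hlc, hΞ⟩ := h
  obtain ⟨W1, -, hW1o, hW1⟩ := open_invariant hG hf
  obtain ⟨W2, -, hW2o, hW2⟩ := open_invariant hG hf'
  obtain ⟨⟨W3, hW3n, hW3o⟩, hW3⟩ := Uf_lc_inv hlc (ι := {W : Subgroup G // W.Normal ∧ IsOpen (W : Set G)})
    (fun W => W.1.subgroupOf P) (fun W => W.2.2.preimage continuous_subtype_val) (by
      intro U hU h1
      obtain ⟨V, hV, hVU⟩ := isOpen_induced_iff.mp hU
      have h1V : (1 : G) ∈ V := by
        have h : (1 : P) ∈ Subtype.val ⁻¹' V := by rw [hVU]; exact h1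
        exact h
      obtain ⟨W, hWn, hWo, hW⟩ := Uf_exists_normal hG hV h1V
      refine ⟨⟨W, hWn, hWo⟩, ?_⟩
      intro a ha
      rw [← hVU]
      exact hW ha)
  have hfin : (Set.range Ξ).Finite := hlc.range_finite
  have hVo : IsOpen (⋂ y ∈ Set.range Ξ, {g : G | g • y = y}) := hfin.isOpen_biInter fun y _ => hG.stab y
  obtain ⟨W, hWn, hWo, hW⟩ := Uf_exists_normal hG ((hW1o.inter hW2o).inter (hW3o.inter hVo))
    ⟨⟨W1.one_mem, W2.one_mem⟩, W3.one_mem, by simp⟩
  have hWf : ∀ w ∈ W, ∀ q : P, w • Ξ q = Ξ q := by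
    intro w hw q
    have h4 := (hW hw).2.2
    rw [Set.mem_iInter₂] at h4
    exact h4 (Ξ q) ⟨q, rfl⟩
  have hsup : ∀ x : (P ⊔ W : Subgroup G), ∃ p : P, ∃ w ∈ W, (p : G) * w = x := by
    intro x
    have hx := x.2
    rw [← SetLike.mem_coe, Subgroup.mul_normal P W] at hx
    obtain ⟨p, hp, w, hw, hpw⟩ := hx
    exact ⟨⟨p, hp⟩, w, hw, hpw⟩
  choose pp ww hww hpw using hsup
  have key : ∀ (x : (P ⊔ W : Subgroup G)) (p : P) (w : G), w ∈ W → (p : G) * w = x → Ξ (pp x) = Ξ p := by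
    intro x p w hw hx
    have e1 : (p : G)⁻¹ * pp x = w * (ww x)⁻¹ := by
      rw [← hpw x] at hx
      rw [inv_mul_eq_iff_eq_mul, ← mul_assoc, hx]
      group
    have hmem : p⁻¹ * pp x ∈ (W3.subgroupOf P) := by
      rw [Subgroup.mem_subgroupOf]
      have : ((p⁻¹ * pp x : P) : G) = w * (ww x)⁻¹ := by
        rw [← e1]; rfl
      rw [this]
      exact (hW (W.mul_mem hw (W.inv_mem (hww x)))).2.1
    have e2 := hW3 p (p⁻¹ * pp x) hmem
    rwa [show p * (p⁻¹ * pp x) = pp x by group] at e2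
  refine ⟨P ⊔ W, Subgroup.isOpen_mono le_sup_right hWo, le_sup_left, fun x => Ξ (pp x), fun x => hne _, ?_, ?_⟩
  · rw [IsLocallyConstant.iff_exists_open]
    intro x
    refine ⟨{x' | (x : G)⁻¹ * x' ∈ W}, ?_, ?_, ?_⟩
    · exact hWo.preimage ((continuous_const_mul (x : G)⁻¹).comp continuous_subtype_val)
    · simp [W.one_mem]
    · intro x' hx'
      refine key x' (pp x) (ww x * ((x : G)⁻¹ * x')) (W.mul_mem (hww x) hx') ?_
      rw [← mul_assoc, hpw x]
      group
  · intro x y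
    have e1 : f x y = f (pp x) (pp y) := by
      rw [← hpw x, ← hpw y]
      exact hW1 _ _ _ (hW (hww x)).1.1 _ (hW (hww y)).1.1
    have e2 : f' x y = f' (pp x) (pp y) := by
      rw [← hpw x, ← hpw y]
      exact hW2 _ _ _ (hW (hww x)).1.2 _ (hW (hww y)).1.2
    have e3 : Ξ (pp (x * y)) = Ξ (pp x * pp y) := by
      refine key (x * y) (pp x * pp y) ((pp y : G)⁻¹ * ww x * (pp y : G) * ww y) ?_ ?_
      · refine W.mul_mem ?_ (hww y)
        have := hWn.conj_mem (ww x) (hww x) (pp y : G)⁻¹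
        rwa [inv_inv] at this
      · rw [Subgroup.coe_mul, Subgroup.coe_mul, ← hpw x, ← hpw y]
        group
    have e4 : x • Ξ (pp y) = pp x • Ξ (pp y) := by
      change (x : G) • Ξ (pp y) = (pp x : G) • Ξ (pp y)
      rw [← hpw x, mul_smul, hWf _ (hww x)]
    have e5 := hΞ (pp x) (pp y)
    simp only at e5 ⊢
    rw [e1, e2, e3, e4, e5]

theorem exists_le (hG : GA G Ω) (N : ℕ → Subgroup G) (hN : ∀ k, IsClosed (N k : Set G)) (hanti : Antitone N)
    {U : Subgroup G} (hU : IsOpen (U : Set G)) (h : ∀ g, (∀ k, g ∈ N k) → g ∈ U) : ∃ k, N k ≤ U := by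
  have i2 := hG.cpt
  by_contra hcon
  push Not at hcon
  have hne : (⋂ k, ((N k : Set G) \ U)).Nonempty := by
    refine IsCompact.nonempty_iInter_of_sequence_nonempty_isCompact_isClosed _ ?_ ?_ ?_ ?_
    · intro k
      exact Set.sdiff_subset_sdiff_left (hanti (Nat.le_succ k))
    · intro k
      obtain ⟨x, hx, hxU⟩ := SetLike.not_le_iff_exists.mp (hcon k)
      exact ⟨x, hx, hxU⟩
    · exact ((hN 0).inter hU.isClosed_compl).isCompact
    · intro k
      exact (hN k).inter hU.isClosed_compl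
  obtain ⟨g, hg⟩ := hne
  rw [Set.mem_iInter] at hg
  exact (hg 0).2 (h g fun k => (hg k).1)

end MSG
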