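import Pool.Agent.MSG.Uc
import Pool.Agent.MSG.H0

/-! # MSG / Uq: the kernel of the restriction to a cyclic extension of any degree `q`, cocycles with values in `Ωˣ`: normalisation

`θ : G → ZMod q` is a continuous surjective homomorphism, `N` its kernel, `θ g₀ = 1`.  `cy θ g h` is the carry of `θ g + θ h`.

PROOF of `uq_norm`.  `f = dΞ₀` on `N`.  Extend `Ξ₀` to `G` by `1` outside `N` (locally constant: `N` is open and closed) and replace `f` by `f / dΞ₀`: now `f = 1` on `N × N`.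
The cocycle identity for `(g, 1, 1)` gives `f g 1 = g • f 1 1 = 1`, for `(1, 1, g)`: `f 1 g = f 1 1 = 1`.  Every `g` is `g₀ ^ k * m`, `k = (θ g).val`, `m ∈ N`.  Put `Ξ (g₀ ^ k m) = f (g₀ ^ k) m`
(`0 ≤ k < q`; locally constant; `Ξ = 1` on `N` and at the `g₀ ^ k`, `k < q`) and multiply `f` by `dΞ`: now `f (g₀ ^ k) m = 1`
(`f (g₀ ^ k) m * (Ξ (g₀ ^ k) * g₀ ^ k • Ξ m / Ξ (g₀ ^ k m))`), still `f = 1` on `N × N`, and the identity for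
`(g₀ ^ k, m', m)` gives `f (g₀ ^ k m') m = 1`.  So `f' g m = 1` for all `g ∈ G`, `m ∈ N`.
-/

set_option autoImplicit false
set_option linter.unusedVariables false

namespace MSG

universe u v w

open Pool.Agent.Helper14.Massey

variable {G : Type u} {Ω : Type v} [Group G] [TopologicalSpace G] [Field Ω] [MulSemiringAction G Ω]

/-- the carry of the addition in `ZMod q` -/
def cy {q : ℕ} (θ : G → ZMod q) (g h : G) : ℕ := if q ≤ (θ g).val + (θ h).val then 1 else 0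

omit [MulSemiringAction G Ω] [Group G] [Field Ω] in
private theorem lc_ext42 {X : Type*} {N : Set G} (hN : IsOpen N) (hN' : IsClosed N) (Ξ₀ : N → X) (c : X)
    (h : IsLocallyConstant Ξ₀) (Ξ : G → X) (h1 : ∀ g (hg : g ∈ N), Ξ g = Ξ₀ ⟨g, hg⟩)
    (h2 : ∀ g, g ∉ N → Ξ g = c) : IsLocallyConstant Ξ := by
  rw [IsLocallyConstant.iff_exists_open]
  intro x
  by_cases hx : x ∈ N
  · obtain ⟨U, hU, hxU, hUc⟩ := (IsLocallyConstant.iff_exists_open Ξ₀).1 h ⟨x, hx⟩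
    obtain ⟨V, hV, rfl⟩ := isOpen_induced_iff.1 hU
    refine ⟨V ∩ N, hV.inter hN, ⟨hxU, hx⟩, ?_⟩
    rintro y ⟨hyV, hyN⟩
    rw [h1 y hyN, h1 x hx]
    exact hUc ⟨y, hyN⟩ hyV
  · refine ⟨Nᶜ, hN'.isOpen_compl, hx, fun y hy => ?_⟩
    rw [h2 y hy, h2 x hx]

theorem uq_norm (hG : GA G Ω) {q : ℕ} [NeZero q] {θ : G → ZMod q} (hθ : Continuous θ)
    (hadd : ∀ g h, θ (g * h) = θ g + θ h) {g₀ : G} (hg₀ : θ g₀ = 1) {N : Subgroup G} (hN : ∀ g, g ∈ N ↔ θ g = 0)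
    {f : G → G → Ω} (hf : Zu G f) (h : CuN N f (fun _ _ => 1)) :
    ∃ f' : G → G → Ω, Zu G f' ∧ Cu f f' ∧ ∀ g, ∀ m ∈ N, f' g m = 1 := by
  classical
  have htop := hG.top
  have hNo : IsOpen (N : Set G) := by
    have h1 : (N : Set G) = θ ⁻¹' {0} := by
      ext g
      exact hN g
    rw [h1]
    exact (isOpen_discrete _).preimage hθ
  have hNc : IsClosed (N : Set G) := Subgroup.isClosed_of_isOpen N hNo
  obtain ⟨Ξ₀, hΞ₀n, hΞ₀l, hΞ₀⟩ := h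
  obtain ⟨Ξ₁, hΞ₁a, hΞ₁b⟩ : ∃ Ξ₁ : G → Ω, (∀ g (hg : g ∈ N), Ξ₁ g = (Ξ₀ ⟨g, hg⟩)⁻¹) ∧
      ∀ g, g ∉ N → Ξ₁ g = 1 :=
    ⟨fun g => if hg : g ∈ N then (Ξ₀ ⟨g, hg⟩)⁻¹ else 1, fun g hg => dif_pos hg, fun g hg => dif_neg hg⟩
  have hΞ₁n : ∀ g, Ξ₁ g ≠ 0 := by
    intro g
    by_cases hg : g ∈ N
    · rw [hΞ₁a g hg]
      exact inv_ne_zero (hΞ₀n _)
    · rw [hΞ₁b g hg]
      exact one_ne_zero
  have hΞ₁l : IsLocallyConstant Ξ₁ :=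
    lc_ext42 (N := (N : Set G)) hNo hNc (fun g => (Ξ₀ g)⁻¹) 1 (hΞ₀l.comp (fun x => x⁻¹)) Ξ₁ hΞ₁a hΞ₁b
  obtain ⟨f₁, hf₁⟩ : ∃ f₁ : G → G → Ω, ∀ g h, f₁ g h = f g h * (Ξ₁ g * g • Ξ₁ h / Ξ₁ (g * h)) :=
    ⟨_, fun _ _ => rfl⟩
  have hc1 : Cu f₁ f := ⟨Ξ₁, hΞ₁n, hΞ₁l, hf₁⟩
  have hZ1 : Zu G f₁ := Zu_of_Cu hG hc1 hf
  have hone : ∀ m ∈ N, ∀ m' ∈ N, f₁ m m' = 1 := by
    intro m hm m' hm'
    have h1 := hΞ₀ ⟨m, hm⟩ ⟨m', hm'⟩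
    change f m m' = 1 * (Ξ₀ ⟨m, hm⟩ * m • Ξ₀ ⟨m', hm'⟩ / Ξ₀ ⟨m * m', N.mul_mem hm hm'⟩) at h1
    rw [hf₁, h1, hΞ₁a m hm, hΞ₁a m' hm', hΞ₁a _ (N.mul_mem hm hm'), smul_inv'']
    have e1 := hΞ₀n ⟨m, hm⟩
    have e2 : m • Ξ₀ ⟨m', hm'⟩ ≠ 0 := by
      rw [Ne, smul_eq_zero_iff_eq]
      exact hΞ₀n _
    have e3 := hΞ₀n ⟨m * m', N.mul_mem hm hm'⟩
    field_simp
  have hr1 : ∀ g, f₁ g 1 = 1 := by
    intro g
    have h1 := hZ1.co g 1 1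
    rw [mul_one, mul_one, hone 1 N.one_mem 1 N.one_mem, smul_one, one_mul] at h1
    have h2 := hZ1.ne g 1
    have h3 : f₁ g 1 * 1 = f₁ g 1 * f₁ g 1 := by rw [mul_one]; exact h1
    exact (mul_left_cancel₀ h2 h3).symm
  have hl1 : ∀ g, f₁ 1 g = 1 := by
    intro g
    have h1 := hZ1.co 1 1 g
    rw [one_smul, one_mul, mul_one, hone 1 N.one_mem 1 N.one_mem] at h1
    exact mul_left_cancel₀ (hZ1.ne 1 g) h1
  -- the powers of `g₀`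
  have hθ1 : θ 1 = 0 := (hN 1).1 N.one_mem
  have hθp : ∀ k : ℕ, θ (g₀ ^ k) = k := by
    intro k
    induction k with
    | zero => rw [pow_zero, hθ1, Nat.cast_zero]
    | succ k ih => rw [pow_succ, hadd, ih, hg₀, Nat.cast_succ]
  have hval : ∀ g, g₀ ^ (θ g).val * ((g₀ ^ (θ g).val)⁻¹ * g) = g := fun g => mul_inv_cancel_left _ _
  have hmem : ∀ g, (g₀ ^ (θ g).val)⁻¹ * g ∈ N := by
    intro g
    rw [hN]
    have h1 := hadd (g₀ ^ (θ g).val) ((g₀ ^ (θ g).val)⁻¹ * g)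
    rw [hval, hθp, ZMod.natCast_zmod_val] at h1
    exact left_eq_add.1 h1
  obtain ⟨Ξ₂, hΞ₂⟩ : ∃ Ξ₂ : G → Ω, ∀ g, Ξ₂ g = f₁ (g₀ ^ (θ g).val) ((g₀ ^ (θ g).val)⁻¹ * g) :=
    ⟨_, fun _ => rfl⟩
  have hΞ₂n : ∀ g, Ξ₂ g ≠ 0 := fun g => by rw [hΞ₂]; exact hZ1.ne _ _
  have hΞ₂l : IsLocallyConstant Ξ₂ := by
    have hc : Continuous fun g => g₀ ^ (θ g).val :=
      (continuous_of_discreteTopology (f := fun j : ZMod q => g₀ ^ j.val)).comp hθ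
    have h1 : Ξ₂ = (fun x : G × G => f₁ x.1 x.2) ∘
        fun g => (g₀ ^ (θ g).val, (g₀ ^ (θ g).val)⁻¹ * g) := by
      funext g
      exact hΞ₂ g
    rw [h1]
    exact hZ1.lc.comp_continuous (hc.prodMk (hc.inv.mul continuous_id))
  have hΞ₂N : ∀ m ∈ N, Ξ₂ m = 1 := by
    intro m hm
    rw [hΞ₂, (hN m).1 hm, ZMod.val_zero, pow_zero, inv_one, one_mul]
    exact hl1 m
  have hΞ₂k : ∀ k < q, ∀ m ∈ N, Ξ₂ (g₀ ^ k * m) = f₁ (g₀ ^ k) m := by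
    intro k hk m hm
    have h1 : θ (g₀ ^ k * m) = k := by
      rw [hadd, hθp, (hN m).1 hm, add_zero]
    rw [hΞ₂, h1, ZMod.val_natCast_of_lt hk, inv_mul_cancel_left]
  have hΞ₂p : ∀ k < q, Ξ₂ (g₀ ^ k) = 1 := by
    intro k hk
    have h1 := hΞ₂k k hk 1 N.one_mem
    rw [mul_one] at h1
    rw [h1]
    exact hr1 _
  obtain ⟨f₂, hf₂⟩ : ∃ f₂ : G → G → Ω, ∀ g h, f₂ g h = f₁ g h * (Ξ₂ g * g • Ξ₂ h / Ξ₂ (g * h)) :=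
    ⟨_, fun _ _ => rfl⟩
  have hc2 : Cu f₂ f₁ := ⟨Ξ₂, hΞ₂n, hΞ₂l, hf₂⟩
  have hZ2 : Zu G f₂ := Zu_of_Cu hG hc2 hZ1
  have hone2 : ∀ m ∈ N, ∀ m' ∈ N, f₂ m m' = 1 := by
    intro m hm m' hm'
    rw [hf₂, hone m hm m' hm', hΞ₂N m hm, hΞ₂N m' hm', hΞ₂N _ (N.mul_mem hm hm'), smul_one]
    norm_num
  have hk2 : ∀ k < q, ∀ m ∈ N, f₂ (g₀ ^ k) m = 1 := by
    intro k hk m hm
    rw [hf₂, hΞ₂p k hk, hΞ₂N m hm, hΞ₂k k hk m hm, smul_one, one_mul, mul_one_div]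
    exact div_self (hZ1.ne _ _)
  refine ⟨f₂, hZ2, Cu_symm (Cu_trans hc2 hc1), fun g m hm => ?_⟩
  have hlt : (θ g).val < q := ZMod.val_lt _
  have h1 := hZ2.co (g₀ ^ (θ g).val) ((g₀ ^ (θ g).val)⁻¹ * g) m
  rw [hval, hone2 _ (hmem g) m hm, smul_one, one_mul, hk2 _ hlt _ (N.mul_mem (hmem g) hm),
    hk2 _ hlt _ (hmem g), mul_one] at h1
  exact h1.symm

end MSG
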