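import Pool.Agent.MSG.Sub

/-! # MSG / Dsp: the pair attached to a field

PROOF.
* `exists_pair`: `Ω = AlgebraicClosure F` (or an algebraic closure containing `SeparableClosure F`), `E = perfectClosure F Ω` (the elements `x` with `x ^ (q ^ m) ∈ F`, `q` the exponential
  characteristic), a perfect field, so `Ω/E` is Galois and `GA Gal(Ω/E) Ω` (`GA.gal`).  Restriction to the separable closure `F_s` of `F` in `Ω` (`separableClosure F Ω`, isomorphic to `SeparableClosure F`; both are separable
  closures of `F`) is a homomorphism `Gal(Ω/E) → Gal(F_s/F)`: continuous; injective (`Ω/F_s` is purely inseparable); surjective (an automorphism of `F_s/F` extends to `Ω`, and every automorphism of `Ω/F` fixes the purely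
  inseparable `E`).  Compact to Hausdorff: a homeomorphism.  So `Gal(SeparableClosure F/F)` is isomorphic, as a topological group, to `Gal(Ω/E)`.
-/

set_option autoImplicit false
set_option linter.unusedVariables false

namespace MSG

universe u

open Pool.Agent.Helper14.Massey


theorem exists_pair (F : Type u) [Field F] {p : ℕ} (hp : p.Prime) (hp2 : p ≠ 2) (hζ : ∃ ζ : F, IsPrimitiveRoot ζ p) :
    ∃ (G Ω : Type u) (_ : Group G) (_ : TopologicalSpace G) (_ : Field Ω) (_ : MulSemiringAction G Ω) (ζ : Ω)
      (e : G ≃* Gal(SeparableClosure F/F)), GA G Ω ∧ PZ p ζ ∧ (∀ g : G, g • ζ = ζ) ∧ Continuous e ∧ Continuous e.symm := by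
  obtain ⟨ζ, hζ⟩ := hζ
  have hgal : IsGalois (perfectClosure F (AlgebraicClosure F)) (AlgebraicClosure F) := IsGalois.mk
  have hGA := GA.gal (perfectClosure F (AlgebraicClosure F)) (AlgebraicClosure F)
  -- the restriction
  obtain ⟨r, hr⟩ : ∃ r : Gal(AlgebraicClosure F/perfectClosure F (AlgebraicClosure F)) →*
      Gal(SeparableClosure F/F), ∀ σ (x : SeparableClosure F),
        algebraMap (SeparableClosure F) (AlgebraicClosure F) (r σ x) =
          σ (algebraMap (SeparableClosure F) (AlgebraicClosure F) x) :=
    ⟨(AlgEquiv.restrictNormalHom (F := F) (K₁ := AlgebraicClosure F) (SeparableClosure F)).comp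
      (AlgEquiv.restrictScalarsHom F), fun σ x => AlgEquiv.restrictNormal_commutes _ _ _⟩
  have hinj : Function.Injective r := by
    intro σ τ hστ
    have h1 : ((σ : AlgebraicClosure F ≃+* AlgebraicClosure F) : AlgebraicClosure F →+* AlgebraicClosure F) =
        ((τ : AlgebraicClosure F ≃+* AlgebraicClosure F) : AlgebraicClosure F →+* AlgebraicClosure F) := by
      apply IsPurelyInseparable.injective_comp_algebraMap (SeparableClosure F) (AlgebraicClosure F)
        (AlgebraicClosure F)
      ext x
      change σ (algebraMap (SeparableClosure F) (AlgebraicClosure F) x) =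
        τ (algebraMap (SeparableClosure F) (AlgebraicClosure F) x)
      rw [← hr, ← hr, hστ]
    ext x
    exact DFunLike.congr_fun h1 x
  have hsurj : Function.Surjective r := by
    intro τ
    obtain ⟨σ0, hσ0⟩ : ∃ σ0 : Gal(AlgebraicClosure F/F), ∀ x : SeparableClosure F,
        σ0 (algebraMap (SeparableClosure F) (AlgebraicClosure F) x) =
          algebraMap (SeparableClosure F) (AlgebraicClosure F) (τ x) :=
      ⟨τ.liftNormal (AlgebraicClosure F), fun x => τ.liftNormal_commutes (AlgebraicClosure F) x⟩
    have h1 : ∀ x : perfectClosure F (AlgebraicClosure F),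
        σ0 (algebraMap (perfectClosure F (AlgebraicClosure F)) (AlgebraicClosure F) x) =
          algebraMap (perfectClosure F (AlgebraicClosure F)) (AlgebraicClosure F) x := by
      have h2 : (σ0 : AlgebraicClosure F →ₐ[F] AlgebraicClosure F).comp
          (IsScalarTower.toAlgHom F (perfectClosure F (AlgebraicClosure F)) (AlgebraicClosure F)) =
          IsScalarTower.toAlgHom F (perfectClosure F (AlgebraicClosure F)) (AlgebraicClosure F) :=
        Subsingleton.elim _ _
      intro x
      exact DFunLike.congr_fun h2 x
    refine ⟨AlgEquiv.ofRingEquiv (f := (σ0 : AlgebraicClosure F ≃+* AlgebraicClosure F)) h1, ?_⟩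
    refine AlgEquiv.ext fun x => ?_
    apply (algebraMap (SeparableClosure F) (AlgebraicClosure F)).injective
    rw [hr]
    exact hσ0 x
  have hcont : Continuous r := by
    have := hGA.top
    apply continuous_of_continuousAt_one r
    unfold ContinuousAt
    rw [map_one]
    intro N hN
    rw [krullTopology_mem_nhds_one_iff] at hN
    obtain ⟨K, hK, hKN⟩ := hN
    rw [Filter.mem_map]
    let b := Module.finBasis F K
    have hopen : IsOpen (⋂ i, {σ : Gal(AlgebraicClosure F/perfectClosure F (AlgebraicClosure F)) |
        σ • (algebraMap (SeparableClosure F) (AlgebraicClosure F) (b i : SeparableClosure F)) =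
          algebraMap (SeparableClosure F) (AlgebraicClosure F) (b i : SeparableClosure F)}) :=
      isOpen_iInter_of_finite fun i => hGA.stab _
    refine Filter.mem_of_superset (hopen.mem_nhds (Set.mem_iInter.2 fun i => one_smul _ _)) ?_
    intro σ hσ
    apply hKN
    rw [Set.mem_iInter] at hσ
    rw [SetLike.mem_coe, IntermediateField.mem_fixingSubgroup_iff]
    intro y hy
    have h1 : ((r σ : SeparableClosure F →ₐ[F] SeparableClosure F).comp K.val).toLinearMap =
        K.val.toLinearMap := by
      apply b.ext
      intro i
      have h2 := hσ i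
      apply (algebraMap (SeparableClosure F) (AlgebraicClosure F)).injective
      change algebraMap (SeparableClosure F) (AlgebraicClosure F) (r σ (b i : SeparableClosure F)) = _
      rw [hr]
      exact h2
    exact DFunLike.congr_fun h1 ⟨y, hy⟩
  refine ⟨Gal(AlgebraicClosure F/perfectClosure F (AlgebraicClosure F)), AlgebraicClosure F,
    inferInstance, inferInstance, inferInstance, inferInstance, algebraMap F (AlgebraicClosure F) ζ,
    MulEquiv.ofBijective r ⟨hinj, hsurj⟩, hGA,
    ⟨hp.odd_of_ne_two hp2, hp.one_lt, hζ.map_of_injective (algebraMap F (AlgebraicClosure F)).injective⟩,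
    fun g => ?_, hcont, ?_⟩
  · rw [AlgEquiv.smul_def,
      IsScalarTower.algebraMap_apply F (perfectClosure F (AlgebraicClosure F)) (AlgebraicClosure F)]
    exact g.commutes _
  · have := hGA.cpt
    exact (Continuous.homeoOfEquivCompactToT2
      (f := (MulEquiv.ofBijective r ⟨hinj, hsurj⟩).toEquiv) hcont).continuous_symm

end MSG
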