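import Pool.Agent.MSG.Km

/-! # MSG / Sya: calculus of the relations `Co` and `Sy`

PROOFS. `Co_*`: the witness is the constant `0`, `-χ`, `χ + χ'`, `k • χ`, `χ ∘ s`.  `Co_conj`: with the cocycle `f` take
`χ g = f c (c⁻¹ g c) - f g c`; the identity is the combination of the cocycle identities for `(c, g', h')`, `(g, c, h')`,
`(g, h, c)`, `g' = c⁻¹ g c`, `h' = c⁻¹ h c` (`c g' = g c`, `c h' = h c`, `g' h' = (g h)'`).
`Co_Z2`: if `f'` is a cocycle and `Co f f'` with `f` arbitrary then `f` is a cocycle.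
`Sy_*`: `0`: `m = 0`; sums: `Fin.append`; `Sy_neg`: replace `a i` by `(a i)⁻¹` (`km_inv`; this needs that the image of `ι` fixes `ζ`);
`Sy_nsmul`: induction; `Sy_congr`: add the cochains `χ`; `Sy_one`: `m = 1`.  `Sy_Z2`: sums of products of homomorphisms are cocycles
(`km_hom`), continuous by `km_cont`; plus a coboundary.
`Sy_le`: if `f` is a sum of symbols with entries fixed by `G` on `H`, it is one with entries fixed by a subgroup through which `ι` factors:
used as: `ι = j ∘ ι'` with `j : G' →* G`, the action of `G'` on `Ω` being the restricted one.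
-/

set_option autoImplicit false
set_option linter.unusedVariables false

namespace MSG

universe u v w

open Pool.Agent.Helper14.Massey

section co

variable {H : Type u} [Group H] [TopologicalSpace H] {n : ℕ} {f f' f'' : H → H → ZMod n}

theorem Co_refl (f : H → H → ZMod n) : Co f f :=
  ⟨fun _ => 0, continuous_const, fun g h => by ring⟩

theorem Co_symm (h : Co f f') : Co f' f := by
  obtain ⟨χ, hχ, e⟩ := h
  exact ⟨fun g => -χ g, hχ.neg, fun g h => by rw [e]; ring⟩

theorem Co_trans (h : Co f f') (h' : Co f' f'') : Co f f'' := by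
  obtain ⟨χ, hχ, e⟩ := h
  obtain ⟨χ', hχ', e'⟩ := h'
  exact ⟨fun g => χ g + χ' g, hχ.add hχ', fun g h => by rw [e, e']; ring⟩

theorem Co_add {f₁ f₁' : H → H → ZMod n} (h : Co f f') (h' : Co f₁ f₁') :
    Co (fun x y => f x y + f₁ x y) (fun x y => f' x y + f₁' x y) := by
  obtain ⟨χ, hχ, e⟩ := h
  obtain ⟨χ', hχ', e'⟩ := h'
  exact ⟨fun g => χ g + χ' g, hχ.add hχ', fun g h => by simp only [e, e']; ring⟩

theorem Co_neg (h : Co f f') : Co (fun x y => - f x y) (fun x y => - f' x y) := by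
  obtain ⟨χ, hχ, e⟩ := h
  exact ⟨fun g => -χ g, hχ.neg, fun g h => by simp only [e]; ring⟩

theorem Co_mul (c : ZMod n) (h : Co f f') : Co (fun x y => c * f x y) (fun x y => c * f' x y) := by
  obtain ⟨χ, hχ, e⟩ := h
  exact ⟨fun g => c * χ g, continuous_const.mul hχ, fun g h => by simp only [e]; ring⟩

theorem Co_comp {H' : Type v} [Group H'] [TopologicalSpace H'] (s : H' →* H) (hs : Continuous s) (h : Co f f') :
    Co (fun x y => f (s x) (s y)) (fun x y => f' (s x) (s y)) := by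
  obtain ⟨χ, hχ, e⟩ := h
  exact ⟨fun g => χ (s g), hχ.comp hs, fun g h => by simp only [e, map_mul]⟩

theorem Co_conj [IsTopologicalGroup H] (hf : f ∈ Z2 n H) (c : H) :
    Co (fun x y => f (c⁻¹ * x * c) (c⁻¹ * y * c)) f := by
  obtain ⟨h1, h2⟩ := hf
  refine ⟨fun g => f c (c⁻¹ * g * c) - f g c, ?_, fun x y => ?_⟩
  · have c1 : Continuous fun g : H => f c (c⁻¹ * g * c) :=
      h1.comp (continuous_const.prodMk ((continuous_const.mul continuous_id).mul continuous_const))
    have c2 : Continuous fun g : H => f g c := h1.comp (continuous_id.prodMk continuous_const)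
    exact c1.sub c2
  · have e1 := h2 c (c⁻¹ * x * c) (c⁻¹ * y * c)
    have e2 := h2 x c (c⁻¹ * y * c)
    have e3 := h2 x y c
    have g1 : c * (c⁻¹ * x * c) = x * c := by group
    have g2 : c * (c⁻¹ * y * c) = y * c := by group
    have g3 : c⁻¹ * x * c * (c⁻¹ * y * c) = c⁻¹ * (x * y) * c := by group
    rw [g1, g3] at e1
    rw [g2] at e2
    linear_combination e1 - e2 + e3

theorem Co_Z2 [IsTopologicalGroup H] (h : Co f f') (hf : f' ∈ Z2 n H) : f ∈ Z2 n H := by
  obtain ⟨χ, hχ, e⟩ := h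
  obtain ⟨h1, h2⟩ := hf
  refine ⟨?_, fun σ τ υ => ?_⟩
  · have e1 : (fun x : H × H => f x.1 x.2) =
        fun x : H × H => f' x.1 x.2 + (χ x.1 + χ x.2 - χ (x.1 * x.2)) := by
      funext x
      exact e x.1 x.2
    rw [e1]
    exact h1.add (((hχ.comp continuous_fst).add (hχ.comp continuous_snd)).sub
      (hχ.comp (continuous_fst.mul continuous_snd)))
  · rw [e, e, e, e, mul_assoc]
    linear_combination h2 σ τ υ

end co

section sy

variable {G : Type u} {H : Type w} {Ω : Type v} [Group G] [TopologicalSpace G] [Group H] [TopologicalSpace H]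
  [Field Ω] [MulSemiringAction G Ω] {n : ℕ} {ζ : Ω} {ι : H →* G} {f f' : H → H → ZMod n}

theorem Sy_congr (h : Co f f') (hf : Sy n ζ ι f') : Sy n ζ ι f := by
  obtain ⟨m, a, b, ha, hb, hc⟩ := hf
  exact ⟨m, a, b, ha, hb, Co_trans h hc⟩

theorem Sy_zero : Sy n ζ ι (fun _ _ => 0) := by
  refine ⟨0, fun i => i.elim0, fun i => i.elim0, fun i => i.elim0, fun i => i.elim0, ?_⟩
  refine ⟨fun _ => 0, continuous_const, fun g h => ?_⟩
  simp

theorem Sy_add (hf : Sy n ζ ι f) (hf' : Sy n ζ ι f') : Sy n ζ ι (fun x y => f x y + f' x y) := by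
  obtain ⟨m, a, b, ha, hb, hc⟩ := hf
  obtain ⟨m', a', b', ha', hb', hc'⟩ := hf'
  refine ⟨m + m', Fin.append a a', Fin.append b b', ?_, ?_, ?_⟩
  · intro i
    refine Fin.addCases (fun j => ?_) (fun j => ?_) i
    · rw [Fin.append_left]
      exact ha j
    · rw [Fin.append_right]
      exact ha' j
  · intro i
    refine Fin.addCases (fun j => ?_) (fun j => ?_) i
    · rw [Fin.append_left]
      exact hb j
    · rw [Fin.append_right]
      exact hb' j
  · have h1 := Co_add hc hc'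
    have e : (fun g h : H => ∑ i : Fin (m + m'),
        km n ζ (Fin.append a a' i) (ι g) * km n ζ (Fin.append b b' i) (ι h)) =
        fun g h : H => (∑ i, km n ζ (a i) (ι g) * km n ζ (b i) (ι h)) +
          ∑ i, km n ζ (a' i) (ι g) * km n ζ (b' i) (ι h) := by
      funext g h
      rw [Fin.sum_univ_add]
      simp only [Fin.append_left, Fin.append_right]
    rw [e]
    exact h1

theorem Sy_sum {κ : Type*} (s : Finset κ) (F : κ → H → H → ZMod n) (hF : ∀ i ∈ s, Sy n ζ ι (F i)) :
    Sy n ζ ι (fun x y => ∑ i ∈ s, F i x y) := by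
  classical
  induction s using Finset.induction_on with
  | empty => simpa using (Sy_zero : Sy n ζ ι (fun _ _ => 0))
  | insert i s hi ih =>
    have h1 := Sy_add (hF i (Finset.mem_insert_self i s))
      (ih fun j hj => hF j (Finset.mem_insert_of_mem hj))
    have e : (fun x y : H => ∑ j ∈ insert i s, F j x y) =
        fun x y : H => F i x y + ∑ j ∈ s, F j x y := by
      funext x y
      rw [Finset.sum_insert hi]
    rw [e]
    exact h1

theorem Sy_neg (hG : GA G Ω) (hz : PZ n ζ) (hι : ∀ h : H, ι h • ζ = ζ) (hf : Sy n ζ ι f) :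
    Sy n ζ ι (fun x y => - f x y) := by
  haveI := hG.alg
  obtain ⟨m, a, b, ha, hb, hc⟩ := hf
  refine ⟨m, fun i => (a i)⁻¹, b, fun i => ⟨inv_ne_zero (ha i).1, fun g => ?_⟩, hb, ?_⟩
  · rw [smul_inv'', (ha i).2]
  · have e : (fun g h : H => ∑ i, km n ζ (a i)⁻¹ (ι g) * km n ζ (b i) (ι h)) =
        fun g h : H => -∑ i, km n ζ (a i) (ι g) * km n ζ (b i) (ι h) := by
      funext g h
      rw [← Finset.sum_neg_distrib]
      refine Finset.sum_congr rfl fun i _ => ?_
      rw [km_inv hz (ha i).1 (hι g) ((ha i).2 _), neg_mul]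
    rw [e]
    exact Co_neg hc

theorem Sy_mul (hG : GA G Ω) (hz : PZ n ζ) (hι : ∀ h : H, ι h • ζ = ζ) (c : ZMod n) (hf : Sy n ζ ι f) :
    Sy n ζ ι (fun x y => c * f x y) := by
  haveI := hz.neZero
  have h1 : ∀ k : ℕ, Sy n ζ ι (fun x y => (k : ZMod n) * f x y) := by
    intro k
    induction k with
    | zero => simpa using (Sy_zero : Sy n ζ ι (fun _ _ => 0))
    | succ k ih =>
      have h2 := Sy_add ih hf
      have e : (fun x y : H => ((k + 1 : ℕ) : ZMod n) * f x y) =
          fun x y : H => (k : ZMod n) * f x y + f x y := by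
        funext x y
        push_cast
        ring
      rw [e]
      exact h2
  have h3 := h1 c.val
  rwa [ZMod.natCast_zmod_val] at h3

theorem Sy_one {a b : Ω} (ha : Fx G a) (hb : Fx G b) :
    Sy n ζ ι (fun x y => km n ζ a (ι x) * km n ζ b (ι y)) := by
  refine ⟨1, fun _ => a, fun _ => b, fun _ => ha, fun _ => hb, ?_⟩
  simpa using Co_refl (fun x y : H => km n ζ a (ι x) * km n ζ b (ι y))

theorem Sy_Z2 [IsTopologicalGroup H] (hG : GA G Ω) (hz : PZ n ζ) (hc : Continuous ι) (hι : ∀ h : H, ι h • ζ = ζ)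
    (hf : Sy n ζ ι f) : f ∈ Z2 n H := by
  haveI := hG.alg
  obtain ⟨m, a, b, ha, hb, hco⟩ := hf
  refine Co_Z2 hco ?_
  have hk : ∀ {x : Ω}, Fx G x → (fun g : H => km n ζ x (ι g)) ∈ H1 n H := by
    intro x hx
    refine ⟨(km_cont hG n ζ x).comp hc, fun σ τ => ?_⟩
    simp only [map_mul]
    exact km_hom hz hx.1 (hι σ) (hι τ) (hx.2 _) (hx.2 _)
  have e : (fun g h : H => ∑ i, km n ζ (a i) (ι g) * km n ζ (b i) (ι h)) =
      ∑ i, cup (fun g : H => km n ζ (a i) (ι g)) (fun g : H => km n ζ (b i) (ι g)) := by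
    funext g h
    rw [Finset.sum_apply, Finset.sum_apply]
    rfl
  rw [e]
  refine AddSubgroup.sum_mem _ fun i _ => ?_
  exact cup_mem_Z2 ⟨_, hk (ha i)⟩ ⟨_, hk (hb i)⟩

/-- symbols with entries fixed by the bigger group -/
theorem Sy_le {G' : Type u} [Group G'] [MulSemiringAction G' Ω] (j : G' →* G) (hj : ∀ (g : G') (x : Ω), g • x = j g • x)
    (ι' : H →* G') (hι' : ∀ h, ι h = j (ι' h)) (hf : Sy n ζ ι f) : Sy n ζ ι' f := by
  obtain ⟨m, a, b, ha, hb, hc⟩ := hf
  have hk : ∀ (x : Ω) (h : H), km n ζ x (ι' h) = km n ζ x (ι h) := by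
    intro x h
    unfold km
    rw [hj, hι']
  refine ⟨m, a, b, fun i => ⟨(ha i).1, fun g => by rw [hj, (ha i).2]⟩,
    fun i => ⟨(hb i).1, fun g => by rw [hj, (hb i).2]⟩, ?_⟩
  simp only [hk]
  exact hc

/-- restriction to `H'` -/
theorem Sy_comp {H' : Type*} [Group H'] [TopologicalSpace H'] (s : H' →* H) (hs : Continuous s) (hf : Sy n ζ ι f) :
    Sy n ζ (ι.comp s) (fun x y => f (s x) (s y)) := by
  obtain ⟨m, a, b, ha, hb, hc⟩ := hf
  exact ⟨m, a, b, ha, hb, Co_comp s hs hc⟩

end sy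

end MSG
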