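import Pool.Agent.MSG.Dsc
import Pool.Agent.MSG.Dsp
import Pool.Agent.MSG.Sya

/-! # MSG / Dsf: passage to the maximal pro-p quotient of the absolute Galois group (`dsc_main` in Dsc.lean, `exists_pair` in Dsp.lean)

PROOF.
* `dsc`: `α = cls f hf`.  Let `e : Gal(Ω/E) ≃ G = Gal(SeparableClosure F/F)`.  The cocycle `f (mk (e g)) (mk (e h))` on `Gal(Ω/E)` is `Sy` by `hMS`, i.e. `∑ km ∪ km + dχ`; transported to `G` by `e⁻¹` the Kummer characters are
  elements of `H1 p G` (`km_hom`, `km_cont`).  `dsc_main` and `isSumCup_cls_iff`.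
-/

set_option autoImplicit false
set_option linter.unusedVariables false

namespace MSG

universe u

open Pool.Agent.Helper14.Massey


theorem dsc {p : ℕ} (hp : p.Prime) (hp2 : p ≠ 2)
    (hMS : ∀ (G Ω : Type u) [Group G] [TopologicalSpace G] [Field Ω] [MulSemiringAction G Ω] (ζ : Ω), GA G Ω →
      PZ p ζ → (∀ g : G, g • ζ = ζ) → ∀ f ∈ Z2 p G, Sy p ζ (MonoidHom.id G) f)
    (F : Type u) [Field F] (hζ : ∃ ζ : F, IsPrimitiveRoot ζ p) (α : H2 p (GalP p F)) : ∃ m, IsSumCup m α := by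
  obtain ⟨f, hf, rfl⟩ := exists_cls α
  have hf' : (f : MaxProP p Gal(SeparableClosure F/F) → MaxProP p Gal(SeparableClosure F/F) →
    ZMod p) ∈ Z2 p (MaxProP p Gal(SeparableClosure F/F)) := hf
  obtain ⟨Γ, Ω, iG, iT, iF, iA, ζ, e, hG, hz, hζ', he, he'⟩ := exists_pair F hp hp2 hζ
  have := hG.alg
  let mk : Gal(SeparableClosure F/F) →* MaxProP p Gal(SeparableClosure F/F) := QuotientGroup.mk' _
  have hmk : Continuous mk := QuotientGroup.continuous_mk
  let s : Γ →* MaxProP p Gal(SeparableClosure F/F) := mk.comp e.toMonoidHom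
  have hs : Continuous s := hmk.comp he
  have hse : ∀ g, s (e.symm g) = mk g := fun g => by
    change mk (e (e.symm g)) = mk g
    rw [e.apply_symm_apply]
  have hF1 : (fun g h : Γ => f (s g) (s h)) ∈ Z2 p Γ := by
    refine ⟨hf'.1.comp ((hs.comp continuous_fst).prodMk (hs.comp continuous_snd)),
      fun σ τ υ => ?_⟩
    change f (s τ) (s υ) - f (s (σ * τ)) (s υ) + f (s σ) (s (τ * υ)) - f (s σ) (s τ) = 0
    rw [map_mul, map_mul]
    exact hf'.2 (s σ) (s τ) (s υ)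
  obtain ⟨m, a, b, ha, hb, χ, hχ, e1⟩ := hMS Γ Ω ζ hG hz hζ' _ hF1
  have hk : ∀ c : Ω, Fx Γ c → (fun g => km p ζ c (e.symm g)) ∈ H1 p Gal(SeparableClosure F/F) := by
    intro c hc
    refine ⟨(km_cont hG p ζ c).comp he', fun σ τ => ?_⟩
    change km p ζ c (e.symm (σ * τ)) = _
    rw [map_mul]
    exact km_hom hz hc.1 (hζ' _) (hζ' _) (hc.2 _) (hc.2 _)
  refine ⟨m, (isSumCup_cls_iff hf).2 ?_⟩
  refine dsc_main hp hf' (fun i => ⟨_, hk (a i) (ha i)⟩) (fun i => ⟨_, hk (b i) (hb i)⟩)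
    (χ := fun g => χ (e.symm g)) (hχ.comp he') fun g h => ?_
  have h1 : f (s (e.symm g)) (s (e.symm h)) =
      ∑ i, km p ζ (a i) (e.symm g) * km p ζ (b i) (e.symm h) +
        (χ (e.symm g) + χ (e.symm h) - χ (e.symm g * e.symm h)) := e1 (e.symm g) (e.symm h)
  rw [hse, hse, ← map_mul] at h1
  exact h1

end MSG
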