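import Pool.Agent.MSG.Uq

/-! # MSG / Uqb: the kernel of the restriction to a cyclic extension of any degree `q`, cocycles with values in `Ωˣ`

PROOF of `uq_core` (`f g m = 1` for all `g ∈ G`, `m ∈ N`; `N` is open and normal, `g₀ ^ q ∈ N`, every `g` is `g₀ ^ k * m`, `k = (θ g).val`, `m ∈ N`).
* The identity for `(g, h, m)` gives `f g (h m) = f g h`, so `f g h = ε_i g`, `i = θ h`, `ε_i g = f g (g₀ ^ i.val)`, `ε_0 = 1`.  The identity for `(g, h, g₀ ^ j)`, `i = θ h`: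
  `g • ε_j h * ε_(i+j) g = ε_j (g h) * ε_i g`.  For `h ∈ N`: `ε_j (g h) = ε_j g * g • ε_j h`.  So `ε_j` restricted to `N` is a locally constant cocycle of the group `N` and
  `h90cont` for the group `N` (`GA.sub`; open subgroups are closed) gives `τ_j ≠ 0` with `ε_j m = m • τ_j / τ_j` for `m ∈ N`; take `τ_0 = 1`.
* `c g h = (f g h)⁻¹ * (τ_k * g • τ_i / τ_(k+i))`, `k = θ g`, `i = θ h`: a cocycle (`Zu`; it is `f⁻¹ * dT`, `T g = τ_(θ g)`).  `c (g m) h = c g h` and `c g (h m) = c g h` for `m ∈ N`.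
  `c m h = 1` for `m ∈ N` (`(ε_i m)⁻¹ * (m • τ_i * τ_0 / τ_i)`) and `c g 1 = 1`.  The identity for `(m, h, l)`: `m • c h l = c (m h) l = c (h (h⁻¹ m h)) l = c h l`: the values of `c` are fixed by `N`.
* `Λ j = ∏_{i < j} c (g₀ ^ i) g₀` for `j : ℕ`, `b = Λ q`.  The identity for `(g₀ ^ k, g₀ ^ j, g₀)`: `g₀ ^ k • c (g₀ ^ j) g₀ * c (g₀ ^ k) (g₀ ^ (j+1)) = c (g₀ ^ (k+j)) g₀ * c (g₀ ^ k) (g₀ ^ j)`, so by
  induction on `j`: `c (g₀ ^ k) (g₀ ^ j) * Λ k * (g₀ ^ k • Λ j) = Λ (k + j)`.  `c (g₀ ^ (q + i)) g₀ = c (g₀ ^ i) g₀`, so `Λ (q + j) = b * Λ j`.  For `j = q`, `k = 1`: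
  `c g₀ (g₀ ^ q) = c g₀ 1 = 1`, so `g₀ • b = b`, and `b` is fixed by `N`: `Fx G b`.
* So `c g h = b ^ (cy θ g h) * (Λ_(θ g + θ h) / (Λ_(θ g) * g • Λ_(θ h)))` (indices: `val` of elements of `ZMod q`; `g • Λ_i = g₀ ^ k • Λ_i` because the values are fixed by `N`), i.e.
  `f⁻¹ * dT = b ^ cy * (dΛ)⁻¹`, `f = (b⁻¹) ^ cy * d(T Λ)`.  The constant is `b⁻¹`.
-/

set_option autoImplicit false
set_option linter.unusedVariables false

namespace MSG

universe u v w

open Pool.Agent.Helper14.Massey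

variable {G : Type u} {Ω : Type v} [Group G] [TopologicalSpace G] [Field Ω] [MulSemiringAction G Ω]

theorem uq_core (hG : GA G Ω) {q : ℕ} [NeZero q] {θ : G → ZMod q} (hθ : Continuous θ)
    (hadd : ∀ g h, θ (g * h) = θ g + θ h) {g₀ : G} (hg₀ : θ g₀ = 1) {N : Subgroup G} (hN : ∀ g, g ∈ N ↔ θ g = 0)
    {f : G → G → Ω} (hf : Zu G f) (h : ∀ g, ∀ m ∈ N, f g m = 1) :
    ∃ c : Ω, Fx G c ∧ Cu f (fun g h => c ^ cy θ g h) := by
  classical
  have θ1 : θ 1 = 0 := by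
    have h1 := hadd 1 1
    rw [mul_one] at h1
    exact left_eq_add.1 h1
  have θinv : ∀ g, θ g⁻¹ = - θ g := by
    intro g
    have h1 := hadd g⁻¹ g
    rw [inv_mul_cancel, θ1] at h1
    exact eq_neg_of_add_eq_zero_left h1.symm
  have θpow : ∀ k : ℕ, θ (g₀ ^ k) = k := by
    intro k
    induction k with
    | zero => rw [pow_zero, θ1, Nat.cast_zero]
    | succ k ih => rw [pow_succ, hadd, ih, hg₀, Nat.cast_succ]
  have θval : ∀ j : ZMod q, θ (g₀ ^ j.val) = j := fun j => by rw [θpow, ZMod.natCast_zmod_val]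
  have θm : ∀ m ∈ N, θ m = 0 := fun m hm => (hN m).1 hm
  have hNc : IsClosed (N : Set G) := by
    have h1 : (N : Set G) = θ ⁻¹' {0} := by
      ext g
      exact hN g
    rw [h1]
    exact (isClosed_discrete _).preimage hθ
  have hGN := hG.sub N hNc
  have hco := hf.co
  -- `f` is invariant under `N` on the right
  have f1 : ∀ g x m, m ∈ N → f g (x * m) = f g x := by
    intro g x m hm
    have h1 := hco g x m
    rw [h x m hm, h (g * x) m hm, smul_one, one_mul, one_mul] at h1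
    exact h1
  have f2 : ∀ g x y, θ x = θ y → f g x = f g y := by
    intro g x y hxy
    have hm : x⁻¹ * y ∈ N := by
      rw [hN, hadd, θinv, hxy, neg_add_cancel]
    have h1 := f1 g x _ hm
    rw [mul_inv_cancel_left] at h1
    exact h1.symm
  have f3 : ∀ g x m, m ∈ N → f (g * m) x = f g x * g • f m x := by
    intro g x m hm
    have h1 := hco g m x
    rw [h g m hm, mul_one, f2 g (m * x) x (by rw [hadd, θm m hm, zero_add])] at h1
    rw [← h1, mul_comm]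
  -- Hilbert 90 for `N`
  have hτ : ∀ j : ZMod q, ∃ t : Ω, t ≠ 0 ∧ (j = 0 → t = 1) ∧
      ∀ m ∈ N, f m (g₀ ^ j.val) = m • t / t := by
    intro j
    by_cases hj : j = 0
    · refine ⟨1, one_ne_zero, fun _ => rfl, fun m hm => ?_⟩
      subst hj
      rw [ZMod.val_zero, pow_zero, h m 1 N.one_mem, smul_one, div_one]
    · obtain ⟨t, ht, ht'⟩ := h90cont (G := N) hGN (fun m : N => f m (g₀ ^ j.val)) (fun m => hf.ne _ _)
        (hf.lc.comp_continuous (f := fun m : N => ((m : G), g₀ ^ j.val)) (by fun_prop))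
        (fun x y => f3 x _ y y.2)
      exact ⟨t, ht, fun h0 => absurd h0 hj, fun m hm => ht' ⟨m, hm⟩⟩
  choose τ τ0 τ1 τN using hτ
  obtain ⟨T, hT⟩ : ∃ T : G → Ω, ∀ x, T x = τ (θ x) := ⟨_, fun _ => rfl⟩
  have T0 : ∀ x, T x ≠ 0 := fun x => by rw [hT]; exact τ0 _
  have Tθ : ∀ x y, θ x = θ y → T x = T y := fun x y hxy => by rw [hT, hT, hxy]
  have T1 : T 1 = 1 := by rw [hT, θ1]; exact τ1 _ rfl
  have Tl : IsLocallyConstant T := by
    have h1 := ((IsLocallyConstant.iff_continuous θ).2 hθ).comp τ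
    have h2 : T = τ ∘ θ := funext hT
    rw [h2]
    exact h1
  have fN : ∀ m ∈ N, ∀ x, f m x = m • T x / T x := by
    intro m hm x
    rw [f2 m x (g₀ ^ (θ x).val) (by rw [θval]), τN _ m hm, hT]
  obtain ⟨c, hcdef⟩ : ∃ c : G → G → Ω, ∀ g x, c g x = (f g x)⁻¹ * (1 * (T g * g • T x / T (g * x))) :=
    ⟨_, fun _ _ => rfl⟩
  have hc : Zu G c := by
    have h1 := Zu_mul (Zu_inv hf) (Zu_of_Cu (f := fun g x => 1 * (T g * g • T x / T (g * x))) hG
      ⟨T, T0, Tl, fun g x => rfl⟩ (Zu_one (G := G) (Ω := Ω)))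
    have h2 : c = fun g x => (f g x)⁻¹ * (1 * (T g * g • T x / T (g * x))) := by
      funext g x
      exact hcdef g x
    rw [h2]
    exact h1
  have hs0 : ∀ (g : G) {x : Ω}, x ≠ 0 → g • x ≠ 0 := fun g x hx h0 => hx ((smul_eq_zero_iff_eq g).1 h0)
  have c1 : ∀ g x m, m ∈ N → c g (x * m) = c g x := by
    intro g x m hm
    rw [hcdef, hcdef, f1 g x m hm, Tθ (x * m) x (by rw [hadd, θm m hm, add_zero]),
      Tθ (g * (x * m)) (g * x) (by rw [hadd, hadd, hadd, θm m hm, add_zero])]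
  have c2 : ∀ g x m, m ∈ N → c (g * m) x = c g x := by
    intro g x m hm
    have e1 : T (g * m) = T g := Tθ _ _ (by rw [hadd, θm m hm, add_zero])
    have e2 : T (g * m * x) = T (g * x) := Tθ _ _ (by rw [hadd, hadd, hadd, θm m hm, add_zero])
    have e3 : f (g * m) x = f g x * ((g * m) • T x / g • T x) := by
      rw [f3 g x m hm, fN m hm x, div_eq_mul_inv, smul_mul', smul_inv'', smul_smul, div_eq_mul_inv]
    have n1 := hf.ne g x
    have n2 := hs0 g (T0 x)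
    have n3 := hs0 (g * m) (T0 x)
    have n4 := T0 (g * x)
    rw [hcdef, hcdef, e1, e2, e3]
    field_simp
  have c3 : ∀ m x, m ∈ N → c m x = 1 := by
    intro m x hm
    have h1 := c2 1 x m hm
    rw [one_mul] at h1
    have n1 := T0 x
    rw [h1, hcdef, fN 1 N.one_mem x, T1, one_smul, one_mul, one_mul, one_mul, div_self n1, inv_one,
      mul_one]
  have c4 : ∀ g m, m ∈ N → c g m = 1 := by
    intro g m hm
    have h1 := c1 g 1 m hm
    rw [one_mul] at h1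
    have n1 := T0 g
    rw [h1, hcdef, h g 1 N.one_mem, mul_one, T1, smul_one]
    field_simp
  have c5 : ∀ m x y, m ∈ N → m • c x y = c x y := by
    intro m x y hm
    have h1 := hc.co m x y
    rw [c3 m (x * y) hm, c3 m x hm, mul_one, mul_one] at h1
    have h2 : m * x = x * (x⁻¹ * m * x) := by group
    rw [h1, h2]
    refine c2 x y _ ?_
    rw [hN, hadd, hadd, θinv, θm m hm]
    ring
  have hq : g₀ ^ q ∈ N := by
    rw [hN, θpow]
    simp
  obtain ⟨Λ, hΛ⟩ : ∃ Λ : ℕ → Ω, ∀ j, Λ j = ∏ i ∈ Finset.range j, c (g₀ ^ i) g₀ := ⟨_, fun _ => rfl⟩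
  have Λ0 : Λ 0 = 1 := by rw [hΛ, Finset.prod_range_zero]
  have Λs : ∀ j, Λ (j + 1) = Λ j * c (g₀ ^ j) g₀ := by
    intro j
    rw [hΛ, hΛ, Finset.prod_range_succ]
  have Λne : ∀ j, Λ j ≠ 0 := by
    intro j
    rw [hΛ]
    exact Finset.prod_ne_zero_iff.2 fun i _ => hc.ne _ _
  have ΛN : ∀ m ∈ N, ∀ j, m • Λ j = Λ j := by
    intro m hm j
    rw [hΛ, Finset.smul_prod']
    exact Finset.prod_congr rfl fun i _ => c5 m _ _ hm
  have Λadd : ∀ k j, c (g₀ ^ k) (g₀ ^ j) * Λ k * (g₀ ^ k • Λ j) = Λ (k + j) := by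
    intro k j
    induction j with
    | zero => rw [pow_zero, c4 _ 1 N.one_mem, Λ0, smul_one, one_mul, mul_one, add_zero]
    | succ j ih =>
      have h1 := hc.co (g₀ ^ k) (g₀ ^ j) g₀
      rw [← pow_succ, ← pow_add] at h1
      rw [Λs j, smul_mul', ← add_assoc, Λs (k + j), ← ih]
      linear_combination (Λ k * g₀ ^ k • Λ j) * h1
  have Λq : ∀ j, Λ (q + j) = Λ q * Λ j := by
    intro j
    induction j with
    | zero => rw [Λ0, mul_one, add_zero]
    | succ j ih =>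
      rw [← add_assoc, Λs, ih, Λs, add_comm q j, pow_add, c2 _ _ _ hq, mul_assoc]
  have hb0 : g₀ • Λ q = Λ q := by
    have h1 := Λadd 1 q
    rw [pow_one, c4 _ _ hq, one_mul, add_comm 1 q, Λq 1, mul_comm (Λ q)] at h1
    exact mul_left_cancel₀ (Λne 1) h1
  have hbk : ∀ k : ℕ, g₀ ^ k • Λ q = Λ q := by
    intro k
    induction k with
    | zero => rw [pow_zero, one_smul]
    | succ k ih => rw [pow_succ, mul_smul, hb0, ih]
  -- decomposition
  have hdec : ∀ g, ∃ m ∈ N, g = g₀ ^ (θ g).val * m := by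
    intro g
    refine ⟨(g₀ ^ (θ g).val)⁻¹ * g, ?_, by rw [mul_inv_cancel_left]⟩
    rw [hN, hadd, θinv, θval, neg_add_cancel]
  have hbG : ∀ g : G, g • Λ q = Λ q := by
    intro g
    obtain ⟨m, hm, hg⟩ := hdec g
    rw [hg, mul_smul, ΛN m hm, hbk]
  have key : ∀ g x, Λ q ^ cy θ g x * Λ (θ (g * x)).val =
      c g x * Λ (θ g).val * g • Λ (θ x).val := by
    intro g x
    obtain ⟨m, hm, hg⟩ := hdec g
    obtain ⟨m', hm', hx⟩ := hdec x
    have e1 : c g x = c (g₀ ^ (θ g).val) (g₀ ^ (θ x).val) := by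
      conv_lhs => rw [hg, hx]
      rw [c2 _ _ m hm, c1 _ _ m' hm']
    have e2 : g • Λ (θ x).val = g₀ ^ (θ g).val • Λ (θ x).val := by
      conv_lhs => rw [hg]
      rw [mul_smul, ΛN m hm]
    rw [e1, e2, Λadd]
    unfold cy
    by_cases hle : q ≤ (θ g).val + (θ x).val
    · rw [if_pos hle, pow_one, ← Λq]
      congr 1
      rw [hadd, ZMod.val_add_of_le hle]
      omega
    · rw [if_neg hle, pow_zero, one_mul, hadd, ZMod.val_add_of_lt (not_le.1 hle)]
  refine ⟨(Λ q)⁻¹, ⟨inv_ne_zero (Λne q), fun g => by rw [smul_inv'', hbG]⟩, ?_⟩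
  refine ⟨fun g => T g * Λ (θ g).val, fun g => mul_ne_zero (T0 g) (Λne _), ?_, fun g x => ?_⟩
  · exact Tl.mul (((IsLocallyConstant.iff_continuous θ).2 hθ).comp fun j => Λ j.val)
  · have k1 := key g x
    rw [hcdef] at k1
    have n1 := hf.ne g x
    have n2 := T0 (g * x)
    have n3 := Λne (θ (g * x)).val
    have n4 := pow_ne_zero (cy θ g x) (Λne q)
    show f g x = (Λ q)⁻¹ ^ cy θ g x * (T g * Λ (θ g).val * g • (T x * Λ (θ x).val) /
      (T (g * x) * Λ (θ (g * x)).val))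
    rw [smul_mul', inv_pow]
    field_simp
    field_simp at k1
    linear_combination k1

theorem ker_cyc (hG : GA G Ω) {q : ℕ} [NeZero q] {θ : G → ZMod q} (hθ : Continuous θ)
    (hadd : ∀ g h, θ (g * h) = θ g + θ h) {g₀ : G} (hg₀ : θ g₀ = 1) {N : Subgroup G} (hN : ∀ g, g ∈ N ↔ θ g = 0)
    {f : G → G → Ω} (hf : Zu G f) (h : CuN N f (fun _ _ => 1)) :
    ∃ c : Ω, Fx G c ∧ Cu f (fun g h => c ^ cy θ g h) := by
  obtain ⟨f', hf', hff', h1⟩ := uq_norm hG hθ hadd hg₀ hN hf h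
  obtain ⟨c, hc, h2⟩ := uq_core hG hθ hadd hg₀ hN hf' h1
  exact ⟨c, hc, Cu_trans hff' h2⟩

end MSG
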