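import Pool.Agent.MSG.Mor

/-! # MSG / Rlt: cochains on open subgroups

Cochains are functions on `G`, considered on an open subgroup `M`.  `cj c f g h = f (c⁻¹ g c) (c⁻¹ h c)`.

PROOFS.
* `CoM_iff`: restriction; conversely extend `χ : M → ZMod n` by `0` (continuous because `M` is open and closed).  `SyM_iff`: the same, and
  `(g : M) • x = (g : G) • x`, so `km` of `M` is the restriction of `km` of `G`; entries fixed by `M` are the same.
* `CoM_top`, `SyM_top`: `M = ⊤`.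
* `CoM_mono`, `SyM_mono`: clear.  The algebraic rules: the witnesses `0`, `-χ`, `χ + χ'`, ... as in Sya; `SyM_neg`: `km_inv`.
* `CoM_mo`, `SyM_mo`: `χ ∘ m.r`, entries `m.ψ a` (`Mo.km`; the elements of `M` fix `ζ` and the entries).
* `CoM_cj`: `χ (c⁻¹ g c)`.  `SyM_cj`: entries `c • a`: `km (c • a) g = km a (c⁻¹ g c)` for `g ∈ M` (`c • rt a` is a root of `c • a`; `c • ζ = ζ`).
* `CoM_cj_self`: `c ∈ M`, `f` a cocycle on `M`: `χ g = f c (c⁻¹ g c) - f g c` as in `Co_conj` (use `CoM_iff` and `Co_conj` for the group `M`).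
* `SyM_Z2`: `Sy_Z2` for the group `M` (`GA.sub`, open subgroups are closed).
* `CoM_sub`, `SyM_sub`: for `M ≤ P` compare `G` and the group `P` (functions on `P` extend by `0`; `M.subgroupOf P`).
-/

set_option autoImplicit false
set_option linter.unusedVariables false

namespace MSG

universe u v w

open Pool.Agent.Helper14.Massey

section

variable {G : Type u} {Ω : Type v} [Group G] [TopologicalSpace G] [Field Ω] [MulSemiringAction G Ω] {n : ℕ} {ζ : Ω}

/-- two cochains agree on `M` up to a coboundary -/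
def CoM (M : Subgroup G) (f f' : G → G → ZMod n) : Prop :=
  ∃ χ : G → ZMod n, Continuous χ ∧ ∀ g ∈ M, ∀ h ∈ M, f g h = f' g h + (χ g + χ h - χ (g * h))

/-- `a` is nonzero and fixed by `M` -/
def FxM (M : Subgroup G) (a : Ω) : Prop := a ≠ 0 ∧ ∀ g ∈ M, g • a = a

/-- cup product of two Kummer characters -/
noncomputable def kk (n : ℕ) (ζ a b : Ω) (g h : G) : ZMod n := km n ζ a g * km n ζ b h

/-- on `M` the cochain `f` is a sum of symbols with entries fixed by `M`, up to a coboundary -/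
def SyM (n : ℕ) (ζ : Ω) (M : Subgroup G) (f : G → G → ZMod n) : Prop :=
  ∃ (m : ℕ) (a b : Fin m → Ω), (∀ i, FxM M (a i)) ∧ (∀ i, FxM M (b i)) ∧
    CoM M f (fun g h => ∑ i, kk n ζ (a i) (b i) g h)

/-- the conjugate cochain -/
def cj (c : G) (f : G → G → ZMod n) (g h : G) : ZMod n := f (c⁻¹ * g * c) (c⁻¹ * h * c)

variable {M N : Subgroup G} {f f' f'' f₁ f₁' : G → G → ZMod n}

open Classical in
theorem ext_cont (hG : GA G Ω) (hM : IsOpen (M : Set G)) (χ : M → ZMod n) (hχ : Continuous χ) :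
    ∃ χ' : G → ZMod n, Continuous χ' ∧ ∀ (g : G) (hg : g ∈ M), χ' g = χ ⟨g, hg⟩ := by
  have h0 := hG.top
  let χ' : G → ZMod n := fun g => if h : g ∈ M then χ ⟨g, h⟩ else 0
  have h1 : ∀ (g : G) (hg : g ∈ M), χ' g = χ ⟨g, hg⟩ := fun g hg => dif_pos hg
  refine ⟨χ', continuous_iff_continuousAt.2 fun g => ?_, h1⟩
  by_cases hg : g ∈ M
  · have e : χ' ∘ (Subtype.val : M → G) = χ := by
      funext x
      exact h1 x x.2
    have h2 : ContinuousAt (χ' ∘ (Subtype.val : M → G)) ⟨g, hg⟩ := by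
      rw [e]
      exact hχ.continuousAt
    exact hM.isOpenEmbedding_subtypeVal.continuousAt_iff.1 h2
  · have hc : IsClosed (M : Set G) := Subgroup.isClosed_of_isOpen M hM
    have h2 : χ' =ᶠ[nhds g] fun _ => 0 := by
      filter_upwards [hc.isOpen_compl.mem_nhds hg] with x hx
      exact dif_neg hx
    exact (continuousAt_const (y := (0 : ZMod n))).congr h2.symm

theorem CoM_iff (hG : GA G Ω) (hM : IsOpen (M : Set G)) :
    CoM M f f' ↔ Co (fun g h : M => f g h) (fun g h : M => f' g h) := by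
  constructor
  · rintro ⟨χ, hχ, h⟩
    exact ⟨fun g => χ g, hχ.comp continuous_subtype_val, fun g k => h g g.2 k k.2⟩
  · rintro ⟨χ, hχ, h⟩
    obtain ⟨χ', h1, h2⟩ := ext_cont hG hM χ hχ
    refine ⟨χ', h1, fun g hg k hk => ?_⟩
    rw [h2 g hg, h2 k hk, h2 (g * k) (M.mul_mem hg hk)]
    exact h ⟨g, hg⟩ ⟨k, hk⟩

theorem SyM_iff (hG : GA G Ω) (hM : IsOpen (M : Set G)) :
    SyM n ζ M f ↔ Sy n ζ (MonoidHom.id M) (fun g h : M => f g h) := by
  constructor
  · rintro ⟨m, a, b, ha, hb, h⟩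
    exact ⟨m, a, b, fun i => ⟨(ha i).1, fun g => (ha i).2 g g.2⟩,
      fun i => ⟨(hb i).1, fun g => (hb i).2 g g.2⟩, (CoM_iff hG hM).1 h⟩
  · rintro ⟨m, a, b, ha, hb, h⟩
    exact ⟨m, a, b, fun i => ⟨(ha i).1, fun g hg => (ha i).2 ⟨g, hg⟩⟩,
      fun i => ⟨(hb i).1, fun g hg => (hb i).2 ⟨g, hg⟩⟩, (CoM_iff hG hM).2 h⟩

theorem CoM_top : CoM ⊤ f f' ↔ Co f f' := by
  constructor
  · rintro ⟨χ, hχ, h⟩
    exact ⟨χ, hχ, fun g k => h g (Subgroup.mem_top g) k (Subgroup.mem_top k)⟩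
  · rintro ⟨χ, hχ, h⟩
    exact ⟨χ, hχ, fun g _ k _ => h g k⟩

theorem SyM_top : SyM n ζ (⊤ : Subgroup G) f ↔ Sy n ζ (MonoidHom.id G) f := by
  constructor
  · rintro ⟨m, a, b, ha, hb, h⟩
    exact ⟨m, a, b, fun i => ⟨(ha i).1, fun g => (ha i).2 g (Subgroup.mem_top g)⟩,
      fun i => ⟨(hb i).1, fun g => (hb i).2 g (Subgroup.mem_top g)⟩, CoM_top.1 h⟩
  · rintro ⟨m, a, b, ha, hb, h⟩
    exact ⟨m, a, b, fun i => ⟨(ha i).1, fun g _ => (ha i).2 g⟩,
      fun i => ⟨(hb i).1, fun g _ => (hb i).2 g⟩, CoM_top.2 h⟩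

theorem CoM_mono (h : N ≤ M) (hf : CoM M f f') : CoM N f f' := by
  obtain ⟨χ, hχ, h1⟩ := hf
  exact ⟨χ, hχ, fun g hg k hk => h1 g (h hg) k (h hk)⟩

theorem SyM_mono (h : N ≤ M) (hf : SyM n ζ M f) : SyM n ζ N f := by
  obtain ⟨m, a, b, ha, hb, h1⟩ := hf
  exact ⟨m, a, b, fun i => ⟨(ha i).1, fun g hg => (ha i).2 g (h hg)⟩,
    fun i => ⟨(hb i).1, fun g hg => (hb i).2 g (h hg)⟩, CoM_mono h h1⟩

theorem CoM_of_eq (h : ∀ x ∈ M, ∀ y ∈ M, f x y = f' x y) : CoM M f f' := by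
  refine ⟨fun _ => 0, continuous_const, fun g hg k hk => ?_⟩
  rw [h g hg k hk]
  ring

theorem CoM_symm (h : CoM M f f') : CoM M f' f := by
  obtain ⟨χ, hχ, h1⟩ := h
  refine ⟨fun g => - χ g, hχ.neg, fun g hg k hk => ?_⟩
  dsimp only
  rw [h1 g hg k hk]
  ring

theorem CoM_trans (h : CoM M f f') (h' : CoM M f' f'') : CoM M f f'' := by
  obtain ⟨χ, hχ, h1⟩ := h
  obtain ⟨χ', hχ', h1'⟩ := h'
  refine ⟨fun g => χ g + χ' g, hχ.add hχ', fun g hg k hk => ?_⟩
  dsimp only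
  rw [h1 g hg k hk, h1' g hg k hk]
  ring

theorem CoM_add (h : CoM M f f') (h' : CoM M f₁ f₁') :
    CoM M (fun x y => f x y + f₁ x y) (fun x y => f' x y + f₁' x y) := by
  obtain ⟨χ, hχ, h1⟩ := h
  obtain ⟨χ', hχ', h1'⟩ := h'
  refine ⟨fun g => χ g + χ' g, hχ.add hχ', fun g hg k hk => ?_⟩
  dsimp only
  rw [h1 g hg k hk, h1' g hg k hk]
  ring

theorem CoM_sub' (h : CoM M f f') (h' : CoM M f₁ f₁') :
    CoM M (fun x y => f x y - f₁ x y) (fun x y => f' x y - f₁' x y) := by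
  obtain ⟨χ, hχ, h1⟩ := h
  obtain ⟨χ', hχ', h1'⟩ := h'
  refine ⟨fun g => χ g - χ' g, hχ.sub hχ', fun g hg k hk => ?_⟩
  dsimp only
  rw [h1 g hg k hk, h1' g hg k hk]
  ring

theorem CoM_neg (h : CoM M f f') : CoM M (fun x y => - f x y) (fun x y => - f' x y) := by
  obtain ⟨χ, hχ, h1⟩ := h
  refine ⟨fun g => - χ g, hχ.neg, fun g hg k hk => ?_⟩
  dsimp only
  rw [h1 g hg k hk]
  ring

theorem CoM_sum {κ : Type*} (s : Finset κ) (F F' : κ → G → G → ZMod n) (h : ∀ i ∈ s, CoM M (F i) (F' i)) :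
    CoM M (fun x y => ∑ i ∈ s, F i x y) (fun x y => ∑ i ∈ s, F' i x y) := by
  classical
  induction s using Finset.induction_on with
  | empty => exact CoM_of_eq fun x _ y _ => rfl
  | insert i s hi ih =>
    have h1 := CoM_add (h i (Finset.mem_insert_self i s))
      (ih fun j hj => h j (Finset.mem_insert_of_mem hj))
    refine CoM_trans (CoM_of_eq fun x _ y _ => ?_) (CoM_trans h1 (CoM_of_eq fun x _ y _ => ?_))
    · rw [Finset.sum_insert hi]
    · rw [Finset.sum_insert hi]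

theorem SyM_congr (h : CoM M f f') (hf : SyM n ζ M f') : SyM n ζ M f := by
  obtain ⟨m, a, b, ha, hb, h1⟩ := hf
  exact ⟨m, a, b, ha, hb, CoM_trans h h1⟩

theorem SyM_zero : SyM n ζ M (fun _ _ => 0) := by
  refine ⟨0, fun i => i.elim0, fun i => i.elim0, fun i => i.elim0, fun i => i.elim0,
    CoM_of_eq fun x _ y _ => ?_⟩
  rw [Finset.univ_eq_empty, Finset.sum_empty]

theorem SyM_add (hf : SyM n ζ M f) (hf' : SyM n ζ M f') : SyM n ζ M (fun x y => f x y + f' x y) := by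
  obtain ⟨m, a, b, ha, hb, h1⟩ := hf
  obtain ⟨m', a', b', ha', hb', h1'⟩ := hf'
  have key : ∀ (u : Fin m → Ω) (u' : Fin m' → Ω), (∀ i, FxM M (u i)) → (∀ i, FxM M (u' i)) →
      ∀ i, FxM M (Fin.append u u' i) := by
    intro u u' hu hu' i
    refine Fin.addCases (fun j => ?_) (fun j => ?_) i
    · rw [Fin.append_left]
      exact hu j
    · rw [Fin.append_right]
      exact hu' j
  refine ⟨m + m', Fin.append a a', Fin.append b b', key a a' ha ha', key b b' hb hb',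
    CoM_trans (CoM_add h1 h1') (CoM_of_eq fun x _ y _ => ?_)⟩
  simp only [Fin.sum_univ_add, Fin.append_left, Fin.append_right]

theorem SyM_kk {a b : Ω} (ha : FxM M a) (hb : FxM M b) : SyM n ζ M (kk n ζ a b) := by
  refine ⟨1, fun _ => a, fun _ => b, fun _ => ha, fun _ => hb, CoM_of_eq fun x _ y _ => ?_⟩
  rw [Fin.sum_univ_one]

theorem SyM_sum {κ : Type*} (s : Finset κ) (F : κ → G → G → ZMod n) (h : ∀ i ∈ s, SyM n ζ M (F i)) :
    SyM n ζ M (fun x y => ∑ i ∈ s, F i x y) := by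
  classical
  induction s using Finset.induction_on with
  | empty => exact SyM_zero
  | insert i s hi ih =>
    have h1 := SyM_add (h i (Finset.mem_insert_self i s))
      (ih fun j hj => h j (Finset.mem_insert_of_mem hj))
    refine SyM_congr (CoM_of_eq fun x _ y _ => ?_) h1
    rw [Finset.sum_insert hi]

theorem SyM_neg (hG : GA G Ω) (hz : PZ n ζ) (hM : ∀ g ∈ M, g • ζ = ζ) (hf : SyM n ζ M f) :
    SyM n ζ M (fun x y => - f x y) := by
  obtain ⟨m, a, b, ha, hb, h1⟩ := hf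
  have h0 := hG.alg
  refine ⟨m, fun i => (a i)⁻¹, b, fun i => ⟨inv_ne_zero (ha i).1, fun g hg => ?_⟩, hb,
    CoM_trans (CoM_neg h1) (CoM_of_eq fun x hx y hy => ?_)⟩
  · rw [smul_inv'', (ha i).2 g hg]
  · rw [← Finset.sum_neg_distrib]
    refine Finset.sum_congr rfl fun i _ => ?_
    unfold kk
    rw [km_inv hz (ha i).1 (hM x hx) ((ha i).2 x hx)]
    ring

theorem SyM_Z2 (hG : GA G Ω) (hz : PZ n ζ) (hM' : IsOpen (M : Set G)) (hM : ∀ g ∈ M, g • ζ = ζ) (hf : SyM n ζ M f) :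
    (fun g h : M => f g h) ∈ Z2 n M := by
  have h0 := hG.top
  have hc : IsClosed (M : Set G) := Subgroup.isClosed_of_isOpen M hM'
  exact Sy_Z2 (G := M) (H := M) (ι := MonoidHom.id M) (GA.sub hG M hc) hz continuous_id
    (fun h => hM h h.2) ((SyM_iff hG hM').1 hf)

end

section mo

variable {G Ω G' Ω' : Type u} [Group G] [TopologicalSpace G] [Field Ω] [MulSemiringAction G Ω]
  [Group G'] [TopologicalSpace G'] [Field Ω'] [MulSemiringAction G' Ω'] {n : ℕ} {ζ : Ω} {M : Subgroup G}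
  {f f' : G → G → ZMod n}

end mo

end MSG
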