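import Pool.Agent.MSG.TS2

/-! # MSG / TS3: the Steinberg relation for families

PROOFS.
* `tH_steinberg`: let `T = {q : S × Ω // q.2 ^ n = x q.1}` with `g • (s, ρ) = (g • s, g • ρ)` and `π : T → S` the projection.  `T` is finite
  (`n > 0`), its stabilizers are open (`OS`, `hG.stab`).  The families `q ↦ q.2` and `q ↦ 1 - q.2` are equivariant and nonzero (`x s ≠ 0`,
  `x s ≠ 1` because `y s ≠ 0`).  `nm π (1 - ρ) s = ∏_{ρ ^ n = x s} (1 - ρ) = 1 - x s = y s`: `X ^ n - x s = ∏_{ρ ^ n = x s} (X - ρ)`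
  (`n` different roots, `n ≠ 0` in `Ω`), evaluated at `1`.  So by `tH_proj_right` and `x ∘ π = ρ ^ n`:
  `tH x y ~ tH_T (ρ ^ n, 1 - ρ) ~ 0` (`tH_pow_left`).
* `rt_add`: apply `tH_steinberg` to the families `(u - v) / u` and `v / u`; by bilinearity
  `0 ~ tH (u-v, v) - tH (u-v, u) - tH (u, v) + tH (u, u)`, `tH (u, u) ~ 0`, `tH (u-v, u) ~ - tH (u, u-v)`,
  `tH (u-v, v) ~ - tH (v, u-v)`.  So `tH (u, u-v) ~ tH (u, v) + tH (v, u-v)`.
-/

set_option autoImplicit false
set_option linter.unusedVariables false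

namespace MSG

universe u v w

open Pool.Agent.Helper14.Massey

/-- the roots of the values of a family -/
private def T13 {Ω : Type v} {S : Type w} [Field Ω] (n : ℕ) (x : S → Ω) : Type (max v w) :=
  {q : S × Ω // q.2 ^ n = x q.1}

@[instance_reducible]
private def act13 {G : Type u} {Ω : Type v} {S : Type w} [Group G] [Field Ω] [MulSemiringAction G Ω]
    [MulAction G S] (n : ℕ) (x : S → Ω) (hx : Ev G x) : MulAction G (T13 n x) where
  smul g q := ⟨(g • q.1.1, g • q.1.2), by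
    have h := q.2
    show (g • q.1.2) ^ n = x (g • q.1.1)
    rw [← smul_pow', h, (hx q.1.1).2]⟩
  one_smul q := Subtype.ext (Prod.ext (one_smul G q.1.1) (one_smul G q.1.2))
  mul_smul g h q := Subtype.ext (Prod.ext (mul_smul g h q.1.1) (mul_smul g h q.1.2))

private theorem finite13 {Ω : Type v} {S : Type w} [Field Ω] [Finite S] {n : ℕ} (hn : 0 < n) (x : S → Ω) :
    Finite (T13 n x) := by
  have hf : ∀ s : S, Finite {r : Ω // r ^ n = x s} := fun s => by
    have h : {r : Ω | r ^ n = x s} = (Polynomial.nthRootsFinset n (x s) : Set Ω) := by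
      ext r
      simp only [Set.mem_ofPred_eq, Finset.mem_coe]
      rw [Polynomial.mem_nthRootsFinset hn]
    have h2 : Set.Finite {r : Ω | r ^ n = x s} := by rw [h]; exact Finset.finite_toSet _
    exact h2.to_subtype
  let f : T13 n x → (Σ s : S, {r : Ω // r ^ n = x s}) := fun q => ⟨q.1.1, q.1.2, q.2⟩
  refine Finite.of_injective f ?_
  rintro ⟨⟨s, r⟩, h⟩ ⟨⟨s', r'⟩, h'⟩ e
  simp only [f, Sigma.mk.injEq] at e
  obtain ⟨e1, e2⟩ := e
  subst e1
  have e3 := eq_of_heq e2
  simp only [Subtype.mk.injEq] at e3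
  subst e3
  rfl

variable {G : Type u} {H : Type*} {Ω : Type v} {S : Type w} [Group G] [TopologicalSpace G] [Group H] [TopologicalSpace H]
  [Field Ω] [MulSemiringAction G Ω] [MulAction G S] [Fintype S] {n : ℕ} {ζ : Ω} {ι : H →* G}

theorem tH_steinberg (hG : GA G Ω) (hz : PZ n ζ) (hS : OS G S) (hc : Continuous ι) (hι : ∀ h : H, ι h • ζ = ζ)
    {x y : S → Ω} (hx : Ev G x) (hy : Ev G y) (h : ∀ s, x s + y s = 1) : Co (tH n ζ ι x y) (fun _ _ => 0) := by
  classical
  have hn : 0 < n := by have := hz.one_lt; omega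
  have halg : IsAlgClosed Ω := hG.alg
  letI : MulAction G (T13 n x) := act13 n x hx
  haveI : Finite (T13 n x) := finite13 hn x
  letI : Fintype (T13 n x) := Fintype.ofFinite _
  have hT : OS G (T13 n x) := by
    intro q
    have e : {g : G | g • q = q} = {g : G | g • q.1.1 = q.1.1} ∩ {g : G | g • q.1.2 = q.1.2} := by
      ext g
      constructor
      · intro hg
        have h1 : (g • q).1 = q.1 := congrArg Subtype.val hg
        exact ⟨congrArg Prod.fst h1, congrArg Prod.snd h1⟩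
      · rintro ⟨h1, h2⟩
        exact Subtype.ext (Prod.ext h1 h2)
    rw [e]
    exact (hS q.1.1).inter (hG.stab q.1.2)
  have hρ0 : ∀ q : T13 n x, q.1.2 ≠ 0 := by
    intro q h0
    have h1 := q.2
    rw [h0, zero_pow hn.ne'] at h1
    exact (hx q.1.1).1 h1.symm
  have hρ1 : ∀ q : T13 n x, 1 - q.1.2 ≠ 0 := by
    intro q h0
    have h1 := q.2
    have h2 : q.1.2 = 1 := (sub_eq_zero.mp h0).symm
    rw [h2, one_pow] at h1
    have h3 := h q.1.1
    rw [← h1] at h3
    exact (hy q.1.1).1 (by linear_combination h3)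
  have hE1 : Ev G (fun q : T13 n x => q.1.2) := fun q => ⟨hρ0 q, fun g => rfl⟩
  have hE2 : Ev G (fun q : T13 n x => 1 - q.1.2) := fun q => ⟨hρ1 q, fun g => by
    show 1 - g • q.1.2 = g • (1 - q.1.2)
    rw [smul_sub, smul_one]⟩
  have hπ : ∀ (g : G) (q : T13 n x), (fun q : T13 n x => q.1.1) (g • q) = g • (fun q : T13 n x => q.1.1) q :=
    fun g q => rfl
  have hnm : nm (fun q : T13 n x => q.1.1) (fun q : T13 n x => 1 - q.1.2) = y := by
    funext s
    have hr := rt_pow hz (x s)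
    have hr0 := rt_ne hz (hx s).1
    have h1 := hz.prim.pow_sub_pow_eq_prod_sub_mul (1 : Ω) (rt n (x s)) hn
    rw [one_pow, hr] at h1
    have h2 : y s = 1 - x s := by linear_combination h s
    rw [h2, h1]
    unfold nm
    refine Finset.prod_bij (fun q _ => q.1.2 / rt n (x s)) ?_ ?_ ?_ ?_
    · intro q hq
      have hq' : q.1.1 = s := (Finset.mem_filter.mp hq).2
      rw [Polynomial.mem_nthRootsFinset hn, div_pow, hr, q.2, hq', div_self (hx s).1]
    · intro q hq q' hq' e
      have e1 : q.1.1 = s := (Finset.mem_filter.mp hq).2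
      have e2 : q'.1.1 = s := (Finset.mem_filter.mp hq').2
      have e3 : q.1.2 = q'.1.2 := (div_left_inj' hr0).mp e
      exact Subtype.ext (Prod.ext (e1.trans e2.symm) e3)
    · intro μ hμ
      rw [Polynomial.mem_nthRootsFinset hn] at hμ
      refine ⟨⟨(s, μ * rt n (x s)), ?_⟩, ?_, ?_⟩
      · show (μ * rt n (x s)) ^ n = x s
        rw [mul_pow, hμ, hr, one_mul]
      · exact Finset.mem_filter.mpr ⟨Finset.mem_univ _, rfl⟩
      · show μ * rt n (x s) / rt n (x s) = μ
        rw [mul_div_assoc, div_self hr0, mul_one]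
    · intro q hq
      show 1 - q.1.2 = 1 - q.1.2 / rt n (x s) * rt n (x s)
      rw [div_mul_cancel₀ _ hr0]
  have h1 := tH_proj_right (π := fun q : T13 n x => q.1.1) hG hz hT hS hc hι hπ hx hE2
  rw [hnm] at h1
  have h2 := tH_pow_left hG hz hT hc hι hE1 hE2
  have h3 : (fun q : T13 n x => x ((fun q : T13 n x => q.1.1) q)) = (fun q : T13 n x => q.1.2 ^ n) := by
    funext q
    exact q.2.symm
  rw [h3] at h1
  exact Co_trans (Co_symm h1) h2

theorem rt_add (hG : GA G Ω) (hz : PZ n ζ) (hS : OS G S) (hc : Continuous ι) (hι : ∀ h : H, ι h • ζ = ζ)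
    {x y : S → Ω} (hx : Ev G x) (hy : Ev G y) (h : ∀ s, x s ≠ y s) :
    Co (tH n ζ ι x (fun s => x s - y s)) (fun a b => tH n ζ ι x y a b + tH n ζ ι y (fun s => x s - y s) a b) := by
  have halg : IsAlgClosed Ω := hG.alg
  have hd : Ev G (fun s => x s - y s) := fun s => ⟨sub_ne_zero.mpr (h s), fun g => by
    show x (g • s) - y (g • s) = g • (x s - y s)
    rw [smul_sub, (hx s).2, (hy s).2]⟩
  have hxi : Ev G (fun s => (x s)⁻¹) := Ev.inv (G := G) hx
  have hyx : Ev G (fun s => y s / x s) := by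
    have := Ev.mul (G := G) hy hxi
    simpa only [div_eq_mul_inv] using this
  have hdx : Ev G (fun s => (x s - y s) / x s) := by
    have := Ev.mul (G := G) hd hxi
    simpa only [div_eq_mul_inv] using this
  obtain ⟨χ0, c0, h0⟩ := tH_steinberg hG hz hS hc hι hdx hyx (fun s => by
    have := (hx s).1
    field_simp
    ring)
  obtain ⟨χ1, c1, h1⟩ := tH_div_left hG hz hS hc hι hd hx hyx
  obtain ⟨χ2, c2, h2⟩ := tH_div_right hG hz hS hc hι hd hy hx
  obtain ⟨χ3, c3, h3⟩ := tH_div_right hG hz hS hc hι hx hy hx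
  obtain ⟨χ4, c4, h4⟩ := tH_self hG hz hS hc hι hx
  obtain ⟨χ5, c5, h5⟩ := tH_self_anti hG hz hS hc hι hx hd
  obtain ⟨χ6, c6, h6⟩ := tH_self_anti hG hz hS hc hι hy hd
  refine ⟨fun g => χ0 g - χ6 g + χ5 g - χ4 g - χ1 g - χ2 g + χ3 g, ?_, fun a b => ?_⟩
  · exact (((((c0.sub c6).add c5).sub c4).sub c1).sub c2).add c3
  · have e0 := h0 a b
    have e1 := h1 a b
    have e2 := h2 a b
    have e3 := h3 a b
    have e4 := h4 a b
    have e5 := h5 a b
    have e6 := h6 a b
    linear_combination e0 - e1 - e2 + e3 - e4 + e5 - e6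

end MSG
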