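import Pool.Agent.MSG.Um
import Pool.Agent.MSG.Rlt
import Pool.Agent.MSG.TS3

/-! # MSG / Uh: symbols as cochains with values in `Ωˣ`, change of level and Galois action

`hs n ζ a b g h = zp ζ (km a g * km b h)` for `g, h` in a subgroup `N` fixing `ζ` (and `a, b` fixed by `N`).

PROOFS.
* `km_level`: `ρ = rt (n k) a`; `ρ ^ k` is an `n`-th root of `a` and `g • ρ ^ k = (zp ζ (km (n k) ζ a g)) ^ k * ρ ^ k`, `(zp ζ j) ^ k = zp (ζ ^ k) (cast j)` (`ζ ^ k` has order `n`); `km_eq` for `n`.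
* `hs_level`: `zp (ζ ^ k) (cast (i * j)) = (zp ζ (i * j)) ^ k`.
* `km_zeta`: `g • r = zp ζ (km ζ a g) * r = zp (ζ ^ u) j * r` for `u * j = km ζ a g`: so `u * km (ζ ^ u) a g = km ζ a g`.
* `hs_zeta`: `u * km (ζ ^ u) a g = km ζ a g`; `hs n (ζ ^ u) a b g h ^ u = ζ ^ (u * u * A * B)` for `A = km (ζ ^ u) a g`, ... `= ζ ^ ((u A) (u B)) = hs n ζ a b g h`.
* `hs_cju`: `(c⁻¹ g c) • r = zp ζ k * r` with `r = rt a`, `k = km ζ a (c⁻¹ g c)`; so `g • (c • r) = zp (c • ζ) k * (c • r)`, `(c • r) ^ n = c • a = a`: `km (c • ζ) a g = k` (`km_eq`; `g` fixes `c • ζ`).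
* `hs_mul_left` etc.: `km_mul` gives equalities of cochains on `N`.  `hs_anti`: `Ξ g = zp ζ (km a g * km b g)`.  `hs_steinberg`: `tH_steinberg` for the group `N` and a one point set (`Cu_of_Co`), `a + b = 1`.
* `hs_zu`: a cocycle on `N`: `km a`, `km b` are continuous homomorphisms on `N`; `Zu_zp`.
* `hs_torsion`: `hs ^ n = 1`.
-/

set_option autoImplicit false
set_option linter.unusedVariables false

namespace MSG

universe u v w

open Pool.Agent.Helper14.Massey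

/-- the symbol `(a, b)` of level `n` with values in `Ωˣ` -/
noncomputable def hs {G : Type u} {Ω : Type v} [Group G] [Field Ω] [MulSemiringAction G Ω] (n : ℕ) (ζ a b : Ω) (g h : G) : Ω :=
  zp ζ (km n ζ a g * km n ζ b h)

variable {G : Type u} {Ω : Type v} [Group G] [TopologicalSpace G] [Field Ω] [MulSemiringAction G Ω] {n : ℕ} {ζ : Ω}
  {N : Subgroup G}

private theorem uh_cast {k : ℕ} (hz : PZ (n * k) ζ) (hn : PZ n (ζ ^ k)) (j : ZMod (n * k)) :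
    zp (ζ ^ k) (ZMod.castHom (Dvd.intro k rfl) (ZMod n) j) = zp ζ j ^ k := by
  haveI := hz.neZero
  have h1 : ZMod.castHom (Dvd.intro k rfl) (ZMod n) j = ((j.val : ℕ) : ZMod n) := by
    rw [ZMod.castHom_apply, ZMod.natCast_val]
  rw [h1, zp_nat hn]
  unfold zp
  rw [← pow_mul, ← pow_mul, mul_comm]

private theorem uh_npow (hz : PZ n ζ) (u : ℕ) (j : ZMod n) : zp ζ j ^ u = zp ζ ((u : ZMod n) * j) := by
  haveI := hz.neZero
  have h1 : (u : ZMod n) * j = ((u * j.val : ℕ) : ZMod n) := by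
    rw [Nat.cast_mul, ZMod.natCast_zmod_val]
  rw [h1, zp_nat hz]
  unfold zp
  rw [← pow_mul, mul_comm]

private theorem uh_zu (hz : PZ n ζ) (u : ℕ) (j : ZMod n) : zp (ζ ^ u) j = zp ζ ((u : ZMod n) * j) := by
  rw [← uh_npow hz]
  unfold zp
  rw [← pow_mul, ← pow_mul, mul_comm]

private theorem uh_smul {G : Type u} [Group G] [MulSemiringAction G Ω] (c : G) (j : ZMod n) :
    c • zp ζ j = zp (c • ζ) j := by
  unfold zp
  rw [smul_pow']

private theorem uh_pz {G : Type u} [Group G] [MulSemiringAction G Ω] (hz : PZ n ζ) (c : G) : PZ n (c • ζ) := by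
  refine ⟨hz.odd, hz.one_lt, ?_⟩
  have h1 := hz.prim.map_of_injective (f := MulSemiringAction.toRingHom G Ω c) (MulAction.injective c)
  exact h1

theorem km_level (hG : GA G Ω) {k : ℕ} (hz : PZ (n * k) ζ) (hn : PZ n (ζ ^ k)) {a : Ω} (ha : a ≠ 0) {g : G}
    (hg : g • ζ = ζ) (hga : g • a = a) :
    km n (ζ ^ k) a g = ZMod.castHom (Dvd.intro k rfl) (ZMod n) (km (n * k) ζ a g) := by
  haveI := hG.alg
  have h1 : (rt (n * k) a ^ k) ^ n = a := by
    rw [← pow_mul, mul_comm k n]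
    exact rt_pow hz a
  refine km_eq hn ha h1 (by rw [smul_pow', hg]) hga ?_
  rw [smul_pow', km_root hz ha (rt_pow hz a) hg hga, mul_pow, uh_cast hz hn]

theorem hs_level (hG : GA G Ω) {k : ℕ} (hz : PZ (n * k) ζ) (hn : PZ n (ζ ^ k)) {a b : Ω} (ha : a ≠ 0) (hb : b ≠ 0) {g h : G}
    (hg : g • ζ = ζ) (hh : h • ζ = ζ) (hga : g • a = a) (hhb : h • b = b) :
    hs n (ζ ^ k) a b g h = hs (n * k) ζ a b g h ^ k := by
  unfold hs
  rw [km_level hG hz hn ha hg hga, km_level hG hz hn hb hh hhb, ← map_mul, uh_cast hz hn]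

private theorem uh_km_zeta (hG : GA G Ω) (hz : PZ n ζ) {u : ℕ} (hu : n.Coprime u) {a : Ω} (ha : a ≠ 0) {g : G}
    (hg : g • ζ = ζ) (hga : g • a = a) : km n ζ a g = (u : ZMod n) * km n (ζ ^ u) a g := by
  haveI := hG.alg
  have hz' : PZ n (ζ ^ u) := ⟨hz.odd, hz.one_lt, hz.prim.pow_of_coprime u hu.symm⟩
  refine km_eq hz ha (rt_pow hz a) hg hga ?_
  rw [← uh_zu hz]
  exact km_root hz' ha (rt_pow hz a) (by rw [smul_pow', hg]) hga

theorem hs_zeta (hG : GA G Ω) (hz : PZ n ζ) {u : ℕ} (hu : n.Coprime u) {a b : Ω} (ha : a ≠ 0) (hb : b ≠ 0) {g h : G}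
    (hg : g • ζ = ζ) (hh : h • ζ = ζ) (hga : g • a = a) (hhb : h • b = b) :
    hs n (ζ ^ u) a b g h ^ u = hs n ζ a b g h := by
  unfold hs
  rw [uh_zu hz, uh_npow hz, uh_km_zeta hG hz hu ha hg hga, uh_km_zeta hG hz hu hb hh hhb]
  congr 1
  ring

private theorem uh_km_conj (hG : GA G Ω) (hz : PZ n ζ) (c : G) {a : Ω} (ha : a ≠ 0) (hca : c • a = a)
    {g : G} (hgc : (c⁻¹ * g * c) • ζ = ζ) (hga : g • a = a) :
    km n (c • ζ) a g = km n ζ a (c⁻¹ * g * c) := by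
  haveI := hG.alg
  have hca' : c⁻¹ • a = a := by rw [inv_smul_eq_iff, hca]
  have h1 : (c • rt n a) ^ n = a := by rw [← smul_pow', rt_pow hz, hca]
  have h2 : g • c • ζ = c • ζ := by
    have h3 : c • (c⁻¹ * g * c) • ζ = c • ζ := by rw [hgc]
    rw [← mul_smul] at h3
    rw [← mul_smul]
    have e : c * (c⁻¹ * g * c) = g * c := by group
    rwa [e] at h3
  refine km_eq (uh_pz hz c) ha h1 h2 hga ?_
  have h4 := km_root hz ha (rt_pow hz a) hgc (by rw [mul_smul, mul_smul, hca, hga, hca'])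
  have h5 : c • (c⁻¹ * g * c) • rt n a = c • (zp ζ (km n ζ a (c⁻¹ * g * c)) * rt n a) := by rw [h4]
  rw [← mul_smul, smul_mul', uh_smul] at h5
  rw [← mul_smul]
  have e : c * (c⁻¹ * g * c) = g * c := by group
  rwa [e] at h5

theorem hs_cju (hG : GA G Ω) (hz : PZ n ζ) (c : G) {a b : Ω} (ha : a ≠ 0) (hb : b ≠ 0) (hca : c • a = a) (hcb : c • b = b)
    {g h : G} (hg : g • ζ = ζ) (hh : h • ζ = ζ) (hgc : (c⁻¹ * g * c) • ζ = ζ) (hhc : (c⁻¹ * h * c) • ζ = ζ)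
    (hga : g • a = a) (hhb : h • b = b) : cju c (hs n ζ a b) g h = hs n (c • ζ) a b g h := by
  unfold cju hs
  rw [uh_smul, uh_km_conj hG hz c ha hca hgc hga, uh_km_conj hG hz c hb hcb hhc hhb]

theorem hs_zu (hG : GA G Ω) (hN : IsClosed (N : Set G)) (hz : PZ n ζ) (hζ : ∀ g ∈ N, g • ζ = ζ) {a b : Ω} (ha : FxM N a) (hb : FxM N b) :
    Zu N (fun g h : N => hs n ζ a b (g : G) (h : G)) := by
  haveI := hG.alg
  have hGN := hG.sub N hN
  have hk : ∀ {x : Ω}, FxM N x → (fun g : N => km n ζ x g) ∈ H1 n N := by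
    intro x hx
    refine ⟨km_cont hGN n ζ x, fun σ τ => ?_⟩
    exact km_hom (G := N) hz hx.1 (hζ σ σ.2) (hζ τ τ.2) (hx.2 σ σ.2) (hx.2 τ τ.2)
  exact Zu_zp hGN hz (fun g => hζ g g.2) (cup_mem_Z2 ⟨_, hk ha⟩ ⟨_, hk hb⟩)

theorem hs_mul_left (hG : GA G Ω) (hz : PZ n ζ) (hζ : ∀ g ∈ N, g • ζ = ζ) {a a' b : Ω} (ha : FxM N a) (ha' : FxM N a')
    (hb : FxM N b) : CuN N (hs n ζ (a * a') b) (fun g h => hs n ζ a b g h * hs n ζ a' b g h) := by
  haveI := hG.alg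
  refine CuN_of_eq fun x hx y hy => ?_
  show zp ζ _ = zp ζ _ * zp ζ _
  rw [km_mul hz ha.1 ha'.1 (hζ x hx) (ha.2 x hx) (ha'.2 x hx), ← zp_add hz, add_mul]

theorem hs_mul_right (hG : GA G Ω) (hz : PZ n ζ) (hζ : ∀ g ∈ N, g • ζ = ζ) {a b b' : Ω} (ha : FxM N a) (hb : FxM N b)
    (hb' : FxM N b') : CuN N (hs n ζ a (b * b')) (fun g h => hs n ζ a b g h * hs n ζ a b' g h) := by
  haveI := hG.alg
  refine CuN_of_eq fun x hx y hy => ?_
  show zp ζ _ = zp ζ _ * zp ζ _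
  rw [km_mul hz hb.1 hb'.1 (hζ y hy) (hb.2 y hy) (hb'.2 y hy), ← zp_add hz, mul_add]

theorem hs_anti (hG : GA G Ω) (hN : IsClosed (N : Set G)) (hz : PZ n ζ) (hζ : ∀ g ∈ N, g • ζ = ζ) {a b : Ω} (ha : FxM N a) (hb : FxM N b) :
    CuN N (hs n ζ b a) (fun g h => (hs n ζ a b g h)⁻¹) := by
  haveI := hG.alg
  have hGN := hG.sub N hN
  have h1 : Co (fun g h : N => km n ζ b g * km n ζ a h) (fun g h : N => -(km n ζ a g * km n ζ b h)) := by
    refine ⟨fun g => -(km n ζ a g * km n ζ b g), ((km_cont hGN n ζ a).mul (km_cont hGN n ζ b)).neg, fun g h => ?_⟩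
    have e1 := km_hom (G := N) hz ha.1 (hζ g g.2) (hζ h h.2) (ha.2 g g.2) (ha.2 h h.2)
    have e2 := km_hom (G := N) hz hb.1 (hζ g g.2) (hζ h h.2) (hb.2 g g.2) (hb.2 h h.2)
    beta_reduce
    rw [e1, e2]
    ring
  have h2 := Cu_of_Co hz (fun g : N => hζ g g.2) h1
  have e3 : (fun g h : N => zp ζ (-(km n ζ a g * km n ζ b h))) = fun g h : N => (hs n ζ a b (g : G) (h : G))⁻¹ := by
    funext g h
    rw [zp_neg hz]
    rfl
  rw [e3] at h2
  exact h2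

theorem hs_steinberg (hG : GA G Ω) (hN : IsClosed (N : Set G)) (hz : PZ n ζ) (hζ : ∀ g ∈ N, g • ζ = ζ) {a b : Ω} (ha : FxM N a) (hb : FxM N b)
    (h : a + b = 1) : CuN N (hs n ζ a b) (fun _ _ => 1) := by
  haveI := hG.alg
  have hGN := hG.sub N hN
  have hx : Ev N (fun _ : PUnit.{1} => a) := fun _ => ⟨ha.1, fun g => (ha.2 g g.2).symm⟩
  have hy : Ev N (fun _ : PUnit.{1} => b) := fun _ => ⟨hb.1, fun g => (hb.2 g g.2).symm⟩
  have hS : OS N PUnit.{1} := fun s => by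
    have e : {g : N | g • s = s} = Set.univ := Set.eq_univ_of_forall fun g => Subsingleton.elim _ _
    rw [e]
    exact isOpen_univ
  have h1 := tH_steinberg hGN hz hS (ι := MonoidHom.id N) continuous_id (fun g => hζ g g.2) hx hy (fun _ => h)
  have e1 : tH n ζ (MonoidHom.id N) (fun _ : PUnit.{1} => a) (fun _ : PUnit.{1} => b) =
      fun g h : N => km n ζ a g * km n ζ b h := by
    funext g k
    show ∑ s : PUnit.{1}, _ = _
    rw [Fintype.sum_unique]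
    rfl
  rw [e1] at h1
  have h2 := Cu_of_Co hz (fun g : N => hζ g g.2) h1
  have e3 : (fun g h : N => zp ζ (0 : ZMod n)) = fun g h : N => (1 : Ω) := by
    funext g h
    exact zp_zero hz
  rw [e3] at h2
  exact h2

theorem hs_pow_left (hG : GA G Ω) (hz : PZ n ζ) (hζ : ∀ g ∈ N, g • ζ = ζ) {x b : Ω} (hx : FxM N x) (hb : FxM N b) :
    CuN N (hs n ζ (x ^ n) b) (fun _ _ => 1) := by
  haveI := hG.alg
  refine CuN_of_eq fun g hg k hk => ?_
  show zp ζ _ = 1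
  rw [km_pow hz hx.1 (hζ g hg) (hx.2 g hg), zero_mul, zp_zero hz]

end MSG
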