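import Pool.Agent.MSG.Sub

/-! # MSG / Art: Artin's lemma for the pair `(G, Ω)`

PROOFS.
* `GA.exists_smul`: for `x : Ω` the polynomial `∏_{y ∈ G x} (X - y)` (finite orbit) has coefficients fixed by `G`, hence by `σ`; so `σ x` is a
  root: `σ x ∈ G x`.  For `x₁, ..., x_k` choose (`basis`) an `x` with `stab x ⊆ ⋂ stab x_i` (if `g x = x` then `g x_i = x_i`).  Let
  `P_i` be the interpolation polynomial with `P_i (g x) = g x_i` (well defined), of degree `< #G x`; by uniqueness its
  coefficients are fixed by `G`, so by `σ`.  With `σ x = g x` we get `σ x_i = σ (P_i x) = P_i (g x) = g x_i`.  So the closed sets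
  `{g | g • x = σ x}` have the finite intersection property, and `G` is compact.
* `GA.algebraic`: every element of `Ω` is integral over the subfield of the fixed elements (the same polynomial).
-/

set_option autoImplicit false
set_option linter.unusedVariables false

namespace MSG

universe u v w

open Pool.Agent.Helper14.Massey

variable {G : Type u} {Ω : Type v} [Group G] [TopologicalSpace G] [Field Ω] [MulSemiringAction G Ω]

open Polynomial in
/-- every `x : Ω` is a root of a monic separable polynomial over the fixed field that splits -/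
theorem GA.exists_poly (hG : GA G Ω) (x : Ω) :
    ∃ q : Polynomial (FixedPoints.subfield G Ω), q.Monic ∧ q.Separable ∧ aeval x q = 0 := by
  classical
  have hfin := hG.orbit_finite x
  set s : Finset Ω := hfin.toFinset with hs
  set P : Polynomial Ω := ∏ y ∈ s, (X - C y) with hP
  have hPm : P.Monic := monic_prod_of_monic _ _ fun y _ => monic_X_sub_C y
  have hmem : ∀ y, y ∈ s ↔ y ∈ MulAction.orbit G x := fun y => hfin.mem_toFinset
  have hinv : ∀ g : G, P.map (MulSemiringAction.toRingHom G Ω g) = P := by
    intro g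
    rw [hP, Polynomial.map_prod]
    refine Finset.prod_bij (fun y _ => g • y) ?_ ?_ ?_ ?_
    · intro y hy
      rw [hmem] at hy ⊢
      exact MulAction.mem_orbit_of_mem_orbit g hy
    · intro y _ z _ h
      exact smul_left_cancel g h
    · intro y hy
      refine ⟨g⁻¹ • y, ?_, smul_inv_smul g y⟩
      rw [hmem] at hy ⊢
      exact MulAction.mem_orbit_of_mem_orbit g⁻¹ hy
    · intro y _
      rw [Polynomial.map_sub, map_X, map_C]
      rfl
  have hlift : P ∈ Polynomial.lifts (algebraMap (FixedPoints.subfield G Ω) Ω) := by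
    rw [lifts_iff_coeff_lifts]
    intro n
    refine ⟨⟨P.coeff n, fun g => ?_⟩, rfl⟩
    have h := congrArg (fun Q => coeff Q n) (hinv g)
    simpa [coeff_map] using h
  obtain ⟨q, hq, -, hqm⟩ := lifts_and_natDegree_eq_and_monic hlift hPm
  refine ⟨q, hqm, ?_, ?_⟩
  · rw [← separable_map (algebraMap (FixedPoints.subfield G Ω) Ω), hq, hP]
    exact separable_prod_X_sub_C_iff'.2 fun y _ z _ h => h
  · rw [aeval_def, ← eval_map, hq, hP, eval_prod]
    exact Finset.prod_eq_zero ((hmem x).2 (MulAction.mem_orbit_self x)) (by simp)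

/-- every element of `Ω` is algebraic over the fixed field -/
theorem GA.algebraic (hG : GA G Ω) : Algebra.IsAlgebraic (FixedPoints.subfield G Ω) Ω := by
  refine ⟨fun x => ?_⟩
  obtain ⟨q, hq, -, h⟩ := hG.exists_poly x
  exact ⟨q, hq.ne_zero, h⟩

theorem GA.isGalois (hG : GA G Ω) : IsGalois (FixedPoints.subfield G Ω) Ω := by
  have := hG.algebraic
  have := hG.alg
  have h1 : Algebra.IsSeparable (FixedPoints.subfield G Ω) Ω := by
    refine ⟨fun x => ?_⟩
    obtain ⟨q, hq, hs, h⟩ := hG.exists_poly x
    exact hs.of_dvd (minpoly.dvd _ x h)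
  have h2 : Normal (FixedPoints.subfield G Ω) Ω :=
    ⟨fun x => IsAlgClosed.splits _⟩
  exact ⟨⟩

theorem GA.continuous_toAlgAut (hG : GA G Ω) :
    Continuous (MulSemiringAction.toAlgAut G (FixedPoints.subfield G Ω) Ω) := by
  have := hG.top
  refine continuous_of_continuousAt_one _ ?_
  rw [ContinuousAt, map_one]
  intro s hs
  rw [krullTopology_mem_nhds_one_iff] at hs
  obtain ⟨E, hE, hEs⟩ := hs
  set b := Module.finBasis (FixedPoints.subfield G Ω) E with hb
  have hopen : IsOpen (⋂ i, {g : G | g • (b i : Ω) = b i}) :=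
    isOpen_iInter_of_finite fun i => hG.stab _
  have hmem : (1 : G) ∈ ⋂ i, {g : G | g • (b i : Ω) = b i} := by simp
  rw [Filter.mem_map]
  refine Filter.mem_of_superset (hopen.mem_nhds hmem) fun g hg => hEs ?_
  simp only [Set.mem_iInter, Set.mem_ofPred_eq] at hg
  rw [SetLike.mem_coe, IntermediateField.mem_fixingSubgroup_iff]
  intro x hx
  have h1 := b.sum_repr ⟨x, hx⟩
  have h2 := congrArg Subtype.val h1
  simp only at h2
  change g • x = x
  rw [← h2]
  push_cast
  rw [Finset.smul_sum]
  refine Finset.sum_congr rfl fun i _ => ?_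
  rw [smul_comm, hg i]

theorem GA.exists_smul (hG : GA G Ω) (σ : Ω →+* Ω) (hσ : ∀ x : Ω, (∀ g : G, g • x = x) → σ x = x) :
    ∃ g : G, ∀ x : Ω, σ x = g • x := by
  have h0 := hG.algebraic
  have h1 := hG.isGalois
  have := hG.cpt
  have h3 : T2Space Gal(Ω/(FixedPoints.subfield G Ω)) := krullTopology_t2
  set Φ := MulSemiringAction.toAlgAut G (FixedPoints.subfield G Ω) Ω with hΦ
  have hcl : IsClosed (Φ.range : Set Gal(Ω/(FixedPoints.subfield G Ω))) := by
    rw [MonoidHom.coe_range]
    exact (isCompact_range hG.continuous_toAlgAut).isClosed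
  have h4 := InfiniteGalois.fixingSubgroup_fixedField (k := FixedPoints.subfield G Ω) (K := Ω)
    ⟨Φ.range, hcl⟩
  set σ' : Ω →ₐ[FixedPoints.subfield G Ω] Ω :=
    { σ with commutes' := fun y => hσ y.1 y.2 } with hσ'
  have hbij := Algebra.IsAlgebraic.algHom_bijective σ'
  set τ : Gal(Ω/(FixedPoints.subfield G Ω)) := AlgEquiv.ofBijective σ' hbij with hτ
  have h5 : τ ∈ (IntermediateField.fixedField Φ.range).fixingSubgroup := by
    rw [IntermediateField.mem_fixingSubgroup_iff]
    intro y hy
    rw [IntermediateField.mem_fixedField_iff] at hy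
    exact hσ y fun g => hy (Φ g) ⟨g, rfl⟩
  have h6 : τ ∈ Φ.range := by
    have : (IntermediateField.fixedField Φ.range).fixingSubgroup = Φ.range := h4
    rwa [this] at h5
  obtain ⟨g, hg⟩ := h6
  exact ⟨g, fun x => (DFunLike.congr_fun hg x).symm⟩

end MSG
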