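import Pool.Agent.MSG.TS3
import Pool.Agent.MSG.Rlt

/-! # MSG / Nc: the norm criterion

`p` prime, `a, b ∈ Ω^G`, `M = kr p ζ a = {g | km a g = 0}` (open, normal), `km a g₀ = 1`, `nL p g₀ y = ∏_{i < p} g₀ ^ i • y`.

PROOFS.
* `kr_open`, `kr_normal`, `kr_pow` (`g₀ ^ p ∈ M`), `kr_dec` (every `g` is `g₀ ^ i * m`, `i = (km a g).val`, `m ∈ M`): `km_hom`, `km_cont`.
* `nL_fx`: if `y` is fixed by `M` then `nL y` is fixed by `G` (by `M`, `M` normal, and by `g₀`, `g₀ ^ p ∈ M`).  `nL_mul`, `nL_smul`: products.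
* `nc_of_norm`: `b = nL y`.  `S` = the set of the `p`-th roots of `a` in `Ω` (`SubMulAction`), `x α = α`; `y` defines an equivariant family on `S`:
  `S = {ζ ^ i α}`, `α = rt a`, a transitive `G`-set with stabilizer `M`; `Y (g α) = g • y`, `∏_S Y = nL y = b`.  `km a ∪ km b = tS_point`, and
  `km a ∪ km (∏ Y) ~ tH (const a, Y)` (`tH_const_left`) `= tH (α ^ p, Y) ~ 0` (`tH_pow_left`).
-/

set_option autoImplicit false
set_option linter.unusedVariables false

namespace MSG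

universe u v w

open Pool.Agent.Helper14.Massey

section

variable {G : Type u} {Ω : Type v} [Group G] [TopologicalSpace G] [Field Ω] [MulSemiringAction G Ω] {p : ℕ} {ζ : Ω}

/-- norm from the cyclic extension -/
def nL (p : ℕ) (g₀ : G) (y : Ω) : Ω := ∏ i ∈ Finset.range p, g₀ ^ i • y

/-- the subgroup `{g | km a g = 0}`, generated as the set of `g` fixing `rt p a` -/
noncomputable def kr (G : Type u) {Ω : Type v} [Group G] [Field Ω] [MulSemiringAction G Ω] (p : ℕ) (a : Ω) : Subgroup G :=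
  MulAction.stabilizer G (rt p a)

private theorem kmh (hG : GA G Ω) (hz : PZ p ζ) (hζ : ∀ g : G, g • ζ = ζ) {a : Ω} (ha : Fx G a)
    (g h : G) : km p ζ a (g * h) = km p ζ a g + km p ζ a h := by
  haveI := hG.alg
  exact km_hom hz ha.1 (hζ g) (hζ h) (ha.2 g) (ha.2 h)

private theorem kmone (hG : GA G Ω) (hz : PZ p ζ) (hζ : ∀ g : G, g • ζ = ζ) {a : Ω} (ha : Fx G a) :
    km p ζ a (1 : G) = 0 := by
  have h := kmh hG hz hζ ha (1 : G) 1
  rw [mul_one] at h
  simpa using h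

private theorem kminv (hG : GA G Ω) (hz : PZ p ζ) (hζ : ∀ g : G, g • ζ = ζ) {a : Ω} (ha : Fx G a)
    (g : G) : km p ζ a g⁻¹ = - km p ζ a g := by
  have h := kmh hG hz hζ ha g⁻¹ g
  rw [inv_mul_cancel, kmone hG hz hζ ha] at h
  exact eq_neg_of_add_eq_zero_left h.symm

private theorem kmpow (hG : GA G Ω) (hz : PZ p ζ) (hζ : ∀ g : G, g • ζ = ζ) {a : Ω} (ha : Fx G a)
    (g : G) (k : ℕ) : km p ζ a (g ^ k) = (k : ZMod p) * km p ζ a g := by
  induction k with
  | zero => rw [pow_zero, kmone hG hz hζ ha, Nat.cast_zero, zero_mul]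
  | succ k ih =>
    rw [pow_succ, kmh hG hz hζ ha, ih, Nat.cast_succ, add_mul, one_mul]

theorem mem_kr (hG : GA G Ω) (hz : PZ p ζ) (hζ : ∀ g : G, g • ζ = ζ) {a : Ω} (ha : Fx G a) {g : G} :
    g ∈ kr G p a ↔ km p ζ a g = 0 := by
  haveI := hG.alg
  have hr := rt_pow hz a
  have hroot := km_root hz ha.1 hr (hζ g) (ha.2 g)
  constructor
  · intro h
    have h1 : g • rt p a = rt p a := h
    refine km_eq hz ha.1 hr (hζ g) (ha.2 g) ?_
    rw [h1, zp_zero hz, one_mul]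
  · intro h
    rw [h, zp_zero hz, one_mul] at hroot
    exact hroot

theorem kr_open (hG : GA G Ω) (a : Ω) : IsOpen (kr G p a : Set G) := by
  exact hG.stab (rt p a)

theorem kr_conj (hG : GA G Ω) (hz : PZ p ζ) (hζ : ∀ g : G, g • ζ = ζ) {a : Ω} (ha : Fx G a) (c g : G) :
    g ∈ kr G p a ↔ c⁻¹ * g * c ∈ kr G p a := by
  rw [mem_kr hG hz hζ ha, mem_kr hG hz hζ ha, kmh hG hz hζ ha, kmh hG hz hζ ha,
    kminv hG hz hζ ha]
  have e : -km p ζ a c + km p ζ a g + km p ζ a c = km p ζ a g := by ring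
  rw [e]

theorem kr_pow (hG : GA G Ω) (hz : PZ p ζ) (hζ : ∀ g : G, g • ζ = ζ) {a : Ω} (ha : Fx G a) (g : G) :
    g ^ p ∈ kr G p a := by
  rw [mem_kr hG hz hζ ha, kmpow hG hz hζ ha, ZMod.natCast_self, zero_mul]

theorem kr_dec (hG : GA G Ω) (hz : PZ p ζ) (hζ : ∀ g : G, g • ζ = ζ) {a : Ω} (ha : Fx G a) {g₀ : G}
    (hg₀ : km p ζ a g₀ = 1) (g : G) : (g₀ ^ (km p ζ a g).val)⁻¹ * g ∈ kr G p a := by
  haveI := hz.neZero
  rw [mem_kr hG hz hζ ha, kmh hG hz hζ ha, kminv hG hz hζ ha, kmpow hG hz hζ ha, hg₀,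
    ZMod.natCast_zmod_val]
  ring

/-- the action on `ZMod p` by translations by the Kummer character -/
@[reducible] private noncomputable def kact (hG : GA G Ω) (hz : PZ p ζ) (hζ : ∀ g : G, g • ζ = ζ) {a : Ω} (ha : Fx G a) :
    MulAction G (ZMod p) where
  smul g i := km p ζ a g + i
  one_smul i := by
    change km p ζ a (1 : G) + i = i
    rw [kmone hG hz hζ ha, zero_add]
  mul_smul g h i := by
    change km p ζ a (g * h) + i = km p ζ a g + (km p ζ a h + i)
    rw [kmh hG hz hζ ha, add_assoc]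

private theorem ev_y (hG : GA G Ω) (hz : PZ p ζ) (hζ : ∀ g : G, g • ζ = ζ) {a : Ω} (ha : Fx G a) {g₀ : G}
    (hg₀ : km p ζ a g₀ = 1) {y : Ω} (hy : FxM (kr G p a) y) :
    letI := kact hG hz hζ ha
    Ev G (fun i : ZMod p => g₀ ^ i.val • y) := by
  letI := kact hG hz hζ ha
  haveI := hz.neZero
  intro i
  constructor
  · intro h
    apply hy.1
    have h2 := congrArg (fun x => (g₀ ^ i.val)⁻¹ • x) h
    simpa using h2
  · intro g
    have hi : g • i = km p ζ a g + i := rfl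
    have h3 : (g₀ ^ (g • i).val)⁻¹ * (g * g₀ ^ i.val) ∈ kr G p a := by
      rw [mem_kr hG hz hζ ha, kmh hG hz hζ ha, kmh hG hz hζ ha, kminv hG hz hζ ha,
        kmpow hG hz hζ ha, kmpow hG hz hζ ha, hg₀, ZMod.natCast_zmod_val, ZMod.natCast_zmod_val, hi]
      ring
    have h4 := hy.2 _ h3
    have h5 : g₀ ^ (g • i).val • ((g₀ ^ (g • i).val)⁻¹ * (g * g₀ ^ i.val)) • y =
        g • g₀ ^ i.val • y := by
      rw [← mul_smul, mul_inv_cancel_left, mul_smul]
    rw [h4] at h5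
    exact h5

private theorem prod_y (hz : PZ p ζ) (f : ℕ → Ω) :
    letI := hz.neZero
    ∏ i : ZMod p, f i.val = ∏ i ∈ Finset.range p, f i := by
  obtain ⟨k, rfl⟩ : ∃ k, p = k + 1 := ⟨p - 1, by have := hz.one_lt; omega⟩
  exact Fin.prod_univ_eq_prod_range f (k + 1)

theorem nL_fx (hG : GA G Ω) (hz : PZ p ζ) (hζ : ∀ g : G, g • ζ = ζ) {a : Ω} (ha : Fx G a) {g₀ : G}
    (hg₀ : km p ζ a g₀ = 1) {y : Ω} (hy : FxM (kr G p a) y) : Fx G (nL p g₀ y) := by
  letI := kact hG hz hζ ha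
  haveI := hz.neZero
  have h := Fx_prod (ev_y hG hz hζ ha hg₀ hy)
  rw [prod_y hz (fun i => g₀ ^ i • y)] at h
  exact h

omit [TopologicalSpace G] in
theorem nL_mul (g₀ : G) (x y : Ω) : nL p g₀ (x * y) = nL p g₀ x * nL p g₀ y := by
  unfold nL
  rw [← Finset.prod_mul_distrib]
  exact Finset.prod_congr rfl fun i _ => smul_mul' _ _ _

omit [TopologicalSpace G] in
theorem nL_fixed (g₀ : G) {x : Ω} (hx : g₀ • x = x) : nL p g₀ x = x ^ p := by
  have h : ∀ i : ℕ, g₀ ^ i • x = x := by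
    intro i
    induction i with
    | zero => rw [pow_zero, one_smul]
    | succ i ih => rw [pow_succ, mul_smul, hx, ih]
  unfold nL
  rw [Finset.prod_congr rfl (fun i _ => h i), Finset.prod_const, Finset.card_range]

theorem nc_of_norm (hG : GA G Ω) (hp : p.Prime) (hz : PZ p ζ) (hζ : ∀ g : G, g • ζ = ζ) {a : Ω} (ha : Fx G a) {g₀ : G}
    (hg₀ : km p ζ a g₀ = 1) {y : Ω} (hy : FxM (kr G p a) y) : Co (kk (G := G) p ζ a (nL p g₀ y)) (fun _ _ => 0) := by
  letI := kact hG hz hζ ha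
  haveI := hz.neZero
  haveI := hG.alg
  have hY := ev_y hG hz hζ ha hg₀ hy
  have hS : OS G (ZMod p) := by
    intro i
    have e : {g : G | g • i = i} = (kr G p a : Set G) := by
      ext g
      have hi : g • i = km p ζ a g + i := rfl
      rw [Set.mem_setOf_eq, hi, SetLike.mem_coe, mem_kr hG hz hζ ha]
      constructor
      · intro h
        exact add_eq_right.1 h
      · intro h
        rw [h, zero_add]
    rw [e]
    exact kr_open hG a
  have hX : Ev G (fun i : ZMod p => zp ζ i * rt p a) := by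
    intro i
    refine ⟨mul_ne_zero (zp_ne hz i) (rt_ne hz ha.1), fun g => ?_⟩
    have hi : g • i = km p ζ a g + i := rfl
    have hroot := km_root hz ha.1 (rt_pow hz a) (hζ g) (ha.2 g)
    change zp ζ (g • i) * rt p a = g • (zp ζ i * rt p a)
    rw [hi, zp_add hz, smul_mul', smul_zp (hζ g), hroot]
    ring
  have hXp : (fun i : ZMod p => (zp ζ i * rt p a) ^ p) = fun _ => a := by
    funext i
    rw [mul_pow, zp_pow hz, one_mul, rt_pow hz]
  have h1 := tH_pow_left (ι := MonoidHom.id G) hG hz hS continuous_id (fun h => hζ h) hX hY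
  rw [hXp] at h1
  have h2 := tH_const_left (ι := MonoidHom.id G) hG hz hS continuous_id (fun h => hζ h) hY ha
  rw [prod_y hz (fun i => g₀ ^ i • y)] at h2
  rw [← CoM_top] at h1 h2 ⊢
  exact CoM_trans (CoM_symm h2) h1

end

end MSG
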