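import Pool.Agent.MSG.TS3
import Pool.Agent.MSG.Nc

/-! # MSG / Bt: generators of the symbols over `M` (Bass-Tate) and the norm criterion in `K₂`, `G` p-special

`p` prime, every open subgroup of `G` has index a power of `p` (`PS p G`); `a ∈ Ω^G`, `M = kr G p a`, `km a g₀ = 1`, `α = rt p a`.

PROOFS.
* `bt_gen`: `l` is fixed by `M` and `≠ 0`.  The interpolation polynomial `P` of degree `< p` with `P (ζ ^ i α) = g₀ ^ i • l`, `0 ≤ i < p`, has coefficients fixed by
  `G` (`g₀` permutes the conditions, `M` fixes them; every `g` is `g₀ ^ i m`).  `P ≠ 0`, `P = c ∏ (X - r)`, `r` in the multiset of the roots of `P`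
  in `Ω`.  The orbit `G r` consists of roots, so it has fewer than `p` elements, and its cardinality is the index of the open subgroup `stab r`, a power of
  `p`; so it is `1` and `r` is fixed by `G`.  `l = P α`.
* `bt_sym`: by bilinearity (`km_mul`; `SyM` is defined by finite sums) it is enough to treat `kk l l'` with `l, l'` each of the form `c` (fixed by `G`)
  or `α - r`.  `kk c l' ~ - kk l' c` (`tH_self_anti` for a point, or directly `χ g = km c g * km l' g`) `= kk (l')⁻¹ c`.  For `r = r'`: `kk x x ~ 0`.  For `r ≠ r'`: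
  `x = (α - r)/(r' - r)`, `y = (α - r')/(r - r')` satisfy `x + y = 1`, so `kk x y ~ 0` (`tH_steinberg` for the group `M` and a point), i.e.
  `kk (α-r) (α-r') ~ kk (α-r) (r-r') + kk (r'-r) (α-r') - kk (r'-r) (r-r')`, and the last two are treated by antisymmetry.
* `nL_lin`: `∏_{i < p} (ζ ^ i α - r) = α ^ p - r ^ p = a - r ^ p` (`p` odd, `∏ ζ ^ i = 1`).
-/

set_option autoImplicit false
set_option linter.unusedVariables false

namespace MSG

universe u v w

open Pool.Agent.Helper14.Massey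

section

variable {G : Type u} {Ω : Type v} [Group G] [TopologicalSpace G] [Field Ω] [MulSemiringAction G Ω] {p : ℕ} {ζ : Ω}

private theorem bt_one (hz : PZ p ζ) : zp ζ (1 : ZMod p) = ζ := by
  have h := zp_nat hz 1
  rw [Nat.cast_one, pow_one] at h
  exact h

private theorem bt_smul (hG : GA G Ω) (hz : PZ p ζ) (hζ : ∀ g : G, g • ζ = ζ) {a : Ω} (ha : Fx G a)
    {g₀ : G} (hg₀ : km p ζ a g₀ = 1) : g₀ • rt p a = ζ * rt p a := by
  haveI := hG.alg
  have h := km_root hz ha.1 (rt_pow hz a) (hζ g₀) (ha.2 g₀)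
  rw [hg₀, bt_one hz] at h
  exact h

private theorem bt_pow_smul (hG : GA G Ω) (hz : PZ p ζ) (hζ : ∀ g : G, g • ζ = ζ) {a : Ω} (ha : Fx G a)
    {g₀ : G} (hg₀ : km p ζ a g₀ = 1) (i : ℕ) : g₀ ^ i • rt p a = ζ ^ i * rt p a := by
  induction i with
  | zero => rw [pow_zero, one_smul, pow_zero, one_mul]
  | succ i ih =>
    rw [pow_succ, mul_smul, bt_smul hG hz hζ ha hg₀, smul_mul', hζ, ih, pow_succ]
    ring

/-- the equivariant interpolation polynomial -/
private theorem bt_poly (hG : GA G Ω) (hz : PZ p ζ) (hζ : ∀ g : G, g • ζ = ζ) {a : Ω} (ha : Fx G a)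
    {g₀ : G} (hg₀ : km p ζ a g₀ = 1) {l : Ω} (hl : ∀ g ∈ kr G p a, g • l = l) :
    ∃ P : Polynomial Ω, P.degree < p ∧ (∀ g : G, P.eval (g • rt p a) = g • l) ∧ ∀ g : G, g • P = P := by
  haveI := hG.alg
  haveI := hz.neZero
  have hvs : Set.InjOn (fun i : ℕ => ζ ^ i * rt p a) (Finset.range p) := by
    intro i hi j hj hij
    rw [Finset.mem_coe, Finset.mem_range] at hi hj
    exact hz.prim.pow_inj hi hj (mul_right_cancel₀ (rt_ne hz ha.1) hij)
  obtain ⟨P, hP⟩ : ∃ P : Polynomial Ω, P = Lagrange.interpolate (Finset.range p)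
    (fun i : ℕ => ζ ^ i * rt p a) (fun i => g₀ ^ i • l) := ⟨_, rfl⟩
  have hdeg : P.degree < p := by
    have h := Lagrange.degree_interpolate_lt (fun i => g₀ ^ i • l) hvs
    rw [Finset.card_range] at h
    rw [hP]
    exact h
  have hnode : ∀ i < p, P.eval (ζ ^ i * rt p a) = g₀ ^ i • l := by
    intro i hi
    rw [hP]
    exact Lagrange.eval_interpolate_at_node (fun i => g₀ ^ i • l) hvs (Finset.mem_range.2 hi)
  have heval : ∀ g : G, P.eval (g • rt p a) = g • l := by
    intro g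
    have h1 : g • rt p a = ζ ^ (km p ζ a g).val * rt p a :=
      km_root hz ha.1 (rt_pow hz a) (hζ g) (ha.2 g)
    rw [h1, hnode _ (ZMod.val_lt _)]
    have h2 := hl _ (kr_dec hG hz hζ ha hg₀ g)
    rw [mul_smul, inv_smul_eq_iff] at h2
    exact h2.symm
  refine ⟨P, hdeg, heval, fun g => ?_⟩
  refine Polynomial.eq_of_degrees_lt_of_eval_index_eq (v := fun i : ℕ => ζ ^ i * rt p a)
    (Finset.range p) hvs ?_ ?_ fun i hi => ?_
  · rw [Finset.card_range]
    refine lt_of_le_of_lt ?_ hdeg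
    have h1 : g • P = P.map (MulSemiringAction.toRingHom G Ω g) :=
      congrFun (Polynomial.smul_eq_map Ω g) P
    rw [h1]
    exact Polynomial.degree_map_le
  · rw [Finset.card_range]
    exact hdeg
  · show (g • P).eval (ζ ^ i * rt p a) = P.eval (ζ ^ i * rt p a)
    rw [← bt_pow_smul hG hz hζ ha hg₀ i, Polynomial.smul_eval, ← mul_smul, heval, heval, ← mul_smul,
      mul_inv_cancel_left]

/-- the roots of an invariant polynomial of degree less than `p` are fixed -/
private theorem bt_root (hG : GA G Ω) (hp : p.Prime) (hPS : PS p G) {P : Polynomial Ω} (hP0 : P ≠ 0)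
    (hPd : P.degree < p) (hPi : ∀ g : G, g • P = P) {r : Ω} (hr : r ∈ P.roots) (g : G) : g • r = r := by
  classical
  have hr0 : P.eval r = 0 := (Polynomial.mem_roots hP0).1 hr
  have horb : MulAction.orbit G r ⊆ (P.roots.toFinset : Set Ω) := by
    rintro _ ⟨h, rfl⟩
    rw [Finset.mem_coe, Multiset.mem_toFinset, Polynomial.mem_roots hP0]
    have h1 := Polynomial.smul_eval_smul Ω h P r
    rw [hPi, hr0, smul_zero] at h1
    exact h1
  have hcard : (MulAction.orbit G r).ncard < p := by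
    have h1 : (MulAction.orbit G r).ncard ≤ P.roots.toFinset.card := by
      rw [← Set.ncard_coe_finset]
      exact Set.ncard_le_ncard horb (Finset.finite_toSet _)
    have h2 : P.roots.toFinset.card ≤ P.natDegree := (Multiset.toFinset_card_le _).trans P.card_roots'
    have h3 : P.natDegree < p := (Polynomial.natDegree_lt_iff_degree_lt hP0).2 hPd
    omega
  obtain ⟨k, hk⟩ := hPS (MulAction.stabilizer G r) (hG.stab r)
  rw [MulAction.index_stabilizer] at hk
  have hk0 : k = 0 := by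
    by_contra h
    have h1 : p ≤ p ^ k := Nat.le_self_pow h p
    omega
  rw [hk0, pow_zero, ← MulAction.index_stabilizer, Subgroup.index_eq_one] at hk
  have h1 : g ∈ MulAction.stabilizer G r := by
    rw [hk]
    exact Subgroup.mem_top g
  exact MulAction.mem_stabilizer_iff.1 h1

theorem bt_gen (hG : GA G Ω) (hp : p.Prime) (hz : PZ p ζ) (hζ : ∀ g : G, g • ζ = ζ) (hPS : PS p G) {a : Ω} (ha : Fx G a)
    {g₀ : G} (hg₀ : km p ζ a g₀ = 1) {l : Ω} (hl : FxM (kr G p a) l) :
    ∃ (c : Ω) (m : ℕ) (r : Fin m → Ω), Fx G c ∧ (∀ i, ∀ g : G, g • r i = r i) ∧ l = c * ∏ i, (rt p a - r i) := by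
  haveI := hG.alg
  obtain ⟨P, hPd, hPe, hPi⟩ := bt_poly hG hz hζ ha hg₀ hl.2
  have hPl : P.eval (rt p a) = l := by
    have h := hPe 1
    rwa [one_smul, one_smul] at h
  have hP0 : P ≠ 0 := by
    intro h
    rw [h, Polynomial.eval_zero] at hPl
    exact hl.1 hPl.symm
  refine ⟨P.leadingCoeff, P.roots.toList.length, fun i => P.roots.toList[i.1],
    ⟨Polynomial.leadingCoeff_ne_zero.2 hP0, fun g => ?_⟩, fun i g => ?_, ?_⟩
  · have h := Polynomial.coeff_smul g P P.natDegree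
    rw [hPi] at h
    exact h.symm
  · refine bt_root hG hp hPS hP0 hPd hPi ?_ g
    exact Multiset.mem_toList.1 (List.getElem_mem _)
  · have h1 : ∏ i : Fin P.roots.toList.length, (rt p a - P.roots.toList[i.1]) =
        (P.roots.toList.map fun x => rt p a - x).prod :=
      Fin.prod_univ_fun_getElem P.roots.toList (fun x => rt p a - x)
    have h2 : (P.roots.toList.map fun x => rt p a - x).prod = (P.roots.map fun x => rt p a - x).prod := by
      rw [← Multiset.prod_coe, ← Multiset.map_coe, Multiset.coe_toList]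
    rw [h1, h2, ← hPl]
    have h3 := (IsAlgClosed.splits P).eq_prod_roots
    have h4 := congrArg (Polynomial.eval (rt p a)) h3
    rw [h4, Polynomial.eval_mul, Polynomial.eval_C, Polynomial.eval_multiset_prod, Multiset.map_map]
    congr 2
    refine Multiset.map_congr rfl fun x _ => ?_
    rw [Function.comp, Polynomial.eval_sub, Polynomial.eval_X, Polynomial.eval_C]

/-! ### the class of sums of symbols `kk l c`, `l` fixed by `M`, `c` fixed by `G` -/

private def BT (p : ℕ) (ζ : Ω) (M : Subgroup G) (f : G → G → ZMod p) : Prop :=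
  ∃ (m : ℕ) (l c : Fin m → Ω), (∀ i, FxM M (l i)) ∧ (∀ i, Fx G (c i)) ∧
    CoM M f (fun x y => ∑ i, kk p ζ (l i) (c i) x y)

private theorem BT_congr {M : Subgroup G} {f f' : G → G → ZMod p} (h : CoM M f f') (hf : BT p ζ M f') :
    BT p ζ M f := by
  obtain ⟨m, l, c, hl, hc, h1⟩ := hf
  exact ⟨m, l, c, hl, hc, CoM_trans h h1⟩

private theorem BT_zero {M : Subgroup G} : BT p ζ M (fun _ _ => 0) := by
  refine ⟨0, Fin.elim0, Fin.elim0, fun i => i.elim0, fun i => i.elim0, CoM_of_eq fun x _ y _ => ?_⟩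
  rw [Fin.sum_univ_zero]

private theorem BT_add {M : Subgroup G} {f f' : G → G → ZMod p} (h : BT p ζ M f) (h' : BT p ζ M f') :
    BT p ζ M (fun x y => f x y + f' x y) := by
  obtain ⟨m, l, c, hl, hc, h1⟩ := h
  obtain ⟨m', l', c', hl', hc', h1'⟩ := h'
  refine ⟨m + m', Fin.append l l', Fin.append c c', ?_, ?_, ?_⟩
  · refine Fin.addCases (fun i => ?_) (fun i => ?_)
    · rw [Fin.append_left]
      exact hl i
    · rw [Fin.append_right]
      exact hl' i
  · refine Fin.addCases (fun i => ?_) (fun i => ?_)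
    · rw [Fin.append_left]
      exact hc i
    · rw [Fin.append_right]
      exact hc' i
  · refine CoM_trans (CoM_add h1 h1') (CoM_of_eq fun x _ y _ => ?_)
    rw [Fin.sum_univ_add]
    simp only [Fin.append_left, Fin.append_right]

private theorem BT_sum {M : Subgroup G} {κ : Type*} (s : Finset κ) (F : κ → G → G → ZMod p)
    (h : ∀ i ∈ s, BT p ζ M (F i)) : BT p ζ M (fun x y => ∑ i ∈ s, F i x y) := by
  classical
  induction s using Finset.induction_on with
  | empty =>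
    refine BT_congr (CoM_of_eq fun x _ y _ => ?_) BT_zero
    rw [Finset.sum_empty]
  | insert i s hi ih =>
    refine BT_congr (CoM_of_eq fun x _ y _ => ?_)
      (BT_add (h i (Finset.mem_insert_self i s)) (ih fun j hj => h j (Finset.mem_insert_of_mem hj)))
    rw [Finset.sum_insert hi]

private theorem BT_one {M : Subgroup G} {l c : Ω} (hl : FxM M l) (hc : Fx G c) : BT p ζ M (kk p ζ l c) := by
  refine ⟨1, fun _ => l, fun _ => c, fun _ => hl, fun _ => hc, CoM_of_eq fun x _ y _ => ?_⟩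
  rw [Fin.sum_univ_one]

private theorem BT_neg_one (hG : GA G Ω) (hz : PZ p ζ) (hζ : ∀ g : G, g • ζ = ζ) {M : Subgroup G} {l c : Ω}
    (hl : FxM M l) (hc : Fx G c) : BT p ζ M (fun x y => - kk p ζ l c x y) := by
  haveI := hG.alg
  have hl' : FxM M l⁻¹ := ⟨inv_ne_zero hl.1, fun g hg => by rw [smul_inv'', hl.2 g hg]⟩
  refine BT_congr (CoM_of_eq fun x hx y _ => ?_) (BT_one hl' hc)
  show - (km p ζ l x * km p ζ c y) = km p ζ l⁻¹ x * km p ζ c y
  rw [km_inv hz hl.1 (hζ x) (hl.2 x hx)]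
  ring

private theorem Fx_FxM {M : Subgroup G} {c : Ω} (hc : Fx G c) : FxM M c := ⟨hc.1, fun g _ => hc.2 g⟩

/-- antisymmetry on `M` -/
private theorem kk_anti (hG : GA G Ω) (hz : PZ p ζ) (hζ : ∀ g : G, g • ζ = ζ) {M : Subgroup G} {x y : Ω}
    (hx : FxM M x) (hy : FxM M y) : CoM M (kk p ζ x y) (fun g h => - kk p ζ y x g h) := by
  haveI := hG.alg
  haveI := hG.top
  refine ⟨fun g => - (km p ζ x g * km p ζ y g), ((km_cont hG p ζ x).mul (km_cont hG p ζ y)).neg,
    fun g hg h hh => ?_⟩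
  have h1 := km_hom hz hx.1 (hζ g) (hζ h) (hx.2 g hg) (hx.2 h hh)
  have h2 := km_hom hz hy.1 (hζ g) (hζ h) (hy.2 g hg) (hy.2 h hh)
  show km p ζ x g * km p ζ y h = - (km p ζ y g * km p ζ x h) +
    (- (km p ζ x g * km p ζ y g) + - (km p ζ x h * km p ζ y h) -
      - (km p ζ x (g * h) * km p ζ y (g * h)))
  rw [h1, h2]
  ring

private theorem kk_self (hG : GA G Ω) (hz : PZ p ζ) (hζ : ∀ g : G, g • ζ = ζ) {M : Subgroup G} {x : Ω}
    (hx : FxM M x) : CoM M (kk p ζ x x) (fun _ _ => 0) := by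
  haveI := hG.alg
  obtain ⟨i2, hi2⟩ := hz.two
  refine ⟨fun g => - (i2 * (km p ζ x g * km p ζ x g)),
    (continuous_const.mul ((km_cont hG p ζ x).mul (km_cont hG p ζ x))).neg, fun g hg h hh => ?_⟩
  have h1 := km_hom hz hx.1 (hζ g) (hζ h) (hx.2 g hg) (hx.2 h hh)
  show km p ζ x g * km p ζ x h = 0 + (- (i2 * (km p ζ x g * km p ζ x g)) +
    - (i2 * (km p ζ x h * km p ζ x h)) - - (i2 * (km p ζ x (g * h) * km p ζ x (g * h))))
  rw [h1]
  have h2 : 0 + (- (i2 * (km p ζ x g * km p ζ x g)) + - (i2 * (km p ζ x h * km p ζ x h)) -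
      - (i2 * ((km p ζ x g + km p ζ x h) * (km p ζ x g + km p ζ x h)))) =
      (2 * i2) * (km p ζ x g * km p ζ x h) := by ring
  rw [h2, hi2, one_mul]

/-- the Steinberg relation on `M` -/
private theorem kk_st (hG : GA G Ω) (hz : PZ p ζ) (hζ : ∀ g : G, g • ζ = ζ) {M : Subgroup G}
    (hM : IsOpen (M : Set G)) {x y : Ω} (hx : FxM M x) (hy : FxM M y) (hxy : x + y = 1) :
    CoM M (kk p ζ x y) (fun _ _ => 0) := by
  haveI := hG.top
  rw [CoM_iff hG hM]
  have hGM : GA M Ω := hG.sub M (Subgroup.isClosed_of_isOpen M hM)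
  letI : MulAction M (PUnit.{1}) :=
    { smul := fun _ s => s
      one_smul := fun _ => rfl
      mul_smul := fun _ _ _ => rfl }
  have hOS : OS M (PUnit.{1}) := by
    intro s
    have : {g : M | g • s = s} = Set.univ := by
      ext g
      exact ⟨fun _ => trivial, fun _ => rfl⟩
    rw [this]
    exact isOpen_univ
  have h := tH_steinberg (G := M) (H := M) (S := PUnit.{1}) (ι := MonoidHom.id M) hGM hz hOS
    continuous_id (fun h => hζ h) (x := fun _ => x) (y := fun _ => y)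
    (fun _ => ⟨hx.1, fun g => (hx.2 g g.2).symm⟩) (fun _ => ⟨hy.1, fun g => (hy.2 g g.2).symm⟩)
    (fun _ => hxy)
  have e : tH p ζ (MonoidHom.id M) (fun _ : PUnit.{1} => x) (fun _ : PUnit.{1} => y) =
      fun g h : M => kk p ζ x y (g : G) (h : G) := by
    funext g h
    unfold tH tS
    rw [Fintype.sum_unique]
    rfl
  rw [e] at h
  exact h

private theorem km_prod (hG : GA G Ω) (hz : PZ p ζ) (hζ : ∀ g : G, g • ζ = ζ) {M : Subgroup G} {κ : Type*}
    (s : Finset κ) (x : κ → Ω) (hx : ∀ i ∈ s, FxM M (x i)) {g : G} (hg : g ∈ M) :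
    km p ζ (∏ i ∈ s, x i) g = ∑ i ∈ s, km p ζ (x i) g := by
  classical
  haveI := hG.alg
  have key : FxM M (∏ i ∈ s, x i) ∧ km p ζ (∏ i ∈ s, x i) g = ∑ i ∈ s, km p ζ (x i) g := by
    induction s using Finset.induction_on with
    | empty =>
      rw [Finset.prod_empty, Finset.sum_empty]
      exact ⟨⟨one_ne_zero, fun g _ => smul_one g⟩, km_one hz (hζ g)⟩
    | insert i s hi ih =>
      obtain ⟨h1, h2⟩ := ih fun j hj => hx j (Finset.mem_insert_of_mem hj)
      have h3 := hx i (Finset.mem_insert_self i s)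
      rw [Finset.prod_insert hi, Finset.sum_insert hi]
      refine ⟨⟨mul_ne_zero h3.1 h1.1, fun g hg => by rw [smul_mul', h3.2 g hg, h1.2 g hg]⟩, ?_⟩
      rw [km_mul hz h3.1 h1.1 (hζ g) (h3.2 g hg) (h1.2 g hg), h2]
  exact key.2

private def TY (G : Type u) {Ω : Type v} [Group G] [Field Ω] [MulSemiringAction G Ω] (α x : Ω) : Prop :=
  Fx G x ∨ ∃ r : Ω, (∀ g : G, g • r = r) ∧ α - r ≠ 0 ∧ x = α - r

private theorem BT_pair (hG : GA G Ω) (hz : PZ p ζ) (hζ : ∀ g : G, g • ζ = ζ) {M : Subgroup G}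
    (hM : IsOpen (M : Set G)) {α : Ω} (hα : ∀ g ∈ M, g • α = α) {x y : Ω} (hx : TY G α x) (hy : TY G α y) :
    BT p ζ M (kk p ζ x y) := by
  haveI := hG.alg
  have hlin : ∀ r : Ω, (∀ g : G, g • r = r) → α - r ≠ 0 → FxM M (α - r) := fun r hr h0 =>
    ⟨h0, fun g hg => by rw [smul_sub, hα g hg, hr g]⟩
  rcases hy with hy | ⟨r', hr', h0', rfl⟩
  · refine BT_one ?_ hy
    rcases hx with hx | ⟨r, hr, h0, rfl⟩
    · exact Fx_FxM hx
    · exact hlin r hr h0
  · rcases hx with hx | ⟨r, hr, h0, rfl⟩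
    · exact BT_congr (kk_anti hG hz hζ (Fx_FxM hx) (hlin r' hr' h0'))
        (BT_neg_one hG hz hζ (hlin r' hr' h0') hx)
    · by_cases hrr : r = r'
      · subst hrr
        exact BT_congr (kk_self hG hz hζ (hlin r hr h0)) BT_zero
      · have hd : Fx G (r' - r) := ⟨sub_ne_zero.2 (Ne.symm hrr), fun g => by rw [smul_sub, hr, hr']⟩
        have hd' : Fx G (r - r') := ⟨sub_ne_zero.2 hrr, fun g => by rw [smul_sub, hr, hr']⟩
        have hX := hlin r hr h0
        have hY := hlin r' hr' h0'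
        obtain ⟨X, hXd⟩ : ∃ X : Ω, X = (α - r) / (r' - r) := ⟨_, rfl⟩
        obtain ⟨Y, hYd⟩ : ∃ Y : Ω, Y = (α - r') / (r - r') := ⟨_, rfl⟩
        have hXF : FxM M X := by
          rw [hXd]
          exact ⟨div_ne_zero hX.1 hd.1, fun g hg => by rw [smul_div₀', hX.2 g hg, hd.2 g]⟩
        have hYF : FxM M Y := by
          rw [hYd]
          exact ⟨div_ne_zero hY.1 hd'.1, fun g hg => by rw [smul_div₀', hY.2 g hg, hd'.2 g]⟩
        have hXY : X + Y = 1 := by
          have h1 : r' - r ≠ 0 := hd.1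
          have h2 : r - r' ≠ 0 := hd'.1
          rw [hXd, hYd]
          field_simp
          ring
        have eX : α - r = X * (r' - r) := by
          rw [hXd, div_mul_cancel₀ _ hd.1]
        have eY : α - r' = Y * (r - r') := by
          rw [hYd, div_mul_cancel₀ _ hd'.1]
        have hst := kk_st hG hz hζ hM hXF hYF hXY
        have h1 : BT p ζ M (fun g h => kk p ζ X Y g h + kk p ζ X (r - r') g h +
            (kk p ζ (r' - r) Y g h + kk p ζ (r' - r) (r - r') g h)) := by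
          refine BT_add (BT_add (BT_congr hst BT_zero) (BT_one hXF hd')) (BT_add ?_ (BT_one (Fx_FxM hd) hd'))
          exact BT_congr (kk_anti hG hz hζ (Fx_FxM hd) hYF) (BT_neg_one hG hz hζ hYF hd)
        refine BT_congr (CoM_of_eq fun g hg h hh => ?_) h1
        show km p ζ (α - r) g * km p ζ (α - r') h = km p ζ X g * km p ζ Y h +
          km p ζ X g * km p ζ (r - r') h + (km p ζ (r' - r) g * km p ζ Y h +
            km p ζ (r' - r) g * km p ζ (r - r') h)
        rw [eX, eY, km_mul hz hXF.1 hd.1 (hζ g) (hXF.2 g hg) (hd.2 g),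
          km_mul hz hYF.1 hd'.1 (hζ h) (hYF.2 h hh) (hd'.2 h)]
        ring

private theorem BT_kk (hG : GA G Ω) (hp : p.Prime) (hz : PZ p ζ) (hζ : ∀ g : G, g • ζ = ζ) (hPS : PS p G) {a : Ω}
    (ha : Fx G a) {g₀ : G} (hg₀ : km p ζ a g₀ = 1) {l l' : Ω} (hl : FxM (kr G p a) l)
    (hl' : FxM (kr G p a) l') : BT p ζ (kr G p a) (kk p ζ l l') := by
  obtain ⟨c, m, r, hc, hr, rfl⟩ := bt_gen hG hp hz hζ hPS ha hg₀ hl
  obtain ⟨c', m', r', hc', hr', rfl⟩ := bt_gen hG hp hz hζ hPS ha hg₀ hl'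
  have hα : ∀ g ∈ kr G p a, g • rt p a = rt p a := fun g hg => MulAction.mem_stabilizer_iff.1 hg
  obtain ⟨x, hx⟩ : ∃ x : Option (Fin m) → Ω, x = fun o => o.elim c (fun i => rt p a - r i) := ⟨_, rfl⟩
  obtain ⟨y, hy⟩ : ∃ y : Option (Fin m') → Ω, y = fun o => o.elim c' (fun i => rt p a - r' i) := ⟨_, rfl⟩
  have hxT : ∀ o, TY G (rt p a) (x o) := by
    intro o
    rw [hx]
    rcases o with _ | i
    · exact Or.inl hc
    · exact Or.inr ⟨r i, hr i, (Finset.prod_ne_zero_iff.1 (right_ne_zero_of_mul hl.1)) i (Finset.mem_univ i), rfl⟩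
  have hyT : ∀ o, TY G (rt p a) (y o) := by
    intro o
    rw [hy]
    rcases o with _ | i
    · exact Or.inl hc'
    · exact Or.inr ⟨r' i, hr' i, (Finset.prod_ne_zero_iff.1 (right_ne_zero_of_mul hl'.1)) i (Finset.mem_univ i), rfl⟩
  have hTF : ∀ z, TY G (rt p a) z → FxM (kr G p a) z := by
    rintro z (hz1 | ⟨r, hr, h0, rfl⟩)
    · exact Fx_FxM hz1
    · exact ⟨h0, fun g hg => by rw [smul_sub, hα g hg, hr g]⟩
  have ex : c * ∏ i, (rt p a - r i) = ∏ o, x o := by
    rw [Fintype.prod_option, hx]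
    rfl
  have ey : c' * ∏ i, (rt p a - r' i) = ∏ o, y o := by
    rw [Fintype.prod_option, hy]
    rfl
  have h1 : BT p ζ (kr G p a) (fun g h => ∑ o, ∑ o', kk p ζ (x o) (y o') g h) :=
    BT_sum Finset.univ (fun o g h => ∑ o', kk p ζ (x o) (y o') g h) fun o _ =>
      BT_sum Finset.univ (fun o' g h => kk p ζ (x o) (y o') g h) fun o' _ =>
        BT_pair hG hz hζ (kr_open hG a) hα (hxT o) (hyT o')
  refine BT_congr (CoM_of_eq fun g hg h hh => ?_) h1
  show km p ζ (c * ∏ i, (rt p a - r i)) g * km p ζ (c' * ∏ i, (rt p a - r' i)) h =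
    ∑ o, ∑ o', km p ζ (x o) g * km p ζ (y o') h
  rw [ex, ey, km_prod hG hz hζ Finset.univ x (fun o _ => hTF _ (hxT o)) hg,
    km_prod hG hz hζ Finset.univ y (fun o _ => hTF _ (hyT o)) hh, Finset.sum_mul_sum]

theorem bt_sym (hG : GA G Ω) (hp : p.Prime) (hz : PZ p ζ) (hζ : ∀ g : G, g • ζ = ζ) (hPS : PS p G) {a : Ω} (ha : Fx G a)
    {g₀ : G} (hg₀ : km p ζ a g₀ = 1) {f : G → G → ZMod p} (hf : SyM p ζ (kr G p a) f) :
    ∃ (m : ℕ) (l c : Fin m → Ω), (∀ i, FxM (kr G p a) (l i)) ∧ (∀ i, Fx G (c i)) ∧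
      CoM (kr G p a) f (fun x y => ∑ i, kk p ζ (l i) (c i) x y) := by
  obtain ⟨m, x, y, hx, hy, h⟩ := hf
  have h1 : BT p ζ (kr G p a) f :=
    BT_congr h (BT_sum Finset.univ (fun i g h => kk p ζ (x i) (y i) g h) fun i _ =>
      BT_kk hG hp hz hζ hPS ha hg₀ (hx i) (hy i))
  exact h1

theorem nL_lin (hG : GA G Ω) (hp : p.Prime) (hz : PZ p ζ) (hζ : ∀ g : G, g • ζ = ζ) {a : Ω} (ha : Fx G a)
    {g₀ : G} (hg₀ : km p ζ a g₀ = 1) {r : Ω} (hr : ∀ g : G, g • r = r) : nL p g₀ (rt p a - r) = a - r ^ p := by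
  haveI := hG.alg
  have h1 : ∀ i : ℕ, g₀ ^ i • (rt p a - r) = (-1) * (r - ζ ^ i * rt p a) := by
    intro i
    rw [smul_sub, bt_pow_smul hG hz hζ ha hg₀ i, hr]
    ring
  unfold nL
  rw [Finset.prod_congr rfl fun i _ => h1 i, Finset.prod_mul_distrib, Finset.prod_const, Finset.card_range,
    hz.odd.neg_one_pow]
  have h2 := congrArg (Polynomial.eval r) (X_pow_sub_C_eq_prod hz.prim hp.pos (rt_pow hz a))
  rw [Polynomial.eval_prod, Polynomial.eval_sub, Polynomial.eval_pow, Polynomial.eval_X, Polynomial.eval_C] at h2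
  have h3 : ∏ i ∈ Finset.range p, (r - ζ ^ i * rt p a) = r ^ p - a := by
    rw [h2]
    refine Finset.prod_congr rfl fun i _ => ?_
    rw [Polynomial.eval_sub, Polynomial.eval_X, Polynomial.eval_C]
  rw [h3]
  ring

end

end MSG
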