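import Pool.Agent.MSG.TS2
import Pool.Agent.MSG.Rlt

/-! # MSG / Cor: corestriction of cochains from an open subgroup

`N ≤ G` open, `S = G ⧸ N` (finite), `ι : H →* G` with `ι(H) N = G`, `M = N.comap ι ≤ H`.  `fam N x s = s.out • x` (for `x` fixed by `N`: the
equivariant family with value `x` at the base point), `nrm N x = ∏_s fam N x s` the norm.

PROOFS.
* `fam_mk`: if `x` is fixed by `N` then `fam N x (g N) = g • x`; so `fam N x` is equivariant (`fam_ev`), `nrm N x` is fixed by `G` (`Fx_prod`).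
  If `x` is fixed by `G`: `fam N x s = x`.
* `cor_main`: choose `r : S → H` with `ι (r s) ∈ s` (`htr`), and put `η g s = (r s)⁻¹ * g * r ((ι g)⁻¹ • s) ∈ M`, `η (g h) s = η g s * η h ((ι g)⁻¹ s)`.
  (1) For the cocycle `f` on `H` and `u g s = f (r s) (η g s) - f g (r ((ι g)⁻¹ s))`:
      `f (η g s) (η h (g⁻¹ s)) = f g h + u g s + u h (g⁻¹ s) - u (g h) s`: with `a = r s`, `b = r (g⁻¹ s)`, `c = r (h⁻¹ g⁻¹ s)` this is
      the sum of the cocycle identities for `(a, η₁, η₂)`, `(g, b, η₂)` (with sign -) and `(g, h, c)`, `a η₁ = g b`, `b η₂ = h c`.  Summing over `s`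
      (`U g = ∑_s u g s`, substitution `s ↦ g⁻¹ s`): `∑_s f (η g s) (η h (g⁻¹ s)) = #S • f g h + (U g + U h - U (g h))`, `#S = N.index`.
  (2) For `χ` on `M`: `X g = ∑_s χ (η g s)` satisfies `∑_s (χ η₁ + χ η₂ - χ (η₁ η₂)) = X g + X h - X (g h)`.
  (3) For `x` fixed by `N`: with the roots `ρ s = ι (r s) • rt x` of `fam N x s`: `ι g • ρ (g⁻¹ s) = ι (r s) • ι (η g s) • rt x = zp ζ (km x (ι (η g s))) * ρ s`, so by `cS_root`
      `cS (fam N x) (ι g) s = km x (ι (η g s)) + ε_x (g⁻¹ s) - ε_x s`.  So `∑_s km x (ι (η g s)) * km y (ι (η h (g⁻¹ s)))` is `tH (fam N x) (fam N y) g h` up to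
      coboundaries (the two correction computations in the header of TS1: `tH_mul_left`, `tH_mul_right`).
  (1)-(3) and `f = ∑ km (x i) ∪ km (y i) + dχ` on `M` give the claim.  Continuity: `g ↦ (ι g)⁻¹ • s` is locally constant (the stabilizers of the
  points of `G ⧸ N` are open), so `η` is continuous in `g`.
-/

set_option autoImplicit false
set_option linter.unusedVariables false

namespace MSG

universe u v w

open Pool.Agent.Helper14.Massey

section

variable {G : Type u} {H : Type w} {Ω : Type v} [Group G] [TopologicalSpace G] [Group H] [TopologicalSpace H]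
  [Field Ω] [MulSemiringAction G Ω] {n : ℕ} {ζ : Ω} {ι : H →* G}

/-- the family on `G ⧸ N` with value `x` at the base point -/
noncomputable def fam (N : Subgroup G) (x : Ω) (s : G ⧸ N) : Ω := s.out • x

/-- the norm from `N` to `G` -/
noncomputable def nrm (N : Subgroup G) (x : Ω) : Ω := ∏ᶠ s : G ⧸ N, fam N x s

omit [TopologicalSpace G] in
theorem fam_mk {N : Subgroup G} {x : Ω} (hx : ∀ g ∈ N, g • x = x) (g : G) : fam N x (QuotientGroup.mk g) = g • x := by
  unfold fam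
  obtain ⟨k, hk⟩ := QuotientGroup.mk_out_eq_mul N g
  rw [hk, mul_smul, hx _ k.2]

omit [TopologicalSpace G] in
theorem fam_ev {N : Subgroup G} {x : Ω} (hx : FxM N x) : Ev G (fam N x) := by
  intro s
  obtain ⟨a, rfl⟩ := QuotientGroup.mk_surjective s
  refine ⟨?_, fun g => ?_⟩
  · rw [fam_mk hx.2]
    exact fun h0 => hx.1 ((smul_eq_zero_iff_eq a).1 h0)
  · have e : g • (QuotientGroup.mk a : G ⧸ N) = QuotientGroup.mk (g * a) := rfl
    rw [e, fam_mk hx.2, fam_mk hx.2, mul_smul]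

theorem nrm_fx (hG : GA G Ω) {N : Subgroup G} (hN : IsOpen (N : Set G)) {x : Ω} (hx : FxM N x) : Fx G (nrm N x) := by
  haveI := hG.top
  haveI := hG.cpt
  haveI : Finite (G ⧸ N) := Subgroup.quotient_finite_of_isOpen N hN
  haveI : Fintype (G ⧸ N) := Fintype.ofFinite _
  unfold nrm
  rw [finprod_eq_prod_of_fintype]
  exact Fx_prod (fam_ev hx)

omit [TopologicalSpace G] in
private theorem reidx {S : Type*} [MulAction G S] [Fintype S] {E : Type*} [AddCommMonoid E] (g : G) (F : S → E) :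
    ∑ s, F (g⁻¹ • s) = ∑ s, F s :=
  Equiv.sum_comp (MulAction.toPerm g⁻¹) F

omit [TopologicalSpace H] in
/-- three cocycle identities -/
private theorem coc_id {f : H → H → ZMod n}
    (hf : ∀ σ τ υ, f τ υ - f (σ * τ) υ + f σ (τ * υ) - f σ τ = 0) (a b c g h : H) :
    f (a⁻¹ * g * b) (b⁻¹ * h * c) = f g h + (f a (a⁻¹ * g * b) - f g b) + (f b (b⁻¹ * h * c) - f h c) -
      (f a (a⁻¹ * (g * h) * c) - f (g * h) c) := by
  have h1 := hf a (a⁻¹ * g * b) (b⁻¹ * h * c)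
  have h2 := hf g b (b⁻¹ * h * c)
  have h3 := hf g h c
  have e1 : a * (a⁻¹ * g * b) = g * b := by group
  have e2 : a⁻¹ * g * b * (b⁻¹ * h * c) = a⁻¹ * (g * h) * c := by group
  have e3 : b * (b⁻¹ * h * c) = h * c := by group
  rw [e1, e2] at h1
  rw [e3] at h2
  linear_combination h1 - h2 + h3

omit [TopologicalSpace G] in
private theorem pair_left {S : Type*} [MulAction G S] [Fintype S] (c c' d : H → S → ZMod n) (ε : S → ZMod n)
    (hd : ∀ g h s, d (g * h) s = d g s + d h ((ι g)⁻¹ • s)) (hdc : ∀ s, Continuous fun g => d g s)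
    (hc' : ∀ g s, c' g s = c g s + ε ((ι g)⁻¹ • s) - ε s) :
    Co (fun g h => ∑ s, c' g s * d h ((ι g)⁻¹ • s)) (fun g h => ∑ s, c g s * d h ((ι g)⁻¹ • s)) := by
  refine ⟨fun g => ∑ s, ε s * d g s, ?_, fun g h => ?_⟩
  · exact continuous_finsetSum _ fun s _ => continuous_const.mul (hdc s)
  · have h1 : ∑ s, ε s * d h s = ∑ s, ε ((ι g)⁻¹ • s) * d h ((ι g)⁻¹ • s) :=
      (reidx (ι g) fun s => ε s * d h s).symm
    change ∑ s, c' g s * d h ((ι g)⁻¹ • s) = ∑ s, c g s * d h ((ι g)⁻¹ • s) +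
      (∑ s, ε s * d g s + ∑ s, ε s * d h s - ∑ s, ε s * d (g * h) s)
    rw [h1, ← Finset.sum_add_distrib, ← Finset.sum_sub_distrib, ← Finset.sum_add_distrib]
    refine Finset.sum_congr rfl fun s _ => ?_
    rw [hc', hd]
    ring

omit [TopologicalSpace G] in
private theorem pair_right {S : Type*} [MulAction G S] [Fintype S] (c d d' : H → S → ZMod n) (ε : S → ZMod n)
    (hcm : ∀ g h s, c (g * h) s = c g s + c h ((ι g)⁻¹ • s)) (hcc : ∀ s, Continuous fun g => c g s)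
    (hε : ∀ s, Continuous fun g : H => ε ((ι g)⁻¹ • s))
    (hd' : ∀ g s, d' g s = d g s + ε ((ι g)⁻¹ • s) - ε s) :
    Co (fun g h => ∑ s, c g s * d' h ((ι g)⁻¹ • s)) (fun g h => ∑ s, c g s * d h ((ι g)⁻¹ • s)) := by
  refine ⟨fun g => - ∑ s, c g s * ε ((ι g)⁻¹ • s), ?_, fun g h => ?_⟩
  · exact (continuous_finsetSum _ fun s _ => (hcc s).mul (hε s)).neg
  · have h1 : ∑ s, c h s * ε ((ι h)⁻¹ • s) =
        ∑ s, c h ((ι g)⁻¹ • s) * ε ((ι h)⁻¹ • (ι g)⁻¹ • s) :=
      (reidx (ι g) fun s => c h s * ε ((ι h)⁻¹ • s)).symm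
    have h2 : ∀ s : S, (ι (g * h))⁻¹ • s = (ι h)⁻¹ • (ι g)⁻¹ • s := fun s => by
      rw [map_mul, mul_inv_rev, mul_smul]
    change ∑ s, c g s * d' h ((ι g)⁻¹ • s) = ∑ s, c g s * d h ((ι g)⁻¹ • s) +
      (- ∑ s, c g s * ε ((ι g)⁻¹ • s) + - ∑ s, c h s * ε ((ι h)⁻¹ • s) -
        - ∑ s, c (g * h) s * ε ((ι (g * h))⁻¹ • s))
    rw [h1, ← Finset.sum_neg_distrib, ← Finset.sum_neg_distrib, ← Finset.sum_neg_distrib,
      ← Finset.sum_add_distrib, ← Finset.sum_sub_distrib, ← Finset.sum_add_distrib]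
    refine Finset.sum_congr rfl fun s _ => ?_
    rw [hd', hcm, h2]
    ring

/-- the action of `H` on the points of `G ⧸ N` is locally constant -/
private theorem loc [IsTopologicalGroup G] (hc : Continuous ι) {N : Subgroup G} (hN : IsOpen (N : Set G))
    {X : Type*} [TopologicalSpace X] (φ : G ⧸ N → X) (s : G ⧸ N) :
    Continuous fun g : H => φ ((ι g)⁻¹ • s) := by
  have h1 : IsLocallyConstant fun g : H => (ι g)⁻¹ • s := by
    rw [IsLocallyConstant.iff_isOpen_fiber]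
    intro t
    obtain ⟨a, rfl⟩ := QuotientGroup.mk_surjective s
    obtain ⟨b, rfl⟩ := QuotientGroup.mk_surjective t
    have e : {g : H | (ι g)⁻¹ • (QuotientGroup.mk a : G ⧸ N) = QuotientGroup.mk b} =
        (fun g : H => a⁻¹ * ι g * b) ⁻¹' (N : Set G) := by
      ext g
      rw [Set.mem_preimage, SetLike.mem_coe]
      have e2 : (ι g)⁻¹ • (QuotientGroup.mk a : G ⧸ N) = QuotientGroup.mk ((ι g)⁻¹ * a) := rfl
      change (ι g)⁻¹ • (QuotientGroup.mk a : G ⧸ N) = QuotientGroup.mk b ↔ _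
      rw [e2, QuotientGroup.eq, mul_inv_rev, inv_inv]
    have h2 : IsOpen {g : H | (ι g)⁻¹ • (QuotientGroup.mk a : G ⧸ N) = QuotientGroup.mk b} := by
      rw [e]
      exact hN.preimage ((continuous_const.mul hc).mul continuous_const)
    exact h2
  exact (h1.comp φ).continuous

variable [IsTopologicalGroup H] (hG : GA G Ω) (hz : PZ n ζ) (hc : Continuous ι) (hι : ∀ h : H, ι h • ζ = ζ)
  {N : Subgroup G} (hN : IsOpen (N : Set G)) (htr : ∀ g : G, ∃ h : H, (ι h)⁻¹ * g ∈ N)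

include hG hz hc hι hN htr

theorem cor_main {f : H → H → ZMod n} (hf : f ∈ Z2 n H) [Fintype (G ⧸ N)] {m : ℕ} (x y : Fin m → Ω)
    (hx : ∀ i, FxM N (x i)) (hy : ∀ i, FxM N (y i))
    (h : Co (fun g h : N.comap ι => f g h) (fun g h : N.comap ι => ∑ i, km n ζ (x i) (ι g) * km n ζ (y i) (ι h))) :
    Co (fun g h => (N.index : ZMod n) * f g h)
      (fun g h => ∑ i, tH n ζ ι (fam N (x i)) (fam N (y i)) g h) := by
  classical
  haveI := hG.top
  haveI := hG.alg
  obtain ⟨hfc, hfz⟩ := hf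
  obtain ⟨χ, hχ, hχ'⟩ := h
  have hr : ∀ s : G ⧸ N, ∃ h : H, (QuotientGroup.mk (ι h) : G ⧸ N) = s := by
    intro s
    obtain ⟨g, rfl⟩ := QuotientGroup.mk_surjective s
    obtain ⟨h, hh⟩ := htr g
    exact ⟨h, QuotientGroup.eq.2 hh⟩
  choose r hr using hr
  have hη : ∀ (g : H) (s : G ⧸ N), (r s)⁻¹ * g * r ((ι g)⁻¹ • s) ∈ N.comap ι := by
    intro g s
    have e1 : (QuotientGroup.mk (ι g * ι (r ((ι g)⁻¹ • s))) : G ⧸ N) = s := by
      have e2 : (QuotientGroup.mk (ι g * ι (r ((ι g)⁻¹ • s))) : G ⧸ N) =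
          ι g • (QuotientGroup.mk (ι (r ((ι g)⁻¹ • s))) : G ⧸ N) := rfl
      rw [e2, hr, smul_inv_smul]
    have e3 : (QuotientGroup.mk (ι (r s)) : G ⧸ N) =
        QuotientGroup.mk (ι g * ι (r ((ι g)⁻¹ • s))) := (hr s).trans e1.symm
    rw [Subgroup.mem_comap, map_mul, map_mul, map_inv, mul_assoc]
    exact QuotientGroup.eq.1 e3
  obtain ⟨η, hη'⟩ : ∃ η : H → G ⧸ N → N.comap ι, ∀ g s,
      (η g s : H) = (r s)⁻¹ * g * r ((ι g)⁻¹ • s) := ⟨fun g s => ⟨_, hη g s⟩, fun _ _ => rfl⟩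
  have hsm : ∀ (g h : H) (s : G ⧸ N), (ι (g * h))⁻¹ • s = (ι h)⁻¹ • (ι g)⁻¹ • s := fun g h s => by
    rw [map_mul, mul_inv_rev, mul_smul]
  have hηm : ∀ (g h : H) (s : G ⧸ N), η (g * h) s = η g s * η h ((ι g)⁻¹ • s) := by
    intro g h s
    apply Subtype.ext
    rw [Subgroup.coe_mul, hη', hη', hη', hsm]
    group
  have hηc : ∀ s, Continuous fun g => (η g s : H) := by
    intro s
    have e : (fun g => (η g s : H)) = fun g => (r s)⁻¹ * g * r ((ι g)⁻¹ • s) := funext fun g => hη' g s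
    rw [e]
    exact (continuous_const.mul continuous_id).mul (loc hc hN r s)
  have hηc' : ∀ s, Continuous fun g => η g s := fun s => continuous_induced_rng.2 (hηc s)
  have hιη : ∀ g s, ι (η g s) ∈ N := fun g s => (η g s).2
  -- the Kummer characters of the elements `η`
  have hKm : ∀ z : Ω, FxM N z → ∀ (g h : H) (s : G ⧸ N), km n ζ z (ι (η (g * h) s)) =
      km n ζ z (ι (η g s)) + km n ζ z (ι (η h ((ι g)⁻¹ • s))) := by
    intro z hz' g h s
    rw [hηm, Subgroup.coe_mul, map_mul]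
    exact km_hom hz hz'.1 (hι _) (hι _) (hz'.2 _ (hιη _ _)) (hz'.2 _ (hιη _ _))
  have hKc : ∀ (z : Ω) (s : G ⧸ N), Continuous fun g : H => km n ζ z (ι (η g s)) := fun z s =>
    (km_cont hG n ζ z).comp (hc.comp (hηc s))
  have hroot : ∀ z : Ω, FxM N z → ∃ ε : G ⧸ N → ZMod n, ∀ (g : H) (s : G ⧸ N),
      cS n ζ (fam N z) (ι g) s = km n ζ z (ι (η g s)) + ε ((ι g)⁻¹ • s) - ε s := by
    intro z hz'
    have hfam : ∀ s, fam N z s = ι (r s) • z := by
      intro s
      have h1 := fam_mk hz'.2 (ι (r s))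
      rwa [hr s] at h1
    obtain ⟨ε, -, hε⟩ := cS_root hz (fam_ev hz') (ρ := fun s => ι (r s) • rt n z) (fun s => by
      rw [← smul_pow', rt_pow hz, hfam])
    refine ⟨ε, fun g s => hε (ι g) s _ (hι g) ?_⟩
    have e1 : ι g * ι (r ((ι g)⁻¹ • s)) = ι (r s) * ι (η g s) := by
      rw [hη', ← map_mul, ← map_mul]
      congr 1
      group
    change ι g • ι (r ((ι g)⁻¹ • s)) • rt n z = zp ζ (km n ζ z (ι (η g s))) * (ι (r s) • rt n z)
    rw [← mul_smul, e1, mul_smul, km_root hz hz'.1 (rt_pow hz z) (hι _) (hz'.2 _ (hιη g s)), smul_mul',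
      smul_zp (hι _)]
  have hP : ∀ i, Co (fun g h => ∑ s, km n ζ (x i) (ι (η g s)) * km n ζ (y i) (ι (η h ((ι g)⁻¹ • s))))
      (tH n ζ ι (fam N (x i)) (fam N (y i))) := by
    intro i
    obtain ⟨ε, hε⟩ := hroot (x i) (hx i)
    obtain ⟨ε', hε'⟩ := hroot (y i) (hy i)
    have h1 := pair_left (ι := ι) (fun g s => km n ζ (x i) (ι (η g s)))
      (fun g s => cS n ζ (fam N (x i)) (ι g) s) (fun g s => km n ζ (y i) (ι (η g s))) ε
      (hKm (y i) (hy i)) (hKc (y i)) hε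
    have h2 := pair_right (ι := ι) (fun g s => cS n ζ (fam N (x i)) (ι g) s)
      (fun g s => km n ζ (y i) (ι (η g s))) (fun g s => cS n ζ (fam N (y i)) (ι g) s) ε'
      (fun g h s => by
        change cS n ζ (fam N (x i)) (ι (g * h)) s = cS n ζ (fam N (x i)) (ι g) s +
          cS n ζ (fam N (x i)) (ι h) ((ι g)⁻¹ • s)
        rw [hε, hε, hε, hKm (x i) (hx i), hsm]
        ring)
      (fun s => by
        have e : (fun g => cS n ζ (fam N (x i)) (ι g) s) = fun g =>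
            km n ζ (x i) (ι (η g s)) + ε ((ι g)⁻¹ • s) - ε s := funext fun g => hε g s
        change Continuous fun g => cS n ζ (fam N (x i)) (ι g) s
        rw [e]
        exact ((hKc (x i) s).add (loc hc hN ε s)).sub continuous_const)
      (loc hc hN ε') hε'
    exact Co_symm (Co_trans h2 h1)
  choose ψ hψ hψ' using hP
  -- the sums
  obtain ⟨U, hU⟩ : ∃ U : H → ZMod n, ∀ g, U g =
      ∑ s, (f (r s) (η g s) - f g (r ((ι g)⁻¹ • s))) := ⟨_, fun _ => rfl⟩
  obtain ⟨X, hX⟩ : ∃ X : H → ZMod n, ∀ g, X g = ∑ s, χ (η g s) := ⟨_, fun _ => rfl⟩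
  have hUc : Continuous U := by
    have e : U = fun g => ∑ s, (f (r s) (η g s) - f g (r ((ι g)⁻¹ • s))) := funext hU
    rw [e]
    refine continuous_finsetSum _ fun s _ => Continuous.sub ?_ ?_
    · exact hfc.comp (Continuous.prodMk continuous_const (hηc s))
    · exact hfc.comp (Continuous.prodMk continuous_id (loc hc hN r s))
  have hXc : Continuous X := by
    have e : X = fun g => ∑ s, χ (η g s) := funext hX
    rw [e]
    exact continuous_finsetSum _ fun s _ => hχ.comp (hηc' s)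
  have hcard : ((N.index : ℕ) : ZMod n) = ((Fintype.card (G ⧸ N) : ℕ) : ZMod n) := by
    rw [Subgroup.index_eq_card, Nat.card_eq_fintype_card]
  have E1 : ∀ g h : H, ∑ s, f (η g s) (η h ((ι g)⁻¹ • s)) =
      (N.index : ZMod n) * f g h + (U g + U h - U (g * h)) := by
    intro g h
    have h1 : ∑ s, (f (r s) (η h s) - f h (r ((ι h)⁻¹ • s))) =
        ∑ s, (f (r ((ι g)⁻¹ • s)) (η h ((ι g)⁻¹ • s)) - f h (r ((ι h)⁻¹ • (ι g)⁻¹ • s))) :=
      (reidx (ι g) fun s => f (r s) (η h s) - f h (r ((ι h)⁻¹ • s))).symm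
    have h2 : (N.index : ZMod n) * f g h = ∑ s : G ⧸ N, f g h := by
      rw [Finset.sum_const, Finset.card_univ, nsmul_eq_mul, hcard]
    rw [hU, hU, hU, h1, h2, ← Finset.sum_add_distrib, ← Finset.sum_sub_distrib, ← Finset.sum_add_distrib]
    refine Finset.sum_congr rfl fun s _ => ?_
    rw [hη' g s, hη' h ((ι g)⁻¹ • s), hη' (g * h) s, hsm,
      coc_id hfz (r s) (r ((ι g)⁻¹ • s)) (r ((ι h)⁻¹ • (ι g)⁻¹ • s)) g h]
    ring
  have E2 : ∀ g h : H, ∑ s, f (η g s) (η h ((ι g)⁻¹ • s)) =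
      ∑ i, ∑ s, km n ζ (x i) (ι (η g s)) * km n ζ (y i) (ι (η h ((ι g)⁻¹ • s))) +
        (X g + X h - X (g * h)) := by
    intro g h
    have h1 : ∑ s, χ (η h s) = ∑ s, χ (η h ((ι g)⁻¹ • s)) :=
      (reidx (ι g) fun s => χ (η h s)).symm
    rw [hX, hX, hX, h1, Finset.sum_comm, ← Finset.sum_add_distrib, ← Finset.sum_sub_distrib,
      ← Finset.sum_add_distrib]
    refine Finset.sum_congr rfl fun s _ => ?_
    rw [hηm g h s]
    exact hχ' (η g s) (η h ((ι g)⁻¹ • s))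
  have E3 : ∀ g h : H, ∑ i, ∑ s, km n ζ (x i) (ι (η g s)) * km n ζ (y i) (ι (η h ((ι g)⁻¹ • s))) =
      ∑ i, tH n ζ ι (fam N (x i)) (fam N (y i)) g h +
        (∑ i, ψ i g + ∑ i, ψ i h - ∑ i, ψ i (g * h)) := by
    intro g h
    rw [← Finset.sum_add_distrib, ← Finset.sum_sub_distrib, ← Finset.sum_add_distrib]
    exact Finset.sum_congr rfl fun i _ => hψ' i g h
  refine ⟨fun g => X g - U g + ∑ i, ψ i g, ?_, fun g h => ?_⟩
  · exact (hXc.sub hUc).add (continuous_finsetSum _ fun i _ => hψ i)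
  · have h1 := E1 g h
    have h2 := E2 g h
    have h3 := E3 g h
    change (N.index : ZMod n) * f g h = ∑ i, tH n ζ ι (fam N (x i)) (fam N (y i)) g h +
      (X g - U g + ∑ i, ψ i g + (X h - U h + ∑ i, ψ i h) - (X (g * h) - U (g * h) + ∑ i, ψ i (g * h)))
    linear_combination h2 - h1 + h3

end


end MSG
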