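import Pool.Agent.MSG.Cor
import Pool.Agent.MSG.RT

/-! # MSG / Corb: consequences of `cor_main`

PROOFS.
* `cor_sy`: unpack `Sy` for `ι.subgroupComap N` (entries fixed by the group `N`: `FxM N`), `cor_main`, and `rosset_tate` for every `tH (fam N (x i)) (fam N (y i))`; `Sy_sum`, `Sy_congr`.
* `cor_proj`: if `y i` is fixed by `G` then `fam N (y i) s = y i`, so `tH (fam N x) (fam N y) = tH (fam N x) (const y) ~ km (nrm N x) ∪ km y` (`tH_const_right`; `nrm` is the
  product over the finite type `G ⧸ N`, `finprod_eq_prod_of_fintype`).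
* `cor_index`: the case `H = G`, `ι = id` of `cor_sy` (`SyM_iff`; `N.comap id = N`).
-/

set_option autoImplicit false
set_option linter.unusedVariables false

namespace MSG

universe u v w

open Pool.Agent.Helper14.Massey

section aux

variable {G : Type u} {H : Type w} {Ω : Type v} [Group G] [TopologicalSpace G] [Group H] [TopologicalSpace H]
  [Field Ω] [MulSemiringAction G Ω] {n : ℕ} {ζ : Ω}

omit [TopologicalSpace G] in
/-- the stabilizers of the points of `G ⧸ N` are open -/
private theorem os_quot [TopologicalSpace G] [IsTopologicalGroup G] {N : Subgroup G} (hN : IsOpen (N : Set G)) :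
    OS G (G ⧸ N) := by
  intro s
  obtain ⟨a, rfl⟩ := QuotientGroup.mk_surjective s
  have e : {g : G | g • (QuotientGroup.mk a : G ⧸ N) = QuotientGroup.mk a} =
      (fun g : G => a⁻¹ * g⁻¹ * a) ⁻¹' (N : Set G) := by
    ext g
    rw [Set.mem_preimage, SetLike.mem_coe]
    have e2 : g • (QuotientGroup.mk a : G ⧸ N) = QuotientGroup.mk (g * a) := rfl
    change g • (QuotientGroup.mk a : G ⧸ N) = QuotientGroup.mk a ↔ _
    rw [e2, QuotientGroup.eq, mul_inv_rev]
  rw [e]
  exact hN.preimage ((continuous_const.mul continuous_inv).mul continuous_const)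

private theorem Co_fsum {m : ℕ} {F F' : Fin m → H → H → ZMod n} (h : ∀ i, Co (F i) (F' i)) :
    Co (fun x y => ∑ i, F i x y) (fun x y => ∑ i, F' i x y) := by
  choose χ hχ hχ' using h
  refine ⟨fun g => ∑ i, χ i g, continuous_finsetSum _ fun i _ => hχ i, fun g h => ?_⟩
  change ∑ i, F i g h = ∑ i, F' i g h + (∑ i, χ i g + ∑ i, χ i h - ∑ i, χ i (g * h))
  rw [← Finset.sum_add_distrib, ← Finset.sum_sub_distrib, ← Finset.sum_add_distrib]
  exact Finset.sum_congr rfl fun i _ => hχ' i g h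

end aux

section

variable {G : Type u} {H : Type w} {Ω : Type v} [Group G] [TopologicalSpace G] [Group H] [TopologicalSpace H]
  [Field Ω] [MulSemiringAction G Ω] {n : ℕ} {ζ : Ω} {ι : H →* G}
  [IsTopologicalGroup H] (hG : GA G Ω) (hz : PZ n ζ) (hc : Continuous ι) (hι : ∀ h : H, ι h • ζ = ζ)
  {N : Subgroup G} (hN : IsOpen (N : Set G)) (htr : ∀ g : G, ∃ h : H, (ι h)⁻¹ * g ∈ N)

include hG hz hc hι hN htr

theorem cor_sy {f : H → H → ZMod n} (hf : f ∈ Z2 n H)
    (h : Sy n ζ (ι.subgroupComap N) (fun g h : N.comap ι => f g h)) :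
    Sy n ζ ι (fun g h => (N.index : ZMod n) * f g h) := by
  classical
  have htop := hG.top
  have hcpt := hG.cpt
  have hfin : Finite (G ⧸ N) := Subgroup.quotient_finite_of_isOpen N hN
  have hft : Fintype (G ⧸ N) := Fintype.ofFinite _
  obtain ⟨m, a, b, ha, hb, hco⟩ := h
  have hx : ∀ i, FxM N (a i) := fun i => ⟨(ha i).1, fun g hg => (ha i).2 ⟨g, hg⟩⟩
  have hy : ∀ i, FxM N (b i) := fun i => ⟨(hb i).1, fun g hg => (hb i).2 ⟨g, hg⟩⟩
  refine Sy_congr (cor_main hG hz hc hι hN htr hf a b hx hy hco) ?_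
  exact Sy_sum Finset.univ (fun i => tH n ζ ι (fam N (a i)) (fam N (b i))) fun i _ =>
    rosset_tate hG hz (os_quot hN) hc hι (fam_ev (hx i)) (fam_ev (hy i))

theorem cor_proj {f : H → H → ZMod n} (hf : f ∈ Z2 n H) {m : ℕ} (x y : Fin m → Ω)
    (hx : ∀ i, FxM N (x i)) (hy : ∀ i, Fx G (y i))
    (h : Co (fun g h : N.comap ι => f g h) (fun g h : N.comap ι => ∑ i, km n ζ (x i) (ι g) * km n ζ (y i) (ι h))) :
    Co (fun g h => (N.index : ZMod n) * f g h)
      (fun g h => ∑ i, km n ζ (nrm N (x i)) (ι g) * km n ζ (y i) (ι h)) := by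
  classical
  have htop := hG.top
  have hcpt := hG.cpt
  have hfin : Finite (G ⧸ N) := Subgroup.quotient_finite_of_isOpen N hN
  have hft : Fintype (G ⧸ N) := Fintype.ofFinite _
  refine Co_trans (cor_main hG hz hc hι hN htr hf x y hx (fun i => ⟨(hy i).1, fun g _ => (hy i).2 g⟩) h) ?_
  refine Co_fsum fun i => ?_
  have e1 : fam N (y i) = fun _ => y i := by
    funext s
    exact (hy i).2 _
  have e2 : nrm N (x i) = ∏ s, fam N (x i) s := finprod_eq_prod_of_fintype _
  rw [e1, e2]
  exact tH_const_right hG hz (os_quot hN) hc hι (fam_ev (hx i)) (hy i)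

end

section

variable {G : Type u} {Ω : Type v} [Group G] [TopologicalSpace G] [Field Ω] [MulSemiringAction G Ω] {n : ℕ} {ζ : Ω}

theorem cor_index (hG : GA G Ω) (hz : PZ n ζ) (hζ : ∀ g : G, g • ζ = ζ) {N : Subgroup G} (hN : IsOpen (N : Set G))
    {f : G → G → ZMod n} (hf : f ∈ Z2 n G) (h : SyM n ζ N f) :
    Sy n ζ (MonoidHom.id G) (fun g h => (N.index : ZMod n) * f g h) := by
  have htop := hG.top
  refine cor_sy hG hz continuous_id (fun h => hζ h) hN (fun g => ⟨g, ?_⟩) hf ?_
  · rw [MonoidHom.id_apply, inv_mul_cancel]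
    exact N.one_mem
  · obtain ⟨m, a, b, ha, hb, χ, hχ, hco⟩ := h
    exact ⟨m, a, b, fun i => ⟨(ha i).1, fun g => (ha i).2 g g.2⟩,
      fun i => ⟨(hb i).1, fun g => (hb i).2 g g.2⟩,
      fun g => χ g, hχ.comp continuous_subtype_val, fun g h => hco g g.2 h h.2⟩

end

end MSG
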