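import Pool.Agent.Helper14.Massey.Symbol
import Pool.Agent.MK.Rel

/-! # MSG (Galois part of Merkurjev-Suslin, MP_fac77f_nt): definitions

A profinite group `G` acts on an algebraically closed field `Ω` as the Galois group of `Ω` over the (perfect) field
`Ω^G` (`GA G Ω`).  `ζ` is a primitive `n`-th root of unity, `n` odd.  Cochains live on a group `H` with a homomorphism
`ι : H →* G` whose image fixes `ζ` (`H = G`, `ι = id`, if `ζ ∈ Ω^G`; `H` a subgroup in general).
`km n ζ a g` is the Kummer character of `a` (`g • rt a = ζ ^ (km a g) * rt a`).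
`Sy n ζ ι f`: the cochain `f` on `H` is a sum of symbols `km a ∪ km b` with `a, b ∈ Ω^G` plus a coboundary.
For a finite `G`-set `S` and equivariant `x, y : S → Ωˣ`, `tS n ζ x y` is the transfer of the symbol `(x, y)`. -/

set_option autoImplicit false

namespace MSG

universe u v w

open Pool.Agent.Helper14.Massey

noncomputable section

section log

variable {Ω : Type u} [Field Ω]

open Classical in
/-- an `n`-th root of `a` -/
def rt (n : ℕ) (a : Ω) : Ω := if h : ∃ r : Ω, r ^ n = a then h.choose else 0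

open Classical in
/-- the logarithm of an `n`-th root of unity `u` to the base `ζ` -/
def lg (n : ℕ) (ζ u : Ω) : ZMod n := if h : ∃ j : ℕ, u = ζ ^ j then (h.choose : ZMod n) else 0

/-- `ζ ^ j` for `j : ZMod n` -/
def zp {n : ℕ} (ζ : Ω) (j : ZMod n) : Ω := ζ ^ j.val

end log

/-- The profinite group `G` acts on the algebraically closed field `Ω` as the Galois group of `Ω` over `Ω^G`. -/
structure GA (G : Type u) (Ω : Type v) [Group G] [TopologicalSpace G] [Field Ω] [MulSemiringAction G Ω] : Prop where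
  /-- `G` is a topological group -/
  top : IsTopologicalGroup G
  /-- `G` is compact -/
  cpt : CompactSpace G
  /-- `G` is Hausdorff -/
  t2 : T2Space G
  /-- `Ω` is algebraically closed -/
  alg : IsAlgClosed Ω
  /-- the stabilizers are open -/
  stab : ∀ x : Ω, IsOpen {g : G | g • x = x}
  /-- the stabilizers of the elements form a basis of neighbourhoods of `1` -/
  basis : ∀ U : Set G, IsOpen U → (1 : G) ∈ U → ∃ x : Ω, ∀ g : G, g • x = x → g ∈ U
  /-- closed subgroups are determined by their fixed elements -/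
  sep : ∀ N : Subgroup G, IsClosed (N : Set G) → ∀ g : G, g ∉ N → ∃ x : Ω, (∀ n ∈ N, n • x = x) ∧ g • x ≠ x

/-- `ζ` is a primitive `n`-th root of unity, `n` odd. -/
structure PZ (n : ℕ) {Ω : Type v} [Field Ω] (ζ : Ω) : Prop where
  /-- `n` is odd -/
  odd : Odd n
  /-- `n > 1` -/
  one_lt : 1 < n
  /-- `ζ` is a primitive root of unity -/
  prim : IsPrimitiveRoot ζ n

/-- `a` is a nonzero element of the fixed field -/
def Fx (G : Type u) {Ω : Type v} [Field Ω] [SMul G Ω] (a : Ω) : Prop := a ≠ 0 ∧ ∀ g : G, g • a = a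

/-- Kummer character of `a` -/
def km {G : Type u} {Ω : Type v} [Field Ω] [SMul G Ω] (n : ℕ) (ζ a : Ω) (g : G) : ZMod n :=
  lg n ζ (g • rt n a / rt n a)

/-- two cochains differ by a coboundary -/
def Co {H : Type w} [Mul H] [TopologicalSpace H] {n : ℕ} (f f' : H → H → ZMod n) : Prop :=
  ∃ χ : H → ZMod n, Continuous χ ∧ ∀ g h, f g h = f' g h + (χ g + χ h - χ (g * h))

/-- The cochain `f` on `H` is a sum of symbols with entries in `Ω^G` plus a coboundary. -/
def Sy (n : ℕ) {G : Type u} {H : Type w} {Ω : Type v} [Field Ω] [Group G] [Group H] [TopologicalSpace H]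
    [SMul G Ω] (ζ : Ω) (ι : H →* G) (f : H → H → ZMod n) : Prop :=
  ∃ (m : ℕ) (a b : Fin m → Ω), (∀ i, Fx G (a i)) ∧ (∀ i, Fx G (b i)) ∧
    Co f (fun g h => ∑ i, km n ζ (a i) (ι g) * km n ζ (b i) (ι h))

/-- a morphism of pairs: field embedding `ψ` and homomorphism `r` of the groups -/
structure Mo (G Ω G' Ω' : Type u) [Group G] [TopologicalSpace G] [Field Ω] [MulSemiringAction G Ω]
    [Group G'] [TopologicalSpace G'] [Field Ω'] [MulSemiringAction G' Ω'] where
  /-- the embedding of the fields -/
  ψ : Ω →+* Ω'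
  /-- the homomorphism of the groups -/
  r : G' →* G
  /-- `r` is continuous -/
  cont : Continuous r
  /-- compatibility -/
  comp : ∀ (g : G') (x : Ω), ψ (r g • x) = g • ψ x

section sets

variable {G : Type u} {Ω : Type v} {S : Type w} [Group G] [Field Ω] [MulSemiringAction G Ω] [MulAction G S]

/-- the stabilizers of the points of the `G`-set `S` are open -/
def OS (G : Type u) (S : Type w) [Group G] [TopologicalSpace G] [MulAction G S] : Prop :=
  ∀ s : S, IsOpen {g : G | g • s = s}

/-- an equivariant family of nonzero elements -/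
def Ev (G : Type u) {Ω : Type v} {S : Type w} [Group G] [Field Ω] [MulSemiringAction G Ω] [MulAction G S]
    (x : S → Ω) : Prop :=
  ∀ s, x s ≠ 0 ∧ ∀ g : G, x (g • s) = g • x s

/-- Kummer cocycle of an equivariant family: `g • rt (x (g⁻¹ s)) = ζ ^ (cS x g s) * rt (x s)` -/
def cS (n : ℕ) (ζ : Ω) (x : S → Ω) (g : G) (s : S) : ZMod n :=
  lg n ζ (g • rt n (x (g⁻¹ • s)) / rt n (x s))

/-- the transfer of the symbol `(x, y)` -/
def tS [Fintype S] (n : ℕ) (ζ : Ω) (x y : S → Ω) (g h : G) : ZMod n :=
  ∑ s : S, cS n ζ x g s * cS n ζ y h (g⁻¹ • s)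

/-- the transfer of the symbol `(x, y)` as a cochain on `H` -/
def tH [Fintype S] {H : Type*} [Group H] (n : ℕ) (ζ : Ω) (ι : H →* G) (x y : S → Ω) (g h : H) : ZMod n :=
  tS n ζ x y (ι g) (ι h)

end sets

/-- every open subgroup has index a power of `p` -/
def PS (p : ℕ) (G : Type u) [Group G] [TopologicalSpace G] : Prop :=
  ∀ U : Subgroup G, IsOpen (U : Set G) → ∃ k : ℕ, U.index = p ^ k

end

end MSG
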