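import Pool.Agent.MSG.Sub

/-! # MSG / Syl: Sylow subgroups of the profinite group `G`

PROOFS.
* `GA.pf`: by `basis` and `stab` every neighbourhood `U` of `1` contains an open subgroup `stab x` of finite index (`G` compact), whose normal core is open and normal.
* `index_closed`: let `P` be closed, `V` open normal: `P V` is an open subgroup.
* `exists_sylow`: Zorn for the set `𝒫` of the closed subgroups `P` such that no open `U ≥ P` has index divisible by `p`, ordered by reverse inclusion.  `⊤ ∈ 𝒫`.  Chains: the intersection `P` of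
  a nonempty chain `P_i` is closed; if `U ≥ P` is open then, by compactness of `G \ U`, some `P_i ≤ U` (the `P_i` are closed and directed); so `P ∈ 𝒫`.  Let `P` be minimal.  Claim `PS p P`:
  let `W ≤ P` be open in `P`.  There is an open normal `V` of `G` with `P ∩ V ≤ W`.  In the finite group `P V / V` let `Q/V` be a Sylow `p`-subgroup and `P' = P ∩ Q` (closed), so that
  `P' V = Q` (`P → P V/V` is onto) and `[P V : Q]` is prime to `p`.  `P' ∈ 𝒫`: let `U ≥ P'` be open; choose `V' ≤ V ∩ U` open normal; it is enough to see that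
  `[G : P' V']` is prime to `p` (`U ≥ P' V'`); `[G : P' V'] = [G : P V'] [P V' : P' V']`; the first is prime to `p` (`P ∈ 𝒫`), the second divides
  `[P : P'] = [P V / V : Q / V]` (`P'` contains `P ∩ V`), prime to `p` (the map `P / P' → P V' / P' V'` is onto, and indices: `[P V' : P' V'] = [P : P ∩ P' V']` divides
  `[P : P']` because `P' ≤ P ∩ P' V'`).  By minimality `P' = P`, so `P V / V` is a `p`-group, and `[P : W]` divides
  `[P : P ∩ V] = #(P V / V)`, a power of `p`.
-/

set_option autoImplicit false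
set_option linter.unusedVariables false

namespace MSG

universe u v

variable {G : Type u} {Ω : Type v} [Group G] [TopologicalSpace G] [Field Ω] [MulSemiringAction G Ω]

/-- open normal subgroups form a basis of neighbourhoods of `1` -/
def PF (H : Type u) [Group H] [TopologicalSpace H] : Prop :=
  ∀ U : Set H, IsOpen U → (1 : H) ∈ U → ∃ V : Subgroup H, V.Normal ∧ IsOpen (V : Set H) ∧ (V : Set H) ⊆ U

theorem GA.pf (hG : GA G Ω) : PF G := by
  intro U hU h1
  haveI := hG.top
  haveI := hG.cpt
  obtain ⟨x, hx⟩ := hG.basis U hU h1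
  have hK : IsOpen ((MulAction.stabilizer G x : Subgroup G) : Set G) := by
    have h2 : ((MulAction.stabilizer G x : Subgroup G) : Set G) = {g : G | g • x = x} := by
      ext g
      simp [MulAction.mem_stabilizer_iff]
    rw [h2]
    exact hG.stab x
  haveI := Subgroup.quotient_finite_of_isOpen _ hK
  haveI : (MulAction.stabilizer G x).FiniteIndex := Subgroup.finiteIndex_of_finite_quotient
  refine ⟨(MulAction.stabilizer G x).normalCore, inferInstance, ?_, ?_⟩
  · exact Subgroup.isOpen_of_isClosed_of_finiteIndex _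
      (Subgroup.normalCore_isClosed _ (Subgroup.isClosed_of_isOpen _ hK))
  · intro g hg
    exact hx g (MulAction.mem_stabilizer_iff.1 (Subgroup.normalCore_le _ hg))

omit [TopologicalSpace G] [MulSemiringAction G Ω] [Field Ω] in
/-- `[P V : P' V] = [P : P ∩ P' V]` divides `[P : P']`. -/
theorem relIndex_sup_dvd (P P' V : Subgroup G) [V.Normal] (h : P' ≤ P) :
    (P' ⊔ V).relIndex (P ⊔ V) ∣ P'.relIndex P := by
  have hker : (QuotientGroup.mk' V).ker ≤ P' ⊔ V := by
    rw [QuotientGroup.ker_mk']
    exact le_sup_right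
  have hA : Subgroup.comap (QuotientGroup.mk' V) (Subgroup.map (QuotientGroup.mk' V) (P' ⊔ V)) =
      P' ⊔ V := Subgroup.comap_map_eq_self hker
  have h1 := Subgroup.relIndex_comap (Subgroup.map (QuotientGroup.mk' V) (P' ⊔ V))
    (QuotientGroup.mk' V) (P ⊔ V)
  have h2 := Subgroup.relIndex_comap (Subgroup.map (QuotientGroup.mk' V) (P' ⊔ V))
    (QuotientGroup.mk' V) P
  have h3 : Subgroup.map (QuotientGroup.mk' V) (P ⊔ V) = Subgroup.map (QuotientGroup.mk' V) P := by
    rw [Subgroup.map_sup]
    have : Subgroup.map (QuotientGroup.mk' V) V = ⊥ := by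
      rw [Subgroup.map_eq_bot_iff, QuotientGroup.ker_mk']
    rw [this, sup_bot_eq]
  rw [hA] at h1 h2
  rw [h1, h3, ← h2]
  exact Subgroup.relIndex_dvd_of_le_left P le_sup_left

/-- closed subgroups contained in no open subgroup of index divisible by `p` -/
def SyP (p : ℕ) (P : Subgroup G) : Prop :=
  IsClosed (P : Set G) ∧ ∀ U : Subgroup G, IsOpen (U : Set G) → P ≤ U → ¬ p ∣ U.index

omit [MulSemiringAction G Ω] [Field Ω] in
theorem syP_sInf [IsTopologicalGroup G] [CompactSpace G] {p : ℕ} (c : Set (Subgroup G))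
    (hc : ∀ P ∈ c, SyP p P) (hch : IsChain (· ≤ ·) c) (hne : c.Nonempty) : SyP p (sInf c) := by
  obtain ⟨P0, hP0⟩ := hne
  haveI : Nonempty c := ⟨⟨P0, hP0⟩⟩
  have hset : ((sInf c : Subgroup G) : Set G) = ⋂ i : c, ((i : Subgroup G) : Set G) := by
    ext x
    simp [Subgroup.mem_sInf]
  refine ⟨?_, fun U hU hle => ?_⟩
  · rw [hset]
    exact isClosed_iInter fun i => (hc i i.2).1
  · obtain ⟨i, hi⟩ := exists_subset_nhds_of_compactSpace
      (V := fun i : c => ((i : Subgroup G) : Set G)) (U := (U : Set G))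
      (by
        intro i j
        rcases hch.total i.2 j.2 with h | h
        · exact ⟨i, subset_rfl, h⟩
        · exact ⟨j, h, subset_rfl⟩)
      (fun i => (hc i i.2).1)
      (fun x hx => hU.mem_nhds (hle (by
        have : x ∈ ((sInf c : Subgroup G) : Set G) := by rw [hset]; exact hx
        exact this)))
    exact (hc i i.2).2 U hU hi

omit [MulSemiringAction G Ω] [Field Ω] in
theorem exists_minimal_syP [IsTopologicalGroup G] [CompactSpace G] {p : ℕ} (hp : p.Prime) :
    ∃ P : Subgroup G, SyP p P ∧ ∀ P' : Subgroup G, SyP p P' → P' ≤ P → P' = P := by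
  have htop : SyP p (⊤ : Subgroup G) := by
    refine ⟨isClosed_univ, fun U _ hle h => ?_⟩
    rw [top_le_iff.1 hle, Subgroup.index_top] at h
    exact hp.one_lt.ne' (Nat.dvd_one.1 h)
  obtain ⟨m, -, hm⟩ := zorn_le_nonempty₀ (α := (Subgroup G)ᵒᵈ)
    {P | SyP p (OrderDual.ofDual P)} (by
      intro c hc hch y hy
      refine ⟨OrderDual.toDual (sInf (OrderDual.ofDual '' c)), ?_, ?_⟩
      · refine syP_sInf _ ?_ ?_ ⟨_, y, hy, rfl⟩
        · rintro _ ⟨P, hP, rfl⟩
          exact hc hP
        · rintro _ ⟨P, hP, rfl⟩ _ ⟨Q, hQ, rfl⟩ hne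
          rcases hch hP hQ (fun h => hne (congrArg _ h)) with h | h
          · exact Or.inr h
          · exact Or.inl h
      · intro z hz
        exact sInf_le (a := OrderDual.ofDual z) ⟨z, hz, rfl⟩) (OrderDual.toDual ⊤) htop
  refine ⟨OrderDual.ofDual m, hm.1, fun P' hP' hle => ?_⟩
  exact le_antisymm hle (hm.2 (y := OrderDual.toDual P') hP' hle)

omit [MulSemiringAction G Ω] [Field Ω] in
/-- a subgroup of index prime to `p` of an element of the family, open in it, is in the family -/
theorem SyP.of_relIndex [IsTopologicalGroup G] (hG : PF G) {p : ℕ} (hp : p.Prime)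
    {P P' : Subgroup G} (hP : SyP p P) (hcl : IsClosed (P' : Set G)) (hle : P' ≤ P)
    (hi : ¬ p ∣ P'.relIndex P) : SyP p P' := by
  refine ⟨hcl, fun U hU hPU hd => ?_⟩
  obtain ⟨V, hVn, hVo, hVU⟩ := hG U hU (one_mem U)
  have hA : P' ⊔ V ≤ U := sup_le hPU hVU
  have h1 : p ∣ (P' ⊔ V).index := hd.trans (Subgroup.index_dvd_of_le hA)
  rw [← Subgroup.relIndex_mul_index (sup_le_sup_right hle V), hp.dvd_mul] at h1
  rcases h1 with h1 | h1
  · exact hi (h1.trans (relIndex_sup_dvd P P' V hle))
  · exact hP.2 (P ⊔ V) (Subgroup.isOpen_mono le_sup_right hVo) le_sup_left h1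

theorem exists_sylow [IsTopologicalGroup G] [CompactSpace G] (hG : PF G) {p : ℕ} (hp : p.Prime) :
    ∃ P : Subgroup G, IsClosed (P : Set G) ∧ PS p P ∧ ∀ U : Subgroup G, IsOpen (U : Set G) → P ≤ U → ¬ p ∣ U.index := by
  obtain ⟨P, hP, hmin⟩ := exists_minimal_syP (G := G) hp
  refine ⟨P, hP.1, ?_, hP.2⟩
  intro W hW
  haveI : Fact p.Prime := ⟨hp⟩
  haveI : CompactSpace P := isCompact_iff_compactSpace.1 hP.1.isCompact
  obtain ⟨O, hO, hOW⟩ := isOpen_induced_iff.1 hW
  have h1O : (1 : G) ∈ O := by
    have : (1 : P) ∈ Subtype.val ⁻¹' O := by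
      rw [hOW]
      exact one_mem W
    exact this
  obtain ⟨V, hVn, hVo, hVO⟩ := hG O hO h1O
  have hNo : IsOpen ((V.subgroupOf P : Subgroup P) : Set P) := hVo.preimage continuous_subtype_val
  have hNW : V.subgroupOf P ≤ W := by
    intro x hx
    have h2 : x ∈ Subtype.val ⁻¹' O := hVO (Subgroup.mem_subgroupOf.1 hx)
    rw [hOW] at h2
    exact h2
  haveI : Finite (P ⧸ V.subgroupOf P) := Subgroup.quotient_finite_of_isOpen _ hNo
  obtain ⟨S⟩ : Nonempty (Sylow p (P ⧸ V.subgroupOf P)) := inferInstance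
  set P'' : Subgroup P := (S : Subgroup (P ⧸ V.subgroupOf P)).comap (QuotientGroup.mk' _) with hP''
  have hidx : ¬ p ∣ P''.index := by
    rw [hP'', Subgroup.index_comap_of_surjective _ (QuotientGroup.mk'_surjective _)]
    exact S.not_dvd_index
  have hNP : V.subgroupOf P ≤ P'' := by
    intro x hx
    rw [hP'', Subgroup.mem_comap]
    have : QuotientGroup.mk' (V.subgroupOf P) x = 1 := (QuotientGroup.eq_one_iff x).2 hx
    rw [this]
    exact one_mem _
  have hcl : IsClosed ((P''.map P.subtype : Subgroup G) : Set G) := by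
    have h2 : IsClosed (P'' : Set P) :=
      Subgroup.isClosed_of_isOpen _ (Subgroup.isOpen_mono hNP hNo)
    have h3 := hP.1.isClosedEmbedding_subtypeVal.isClosedMap _ h2
    exact h3
  have hle : P''.map P.subtype ≤ P := Subgroup.map_subtype_le _
  have hrel : (P''.map P.subtype).relIndex P = P''.index := by
    rw [Subgroup.relIndex, Subgroup.subgroupOf, Subgroup.comap_map_eq_self_of_injective]
    exact P.subtype_injective
  have hSy : SyP p (P''.map P.subtype) :=
    hP.of_relIndex hG hp hcl hle (by rw [hrel]; exact hidx)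
  have heq := hmin _ hSy hle
  have htop : P'' = ⊤ := by
    rw [← Subgroup.index_eq_one, ← hrel, heq, Subgroup.relIndex_self]
  have hStop : (S : Subgroup (P ⧸ V.subgroupOf P)) = ⊤ := by
    rw [hP''] at htop
    rw [eq_top_iff]
    intro x _
    obtain ⟨y, rfl⟩ := QuotientGroup.mk'_surjective _ x
    have : y ∈ (S : Subgroup (P ⧸ V.subgroupOf P)).comap (QuotientGroup.mk' _) := by
      rw [htop]
      exact Subgroup.mem_top y
    exact this
  obtain ⟨n, hn⟩ := IsPGroup.iff_card.1 S.isPGroup'
  have hn2 : (V.subgroupOf P).index = p ^ n := by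
    rw [← hn, hStop, Subgroup.card_top]
    rfl
  have h3 : W.index ∣ p ^ n := hn2 ▸ Subgroup.index_dvd_of_le hNW
  obtain ⟨k, -, hk⟩ := (Nat.dvd_prime_pow hp).1 h3
  exact ⟨k, hk⟩

end MSG
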