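import Pool.Agent.MSG.Sya
import Pool.Agent.MSG.Syl

/-! # MSG / Dp: descent of sums of symbols from a closed subgroup of index prime to `p`

`n = p ^ k`; `P ≤ G` closed, no open `U ≥ P` has index divisible by `p`; `ι : H →* G` with `ι(H) U = G` for all open `U ≥ P`; `f` a cocycle on `H` whose restriction to `P.comap ι` is a sum of symbols with
entries fixed by `P`.  Then `f` is a sum of symbols with entries fixed by `G`.

PROOF.
(1) `dp_fin`: there is an open `U ≥ P` such that the restriction of `f` to `U.comap ι` is a sum of symbols with entries fixed by `U`.  Let `f = ∑ km (a i) ∪ km (b i) + dχ` on `P_H = P.comap ι`.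
  Choose an open normal `W` of `H` (`PF H`, compactness of `H × H` and of `P_H`, discrete `ZMod n`) such that `f (g w) (h w') = f g h` for all `g, h ∈ H`, `w, w' ∈ W`, such that
  `χ (g w) = χ g` for `g ∈ P_H`, `w ∈ W ∩ P_H`, and such that `ι W` fixes all `rt n (a i)`, `rt n (b i)` (so also the `a i`, `b i`).  The sets `(P V).comap ι`, `V` open normal in `G`, decrease to `P_H` (`P` is closed), so
  by compactness of `H \ P_H W` there is an open normal `V` with `(P V).comap ι ≤ P_H W`; shrinking `V` we may assume that `V` fixes all `a i`, `b i`.  Put `U = P V`.  On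
  `U_H = U.comap ι ≤ P_H W` define `χ' (g w) = χ g` for `g ∈ P_H`, `w ∈ W` (well defined: `g w = g₁ w₁` gives `g⁻¹ g₁ ∈ W ∩ P_H`), which is continuous.  For `g, h ∈ P_H`, `w, w' ∈ W`: `g w h w' = g h w''` with `w'' ∈ W` and
  `km a (ι (g w)) = km a (ι g)` because `ι w` fixes `rt n a`.  So `f = ∑ km (a i) ∪ km (b i) + dχ'` on `U_H`.
(2) `cor_sy` for `N = U`: `(U.index) * f` is a sum of symbols with entries fixed by `G`; `U.index` is prime to `p`, so a unit modulo `n = p ^ k`: multiply with its inverse (`Sy_mul`).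
-/

set_option autoImplicit false
set_option linter.unusedVariables false

namespace MSG

universe u v w

open Pool.Agent.Helper14.Massey

variable {G H : Type u} {Ω : Type v} [Group G] [TopologicalSpace G] [Group H] [TopologicalSpace H]
  [Field Ω] [MulSemiringAction G Ω] {n : ℕ} {ζ : Ω} {ι : H →* G}

/-- uniform local constancy on a compact set -/
private theorem dp_unif {X : Type*} [Group X] [TopologicalSpace X] [IsTopologicalGroup X]
    (hB : ∀ U : Set X, IsOpen U → (1 : X) ∈ U → ∃ V : Subgroup X, IsOpen (V : Set X) ∧ (V : Set X) ⊆ U)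
    {D : Type*} [TopologicalSpace D] [DiscreteTopology D] {K : Set X} (hK : IsCompact K) (F : X → D)
    (hF : ContinuousOn F K) :
    ∃ N : Set X, IsOpen N ∧ (1 : X) ∈ N ∧ ∀ g ∈ K, ∀ g' ∈ K, g⁻¹ * g' ∈ N → F g' = F g := by
  have h1 : ∀ g ∈ K, ∃ V : Subgroup X, IsOpen (V : Set X) ∧
      ∀ g' ∈ K, g⁻¹ * g' ∈ V → F g' = F g := by
    intro g hg
    have h2 : F ⁻¹' {F g} ∈ nhdsWithin g K :=
      (hF g hg) ((isOpen_discrete ({F g} : Set D)).mem_nhds rfl)
    obtain ⟨u, hu, hgu, huK⟩ := mem_nhdsWithin.1 h2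
    obtain ⟨V, hV, hVU⟩ := hB ((fun x => g * x) ⁻¹' u)
      (hu.preimage (continuous_const.mul continuous_id)) (by simpa using hgu)
    refine ⟨V, hV, fun g' hg' h => ?_⟩
    have h3 : g * (g⁻¹ * g') ∈ u := hVU h
    rw [mul_inv_cancel_left] at h3
    exact huK ⟨h3, hg'⟩
  choose! V hV hVF using h1
  obtain ⟨t, htK, htc⟩ := hK.elim_nhds_subcover (fun x => {y | x⁻¹ * y ∈ V x}) (fun x hx => by
    refine IsOpen.mem_nhds ((hV x hx).preimage (continuous_const.mul continuous_id)) ?_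
    show x⁻¹ * x ∈ V x
    rw [inv_mul_cancel]
    exact (V x).one_mem)
  refine ⟨⋂ x ∈ t, (V x : Set X), isOpen_biInter_finset fun x hx => hV x (htK x hx), ?_, ?_⟩
  · exact Set.mem_iInter₂.2 fun x _ => (V x).one_mem
  · intro g hg g' hg' h
    obtain ⟨x, hx, hxg⟩ := Set.mem_iUnion₂.1 (htc hg)
    have h2 : x⁻¹ * g ∈ V x := hxg
    have h3 : g⁻¹ * g' ∈ V x := Set.mem_iInter₂.1 h x hx
    have h4 : x⁻¹ * g' ∈ V x := by
      have h5 := (V x).mul_mem h2 h3
      rwa [mul_assoc, mul_inv_cancel_left] at h5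
    rw [hVF x (htK x hx) g' hg' h4, hVF x (htK x hx) g hg h2]

private theorem dp_prod {X : Type*} [Group X] [TopologicalSpace X]
    (hB : ∀ U : Set X, IsOpen U → (1 : X) ∈ U → ∃ V : Subgroup X, IsOpen (V : Set X) ∧ (V : Set X) ⊆ U)
    (U : Set (X × X)) (hU : IsOpen U) (h1 : (1 : X × X) ∈ U) :
    ∃ V : Subgroup (X × X), IsOpen (V : Set (X × X)) ∧ (V : Set (X × X)) ⊆ U := by
  obtain ⟨u, v, hu, hv, h1u, h1v, huv⟩ := isOpen_prod_iff.1 hU 1 1 h1
  obtain ⟨V, hV, hVu⟩ := hB u hu h1u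
  obtain ⟨V', hV', hVv⟩ := hB v hv h1v
  refine ⟨V.prod V', ?_, ?_⟩
  · rw [Subgroup.coe_prod]
    exact hV.prod hV'
  · rw [Subgroup.coe_prod]
    exact (Set.prod_mono hVu hVv).trans huv

theorem dp_fin [IsTopologicalGroup H] [CompactSpace H] (hH : PF H) (hG : GA G Ω) (hz : PZ n ζ) (hc : Continuous ι)
    (hι : ∀ h : H, ι h • ζ = ζ) {P : Subgroup G} (hP : IsClosed (P : Set G)) {f : H → H → ZMod n} (hf : f ∈ Z2 n H)
    (h : Sy n ζ (ι.subgroupComap P) (fun g h : P.comap ι => f g h)) :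
    ∃ U : Subgroup G, IsOpen (U : Set G) ∧ P ≤ U ∧
      Sy n ζ (ι.subgroupComap U) (fun g h : U.comap ι => f g h) := by
  classical
  obtain ⟨m, a, b, ha, hb, χ, hχ, hfχ⟩ := h
  have hB : ∀ U : Set H, IsOpen U → (1 : H) ∈ U →
      ∃ V : Subgroup H, IsOpen (V : Set H) ∧ (V : Set H) ⊆ U := by
    intro U hU h1
    obtain ⟨V, _, hV, hVU⟩ := hH U hU h1
    exact ⟨V, hV, hVU⟩
  -- extension of `χ` to `H`
  let χ0 : H → ZMod n := fun x => if hx : x ∈ P.comap ι then χ ⟨x, hx⟩ else 0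
  have hχ00 : ∀ x : P.comap ι, χ0 x = χ x := by
    intro x
    show (if hx : (x : H) ∈ P.comap ι then χ ⟨x, hx⟩ else 0) = χ x
    rw [dif_pos x.2]
  have hPH : IsClosed ((P.comap ι : Subgroup H) : Set H) := hP.preimage hc
  have hχ0 : ContinuousOn χ0 ((P.comap ι : Subgroup H) : Set H) := by
    rw [continuousOn_iff_continuous_domRestrict]
    have h1 : Set.domRestrict ((P.comap ι : Subgroup H) : Set H) χ0 = χ := by
      funext x
      exact hχ00 x
    rw [h1]
    exact hχ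
  obtain ⟨N1, hN1, hN11, hN1f⟩ := dp_unif (dp_prod hB) isCompact_univ
    (fun x : H × H => f x.1 x.2) hf.1.continuousOn
  obtain ⟨N2, hN2, hN21, hN2f⟩ := dp_unif hB hPH.isCompact χ0 hχ0
  obtain ⟨u, v, hu, hv, h1u, h1v, huv⟩ := isOpen_prod_iff.1 hN1 1 1 hN11
  have hst : ∀ x : Ω, IsOpen {w : H | ι w • x = x} := fun x => (hG.stab x).preimage hc
  have hN3 : IsOpen (⋂ i : Fin m, {w : H | ι w • rt n (a i) = rt n (a i)} ∩
      {w : H | ι w • rt n (b i) = rt n (b i)}) :=
    isOpen_iInter_of_finite fun i => (hst _).inter (hst _)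
  obtain ⟨W, hWn, hW, hWs⟩ := hH (u ∩ v ∩ N2 ∩ ⋂ i : Fin m,
      {w : H | ι w • rt n (a i) = rt n (a i)} ∩ {w : H | ι w • rt n (b i) = rt n (b i)})
    (((hu.inter hv).inter hN2).inter hN3)
    ⟨⟨⟨h1u, h1v⟩, hN21⟩, Set.mem_iInter.2 fun i => ⟨by
      show ι 1 • rt n (a i) = rt n (a i)
      rw [map_one, one_smul], by
      show ι 1 • rt n (b i) = rt n (b i)
      rw [map_one, one_smul]⟩⟩
  -- the compact set
  have hPW : IsOpen (⋃ g ∈ P.comap ι, {x : H | g⁻¹ * x ∈ W}) :=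
    isOpen_biUnion fun g _ => hW.preimage (continuous_const.mul continuous_id)
  have hx : ∀ h ∈ (⋃ g ∈ P.comap ι, {x : H | g⁻¹ * x ∈ W})ᶜ,
      ∃ x : Ω, (∀ q ∈ P, q • x = x) ∧ ι h • x ≠ x := by
    intro h hh
    refine hG.sep P hP (ι h) fun hP' => hh ?_
    refine Set.mem_iUnion₂.2 ⟨h, hP', ?_⟩
    show h⁻¹ * h ∈ W
    rw [inv_mul_cancel]
    exact W.one_mem
  choose! x hxP hxh using hx
  obtain ⟨t, htC, htc⟩ := hPW.isClosed_compl.isCompact.elim_nhds_subcover
    (fun h => {y | ι (h⁻¹ * y) • x h = x h}) (fun h hh => by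
      refine IsOpen.mem_nhds ((hst (x h)).preimage (continuous_const.mul continuous_id)) ?_
      show ι (h⁻¹ * h) • x h = x h
      rw [inv_mul_cancel, map_one, one_smul])
  let T : Finset Ω := t.image x ∪ (Finset.univ.image a ∪ Finset.univ.image b)
  have hTx : ∀ h ∈ t, x h ∈ T := fun h hh => Finset.mem_union_left _ (Finset.mem_image_of_mem x hh)
  have hTa : ∀ i, a i ∈ T := fun i => Finset.mem_union_right _
    (Finset.mem_union_left _ (Finset.mem_image_of_mem a (Finset.mem_univ i)))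
  have hTb : ∀ i, b i ∈ T := fun i => Finset.mem_union_right _
    (Finset.mem_union_right _ (Finset.mem_image_of_mem b (Finset.mem_univ i)))
  have hTP : ∀ y ∈ T, ∀ q ∈ P, q • y = y := by
    intro y hy q hq
    rcases Finset.mem_union.1 hy with h1 | h1
    · obtain ⟨h, hh, rfl⟩ := Finset.mem_image.1 h1
      exact hxP h (htC h hh) q hq
    · rcases Finset.mem_union.1 h1 with h2 | h2
      · obtain ⟨i, _, rfl⟩ := Finset.mem_image.1 h2
        exact (ha i).2 ⟨q, hq⟩
      · obtain ⟨i, _, rfl⟩ := Finset.mem_image.1 h2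
        exact (hb i).2 ⟨q, hq⟩
  let U : Subgroup G := fixingSubgroup G (T : Set Ω)
  have hUmem : ∀ g : G, g ∈ U ↔ ∀ y ∈ T, g • y = y := fun g => mem_fixingSubgroup_iff G
  have hU : IsOpen (U : Set G) := by
    have h1 : (U : Set G) = ⋂ y ∈ T, {g : G | g • y = y} := by
      ext g
      rw [SetLike.mem_coe, hUmem, Set.mem_iInter₂]
      rfl
    rw [h1]
    exact isOpen_biInter_finset fun y _ => hG.stab y
  have hex : ∀ w : U.comap ι, ∃ g : P.comap ι, (g : H)⁻¹ * w ∈ W := by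
    intro w
    by_contra hcon
    have hwC : (w : H) ∈ (⋃ g ∈ P.comap ι, {x : H | g⁻¹ * x ∈ W})ᶜ := by
      intro hw
      obtain ⟨g, hg, hgw⟩ := Set.mem_iUnion₂.1 hw
      exact hcon ⟨⟨g, hg⟩, hgw⟩
    obtain ⟨h, hh, hhw⟩ := Set.mem_iUnion₂.1 (htc hwC)
    have h1 : ι (h⁻¹ * w) • x h = x h := hhw
    have h2 : ι w • x h = x h := (hUmem _).1 w.2 _ (hTx h hh)
    refine hxh h (htC h hh) ?_
    rw [map_mul, mul_smul, h2, map_inv, inv_smul_eq_iff] at h1
    exact h1.symm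
  choose γ hγ using hex
  have key : ∀ (w : U.comap ι) (g : P.comap ι), (g : H)⁻¹ * w ∈ W → χ g = χ (γ w) := by
    intro w g hg
    have h1 : ((γ w : H))⁻¹ * g ∈ W := by
      have h2 := W.mul_mem (hγ w) (W.inv_mem hg)
      have h3 : ((γ w : H))⁻¹ * w * ((g : H)⁻¹ * w)⁻¹ = ((γ w : H))⁻¹ * g := by group
      rwa [h3] at h2
    rw [← hχ00, ← hχ00]
    exact hN2f _ (γ w).2 _ g.2 (hWs h1).1.2
  refine ⟨U, hU, fun q hq => (hUmem q).2 fun y hy => hTP y hy q hq, m, a, b,
    fun i => ⟨(ha i).1, fun g => (hUmem g).1 g.2 _ (hTa i)⟩,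
    fun i => ⟨(hb i).1, fun g => (hUmem g).1 g.2 _ (hTb i)⟩, fun w => χ (γ w), ?_, ?_⟩
  · refine IsLocallyConstant.continuous ((IsLocallyConstant.iff_exists_open _).2 fun w => ?_)
    refine ⟨{w' : U.comap ι | (w : H)⁻¹ * w' ∈ W},
      hW.preimage (continuous_const.mul continuous_subtype_val), ?_, fun w' hw' => ?_⟩
    · show (w : H)⁻¹ * w ∈ W
      rw [inv_mul_cancel]
      exact W.one_mem
    · refine (key w' (γ w) ?_).symm
      have h2 := W.mul_mem (hγ w) hw'
      have h3 : ((γ w : H))⁻¹ * w * ((w : H)⁻¹ * w') = ((γ w : H))⁻¹ * w' := by group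
      rwa [h3] at h2
  · intro w w'
    have h1 : f w w' = f (γ w) (γ w') :=
      hN1f ((γ w : H), (γ w' : H)) (Set.mem_univ _) ((w : H), (w' : H)) (Set.mem_univ _)
        (huv ⟨(hWs (hγ w)).1.1.1, (hWs (hγ w')).1.1.2⟩)
    have h2 : χ (γ w * γ w') = χ (γ (w * w')) := by
      refine key (w * w') (γ w * γ w') ?_
      have h3 := W.mul_mem (hWn.conj_mem _ (hγ w) ((γ w' : H))⁻¹) (hγ w')
      have h4 : ((γ w' : H))⁻¹ * (((γ w : H))⁻¹ * w) * (((γ w' : H))⁻¹)⁻¹ *
          (((γ w' : H))⁻¹ * w') = (((γ w * γ w' : P.comap ι) : H))⁻¹ *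
          ((w * w' : U.comap ι) : H) := by
        rw [Subgroup.coe_mul, Subgroup.coe_mul]
        group
      rwa [h4] at h3
    have hfix : ∀ (y : Ω) (w : U.comap ι), ι ((γ w : H)⁻¹ * w) • y = y →
        ι (w : H) • y = ι (γ w : H) • y := by
      intro y w hy
      rw [map_mul, mul_smul, map_inv, inv_smul_eq_iff] at hy
      exact hy
    have h5 : ∀ i, km n ζ (a i) (ι.subgroupComap U w) = km n ζ (a i) (ι.subgroupComap P (γ w)) := by
      intro i
      show lg n ζ (ι (w : H) • rt n (a i) / rt n (a i)) =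
        lg n ζ (ι (γ w : H) • rt n (a i) / rt n (a i))
      rw [hfix _ w (Set.mem_iInter.1 (hWs (hγ w)).2 i).1]
    have h6 : ∀ i, km n ζ (b i) (ι.subgroupComap U w') =
        km n ζ (b i) (ι.subgroupComap P (γ w')) := by
      intro i
      show lg n ζ (ι (w' : H) • rt n (b i) / rt n (b i)) =
        lg n ζ (ι (γ w' : H) • rt n (b i) / rt n (b i))
      rw [hfix _ w' (Set.mem_iInter.1 (hWs (hγ w')).2 i).2]
    show f w w' = ∑ i, km n ζ (a i) (ι.subgroupComap U w) * km n ζ (b i) (ι.subgroupComap U w') +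
      (χ (γ w) + χ (γ w') - χ (γ (w * w')))
    rw [h1, ← h2]
    simp only [h5, h6]
    exact hfχ (γ w) (γ w')

end MSG
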