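import Pool.Agent.MSG.Dp
import Pool.Agent.MSG.Corb

/-! # MSG / Dpb: descent of sums of symbols from a closed subgroup of index prime to `p` (`dp_fin` is in Dp.lean)

PROOF.
(1) `dp_fin`: there is an open `U ≥ P` such that the restriction of `f` to `U.comap ι` is a sum of symbols with entries fixed by `U`.  Let `f = ∑ km (a i) ∪ km (b i) + dχ` on `P_H = P.comap ι`.
  Choose an open normal `W` of `H` (`PF H`, compactness of `H × H` and of `P_H`, discrete `ZMod n`) such that `f (g w) (h w') = f g h` for all `g, h ∈ H`, `w, w' ∈ W`, such that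
  `χ (g w) = χ g` for `g ∈ P_H`, `w ∈ W ∩ P_H`, and such that `ι W` fixes all `rt n (a i)`, `rt n (b i)` (so also the `a i`, `b i`).  The sets `(P V).comap ι`, `V` open normal in `G`, decrease to `P_H` (`P` is closed), so
  by compactness of `H \ P_H W` there is an open normal `V` with `(P V).comap ι ≤ P_H W`; shrinking `V` we may assume that `V` fixes all `a i`, `b i`.  Put `U = P V`.  On
  `U_H = U.comap ι ≤ P_H W` define `χ' (g w) = χ g` for `g ∈ P_H`, `w ∈ W` (well defined: `g w = g₁ w₁` gives `g⁻¹ g₁ ∈ W ∩ P_H`), which is continuous.  For `g, h ∈ P_H`, `w, w' ∈ W`: `g w h w' = g h w''` with `w'' ∈ W` and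
  `km a (ι (g w)) = km a (ι g)` because `ι w` fixes `rt n a`.  So `f = ∑ km (a i) ∪ km (b i) + dχ'` on `U_H`.
(2) `cor_sy` for `N = U`: `(U.index) * f` is a sum of symbols with entries fixed by `G`; `U.index` is prime to `p`, so a unit modulo `n = p ^ k`: multiply with its inverse (`Sy_mul`).
-/

set_option autoImplicit false
set_option linter.unusedVariables false

namespace MSG

universe u

open Pool.Agent.Helper14.Massey

variable {G H : Type u} {Ω : Type u} [Group G] [TopologicalSpace G] [Group H] [TopologicalSpace H]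
  [Field Ω] [MulSemiringAction G Ω] {n : ℕ} {ζ : Ω} {ι : H →* G}

theorem dp [IsTopologicalGroup H] [CompactSpace H] (hH : PF H) (hG : GA G Ω) {p k : ℕ} (hp : p.Prime) (hn : n = p ^ k)
    (hz : PZ n ζ) (hc : Continuous ι) (hι : ∀ h : H, ι h • ζ = ζ) {P : Subgroup G} (hP : IsClosed (P : Set G))
    (hPi : ∀ U : Subgroup G, IsOpen (U : Set G) → P ≤ U → ¬ p ∣ U.index)
    (htr : ∀ U : Subgroup G, IsOpen (U : Set G) → P ≤ U → ∀ g : G, ∃ h : H, (ι h)⁻¹ * g ∈ U)
    {f : H → H → ZMod n} (hf : f ∈ Z2 n H)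
    (h : Sy n ζ (ι.subgroupComap P) (fun g h : P.comap ι => f g h)) : Sy n ζ ι f := by
  obtain ⟨U, hU, hPU, hs⟩ := dp_fin hH hG hz hc hι hP hf h
  have h1 := cor_sy hG hz hc hι hU (htr U hU hPU) hf hs
  have hcop : Nat.Coprime U.index n := by
    rw [hn]
    exact Nat.Coprime.pow_right k ((Nat.Prime.coprime_iff_not_dvd hp).2 (hPi U hU hPU)).symm
  obtain ⟨v, hv⟩ := (ZMod.isUnit_iff_coprime U.index n).2 hcop
  have h2 := Sy_mul hG hz hι ((v⁻¹ : (ZMod n)ˣ) : ZMod n) h1
  have h3 : (fun x y => ((v⁻¹ : (ZMod n)ˣ) : ZMod n) * ((U.index : ZMod n) * f x y)) = f := by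
    funext x y
    rw [← hv, ← mul_assoc, Units.inv_mul, one_mul]
  rw [h3] at h2
  exact h2

end MSG
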