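import Pool.Agent.MSG.Defs
import Pool.Agent.Helper14.Massey.ProP

/-! # MSG / Dsc: from the pairs `(G, Ω)` to the maximal pro-p quotient of the absolute Galois group

PROOFS.
* `dsc_main`: this is `desc_main` of `Pool/Agent/MK/Desc.lean` with `2` replaced by `p`: `f` a continuous cocycle on `MaxProP p G`, `mk : G → MaxProP p G`, `f (mk g) (mk h) = ∑ a i g * b i h + (χ g + χ h - χ (g h))` with
  `a i, b i ∈ H1 p G`, `χ` continuous; then the `a i`, `b i` and `χ` descend to `MaxProP p G` (see the header and the proof there: `exists_factor₂`, `exists_descend`, the subgroup `V = {u ∈ N₁ | χ₀ u = 0}`).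
-/

set_option autoImplicit false
set_option linter.unusedVariables false

namespace MSG

universe u

open Pool.Agent.Helper14.Massey

section

variable {G : Type u} [Group G] [TopologicalSpace G] {p : ℕ}

/-- the homomorphism of a class in `H¹` -/
private def desc_hom (c : H1 p G) : G →* Multiplicative (ZMod p) where
  toFun g := Multiplicative.ofAdd (c.1 g)
  map_one' := by
    have h := c.2.2 1 1
    rw [mul_one] at h
    have h0 : c.1 1 = 0 := by
      have h1 : c.1 1 + 0 = c.1 1 + c.1 1 := by rw [add_zero]; exact h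
      exact (add_left_cancel h1).symm
    rw [h0, ofAdd_zero]
  map_mul' g h := by rw [c.2.2 g h, ofAdd_add]

private theorem desc_two (hp : p.Prime) (x : Multiplicative (ZMod p)) : x ^ p ^ 1 = 1 := by
  apply Multiplicative.toAdd.injective
  rw [toAdd_pow, pow_one, toAdd_one, nsmul_eq_mul, CharP.cast_eq_zero, zero_mul]

private theorem desc_ker (hp : p.Prime) (c : H1 p G) : (desc_hom c).ker ∈ POpen p G := by
  have : NeZero p := ⟨hp.ne_zero⟩
  refine ker_mem_POpen hp (desc_hom c) ?_ 1 fun g => desc_two hp _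
  exact (IsLocallyConstant.iff_continuous _).2 c.2.1 |>.comp Multiplicative.ofAdd

private theorem desc_one [IsTopologicalGroup G] (hp : p.Prime) (c : H1 p G) : ∃ A : H1 p (MaxProP p G),
    ∀ g : G, A.1 (g : MaxProP p G) = c.1 g := by
  obtain ⟨f', hf', e⟩ := exists_descend (desc_hom c) (desc_ker hp c)
  refine ⟨⟨fun x => Multiplicative.toAdd (f' x), ?_, fun σ τ => ?_⟩, fun g => ?_⟩
  · exact (hf'.comp Multiplicative.toAdd).continuous
  · change Multiplicative.toAdd (f' (σ * τ)) =
      Multiplicative.toAdd (f' σ) + Multiplicative.toAdd (f' τ)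
    rw [map_mul, toAdd_mul]
  · change Multiplicative.toAdd (f' (g : MaxProP p G)) = c.1 g
    rw [e]
    rfl

variable [IsTopologicalGroup G] [CompactSpace G]

private theorem desc_main (hp : p.Prime) {f : MaxProP p G → MaxProP p G → ZMod p} (hf : f ∈ Z2 p (MaxProP p G))
    {N : Subgroup G} (hN : N ∈ POpen p G)
    (hfN : ∀ g h g' h' : G, g⁻¹ * g' ∈ N → h⁻¹ * h' ∈ N →
      f (g : MaxProP p G) (h : MaxProP p G) = f (g' : MaxProP p G) (h' : MaxProP p G))
    {n : ℕ} (a b : Fin n → H1 p G) {χ : G → ZMod p} (hχ : Continuous χ)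
    (e : ∀ g h : G, f (g : MaxProP p G) (h : MaxProP p G) =
      ∑ i, (a i).1 g * (b i).1 h + (χ g + χ h - χ (g * h))) :
    ∃ (A B : Fin n → H1 p (MaxProP p G)) (c : MaxProP p G → ZMod p), Continuous c ∧
      ∀ σ τ, f σ τ = ∑ i, (A i : MaxProP p G → ZMod p) σ * (B i : MaxProP p G → ZMod p) τ +
        (c σ + c τ - c (σ * τ)) := by
  classical
  have : NeZero p := ⟨hp.ne_zero⟩
  choose A hA using fun i => desc_one hp (a i)
  choose B hB using fun i => desc_one hp (b i)
  set c₀ : ZMod p := f 1 1 with hc₀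
  have f1 : ∀ x, f 1 x = c₀ := by
    intro x
    have h := hf.2 1 1 x
    rw [one_mul, one_mul] at h
    linear_combination h
  have f2 : ∀ x, f x 1 = c₀ := by
    intro x
    have h := hf.2 x 1 1
    rw [one_mul, mul_one] at h
    linear_combination -h
  -- the open subgroup
  set N₁ : Subgroup G := N ⊓ ((Finset.univ.inf fun i => (desc_hom (a i)).ker) ⊓
    (Finset.univ.inf fun i => (desc_hom (b i)).ker)) with hN₁
  have hN₁p : N₁ ∈ POpen p G := by
    refine inf_mem_POpen hp hN (inf_mem_POpen hp ?_ ?_)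
    · exact Finset.inf_induction (p := fun K : Subgroup G => K ∈ POpen p G) top_mem_POpen
        (fun K hK L hL => inf_mem_POpen hp hK hL) fun i _ => desc_ker hp (a i)
    · exact Finset.inf_induction (p := fun K : Subgroup G => K ∈ POpen p G) top_mem_POpen
        (fun K hK L hL => inf_mem_POpen hp hK hL) fun i _ => desc_ker hp (b i)
  have hNN : ∀ u ∈ N₁, u ∈ N := fun u hu => hu.1
  have hNa : ∀ u ∈ N₁, ∀ i, (a i).1 u = 0 := by
    intro u hu i
    have h1 : u ∈ (desc_hom (a i)).ker := (Finset.inf_le (Finset.mem_univ i) :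
      (Finset.univ.inf fun i => (desc_hom (a i)).ker) ≤ _) hu.2.1
    exact Multiplicative.ofAdd.injective (MonoidHom.mem_ker.1 h1)
  have hNb : ∀ u ∈ N₁, ∀ i, (b i).1 u = 0 := by
    intro u hu i
    have h1 : u ∈ (desc_hom (b i)).ker := (Finset.inf_le (Finset.mem_univ i) :
      (Finset.univ.inf fun i => (desc_hom (b i)).ker) ≤ _) hu.2.2
    exact Multiplicative.ofAdd.injective (MonoidHom.mem_ker.1 h1)
  have k1 : ∀ u ∈ N₁, ∀ g, χ (u * g) = χ u + χ g - c₀ := by
    intro u hu g
    have h1 := e u g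
    have h2 := hfN u g 1 g (by rw [mul_one]; exact N.inv_mem (hNN u hu))
      (by rw [inv_mul_cancel]; exact N.one_mem)
    have h3 : f ((1 : G) : MaxProP p G) (g : MaxProP p G) = c₀ := f1 _
    rw [h2, h3, Finset.sum_eq_zero fun i _ => by rw [hNa u hu i, zero_mul], zero_add] at h1
    linear_combination h1
  have k2 : ∀ u ∈ N₁, ∀ g, χ (g * u) = χ g + χ u - c₀ := by
    intro u hu g
    have h1 := e g u
    have h2 := hfN g u g 1 (by rw [inv_mul_cancel]; exact N.one_mem)
      (by rw [mul_one]; exact N.inv_mem (hNN u hu))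
    have h3 : f (g : MaxProP p G) ((1 : G) : MaxProP p G) = c₀ := f2 _
    rw [h2, h3, Finset.sum_eq_zero fun i _ => by rw [hNb u hu i, mul_zero], zero_add] at h1
    linear_combination h1
  have k0 : χ 1 = c₀ := by
    have h1 := k1 1 N₁.one_mem 1
    rw [mul_one] at h1
    linear_combination -h1
  -- the subgroup `V`
  let ψ : N₁ →* Multiplicative (ZMod p) :=
    { toFun := fun u => Multiplicative.ofAdd (χ u.1 - c₀)
      map_one' := by
        change Multiplicative.ofAdd (χ 1 - c₀) = 1
        rw [k0, sub_self, ofAdd_zero]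
      map_mul' := fun u v => by
        change Multiplicative.ofAdd (χ (u.1 * v.1) - c₀) = _
        rw [k1 u.1 u.2, ← ofAdd_add]
        congr 1
        ring }
  let V : Subgroup G :=
    { carrier := {u | u ∈ N₁ ∧ χ u = c₀}
      mul_mem' := by
        rintro u v ⟨hu, hu'⟩ ⟨hv, hv'⟩
        refine ⟨N₁.mul_mem hu hv, ?_⟩
        rw [k1 u hu, hu', hv']
        ring
      one_mem' := ⟨N₁.one_mem, k0⟩
      inv_mem' := by
        rintro u ⟨hu, hu'⟩
        refine ⟨N₁.inv_mem hu, ?_⟩
        have h1 := k1 u hu u⁻¹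
        rw [mul_inv_cancel, k0, hu'] at h1
        linear_combination -h1 }
  have hVN : V ≤ N₁ := fun u hu => hu.1
  have hV : V ∈ POpen p G := by
    refine ⟨⟨?_⟩, ?_, ?_⟩
    · rintro u ⟨hu, hu'⟩ g
      have h1 : g * u * g⁻¹ ∈ N₁ := hN₁p.1.conj_mem u hu g
      refine ⟨h1, ?_⟩
      have h2 := k1 _ h1 g
      rw [inv_mul_cancel_right, k2 u hu] at h2
      linear_combination -h2 + hu'
    · have h1 : (V : Set G) = (N₁ : Set G) ∩ χ ⁻¹' {c₀} := rfl
      rw [h1]
      exact hN₁p.2.1.inter ((isOpen_discrete _).preimage hχ)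
    · obtain ⟨k, hk⟩ := hN₁p.2.2
      have h1 : V.subgroupOf N₁ = ψ.ker := by
        ext u
        rw [Subgroup.mem_subgroupOf, MonoidHom.mem_ker]
        constructor
        · rintro ⟨-, h⟩
          change Multiplicative.ofAdd (χ u.1 - c₀) = 1
          rw [h, sub_self, ofAdd_zero]
        · intro h
          have h' : χ u.1 - c₀ = 0 := Multiplicative.ofAdd.injective h
          exact ⟨u.2, sub_eq_zero.1 h'⟩
      have h2 : V.relIndex N₁ ∣ p ^ 1 := by
        rw [Subgroup.relIndex, h1, Subgroup.index_ker, pow_one]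
        have h3 := Subgroup.card_subgroup_dvd_card ψ.range
        rwa [Nat.card_eq_fintype_card (α := Multiplicative (ZMod p)), Fintype.card_multiplicative,
          ZMod.card] at h3
      obtain ⟨m, -, hm⟩ := (Nat.dvd_prime_pow hp).1 h2
      refine ⟨m + k, ?_⟩
      rw [← Subgroup.relIndex_mul_index hVN, hm, hk, pow_add]
  have k3 : ∀ u ∈ proPKer p G, ∀ g, χ (g * u) = χ g := by
    intro u hu g
    have h1 : u ∈ V := proPKer_le hV hu
    rw [k2 u h1.1 g, h1.2]
    ring
  have hwd : ∀ g h : G, (QuotientGroup.leftRel (proPKer p G)) g h → χ g = χ h := by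
    intro g h hgh
    rw [QuotientGroup.leftRel_apply] at hgh
    have h1 := k3 _ hgh g
    rw [mul_inv_cancel_left] at h1
    exact h1.symm
  refine ⟨A, B, Quotient.lift χ hwd, hχ.quotient_lift hwd, fun σ τ => ?_⟩
  obtain ⟨g, rfl⟩ := QuotientGroup.mk_surjective σ
  obtain ⟨h, rfl⟩ := QuotientGroup.mk_surjective τ
  have e1 : ∑ i, (A i).1 (g : MaxProP p G) * (B i).1 (h : MaxProP p G) =
      ∑ i, (a i).1 g * (b i).1 h :=
    Finset.sum_congr rfl fun i _ => by rw [hA, hB]
  rw [e1]
  exact e g h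


end

theorem dsc_main {G : Type u} [Group G] [TopologicalSpace G] [IsTopologicalGroup G] [CompactSpace G] {p : ℕ} (hp : p.Prime)
    {f : MaxProP p G → MaxProP p G → ZMod p} (hf : f ∈ Z2 p (MaxProP p G)) {m : ℕ} (a b : Fin m → H1 p G)
    {χ : G → ZMod p} (hχ : Continuous χ)
    (e : ∀ g h : G, f (g : MaxProP p G) (h : MaxProP p G) =
      ∑ i, (a i : G → ZMod p) g * (b i : G → ZMod p) h + (χ g + χ h - χ (g * h))) :
    ∃ (A B : Fin m → H1 p (MaxProP p G)) (X : MaxProP p G → ZMod p), Continuous X ∧ ∀ σ τ : MaxProP p G,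
      f σ τ = ∑ i, (A i : MaxProP p G → ZMod p) σ * (B i : MaxProP p G → ZMod p) τ + (X σ + X τ - X (σ * τ)) := by
  obtain ⟨N, hN, hfN⟩ := exists_factor₂ (G := G) hp (f := f) ((IsLocallyConstant.iff_continuous _).2 hf.1)
  exact desc_main hp hf hN hfN a b hχ e

end MSG
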