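import Pool.Agent.MSG.Nc

/-! # MSG / H9: Hilbert's theorem 90 for equivariant families over the cyclic extension

PROOFS.
* `h90S`: here `p` is prime, `a ∈ Ω^G`, `M = {g | km a g = 0}`, `km a g₀ = 1`; so `g₀ ^ p ∈ M`, `M` is normal, every `g` is `g₀ ^ i * m`.
  Let `W` be the set of the `M`-equivariant functions `x : S → Ω` (`x (m s) = m • x s` for `m ∈ M`; zeros allowed), a commutative monoid (pointwise product),
  with the action `(T x) s = g₀ • x (g₀⁻¹ • s)`, `T ^ p = 1` (because `g₀ ^ p ∈ M`).  Let `Y i = ∏_{j < i} T ^ j y`, `Y 0 = 1`, `Y p = 1` by hypothesis.  For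
  `x ∈ W` put `t = ∑_{i < p} Y i * T ^ i x`; then `y * T t = t`.  If `t s ≠ 0` for all `s` we are done (`y s = t s / (T t) s`).
  The zeros of `t` form a set stable under `M` and `g₀` (`y s ≠ 0`), so under `G`.  So it is enough to choose, for every `G`-orbit with
  representative `s₀`, an `x` with `t s₀ ≠ 0`, and to define `t` orbit by orbit.  The maps `x ↦ (T ^ i x) s₀ = g₀ ^ i • x (g₀ ^ (-i) • s₀)`, `0 ≤ i < p`, are monoid
  homomorphisms `W → Ω`, pairwise different (the constant function `α = rt p a` lies in `W`, and is mapped to `ζ ^ i * α`).  By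
  `linearIndependent_monoidHom` and `Y i s₀ ≠ 0` there is `x ∈ W` with `t s₀ ≠ 0`.
* `h90L`: `h90S` for a one point set `S`.
-/

set_option autoImplicit false
set_option linter.unusedVariables false

namespace MSG

universe u v w

open Pool.Agent.Helper14.Massey

variable {G : Type u} {Ω : Type v} [Group G] [TopologicalSpace G] [Field Ω] [MulSemiringAction G Ω] {p : ℕ} {ζ : Ω}

/-- `M`-equivariant functions -/
private def Eq42 (M : Subgroup G) {S : Type w} [MulAction G S] (x : S → Ω) : Prop :=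
  ∀ m ∈ M, ∀ s, x (m • s) = m • x s

omit [TopologicalSpace G] in
private theorem Eq42.mul {M : Subgroup G} {S : Type w} [MulAction G S] {x y : S → Ω}
    (hx : Eq42 M x) (hy : Eq42 M y) : Eq42 M (fun s => x s * y s) := by
  intro m hm s
  show x (m • s) * y (m • s) = m • (x s * y s)
  rw [hx m hm s, hy m hm s, smul_mul']

omit [TopologicalSpace G] in
private theorem Eq42.sum {M : Subgroup G} {S : Type w} [MulAction G S] {κ : Type*} (I : Finset κ)
    (F : κ → S → Ω) (h : ∀ i ∈ I, Eq42 M (F i)) : Eq42 M (fun s => ∑ i ∈ I, F i s) := by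
  intro m hm s
  rw [Finset.smul_sum]
  exact Finset.sum_congr rfl fun i hi => h i hi m hm s

omit [TopologicalSpace G] in
private theorem Eq42.prod {M : Subgroup G} {S : Type w} [MulAction G S] {κ : Type*} (I : Finset κ)
    (F : κ → S → Ω) (h : ∀ i ∈ I, Eq42 M (F i)) : Eq42 M (fun s => ∏ i ∈ I, F i s) := by
  intro m hm s
  rw [Finset.smul_prod']
  exact Finset.prod_congr rfl fun i hi => h i hi m hm s

omit [TopologicalSpace G] in
private theorem Eq42.conj {M : Subgroup G} {S : Type w} [MulAction G S] {x : S → Ω}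
    (hx : Eq42 M x) (c : G) (hc : ∀ g, g ∈ M ↔ c⁻¹ * g * c ∈ M) :
    Eq42 M (fun s => c • x (c⁻¹ • s)) := by
  intro m hm s
  have h1 : c⁻¹ • m • s = (c⁻¹ * m * c) • c⁻¹ • s := by
    rw [smul_smul, smul_smul, mul_assoc (c⁻¹ * m), mul_inv_cancel, mul_one]
  show c • x (c⁻¹ • m • s) = m • c • x (c⁻¹ • s)
  rw [h1, hx _ ((hc m).1 hm), smul_smul, smul_smul]
  congr 1
  group

/-- the monoid of the `M`-equivariant functions -/
private def W42 (Ω : Type v) [Field Ω] [MulSemiringAction G Ω] (M : Subgroup G) (S : Type w)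
    [MulAction G S] : Submonoid (S → Ω) where
  carrier := {x | Eq42 M x}
  one_mem' := by
    intro m hm s
    show (1 : Ω) = m • (1 : Ω)
    rw [smul_one]
  mul_mem' := by
    intro x y hx hy m hm s
    show x (m • s) * y (m • s) = m • (x s * y s)
    rw [hx m hm s, hy m hm s, smul_mul']

/-- evaluation of a translate at `s₀` -/
private def ph42 (M : Subgroup G) {S : Type w} [MulAction G S] (s₀ : S) (c : G) :
    W42 Ω M S →* Ω where
  toFun x := c • x.1 (c⁻¹ • s₀)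
  map_one' := by
    show c • (1 : Ω) = 1
    rw [smul_one]
  map_mul' x y := by
    show c • (x.1 (c⁻¹ • s₀) * y.1 (c⁻¹ • s₀)) = _
    rw [smul_mul']

private theorem root42 (hG : GA G Ω) (hz : PZ p ζ) (hζ : ∀ g : G, g • ζ = ζ)
    {a : Ω} (ha : Fx G a) {g₀ : G} (hg₀ : km p ζ a g₀ = 1) (i : ℕ) :
    g₀ ^ i • rt p a = ζ ^ i * rt p a := by
  have := hG.alg
  have h1 : g₀ • rt p a = ζ * rt p a := by
    rw [km_root hz ha.1 (rt_pow hz a) (hζ g₀) (ha.2 g₀), hg₀]
    have h2 := zp_nat hz 1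
    rw [Nat.cast_one, pow_one] at h2
    rw [h2]
  induction i with
  | zero => rw [pow_zero, pow_zero, one_smul, one_mul]
  | succ i ih =>
    rw [pow_succ', mul_smul, ih, smul_mul', smul_pow', hζ, h1, pow_succ]
    ring

private theorem ex42 {S : Type w} [MulAction G S] (hG : GA G Ω) (hp : p.Prime) (hz : PZ p ζ)
    (hζ : ∀ g : G, g • ζ = ζ) {a : Ω} (ha : Fx G a) {g₀ : G} (hg₀ : km p ζ a g₀ = 1)
    (Y : ℕ → Ω) (hY : Y 0 ≠ 0) (s₀ : S) :
    ∃ x : S → Ω, Eq42 (kr G p a) x ∧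
      ∑ i ∈ Finset.range p, Y i * (g₀ ^ i • x ((g₀ ^ i)⁻¹ • s₀)) ≠ 0 := by
  have := hG.alg
  by_contra hcon
  push Not at hcon
  have hinj : Function.Injective (fun i : Fin p => ph42 (Ω := Ω) (kr G p a) s₀ (g₀ ^ (i : ℕ))) := by
    intro i j hij
    have hα : Eq42 (kr G p a) (fun _ : S => rt p a) := by
      intro m hm s
      exact (MulAction.mem_stabilizer_iff.1 hm).symm
    have h1 := DFunLike.congr_fun hij (⟨fun _ => rt p a, hα⟩ : W42 Ω (kr G p a) S)
    change g₀ ^ (i : ℕ) • rt p a = g₀ ^ (j : ℕ) • rt p a at h1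
    rw [root42 hG hz hζ ha hg₀, root42 hG hz hζ ha hg₀] at h1
    have h2 := mul_right_cancel₀ (rt_ne hz ha.1) h1
    exact Fin.ext (hz.prim.pow_inj i.2 j.2 h2)
  have hli := (linearIndependent_monoidHom (W42 Ω (kr G p a) S) Ω).comp _ hinj
  rw [Fintype.linearIndependent_iff] at hli
  have h3 := hli (fun i : Fin p => Y i) (by
    funext x
    have h4 := hcon x.1 x.2
    rw [Finset.sum_range] at h4
    rw [Finset.sum_apply]
    exact h4) ⟨0, hp.pos⟩
  exact hY h3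

theorem h90S {S : Type w} [Fintype S] [MulAction G S] (hG : GA G Ω) (hp : p.Prime) (hz : PZ p ζ) (hζ : ∀ g : G, g • ζ = ζ)
    {a : Ω} (ha : Fx G a) {g₀ : G} (hg₀ : km p ζ a g₀ = 1) (y : S → Ω) (hy : ∀ s, y s ≠ 0)
    (hM : ∀ (g : G) s, km p ζ a g = 0 → y (g • s) = g • y s)
    (hN : ∀ s, ∏ i ∈ Finset.range p, g₀ ^ i • y ((g₀ ^ i)⁻¹ • s) = 1) :
    ∃ t : S → Ω, (∀ s, t s ≠ 0) ∧ (∀ (g : G) s, km p ζ a g = 0 → t (g • s) = g • t s) ∧
      ∀ s, y s = t s / (g₀ • t (g₀⁻¹ • s)) := by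
  classical
  have := hG.alg
  set M : Subgroup G := kr G p a with hMdef
  have hMmem : ∀ g, g ∈ M ↔ km p ζ a g = 0 := fun g => mem_kr hG hz hζ ha
  have hconj : ∀ c g : G, g ∈ M ↔ c⁻¹ * g * c ∈ M := fun c g => kr_conj hG hz hζ ha c g
  have hyE : Eq42 M y := fun m hm s => hM m s ((hMmem m).1 hm)
  have hgp : g₀ ^ p ∈ M := kr_pow hG hz hζ ha g₀
  obtain ⟨Y, hYdef⟩ : ∃ Y : ℕ → S → Ω, ∀ i s, Y i s =
      ∏ j ∈ Finset.range i, g₀ ^ j • y ((g₀ ^ j)⁻¹ • s) := ⟨_, fun _ _ => rfl⟩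
  have hYE : ∀ i, Eq42 M (Y i) := by
    intro i
    have h1 := Eq42.prod (Finset.range i) (fun j s => g₀ ^ j • y ((g₀ ^ j)⁻¹ • s))
      (fun j _ => hyE.conj (g₀ ^ j) (hconj (g₀ ^ j)))
    intro m hm s
    rw [hYdef, hYdef]
    exact h1 m hm s
  have hY0 : ∀ s, Y 0 s = 1 := fun s => by rw [hYdef, Finset.prod_range_zero]
  have hYp : ∀ s, Y p s = 1 := fun s => by rw [hYdef]; exact hN s
  -- choose `x` on every orbit
  have hex : ∀ s₀ : S, ∃ x : S → Ω, Eq42 M x ∧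
      ∑ i ∈ Finset.range p, Y i s₀ * (g₀ ^ i • x ((g₀ ^ i)⁻¹ • s₀)) ≠ 0 := fun s₀ =>
    ex42 hG hp hz hζ ha hg₀ (fun i => Y i s₀) (by
      show Y 0 s₀ ≠ 0
      rw [hY0]
      exact one_ne_zero) s₀
  choose xx hxxE hxx using hex
  let rp : S → S := fun s => (Quotient.mk'' s : MulAction.orbitRel.Quotient G S).out
  have hrp : ∀ (g : G) s, rp (g • s) = rp s := by
    intro g s
    have h1 : (Quotient.mk'' (g • s) : MulAction.orbitRel.Quotient G S) = Quotient.mk'' s :=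
      Quotient.sound' (MulAction.orbitRel_apply.2 ⟨g, rfl⟩)
    show (Quotient.mk'' (g • s) : MulAction.orbitRel.Quotient G S).out = _
    rw [h1]
  have hrpo : ∀ s, ∃ g : G, g • rp s = s := by
    intro s
    have h1 : (Quotient.mk'' (rp s) : MulAction.orbitRel.Quotient G S) = Quotient.mk'' s :=
      Quotient.out_eq' _
    have h2 := MulAction.orbitRel_apply.1 (Quotient.exact' h1.symm)
    exact h2
  let x : S → Ω := fun s => xx (rp s) s
  have hxE : Eq42 M x := by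
    intro m hm s
    show xx (rp (m • s)) (m • s) = m • xx (rp s) s
    rw [hrp]
    exact hxxE (rp s) m hm s
  let t : S → Ω := fun s => ∑ i ∈ Finset.range p, Y i s * (g₀ ^ i • x ((g₀ ^ i)⁻¹ • s))
  have htE : Eq42 M t := Eq42.sum (Finset.range p) (fun i s => Y i s * (g₀ ^ i • x ((g₀ ^ i)⁻¹ • s)))
    (fun i _ => (hYE i).mul (hxE.conj (g₀ ^ i) (hconj (g₀ ^ i))))
  have hYs : ∀ i s, y s * (g₀ • Y i (g₀⁻¹ • s)) = Y (i + 1) s := by
    intro i s
    rw [hYdef, hYdef, Finset.prod_range_succ', Finset.smul_prod']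
    rw [pow_zero, inv_one, one_smul, one_smul, mul_comm]
    congr 1
    refine Finset.prod_congr rfl fun j _ => ?_
    rw [smul_smul, smul_smul, ← mul_inv_rev, ← pow_succ']
  have hTt : ∀ s, y s * (g₀ • t (g₀⁻¹ • s)) = t s := by
    intro s
    have h1 : y s * (g₀ • t (g₀⁻¹ • s)) =
        ∑ i ∈ Finset.range p, Y (i + 1) s * (g₀ ^ (i + 1) • x ((g₀ ^ (i + 1))⁻¹ • s)) := by
      show y s * (g₀ • ∑ i ∈ Finset.range p, Y i (g₀⁻¹ • s) *
        (g₀ ^ i • x ((g₀ ^ i)⁻¹ • g₀⁻¹ • s))) = _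
      rw [Finset.smul_sum, Finset.mul_sum]
      refine Finset.sum_congr rfl fun i _ => ?_
      rw [smul_mul', ← mul_assoc, hYs, smul_smul, smul_smul, ← mul_inv_rev, ← pow_succ']
    rw [h1]
    have h2 := Finset.sum_range_succ (fun i => Y i s * (g₀ ^ i • x ((g₀ ^ i)⁻¹ • s))) p
    have h3 := Finset.sum_range_succ' (fun i => Y i s * (g₀ ^ i • x ((g₀ ^ i)⁻¹ • s))) p
    rw [h3] at h2
    have h4 : Y p s * (g₀ ^ p • x ((g₀ ^ p)⁻¹ • s)) =
        Y 0 s * (g₀ ^ 0 • x ((g₀ ^ 0)⁻¹ • s)) := by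
      rw [hYp, hY0, hxE _ (M.inv_mem hgp), smul_smul, mul_inv_cancel, pow_zero, inv_one]
      simp only [one_smul]
    rw [h4] at h2
    exact add_right_cancel h2
  have hz1 : ∀ s, t (g₀⁻¹ • s) = 0 → t s = 0 := by
    intro s h
    rw [← hTt s, h, smul_zero, mul_zero]
  have hz2 : ∀ s, t s = 0 → t (g₀⁻¹ • s) = 0 := by
    intro s h
    have h1 := hTt s
    rw [h] at h1
    rcases mul_eq_zero.1 h1 with h2 | h2
    · exact absurd h2 (hy s)
    · exact (smul_eq_zero_iff_eq g₀).1 h2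
  have hz3 : ∀ (i : ℕ) s, t (g₀ ^ i • s) = 0 → t s = 0 := by
    intro i
    induction i with
    | zero =>
      intro s h
      rwa [pow_zero, one_smul] at h
    | succ i ih =>
      intro s h
      refine ih s ?_
      have h1 := hz2 _ h
      rwa [pow_succ', mul_smul, inv_smul_smul] at h1
  have hz4 : ∀ (g : G) s, t (g • s) = 0 → t s = 0 := by
    intro g s h
    have hm := kr_dec hG hz hζ ha hg₀ g
    set c : G := g₀ ^ (km p ζ a g).val with hc
    have h1 : g • s = c • (c⁻¹ * g) • s := by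
      rw [smul_smul, mul_inv_cancel_left]
    rw [h1] at h
    have h2 := hz3 _ _ h
    rw [htE _ hm] at h2
    exact (smul_eq_zero_iff_eq _).1 h2
  have hrr : ∀ s, rp (rp s) = rp s := by
    intro s
    obtain ⟨g, hg⟩ := hrpo s
    have h1 := hrp g (rp s)
    rw [hg] at h1
    exact h1.symm
  have htn : ∀ s, t s ≠ 0 := by
    intro s h
    obtain ⟨g, hg⟩ := hrpo s
    rw [← hg] at h
    have h1 := hz4 g (rp s) h
    refine hxx (rp s) ?_
    rw [← h1]
    show _ = ∑ i ∈ Finset.range p, Y i (rp s) * (g₀ ^ i • xx (rp ((g₀ ^ i)⁻¹ • rp s))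
      ((g₀ ^ i)⁻¹ • rp s))
    refine Finset.sum_congr rfl fun i _ => ?_
    rw [hrp, hrr]
  refine ⟨t, htn, fun g s hg => htE g ((hMmem g).2 hg) s, fun s => ?_⟩
  have h1 : g₀ • t (g₀⁻¹ • s) ≠ 0 := fun h => htn _ ((smul_eq_zero_iff_eq g₀).1 h)
  rw [eq_div_iff h1]
  exact hTt s

theorem h90L (hG : GA G Ω) (hp : p.Prime) (hz : PZ p ζ) (hζ : ∀ g : G, g • ζ = ζ)
    {a : Ω} (ha : Fx G a) {g₀ : G} (hg₀ : km p ζ a g₀ = 1) {y : Ω} (hy : y ≠ 0)
    (hM : ∀ g : G, km p ζ a g = 0 → g • y = y) (hN : ∏ i ∈ Finset.range p, g₀ ^ i • y = 1) :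
    ∃ t : Ω, t ≠ 0 ∧ (∀ g : G, km p ζ a g = 0 → g • t = t) ∧ y = t / (g₀ • t) := by
  obtain ⟨t, h1, h2, h3⟩ := h90S (S := PUnit.{1}) hG hp hz hζ ha hg₀ (fun _ => y) (fun _ => hy)
    (fun g _ hg => (hM g hg).symm) (fun _ => hN)
  exact ⟨t PUnit.unit, h1 _, fun g hg => (h2 g PUnit.unit hg).symm, h3 PUnit.unit⟩

end MSG
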