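import Pool.Agent.MSG.Jst
import Pool.Agent.MSG.RT

/-! # MSG / Jsb: the Steinberg relation modulo `1 - s`

PROOFS.
* `js_steinberg`: `e = nL z`, `e ≠ 1`.  Let `R = {ρ : Ω | ρ ^ p = e}`, a finite `G`-set (`SubMulAction`), considered also as an `M`-set.  Put `y ρ = z / ρ`.  It is
  `M`-equivariant, and `∏_{i < p} g₀ ^ i • y (g₀ ^ (-i) ρ) = nL z / ρ ^ p = 1`.  `h90S` gives `t : R → Ω`, `M`-equivariant,
  `z / ρ = t ρ / (g₀ • t (g₀⁻¹ ρ))`.  Work with the group `M` (TS1-TS3 for `GA M Ω`, `ι = id`): with `T(x, y)` = `tH` of the `M`-set `R`: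
  `kk z (1-e) ~ T(const z, 1 - ρ)` (`tH_const_left`: `∏_ρ (1 - ρ) = 1 - e`) `~ T(z / ρ, 1 - ρ) + T(ρ, 1 - ρ)`, `T(ρ, 1 - ρ) ~ 0` (`tH_steinberg`; `ρ ≠ 1`),
  `T(z / ρ, 1 - ρ) ~ T(t, 1 - ρ) - T(t^s, 1 - ρ)`, `t^s ρ = g₀ • t (g₀⁻¹ ρ)`.  Put `v = T(t, 1 - ρ)` (extended by `0` to `G`), a sum of symbols over `M`
  (`rosset_tate` for the group `M`).  Finally `T(t^s, 1 - ρ) ~ cj g₀ v`: the family `1 - ρ` is `G`-equivariant, so `(1 - ρ)^s = 1 - ρ`; with the
  roots `g₀ • rt (t (g₀⁻¹ ρ))` of `t^s`: `cS t^s g ρ = cS t (g₀⁻¹ g g₀) (g₀⁻¹ ρ) + ε (g⁻¹ ρ) - ε ρ` for `g ∈ M` (`cS_root`), the same for `1 - ρ`, and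
  `∑_ρ cS t g' (g₀⁻¹ ρ) * cS (1-ρ) h' (g₀⁻¹ g⁻¹ ρ) = tS t (1-ρ) g' h'` (substitute `τ = g₀⁻¹ ρ`, `g₀⁻¹ g⁻¹ ρ = g'⁻¹ τ`, `g' = g₀⁻¹ g g₀`); the
  correction terms are coboundaries as in TS1.
-/

set_option autoImplicit false
set_option linter.unusedVariables false

namespace MSG

universe u v w

open Pool.Agent.Helper14.Massey

/-- the `p`-th roots of a fixed element -/
private def RS (G : Type u) {Ω : Type v} [Group G] [Field Ω] [MulSemiringAction G Ω] (p : ℕ) (e : Ω)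
    (he : ∀ g : G, g • e = e) : SubMulAction G Ω where
  carrier := {ρ | ρ ^ p = e}
  smul_mem' := fun g ρ hρ => by
    have h : ρ ^ p = e := hρ
    show (g • ρ) ^ p = e
    rw [← smul_pow', h, he g]

private theorem RS_finite {G : Type u} {Ω : Type v} [Group G] [Field Ω] [MulSemiringAction G Ω] {p : ℕ} (hp : 0 < p)
    (e : Ω) (he : ∀ g : G, g • e = e) : Finite (RS G p e he) := by
  classical
  have h : {ρ : Ω | ρ ^ p = e} ⊆ ((Polynomial.nthRoots p e).toFinset : Set Ω) := by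
    intro ρ hρ
    rw [Finset.mem_coe, Multiset.mem_toFinset, Polynomial.mem_nthRoots hp]
    exact hρ
  exact (Finset.finite_toSet _).subset h

private theorem RS_prod {G : Type u} {Ω : Type v} [Group G] [Field Ω] [MulSemiringAction G Ω] [IsAlgClosed Ω] {p : ℕ}
    {ζ : Ω} (hz : PZ p ζ) (e : Ω) (he : ∀ g : G, g • e = e) (he0 : e ≠ 0) [Fintype (RS G p e he)] :
    ∏ ρ : RS G p e he, (1 - (ρ : Ω)) = 1 - e := by
  classical
  have hp0 : 0 < p := lt_trans one_pos hz.one_lt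
  have hr : rt p e ^ p = e := rt_pow hz e
  have hr0 : rt p e ≠ 0 := rt_ne hz he0
  have h1 := hz.prim.pow_sub_pow_eq_prod_sub_mul (1 : Ω) (rt p e) hp0
  rw [one_pow, hr] at h1
  rw [h1]
  symm
  refine Finset.prod_bij (fun μ hμ => (⟨μ * rt p e, by
    have h2 : μ ^ p = 1 := by
      rw [Polynomial.mem_nthRootsFinset hp0] at hμ
      exact hμ
    show (μ * rt p e) ^ p = e
    rw [mul_pow, h2, hr, one_mul]⟩ : RS G p e he)) (fun _ _ => Finset.mem_univ _) ?_ ?_ ?_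
  · intro μ _ μ' _ h
    have h2 := congrArg Subtype.val h
    exact mul_right_cancel₀ hr0 h2
  · intro ρ _
    have h2 : (ρ : Ω) ^ p = e := ρ.2
    refine ⟨(ρ : Ω) / rt p e, ?_, ?_⟩
    · rw [Polynomial.mem_nthRootsFinset hp0, div_pow, h2, hr, div_self he0]
    · apply Subtype.ext
      show (ρ : Ω) / rt p e * rt p e = ρ
      rw [div_mul_cancel₀ _ hr0]
  · intro μ _
    rfl

variable {G : Type u} {Ω : Type v} [Group G] [TopologicalSpace G] [Field Ω] [MulSemiringAction G Ω] {p : ℕ} {ζ : Ω}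

variable (hG : GA G Ω) (hp : p.Prime) (hz : PZ p ζ) (hζ : ∀ g : G, g • ζ = ζ) {a : Ω} (ha : Fx G a) {g₀ : G}
  (hg₀ : km p ζ a g₀ = 1)

include hG hp hz hζ ha hg₀

theorem js_steinberg {z : Ω} (hz' : FxM (kr G p a) z) (h1 : nL p g₀ z ≠ 1) :
    JS p ζ (kr G p a) g₀ (kk p ζ z (1 - nL p g₀ z)) := by
  classical
  have := hG.top
  have := hG.alg
  have hMo : IsOpen (kr G p a : Set G) := kr_open hG a
  have GM : GA (kr G p a) Ω := hG.sub (kr G p a) ((kr G p a).isClosed_of_isOpen hMo)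
  have hp0 : 0 < p := hp.pos
  have he : Fx G (nL p g₀ z) := nL_fx hG hz hζ ha hg₀ hz'
  obtain ⟨e, hee⟩ : ∃ e, e = nL p g₀ z := ⟨_, rfl⟩
  rw [← hee] at h1 he ⊢
  have he2 : ∀ g : G, g • e = e := he.2
  have : Finite (RS G p e he2) := RS_finite hp0 e he2
  have : Fintype (RS G p e he2) := Fintype.ofFinite _
  have hρ0 : ∀ ρ : RS G p e he2, (ρ : Ω) ≠ 0 := by
    intro ρ h0
    have h2 : (ρ : Ω) ^ p = e := ρ.2
    rw [h0, zero_pow hp0.ne'] at h2
    exact he.1 h2.symm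
  have hρ1 : ∀ ρ : RS G p e he2, 1 - (ρ : Ω) ≠ 0 := by
    intro ρ h0
    have h2 : (ρ : Ω) ^ p = e := ρ.2
    rw [← sub_eq_zero.1 h0, one_pow] at h2
    exact h1 h2.symm
  have hsm : ∀ (g : G) (ρ : RS G p e he2), ((g • ρ : RS G p e he2) : Ω) = g • (ρ : Ω) :=
    fun g ρ => rfl
  -- Hilbert 90
  obtain ⟨t, ht0, htM, hty⟩ := h90S hG hp hz hζ ha hg₀ (fun ρ : RS G p e he2 => z / (ρ : Ω))
    (fun ρ => div_ne_zero hz'.1 (hρ0 ρ))
    (fun g ρ hg => by
      have h2 : g • z = z := hz'.2 g ((mem_kr hG hz hζ ha).2 hg)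
      show z / (g • (ρ : Ω)) = g • (z / (ρ : Ω))
      rw [smul_div₀', h2])
    (fun ρ => by
      have h2 : ∀ i ∈ Finset.range p, g₀ ^ i • (z / (((g₀ ^ i)⁻¹ • ρ : RS G p e he2) : Ω)) =
          g₀ ^ i • z / (ρ : Ω) := by
        intro i _
        rw [smul_div₀', hsm, smul_inv_smul]
      rw [Finset.prod_congr rfl h2, Finset.prod_div_distrib, Finset.prod_const, Finset.card_range]
      have h3 : (ρ : Ω) ^ p = e := ρ.2
      rw [h3]
      have h4 : ∏ i ∈ Finset.range p, g₀ ^ i • z = e := hee.symm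
      rw [h4, div_self he.1])
  -- conjugation on the kernel
  let cg : kr G p a → kr G p a := fun g => ⟨g₀⁻¹ * g * g₀, (kr_conj hG hz hζ ha g₀ g).1 g.2⟩
  have hcgc : Continuous cg :=
    Continuous.subtype_mk ((continuous_const.mul continuous_subtype_val).mul continuous_const) _
  have hcgm : ∀ g h : kr G p a, cg (g * h) = cg g * cg h := by
    intro g h
    apply Subtype.ext
    show g₀⁻¹ * ((g : G) * (h : G)) * g₀ = (g₀⁻¹ * g * g₀) * (g₀⁻¹ * h * g₀)
    group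
  have hcgi : ∀ (g : kr G p a) (s : RS G p e he2), (cg g)⁻¹ • (g₀⁻¹ • s) = g₀⁻¹ • (g⁻¹ • s) := by
    intro g s
    show (g₀⁻¹ * (g : G) * g₀)⁻¹ • (g₀⁻¹ • s) = g₀⁻¹ • ((g : G)⁻¹ • s)
    rw [smul_smul, smul_smul]
    congr 1
    group
  have hcgs : ∀ (g : kr G p a) (s : RS G p e he2), g₀⁻¹ • (g • s) = cg g • (g₀⁻¹ • s) := by
    intro g s
    show g₀⁻¹ • ((g : G) • s) = (g₀⁻¹ * (g : G) * g₀) • (g₀⁻¹ • s)
    rw [smul_smul, smul_smul]
    congr 1
    group
  have hcgΩ : ∀ (g : kr G p a) (x : Ω), g • (g₀ • x) = g₀ • (cg g • x) := by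
    intro g x
    show (g : G) • (g₀ • x) = g₀ • ((g₀⁻¹ * (g : G) * g₀) • x)
    rw [smul_smul, smul_smul]
    congr 1
    group
  -- the families
  obtain ⟨w, hw⟩ : ∃ w : RS G p e he2 → Ω, w = fun ρ : RS G p e he2 => 1 - (ρ : Ω) := ⟨_, rfl⟩
  obtain ⟨r, hr⟩ : ∃ r : RS G p e he2 → Ω, r = fun ρ : RS G p e he2 => (ρ : Ω) := ⟨_, rfl⟩
  obtain ⟨ts, hts⟩ : ∃ ts : RS G p e he2 → Ω, ts = fun s => g₀ • t (g₀⁻¹ • s) := ⟨_, rfl⟩
  have hwG : ∀ (g : G) s, w (g • s) = g • w s := by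
    intro g s
    rw [hw]
    simp only
    rw [hsm, smul_sub, smul_one]
  have Ew : Ev (kr G p a) w := by
    intro s
    refine ⟨by rw [hw]; exact hρ1 s, fun g => hwG g s⟩
  have Er : Ev (kr G p a) r := by
    intro s
    refine ⟨by rw [hr]; exact hρ0 s, fun g => by rw [hr]; exact hsm g s⟩
  have Et : Ev (kr G p a) t := fun s =>
    ⟨ht0 s, fun g => htM g s ((mem_kr hG hz hζ ha).1 g.2)⟩
  have Ets : Ev (kr G p a) ts := by
    intro s
    rw [hts]
    refine ⟨?_, fun g => ?_⟩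
    · intro h0
      exact ht0 _ ((smul_eq_zero_iff_eq g₀).1 h0)
    · show g₀ • t (g₀⁻¹ • (g • s)) = g • (g₀ • t (g₀⁻¹ • s))
      rw [hcgs, (Et _).2, hcgΩ]
  have Ey : Ev (kr G p a) (fun s => t s / ts s) := by
    intro s
    refine ⟨div_ne_zero (Et s).1 (Ets s).1, fun g => ?_⟩
    show t (g • s) / ts (g • s) = (g : G) • (t s / ts s)
    rw [smul_div₀', (Et s).2, (Ets s).2]
    rfl
  have hOS : OS (kr G p a) (RS G p e he2) := by
    intro s
    have h2 := GM.stab (s : Ω)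
    have h3 : {g : kr G p a | g • s = s} = {g : kr G p a | g • (s : Ω) = (s : Ω)} := by
      ext g
      constructor
      · intro h
        exact congrArg Subtype.val h
      · intro h
        exact Subtype.ext h
    rw [h3]
    exact h2
  have hι : ∀ h : kr G p a, (MonoidHom.id (kr G p a)) h • ζ = ζ := fun h => hζ h
  have hcι : Continuous (MonoidHom.id (kr G p a)) := continuous_id
  -- the chain for the constant family
  have c1 : Co (fun g h : kr G p a => km p ζ z g * km p ζ (1 - e) h)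
      (tH p ζ (MonoidHom.id (kr G p a)) (fun _ : RS G p e he2 => z) w) := by
    have h2 := tH_const_left GM hz hOS hcι hι (y := w) (a := z) Ew
      ⟨hz'.1, fun g => hz'.2 g g.2⟩
    have h3 : ∏ s, w s = 1 - e := by
      rw [hw]
      exact RS_prod hz e he2 he.1
    rw [h3] at h2
    exact Co_symm h2
  have c2 : Co (tH p ζ (MonoidHom.id (kr G p a)) (fun _ : RS G p e he2 => z) w)
      (fun g h => tH p ζ (MonoidHom.id (kr G p a)) (fun s => t s / ts s) w g h +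
        tH p ζ (MonoidHom.id (kr G p a)) r w g h) := by
    have h2 := tH_mul_left GM hz hOS hcι hι Ey Er Ew
    have h3 : (fun s => t s / ts s * r s) = fun _ : RS G p e he2 => z := by
      funext s
      have h4 : z / (s : Ω) = t s / (g₀ • t (g₀⁻¹ • s)) := hty s
      rw [hts, hr]
      show t s / (g₀ • t (g₀⁻¹ • s)) * (s : Ω) = z
      rw [← h4, div_mul_cancel₀ _ (hρ0 s)]
    rw [h3] at h2
    exact h2
  have c3 : Co (tH p ζ (MonoidHom.id (kr G p a)) r w) (fun _ _ => 0) :=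
    tH_steinberg GM hz hOS hcι hι Er Ew (fun s => by
      rw [hr, hw]
      simp only
      ring)
  have c4 : Co (tH p ζ (MonoidHom.id (kr G p a)) (fun s => t s / ts s) w)
      (fun g h => tH p ζ (MonoidHom.id (kr G p a)) t w g h -
        tH p ζ (MonoidHom.id (kr G p a)) ts w g h) :=
    tH_div_left GM hz hOS hcι hι Et Ets Ew
  -- the conjugate
  have c5 : Co (tH p ζ (MonoidHom.id (kr G p a)) ts w)
      (fun g h => tH p ζ (MonoidHom.id (kr G p a)) t w (cg g) (cg h)) := by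
    obtain ⟨ε, -, hε⟩ := cS_root hz Ets (ρ := fun s => g₀ • rt p (t (g₀⁻¹ • s))) (fun s => by
      rw [← smul_pow', rt_pow hz, hts])
    obtain ⟨ε', -, hε'⟩ := cS_root hz Ew (ρ := fun s => g₀ • rt p (w (g₀⁻¹ • s))) (fun s => by
      rw [← smul_pow', rt_pow hz, hwG, smul_inv_smul])
    have hA : ∀ (g : kr G p a) s, cS p ζ ts g s =
        cS p ζ t (cg g) (g₀⁻¹ • s) + ε (g⁻¹ • s) - ε s := by
      intro g s
      refine hε g s _ (hζ g) ?_
      show g • (g₀ • rt p (t (g₀⁻¹ • (g⁻¹ • s)))) =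
        zp ζ (cS p ζ t (cg g) (g₀⁻¹ • s)) * (g₀ • rt p (t (g₀⁻¹ • s)))
      rw [hcgΩ, ← hcgi, cS_spec hz Et (cg g) (g₀⁻¹ • s), smul_mul', smul_zp (hζ g₀)]
    have hB : ∀ (g : kr G p a) s, cS p ζ w g s =
        cS p ζ w (cg g) (g₀⁻¹ • s) + ε' (g⁻¹ • s) - ε' s := by
      intro g s
      refine hε' g s _ (hζ g) ?_
      show g • (g₀ • rt p (w (g₀⁻¹ • (g⁻¹ • s)))) =
        zp ζ (cS p ζ w (cg g) (g₀⁻¹ • s)) * (g₀ • rt p (w (g₀⁻¹ • s)))
      rw [hcgΩ, ← hcgi, cS_spec hz Ew (cg g) (g₀⁻¹ • s), smul_mul', smul_zp (hζ g₀)]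
    have hcoc : ∀ (g h : kr G p a) s, cS p ζ w (cg (g * h)) (g₀⁻¹ • s) =
        cS p ζ w (cg g) (g₀⁻¹ • s) + cS p ζ w (cg h) (g₀⁻¹ • (g⁻¹ • s)) := by
      intro g h s
      rw [hcgm, cS_hom hz Ew (hζ (cg g)), hcgi]
    have d1 : Co (fun g h : kr G p a => ∑ s : RS G p e he2,
        (ε (g⁻¹ • s) - ε s) * cS p ζ w (cg h) (g₀⁻¹ • (g⁻¹ • s))) (fun _ _ => 0) := by
      refine ⟨fun g => ∑ s : RS G p e he2, ε s * cS p ζ w (cg g) (g₀⁻¹ • s), ?_, fun g h => ?_⟩
      · refine continuous_finsetSum _ fun s _ => ?_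
        exact continuous_const.mul ((cS_cont GM hOS p ζ w (g₀⁻¹ • s)).comp hcgc)
      · have h2 : ∑ s : RS G p e he2, ε s * cS p ζ w (cg h) (g₀⁻¹ • s) =
            ∑ s : RS G p e he2, ε (g⁻¹ • s) * cS p ζ w (cg h) (g₀⁻¹ • (g⁻¹ • s)) :=
          (Equiv.sum_comp (MulAction.toPerm g⁻¹) fun s : RS G p e he2 =>
            ε s * cS p ζ w (cg h) (g₀⁻¹ • s)).symm
        simp only
        rw [h2, zero_add, ← Finset.sum_add_distrib, ← Finset.sum_sub_distrib]
        refine Finset.sum_congr rfl fun s _ => ?_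
        rw [hcoc]
        ring
    have d2 := corr_right GM hz hOS hcι hι Ets ε'
    have d3 : Co (fun g h : kr G p a => tH p ζ (MonoidHom.id (kr G p a)) t w (cg g) (cg h))
        (fun g h => tH p ζ (MonoidHom.id (kr G p a)) t w (cg g) (cg h)) := Co_refl _
    have d4 := Co_add d3 (Co_add d1 d2)
    have h5 : (fun g h : kr G p a => tH p ζ (MonoidHom.id (kr G p a)) t w (cg g) (cg h) +
        ((fun _ _ => (0 : ZMod p)) g h + (fun _ _ => (0 : ZMod p)) g h)) =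
        fun g h => tH p ζ (MonoidHom.id (kr G p a)) t w (cg g) (cg h) := by
      funext g h
      simp
    have h6 : tH p ζ (MonoidHom.id (kr G p a)) ts w = fun g h : kr G p a =>
        tH p ζ (MonoidHom.id (kr G p a)) t w (cg g) (cg h) +
        (∑ s : RS G p e he2, (ε (g⁻¹ • s) - ε s) * cS p ζ w (cg h) (g₀⁻¹ • (g⁻¹ • s)) +
          ∑ s : RS G p e he2, cS p ζ ts ((MonoidHom.id (kr G p a)) g) s *
            (ε' (((MonoidHom.id (kr G p a)) h)⁻¹ • ((MonoidHom.id (kr G p a)) g)⁻¹ • s) -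
              ε' (((MonoidHom.id (kr G p a)) g)⁻¹ • s))) := by
      funext g h
      have h7 : tH p ζ (MonoidHom.id (kr G p a)) t w (cg g) (cg h) =
          ∑ s : RS G p e he2, cS p ζ t (cg g) (g₀⁻¹ • s) *
            cS p ζ w (cg h) (g₀⁻¹ • (g⁻¹ • s)) := by
        have h8 : tH p ζ (MonoidHom.id (kr G p a)) t w (cg g) (cg h) =
            ∑ s : RS G p e he2, cS p ζ t (cg g) s * cS p ζ w (cg h) ((cg g)⁻¹ • s) := rfl
        rw [h8, ← Equiv.sum_comp (MulAction.toPerm g₀⁻¹) fun s : RS G p e he2 =>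
          cS p ζ t (cg g) s * cS p ζ w (cg h) ((cg g)⁻¹ • s)]
        refine Finset.sum_congr rfl fun s _ => ?_
        rw [MulAction.toPerm_apply, hcgi]
      have h9 : tH p ζ (MonoidHom.id (kr G p a)) ts w g h =
          ∑ s : RS G p e he2, cS p ζ ts g s * cS p ζ w h (g⁻¹ • s) := rfl
      rw [h7, h9, ← Finset.sum_add_distrib, ← Finset.sum_add_distrib]
      refine Finset.sum_congr rfl fun s _ => ?_
      simp only [MonoidHom.id_apply]
      rw [hB h (g⁻¹ • s), hA g s]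
      ring
    rw [h6]
    exact Co_trans d4 (by rw [h5]; exact Co_refl _)
  -- the cochain on `G`
  obtain ⟨v, hv⟩ : ∃ v : G → G → ZMod p, ∀ g h : kr G p a,
      v g h = tH p ζ (MonoidHom.id (kr G p a)) t w g h := by
    refine ⟨fun g h => if hg : g ∈ kr G p a then (if hh : h ∈ kr G p a then
      tH p ζ (MonoidHom.id (kr G p a)) t w ⟨g, hg⟩ ⟨h, hh⟩ else 0) else 0, fun g h => ?_⟩
    simp only
    rw [dif_pos g.2, dif_pos h.2]
  have hvM : (fun g h : kr G p a => v g h) = tH p ζ (MonoidHom.id (kr G p a)) t w := by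
    funext g h
    exact hv g h
  refine ⟨v, ?_, ?_⟩
  · rw [SyM_iff hG hMo, hvM]
    exact rosset_tate GM hz hOS hcι hι Et Ew
  · rw [CoM_iff hG hMo]
    have h2 : (fun g h : kr G p a => v g h - cj g₀ v g h) = fun g h =>
        tH p ζ (MonoidHom.id (kr G p a)) t w g h -
          tH p ζ (MonoidHom.id (kr G p a)) t w (cg g) (cg h) := by
      funext g h
      rw [hv g h]
      have h3 : cj g₀ v (g : G) (h : G) = v (cg g) (cg h) := rfl
      rw [h3, hv]
    rw [h2]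
    have h4 : (fun g h : kr G p a => kk p ζ z (1 - e) (g : G) (h : G)) =
        fun g h : kr G p a => km p ζ z g * km p ζ (1 - e) h := rfl
    rw [h4]
    refine Co_trans c1 (Co_trans c2 ?_)
    have h6 : ∀ {f f' f₁ f₁' : kr G p a → kr G p a → ZMod p}, Co f f' → (∀ g h, f₁ g h = f g h) →
        (∀ g h, f₁' g h = f' g h) → Co f₁ f₁' := by
      intro f f' f₁ f₁' h hf hf'
      have e1 : f₁ = f := by
        funext g h
        exact hf g h
      have e2 : f₁' = f' := by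
        funext g h
        exact hf' g h
      rw [e1, e2]
      exact h
    have c4' : Co (tH p ζ (MonoidHom.id (kr G p a)) (fun s => t s / ts s) w)
        (fun g h => tH p ζ (MonoidHom.id (kr G p a)) t w g h +
          -tH p ζ (MonoidHom.id (kr G p a)) ts w g h) :=
      h6 c4 (fun _ _ => rfl) (fun _ _ => (sub_eq_add_neg _ _).symm)
    have h5 := Co_add (Co_trans c4' (Co_add (Co_refl (tH p ζ (MonoidHom.id (kr G p a)) t w))
      (Co_neg c5))) c3
    refine h6 h5 (fun g h => rfl) (fun g h => ?_)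
    ring

end MSG
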