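import Pool.Agent.MSG.Rlt

/-! # MSG / Rlb: conjugation, subgroups and morphisms for `CoM`, `SyM`

PROOFS.
* `CoM_cj`: witness `χ (c⁻¹ g c)`.  `km_cj`: `c • rt a` is a root of `c • a`, `g • c • rt a = c • (c⁻¹ g c) • rt a`, `c` fixes `ζ` (`km_eq`).  `SyM_cj`: entries `c • a` (fixed by `M`).
* `CoM_cj_self`: `c ∈ M`, `f` a cocycle on `M`: `CoM_iff` and `Co_conj` for the group `M`.
* `CoM_sub`, `SyM_sub`: for `M ≤ P` compare `G` and the group `P` (functions on `P` extend by `0`, continuous because `P` is open and closed; `M.subgroupOf P`; entries fixed by `M` are the same, `km` of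
  `P` is the restriction of `km` of `G`).
* `CoM_mo`, `SyM_mo`: `χ ∘ m.r`, entries `m.ψ a` (`Mo.km`; the elements of `M` fix `ζ` and the entries).
-/

set_option autoImplicit false
set_option linter.unusedVariables false

namespace MSG

universe u v w

open Pool.Agent.Helper14.Massey

section

variable {G : Type u} {Ω : Type v} [Group G] [TopologicalSpace G] [Field Ω] [MulSemiringAction G Ω] {n : ℕ} {ζ : Ω}
  {M N : Subgroup G} {f f' f'' f₁ f₁' : G → G → ZMod n}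

omit [TopologicalSpace G] in
private theorem cj_mul {c g h : G} : c⁻¹ * (g * h) * c = (c⁻¹ * g * c) * (c⁻¹ * h * c) := by group

omit [TopologicalSpace G] in
private theorem cj_smul {X : Type*} [MulAction G X] (c g : G) (x : X) : g • c • x = c • (c⁻¹ * g * c) • x := by
  rw [smul_smul, smul_smul]
  congr 1
  group

private theorem km_cj' (hG : GA G Ω) (hz : PZ n ζ) {c : G} (hcz : c • ζ = ζ) {a : Ω} (ha : a ≠ 0) {g : G}
    (hg : g • ζ = ζ) (hga : g • (c • a) = c • a) : km n ζ (c • a) g = km n ζ a (c⁻¹ * g * c) := by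
  have := hG.alg
  have hcz' : c⁻¹ • ζ = ζ := by
    rw [inv_smul_eq_iff, hcz]
  have h1 : (c⁻¹ * g * c) • ζ = ζ := by
    rw [mul_smul, mul_smul, hcz, hg, hcz']
  have h2 : (c⁻¹ * g * c) • a = a := by
    rw [mul_smul, mul_smul, hga, inv_smul_smul]
  have hca : c • a ≠ 0 := by
    intro h
    exact ha (by simpa using congrArg (fun x => c⁻¹ • x) h)
  refine km_eq hz hca (r := c • rt n a) ?_ hg hga ?_
  · rw [← smul_pow', rt_pow hz]
  · rw [cj_smul, km_root hz ha (rt_pow hz a) h1 h2, smul_mul', smul_zp hcz]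

theorem CoM_cj (hG : GA G Ω) {c : G} (hc : ∀ g, g ∈ M → c⁻¹ * g * c ∈ M) (hf : CoM M f f') :
    CoM M (cj c f) (cj c f') := by
  have := hG.top
  obtain ⟨χ, hχ, h⟩ := hf
  refine ⟨fun g => χ (c⁻¹ * g * c), ?_, ?_⟩
  · exact hχ.comp ((continuous_const.mul continuous_id).mul continuous_const)
  · intro g hg h' hh'
    change f _ _ = f' _ _ + (χ _ + χ _ - χ _)
    rw [cj_mul]
    exact h _ (hc g hg) _ (hc h' hh')

theorem SyM_cj (hG : GA G Ω) (hz : PZ n ζ) {c : G} (hcz : c • ζ = ζ) (hM : ∀ g ∈ M, g • ζ = ζ)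
    (hc : ∀ g, g ∈ M ↔ c⁻¹ * g * c ∈ M) (hf : SyM n ζ M f) : SyM n ζ M (cj c f) := by
  obtain ⟨m, a, b, ha, hb, h⟩ := hf
  have hfx : ∀ x : Ω, FxM M x → FxM M (c • x) := by
    intro x hx
    refine ⟨?_, ?_⟩
    · intro h0
      exact hx.1 (by simpa using congrArg (fun x => c⁻¹ • x) h0)
    · intro g hg
      rw [cj_smul, hx.2 _ ((hc g).1 hg)]
  refine ⟨m, fun i => c • a i, fun i => c • b i, fun i => hfx _ (ha i), fun i => hfx _ (hb i), ?_⟩
  refine CoM_trans (CoM_cj hG (fun g hg => (hc g).1 hg) h) (CoM_of_eq fun x hx y hy => ?_)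
  change ∑ i, kk n ζ (a i) (b i) (c⁻¹ * x * c) (c⁻¹ * y * c) = ∑ i, kk n ζ (c • a i) (c • b i) x y
  refine Finset.sum_congr rfl fun i _ => ?_
  unfold kk
  rw [km_cj' hG hz hcz (ha i).1 (hM x hx) ((hfx _ (ha i)).2 x hx),
    km_cj' hG hz hcz (hb i).1 (hM y hy) ((hfx _ (hb i)).2 y hy)]

theorem km_cj (hG : GA G Ω) (hz : PZ n ζ) {c : G} (hcz : c • ζ = ζ) {a : Ω} (ha : a ≠ 0) {g : G} (hg : g • ζ = ζ)
    (hga : g • (c • a) = c • a) : km n ζ (c • a) g = km n ζ a (c⁻¹ * g * c) := by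
  exact km_cj' hG hz hcz ha hg hga

theorem CoM_cj_self (hG : GA G Ω) (hM : IsOpen (M : Set G)) {c : G} (hc : c ∈ M)
    (hf : (fun g h : M => f g h) ∈ Z2 n M) : CoM M (cj c f) f := by
  have := hG.top
  rw [CoM_iff hG hM]
  exact Co_conj hf (⟨c, hc⟩ : M)

theorem CoM_sub (hG : GA G Ω) {P : Subgroup G} (hP : IsOpen (P : Set G)) (hMP : M ≤ P) :
    CoM M f f' ↔ CoM (M.subgroupOf P) (fun g h : P => f g h) (fun g h : P => f' g h) := by
  have := hG.top
  constructor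
  · rintro ⟨χ, hχ, h⟩
    refine ⟨fun g => χ g, hχ.comp continuous_subtype_val, ?_⟩
    intro g hg h' hh'
    exact h g (Subgroup.mem_subgroupOf.1 hg) h' (Subgroup.mem_subgroupOf.1 hh')
  · rintro ⟨χ, hχ, h⟩
    classical
    obtain ⟨ψ, hψ⟩ : ∃ ψ : G → ZMod n, ψ = fun g => if hg : g ∈ P then χ ⟨g, hg⟩ else 0 := ⟨_, rfl⟩
    have hψP : ∀ g : P, ψ g = χ g := by
      intro g
      rw [hψ]
      simp only [SetLike.coe_mem, dif_pos]
    have hcl : IsClosed (P : Set G) := Subgroup.isClosed_of_isOpen P hP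
    have hψc : Continuous ψ := by
      rw [continuous_iff_continuousAt]
      intro x
      by_cases hx : x ∈ P
      · have h2 : ψ ∘ (Subtype.val : P → G) = χ := funext hψP
        have h3 : ContinuousAt (ψ ∘ (Subtype.val : P → G)) ⟨x, hx⟩ := by
          rw [h2]
          exact hχ.continuousAt
        exact (hP.isOpenEmbedding_subtypeVal.continuousAt_iff (g := ψ)).1 h3
      · have h1 : ψ =ᶠ[nhds x] fun _ => 0 := by
          filter_upwards [hcl.isOpen_compl.mem_nhds hx] with y hy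
          have hy' : y ∉ P := hy
          rw [hψ]
          simp only
          rw [dif_neg hy']
        exact continuousAt_const.congr h1.symm
    refine ⟨ψ, hψc, ?_⟩
    intro g hg h' hh'
    have h1 := h ⟨g, hMP hg⟩ (Subgroup.mem_subgroupOf.2 hg) ⟨h', hMP hh'⟩ (Subgroup.mem_subgroupOf.2 hh')
    rw [← hψP, ← hψP, ← hψP] at h1
    exact h1

theorem SyM_sub (hG : GA G Ω) {P : Subgroup G} (hP : IsOpen (P : Set G)) (hMP : M ≤ P) :
    SyM n ζ M f ↔ SyM n ζ (M.subgroupOf P) (fun g h : P => f g h) := by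
  constructor
  · rintro ⟨m, a, b, ha, hb, h⟩
    exact ⟨m, a, b, fun i => ⟨(ha i).1, fun g hg => (ha i).2 g (Subgroup.mem_subgroupOf.1 hg)⟩,
      fun i => ⟨(hb i).1, fun g hg => (hb i).2 g (Subgroup.mem_subgroupOf.1 hg)⟩,
      (CoM_sub hG hP hMP).1 h⟩
  · rintro ⟨m, a, b, ha, hb, h⟩
    exact ⟨m, a, b,
      fun i => ⟨(ha i).1, fun g hg => (ha i).2 ⟨g, hMP hg⟩ (Subgroup.mem_subgroupOf.2 hg)⟩,
      fun i => ⟨(hb i).1, fun g hg => (hb i).2 ⟨g, hMP hg⟩ (Subgroup.mem_subgroupOf.2 hg)⟩,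
      (CoM_sub hG hP hMP).2 h⟩

end

section mo

variable {G Ω G' Ω' : Type u} [Group G] [TopologicalSpace G] [Field Ω] [MulSemiringAction G Ω]
  [Group G'] [TopologicalSpace G'] [Field Ω'] [MulSemiringAction G' Ω'] {n : ℕ} {ζ : Ω} {M : Subgroup G}
  {f f' : G → G → ZMod n}

theorem CoM_mo (m : Mo G Ω G' Ω') (hf : CoM M f f') :
    CoM (M.comap m.r) (fun g h => f (m.r g) (m.r h)) (fun g h => f' (m.r g) (m.r h)) := by
  obtain ⟨χ, hχ, h⟩ := hf
  refine ⟨fun g => χ (m.r g), hχ.comp m.cont, ?_⟩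
  intro g hg h' hh'
  change f (m.r g) (m.r h') = f' (m.r g) (m.r h') + (χ (m.r g) + χ (m.r h') - χ (m.r (g * h')))
  rw [h _ (Subgroup.mem_comap.1 hg) _ (Subgroup.mem_comap.1 hh'), map_mul]

theorem SyM_mo (m : Mo G Ω G' Ω') [IsAlgClosed Ω] [IsAlgClosed Ω'] (hz : PZ n ζ) (hM : ∀ g ∈ M, g • ζ = ζ)
    (hf : SyM n ζ M f) : SyM n (m.ψ ζ) (M.comap m.r) (fun g h => f (m.r g) (m.r h)) := by
  obtain ⟨k, a, b, ha, hb, h⟩ := hf
  have hfx : ∀ x : Ω, FxM M x → FxM (M.comap m.r) (m.ψ x) := by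
    intro x hx
    refine ⟨(map_ne_zero_iff _ m.ψ.injective).2 hx.1, ?_⟩
    intro g hg
    rw [← m.comp, hx.2 _ (Subgroup.mem_comap.1 hg)]
  refine ⟨k, fun i => m.ψ (a i), fun i => m.ψ (b i), fun i => hfx _ (ha i), fun i => hfx _ (hb i), ?_⟩
  refine CoM_trans (CoM_mo m h) (CoM_of_eq fun x hx y hy => ?_)
  refine Finset.sum_congr rfl fun i _ => ?_
  have hx' := Subgroup.mem_comap.1 hx
  have hy' := Subgroup.mem_comap.1 hy
  unfold kk
  rw [m.km hz (ha i).1 (hM _ hx') ((ha i).2 _ hx'), m.km hz (hb i).1 (hM _ hy') ((hb i).2 _ hy')]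

end mo

end MSG
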