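import Pool.Agent.MSG.H9
import Pool.Agent.MSG.Rlb

/-! # MSG / Jst: the Steinberg relation for `N z ⊗ d ↦ {z, d}` modulo `1 - s`

`p` prime, `a ∈ Ω^G`, `M = kr G p a`, `km a g₀ = 1`; `s` = conjugation with `g₀`.  `InS v f`: `f ~ v - cj g₀ v` on `M` with `v` a sum of symbols over `M`.

PROOFS.
* `js_add`, `js_neg`, `js_zero`, `js_congr`: from the rules in Rlt (`CoM_cj`).
* `js_norm`: `z, z'` fixed by `M` with `nL z = nL z'`: `z / z' = t / (g₀ • t)` (`h90L`); `v = kk t d`: `kk (z/z') d ~ kk t d - kk (g₀ • t) d` (`km_mul`,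
  `km_inv`) and `kk (g₀ • t) d g h = kk t d (g₀⁻¹ g g₀) (g₀⁻¹ h g₀)` for `g, h ∈ M` (`km_cj`, `g₀ • d = d`).
-/

set_option autoImplicit false
set_option linter.unusedVariables false

namespace MSG

universe u v w

open Pool.Agent.Helper14.Massey

section

variable {G : Type u} {Ω : Type v} [Group G] [TopologicalSpace G] [Field Ω] [MulSemiringAction G Ω] {p : ℕ} {ζ : Ω}

/-- on `M` the cochain `f` is `v - v^s` up to a coboundary, `v` a sum of symbols over `M` -/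
def JS (p : ℕ) (ζ : Ω) (M : Subgroup G) (g₀ : G) (f : G → G → ZMod p) : Prop :=
  ∃ v : G → G → ZMod p, SyM p ζ M v ∧ CoM M f (fun g h => v g h - cj g₀ v g h)

variable (hG : GA G Ω) (hp : p.Prime) (hz : PZ p ζ) (hζ : ∀ g : G, g • ζ = ζ) {a : Ω} (ha : Fx G a) {g₀ : G}
  (hg₀ : km p ζ a g₀ = 1) {f f' : G → G → ZMod p}

include hG hp hz hζ ha hg₀

theorem js_zero : JS p ζ (kr G p a) g₀ (fun _ _ => 0) := by
  refine ⟨fun _ _ => 0, SyM_zero, CoM_of_eq ?_⟩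
  intro x _ y _
  simp only [cj, sub_zero]

theorem js_add (h : JS p ζ (kr G p a) g₀ f) (h' : JS p ζ (kr G p a) g₀ f') :
    JS p ζ (kr G p a) g₀ (fun x y => f x y + f' x y) := by
  obtain ⟨v, hv, hc⟩ := h
  obtain ⟨v', hv', hc'⟩ := h'
  refine ⟨fun x y => v x y + v' x y, SyM_add hv hv', CoM_trans (CoM_add hc hc') (CoM_of_eq ?_)⟩
  intro x _ y _
  simp only [cj]
  ring

theorem js_neg (h : JS p ζ (kr G p a) g₀ f) : JS p ζ (kr G p a) g₀ (fun x y => - f x y) := by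
  obtain ⟨v, hv, hc⟩ := h
  refine ⟨fun x y => - v x y, SyM_neg hG hz (fun g _ => hζ g) hv,
    CoM_trans (CoM_neg hc) (CoM_of_eq ?_)⟩
  intro x _ y _
  simp only [cj]
  ring

theorem js_congr (hc : CoM (kr G p a) f f') (h : JS p ζ (kr G p a) g₀ f') : JS p ζ (kr G p a) g₀ f := by
  obtain ⟨v, hv, hc'⟩ := h
  exact ⟨v, hv, CoM_trans hc hc'⟩

theorem js_norm {z z' d : Ω} (hz' : FxM (kr G p a) z) (hz'' : FxM (kr G p a) z') (hd : Fx G d)
    (h : nL p g₀ z = nL p g₀ z') : JS p ζ (kr G p a) g₀ (fun x y => kk p ζ z d x y - kk p ζ z' d x y) := by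
  haveI := hG.alg
  have hz0 : z ≠ 0 := hz'.1
  have hz0' : z' ≠ 0 := hz''.1
  have hy0 : z / z' ≠ 0 := div_ne_zero hz0 hz0'
  have hyM : ∀ g : G, km p ζ a g = 0 → g • (z / z') = z / z' := by
    intro g hg
    have hgM : g ∈ kr G p a := (mem_kr hG hz hζ ha).mpr hg
    rw [smul_div₀', hz'.2 g hgM, hz''.2 g hgM]
  have hN0 : nL p g₀ z' ≠ 0 := (nL_fx hG hz hζ ha hg₀ hz'').1
  have hN : nL p g₀ (z / z') = 1 := by
    have h1 := nL_mul (p := p) g₀ (z / z') z'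
    rw [div_mul_cancel₀ z hz0', h] at h1
    exact (mul_eq_right₀ hN0).mp h1.symm
  obtain ⟨t, ht0, htM, hyt⟩ := h90L hG hp hz hζ ha hg₀ hy0 hyM hN
  have htM' : ∀ g ∈ kr G p a, g • t = t := fun g hg => htM g ((mem_kr hG hz hζ ha).mp hg)
  have hgt0 : g₀ • t ≠ 0 := (smul_ne_zero_iff_ne g₀).mpr ht0
  refine ⟨kk p ζ t d, SyM_kk ⟨ht0, htM'⟩ ⟨hd.1, fun g _ => hd.2 g⟩, CoM_of_eq ?_⟩
  intro x hx y hy
  have hxc : g₀⁻¹ * x * g₀ ∈ kr G p a := (kr_conj hG hz hζ ha g₀ x).mp hx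
  have hxt : x • (g₀ • t) = g₀ • t := by
    have h2 := htM' _ hxc
    calc x • (g₀ • t) = g₀ • ((g₀⁻¹ * x * g₀) • t) := by
          rw [← mul_smul, ← mul_smul]
          congr 1
          group
      _ = g₀ • t := by rw [h2]
  have hxz : x • z = z := hz'.2 x hx
  have hxz' : x • z' = z' := hz''.2 x hx
  have hk1 : km p ζ (g₀ • t) x = km p ζ t (g₀⁻¹ * x * g₀) :=
    km_cj hG hz (hζ g₀) ht0 (hζ x) hxt
  have hk2 : km p ζ d y = km p ζ d (g₀⁻¹ * y * g₀) := by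
    have h3 := km_cj (a := d) hG hz (hζ g₀) hd.1 (hζ y) (by rw [hd.2 g₀, hd.2 y])
    rwa [hd.2 g₀] at h3
  have hzz : z * (g₀ • t) = z' * t := by
    have h4 := hyt
    rw [div_eq_div_iff hz0' hgt0] at h4
    rw [h4]
    ring
  have hk3 : km p ζ z x + km p ζ (g₀ • t) x = km p ζ z' x + km p ζ t x := by
    rw [← km_mul hz hz0 hgt0 (hζ x) hxz hxt, ← km_mul hz hz0' ht0 (hζ x) hxz' (htM' x hx), hzz]
  simp only [kk, cj]
  rw [← hk1, ← hk2]
  linear_combination (km p ζ d y) * hk3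

end

end MSG
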