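import Pool.Agent.MSG.Km

/-! # MSG / Kg: Kummer theory for the pair `(G, Ω)`

PROOF of `kg` (Lagrange resolvents).  `N = {g | c g = 0}` is an open, hence closed, normal subgroup.  The image of `c` is a
subgroup of the finite cyclic group `ZMod n`, so it is cyclic: there is `g₁` such that every `c g` is `i • c g₁`,
`i : ℕ`.  Let `d` be the additive order of `c g₁` (`d > 0`); then `zp ζ (c g₁)` has order `d`, and
`g₁ ^ i ∉ N` for `0 < i < d`, `g₁ ^ d ∈ N`.  Let `M` be the subfield (or submonoid) of the elements of `Ω` fixed by `N`; `g₁ M ⊆ M`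
(`N` is normal).  The monoid homomorphisms `x ↦ g₁ ^ i • x`, `0 ≤ i < d`, from `M` to `Ω` are pairwise different: if `g₁ ^ i` and `g₁ ^ j`
(`i < j`) agree on `M` then `g₁ ^ (j - i)` fixes `M`, contradicting `hG.sep N`.  By `linearIndependent_monoidHom` there is `x ∈ M` with
`δ = ∑ i < d, (zp ζ (c g₁))⁻¹ ^ i * (g₁ ^ i • x) ≠ 0`.  Then `g₁ • δ = zp ζ (c g₁) * δ` (shift of the summation index, `g₁ ^ d • x = x`;
`g₁` fixes `ζ`), `n • δ = δ` for `n ∈ N` (`n g₁ ^ i = g₁ ^ i n'`).  Every `g` is `g₁ ^ i * n` with `n ∈ N`, so `g • δ = zp ζ (c g) * δ`.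
`km_surj`: `a = δ ^ n` is fixed by `G`; `km_eq`.
`km_gen`: (for subgroups) a corollary of `km_surj` and `GA.sub` is not stated here.
-/

set_option autoImplicit false
set_option linter.unusedVariables false

namespace MSG

universe u v w

open Pool.Agent.Helper14.Massey

variable {G : Type u} {Ω : Type v} [Group G] [TopologicalSpace G] [Field Ω] [MulSemiringAction G Ω] {n : ℕ} {ζ : Ω}

theorem kg (hG : GA G Ω) (hz : PZ n ζ) (hζ : ∀ g : G, g • ζ = ζ) (c : G → ZMod n) (hc : Continuous c)
    (hadd : ∀ g h, c (g * h) = c g + c h) : ∃ δ : Ω, δ ≠ 0 ∧ ∀ g : G, g • δ = zp ζ (c g) * δ := by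
  classical
  have := hz.neZero
  have c1 : c 1 = 0 := by
    have h := hadd 1 1
    rw [mul_one] at h
    exact left_eq_add.1 h
  have cinv : ∀ g, c g⁻¹ = - c g := by
    intro g
    have h := hadd g⁻¹ g
    rw [inv_mul_cancel, c1] at h
    exact eq_neg_of_add_eq_zero_left h.symm
  let N : Subgroup G :=
    { carrier := {g | c g = 0}
      mul_mem' := by
        intro a b ha hb
        change c (a * b) = 0
        rw [hadd, (ha : c a = 0), (hb : c b = 0), add_zero]
      one_mem' := c1
      inv_mem' := by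
        intro a ha
        change c a⁻¹ = 0
        rw [cinv, (ha : c a = 0), neg_zero] }
  have hN : IsClosed (N : Set G) := by
    have h : (N : Set G) = c ⁻¹' {0} := rfl
    rw [h]
    exact IsClosed.preimage hc (isClosed_discrete _)
  let M : Submonoid Ω :=
    { carrier := {x | ∀ n ∈ N, n • x = x}
      mul_mem' := by
        intro a b ha hb n hn
        rw [smul_mul', ha n hn, hb n hn]
      one_mem' := by
        intro n _
        exact smul_one n }
  let γ : Set.range c → G := fun v => v.2.choose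
  have hγ : ∀ v : Set.range c, c (γ v) = v := fun v => v.2.choose_spec
  let σ : Set.range c → (M →* Ω) := fun v =>
    { toFun := fun x => γ v • (x : Ω)
      map_one' := smul_one _
      map_mul' := fun x y => smul_mul' _ _ _ }
  have hσ : Function.Injective σ := by
    intro v w hvw
    by_contra hne
    have hg : (γ v)⁻¹ * γ w ∉ N := by
      intro h
      have h' : c ((γ v)⁻¹ * γ w) = 0 := h
      rw [hadd, cinv, hγ, hγ, neg_add_eq_zero] at h'
      exact hne (Subtype.ext h')
    obtain ⟨x, hx, hgx⟩ := hG.sep N hN _ hg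
    apply hgx
    have h2 : γ v • x = γ w • x := congrArg (fun f : M →* Ω => f ⟨x, hx⟩) hvw
    rw [mul_smul, ← h2, inv_smul_smul]
  have hli := (linearIndependent_monoidHom M Ω).comp σ hσ
  have hne : (∑ v : Set.range c, zp ζ (-(v : ZMod n)) • (fun x : M => σ v x)) ≠ 0 := by
    intro h
    have h1 := Fintype.linearIndependent_iff.1 hli (fun v => zp ζ (-(v : ZMod n))) h ⟨c 1, 1, rfl⟩
    exact zp_ne hz _ h1
  obtain ⟨x, hx⟩ := Function.ne_iff.1 hne
  have hx' : (∑ v : Set.range c, zp ζ (-(v : ZMod n)) * (γ v • (x : Ω))) ≠ 0 := by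
    intro h
    apply hx
    rw [Finset.sum_apply]
    exact h
  refine ⟨∑ v : Set.range c, zp ζ (-(v : ZMod n)) * (γ v • (x : Ω)), hx', ?_⟩
  intro g
  let τ : Set.range c → Set.range c := fun v => ⟨c (g * γ v), _, rfl⟩
  have hτv : ∀ v, ((τ v : Set.range c) : ZMod n) = c g + v := by
    intro v
    change c (g * γ v) = _
    rw [hadd, hγ]
  have hτi : Function.Injective τ := by
    intro v w h
    have h1 := congrArg (fun z : Set.range c => (z : ZMod n)) h
    change ((τ v : Set.range c) : ZMod n) = ((τ w : Set.range c) : ZMod n) at h1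
    rw [hτv, hτv] at h1
    exact Subtype.ext (add_left_cancel h1)
  have hτ : Function.Bijective τ := Finite.injective_iff_bijective.1 hτi
  rw [Finset.smul_sum, Finset.mul_sum,
    ← hτ.sum_comp (fun v => zp ζ (c g) * (zp ζ (-(v : ZMod n)) * (γ v • (x : Ω))))]
  refine Finset.sum_congr rfl fun v _ => ?_
  have h3 : (g * γ v) • (x : Ω) = γ (τ v) • (x : Ω) := by
    have h4 : (γ (τ v))⁻¹ * (g * γ v) ∈ N := by
      change c _ = 0
      rw [hadd, cinv, hγ, hadd, hγ, hτv]
      exact neg_add_cancel _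
    have h5 := x.2 _ h4
    rw [mul_smul] at h5
    exact (inv_smul_eq_iff.1 h5)
  rw [smul_mul', smul_zp (hζ g), smul_smul, h3, ← mul_assoc, ← zp_add hz, hτv]
  congr 2
  ring

theorem km_surj (hG : GA G Ω) (hz : PZ n ζ) (hζ : ∀ g : G, g • ζ = ζ) (c : G → ZMod n) (hc : Continuous c)
    (hadd : ∀ g h, c (g * h) = c g + c h) : ∃ a : Ω, Fx G a ∧ ∀ g : G, c g = km n ζ a g := by
  have := hG.alg
  obtain ⟨δ, hδ, h⟩ := kg hG hz hζ c hc hadd
  have hfix : ∀ g : G, g • δ ^ n = δ ^ n := by
    intro g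
    rw [smul_pow', h g, mul_pow, zp_pow hz, one_mul]
  refine ⟨δ ^ n, ⟨pow_ne_zero _ hδ, hfix⟩, fun g => ?_⟩
  exact (km_eq hz (pow_ne_zero _ hδ) rfl (hζ g) (hfix g) (h g)).symm

end MSG
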