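import Pool.Agent.MSG.Nc
import Pool.Agent.MSG.Kg

/-! # MSG / Ncb: a trivial symbol is a norm

PROOFS.
* `norm_of_nc`: `km a g * km b h = χ g + χ h - χ (g h)` (`χ` continuous).  For `g ∈ M`: `χ (g h) = χ g + χ h`.  `kg` for the group `M` (`GA.sub`) gives
  `δ ≠ 0` with `h • δ = zp ζ (χ h) * δ` for `h ∈ M`.  For `h ∈ M`: `χ (g₀ h) = χ g₀ + χ h - km b h` and `χ (g₀ h) = χ ((g₀ h g₀⁻¹) g₀) =
  χ (g₀ h g₀⁻¹) + χ g₀`, so `χ (g₀ h g₀⁻¹) = χ h - km b h`, and `h • (g₀⁻¹ • δ) = g₀⁻¹ • (g₀ h g₀⁻¹) • δ = zp ζ (χ h - km b h) * g₀⁻¹ • δ`.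
  So `λ = (g₀⁻¹ • δ) * β / δ` (`β = rt b`) is fixed by `M`: `g₀⁻¹ • δ = λ δ / β`.  By induction
  `g₀ ^ (-j) • δ = (∏_{i < j} g₀ ^ (-i) • λ) * δ / β ^ j * zp ζ (∑_{i < j} i * km b g₀)` (`g₀ ^ (-i) • β = zp ζ (- i km b g₀) * β`).  For `j = p`: `p` odd, so the last factor is `1`
  (`p (p-1)/2 = 0` mod `p`), `β ^ p = b`, `g₀ ^ (-p) • δ = zp ζ (χ (g₀ ^ (-p))) * δ` (`g₀ ^ (-p) ∈ M`), and `χ (g₀ ^ k) = k χ g₀ - k (k-1)/2 * km b g₀` for `k : ℕ`
  (induction, `km a g₀ = 1`) gives `χ (g₀ ^ p) = 0`, `χ (g₀ ^ (-p)) = - χ (g₀ ^ p) = 0`.  So `b = ∏_{i < p} g₀ ^ (-i) • λ = nL λ` (the exponents `-i` and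
  `i` run through the same classes modulo `p`, `g₀ ^ p` fixes `λ`).
-/

set_option autoImplicit false
set_option linter.unusedVariables false

namespace MSG

universe u v w

open Pool.Agent.Helper14.Massey

variable {G : Type u} {Ω : Type v} [Group G] [TopologicalSpace G] [Field Ω] [MulSemiringAction G Ω] {p : ℕ} {ζ : Ω}

theorem norm_of_nc (hG : GA G Ω) (hp : p.Prime) (hz : PZ p ζ) (hζ : ∀ g : G, g • ζ = ζ) {a b : Ω} (ha : Fx G a) (hb : Fx G b)
    {g₀ : G} (hg₀ : km p ζ a g₀ = 1) (h : Co (kk (G := G) p ζ a b) (fun _ _ => 0)) :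
    ∃ y : Ω, FxM (kr G p a) y ∧ b = nL p g₀ y := by
  have hne := hz.neZero
  have halg := hG.alg
  have htop := hG.top
  obtain ⟨χ, hχ, hco⟩ := h
  set A : G → ZMod p := km p ζ a with hA
  set B : G → ZMod p := km p ζ b with hB
  set M : Subgroup G := kr G p a with hM
  have hAm : ∀ g h, A (g * h) = A g + A h := fun g h => km_hom hz ha.1 (hζ g) (hζ h) (ha.2 g) (ha.2 h)
  have hBm : ∀ g h, B (g * h) = B g + B h := fun g h => km_hom hz hb.1 (hζ g) (hζ h) (hb.2 g) (hb.2 h)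
  have hB1 : B 1 = 0 := by
    have h1 := hBm 1 1
    rw [mul_one] at h1
    exact left_eq_add.1 h1
  have hBp : ∀ i : ℕ, B (g₀ ^ i) = i * B g₀ := by
    intro i
    induction i with
    | zero => simp [hB1]
    | succ i ih =>
      rw [pow_succ, hBm, ih]
      push_cast
      ring
  have hχm : ∀ g h, χ (g * h) = χ g + χ h - A g * B h := by
    intro g h
    have h1 := hco g h
    change A g * B h = 0 + _ at h1
    rw [h1]
    ring
  have hmem : ∀ g, g ∈ M ↔ A g = 0 := fun g => mem_kr hG hz hζ ha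
  have hMχ : ∀ g ∈ M, ∀ h, χ (g * h) = χ g + χ h := by
    intro g hg h
    rw [hχm, (hmem g).1 hg]
    ring
  have hMcl : IsClosed (M : Set G) := Subgroup.isClosed_of_isOpen M (kr_open hG a)
  -- the Kummer element of `χ` on `M`
  obtain ⟨δ, hδ, hδM'⟩ := kg (G := M) (hG.sub M hMcl) hz (fun g => hζ g) (fun m : M => χ m)
    (hχ.comp continuous_subtype_val) (fun g h => hMχ g g.2 h)
  have hδM : ∀ g ∈ M, g • δ = zp ζ (χ g) * δ := fun g hg => hδM' ⟨g, hg⟩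
  set β : Ω := rt p b with hβ
  have hβ0 : β ≠ 0 := rt_ne hz hb.1
  have hβp : β ^ p = b := rt_pow hz b
  have hβg : ∀ g : G, g • β = zp ζ (B g) * β := fun g => km_root hz hb.1 hβp (hζ g) (hb.2 g)
  have hgδ : g₀ • δ ≠ 0 := by
    rw [Ne, smul_eq_zero_iff_eq]
    exact hδ
  set y : Ω := δ * β / (g₀ • δ) with hy
  have hy0 : y ≠ 0 := div_ne_zero (mul_ne_zero hδ hβ0) hgδ
  have hyδ : y * (g₀ • δ) = δ * β := div_mul_cancel₀ _ hgδ
  -- the action of `M` on `g₀ • δ`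
  have hconj : ∀ g ∈ M, g • (g₀ • δ) = zp ζ (χ g + B g) * (g₀ • δ) := by
    intro g hg
    have hg' : g₀⁻¹ * g * g₀ ∈ M := (kr_conj hG hz hζ ha g₀ g).1 hg
    have e1 : g * g₀ = g₀ * (g₀⁻¹ * g * g₀) := by group
    have e2 : χ (g₀⁻¹ * g * g₀) = χ g + B g := by
      have h1 : χ (g * g₀) = χ g + χ g₀ := hMχ g hg g₀
      have h2 := hχm g₀ (g₀⁻¹ * g * g₀)
      have h3 : B (g₀⁻¹ * g * g₀) = B g := by
        have h4 : B (g * g₀) = B (g₀ * (g₀⁻¹ * g * g₀)) := by rw [← e1]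
        rw [hBm, hBm g₀] at h4
        linear_combination -h4
      rw [← e1, h1, hg₀, h3] at h2
      linear_combination -h2
    rw [smul_smul, e1, mul_smul, hδM _ hg', smul_mul', smul_zp (hζ g₀), e2]
  have hyM : FxM M y := by
    refine ⟨hy0, fun g hg => ?_⟩
    have h1 : g • y * (g • (g₀ • δ)) = (g • δ) * (g • β) := by
      rw [← smul_mul', hyδ, smul_mul']
    rw [hconj g hg, hδM g hg, hβg, zp_add hz] at h1
    have hz1 := zp_ne hz (χ g)
    have hz2 := zp_ne hz (B g)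
    have h2 : (zp ζ (χ g) * zp ζ (B g) * (g₀ • δ)) * (g • y) = (zp ζ (χ g) * zp ζ (B g) * (g₀ • δ)) * y := by
      linear_combination h1 - zp ζ (χ g) * zp ζ (B g) * hyδ
    exact mul_left_cancel₀ (mul_ne_zero (mul_ne_zero hz1 hz2) hgδ) h2
  refine ⟨y, hyM, ?_⟩
  -- the partial products
  have hprod : ∀ j : ℕ, (∏ i ∈ Finset.range j, g₀ ^ i • y) * (g₀ ^ j • δ) =
      δ * β ^ j * zp ζ ((∑ i ∈ Finset.range j, (i : ZMod p)) * B g₀) := by
    intro j
    induction j with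
    | zero => simp [zp_zero hz]
    | succ j ih =>
      have h1 : (g₀ ^ j • y) * (g₀ ^ (j + 1) • δ) = (g₀ ^ j • δ) * (zp ζ ((j : ZMod p) * B g₀) * β) := by
        rw [pow_succ, mul_smul, ← smul_mul', hyδ, smul_mul', hβg, hBp]
      rw [Finset.prod_range_succ, mul_assoc, h1, Finset.sum_range_succ, add_mul, zp_add hz, pow_succ β]
      linear_combination (zp ζ ((j : ZMod p) * B g₀) * β) * ih
  have hsum : (∑ i ∈ Finset.range p, (i : ZMod p)) = 0 := by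
    obtain ⟨k, hk⟩ := hz.odd
    have h1 : (∑ i ∈ Finset.range p, i) = p * k := by
      rw [Finset.sum_range_id, hk]
      simp only [add_tsub_cancel_right]
      rw [show (2 * k + 1) * (2 * k) = 2 * ((2 * k + 1) * k) by ring]
      simp
    have h2 : ((∑ i ∈ Finset.range p, i : ℕ) : ZMod p) = ((p * k : ℕ) : ZMod p) := by rw [h1]
    push_cast at h2
    rw [h2]
    simp
  have hχ1 : χ 1 = 0 := by
    have h1 := hMχ 1 M.one_mem 1
    rw [mul_one] at h1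
    exact left_eq_add.1 h1
  have hχp : ∀ k : ℕ, χ (g₀ ^ k) = k * χ g₀ - (∑ i ∈ Finset.range k, (i : ZMod p)) * B g₀ := by
    intro k
    induction k with
    | zero => simp [hχ1]
    | succ k ih =>
      rw [pow_succ', hχm, ih, hg₀, hBp, Finset.sum_range_succ]
      push_cast
      ring
  have hχ0 : χ (g₀ ^ p) = 0 := by
    rw [hχp, hsum]
    simp
  have h1 := hprod p
  rw [hsum, zero_mul, zp_zero hz, hδM _ (kr_pow hG hz hζ ha g₀), hχ0, zp_zero hz, hβp] at h1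
  have h2 : δ * b = δ * nL p g₀ y := by
    change (nL p g₀ y) * (1 * δ) = _ at h1
    linear_combination -h1
  exact mul_left_cancel₀ hδ h2

end MSG
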