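import Pool.Agent.MSG.Bt
import Pool.Agent.MSG.Ncb

/-! # MSG / K2d: trivial symbols are divisible by `p` in `K₂`

PROOFS.
* `k2_div`: `x, y` in the fixed field `F`, `kk x y ~ 0`.  If `x = c ^ p`, `c ∈ F` (`km_zero_iff`): `{x, y} = p {c, y}`.  Otherwise some `g` has `km x g ≠ 0`, so (a power
  of it) `km x g₀ = 1`; `norm_of_nc`: `y = nL l`, `l` fixed by `kr G p x`; by `bt_gen` (for `a = x`) `l = c ∏ (α - r_i)` and
  `y = c ^ p ∏ (x - r_i ^ p)`.  `{x, x - r ^ p} ∈ p K₂`: `r = 0`: `{x, x} = {x, -1} = p {x, -1}` (`-1 = (-1) ^ p`).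
  `r ≠ 0`: `x - r ^ p = (- r ^ p) (1 - x / r ^ p)`, `{x / r ^ p, 1 - x / r ^ p} = 0`, so `{x, 1 - x / r ^ p} = p {r, 1 - x / r ^ p}` and
  `{x, - r ^ p} = p {x, -r}`.
-/

set_option autoImplicit false
set_option linter.unusedVariables false

namespace MSG

universe u v w

open Pool.Agent.Helper14.Massey

variable {G : Type u} {Ω : Type v} [Group G] [TopologicalSpace G] [Field Ω] [MulSemiringAction G Ω] {p : ℕ} {ζ : Ω}

private theorem st_div {F : Type v} [Field F] {p : ℕ} (hodd : Odd p) {x r : F} (hx : x ≠ 0)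
    (hxr : x - r ^ p ≠ 0) :
    ∃ w : Pool.Agent.MK.K2 F, Pool.Agent.MK.S x (x - r ^ p) = (p : ℤ) • w := by
  by_cases hr : r = 0
  · have hp0 : p ≠ 0 := by
      rintro rfl
      exact absurd hodd (by decide)
    refine ⟨Pool.Agent.MK.S x (-1), ?_⟩
    rw [hr, zero_pow hp0, sub_zero, Pool.Agent.MK.S_self]
    conv_lhs => rw [← hodd.neg_one_pow (α := F)]
    rw [Pool.Agent.MK.S_pow_right, natCast_zsmul]
  · have hrp : r ^ p ≠ 0 := pow_ne_zero p hr
    have h1 : x - r ^ p = (-r) ^ p * (1 - x / r ^ p) := by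
      rw [hodd.neg_pow]
      field_simp
      ring
    have h1x : (1 - x / r ^ p) ≠ 0 := by
      intro h0
      rw [h1, h0, mul_zero] at hxr
      exact hxr rfl
    have hnr : (-r) ^ p ≠ 0 := pow_ne_zero p (neg_ne_zero.mpr hr)
    have hxd : x / r ^ p ≠ 0 := div_ne_zero hx hrp
    have h2 : Pool.Agent.MK.S x (1 - x / r ^ p) = p • Pool.Agent.MK.S r (1 - x / r ^ p) := by
      have h3 : x = r ^ p * (x / r ^ p) := by field_simp
      have h4 : Pool.Agent.MK.S (r ^ p * (x / r ^ p)) (1 - x / r ^ p)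
          = Pool.Agent.MK.S (r ^ p) (1 - x / r ^ p)
            + Pool.Agent.MK.S (x / r ^ p) (1 - x / r ^ p) :=
        Pool.Agent.MK.S_mul_left hrp hxd _
      rw [← h3, Pool.Agent.MK.S_of_add_eq_one (a := x / r ^ p) (b := 1 - x / r ^ p) (by ring),
        add_zero, Pool.Agent.MK.S_pow_left] at h4
      exact h4
    refine ⟨Pool.Agent.MK.S x (-r) + Pool.Agent.MK.S r (1 - x / r ^ p), ?_⟩
    rw [smul_add, natCast_zsmul, natCast_zsmul, ← h2, ← Pool.Agent.MK.S_pow_right,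
      ← Pool.Agent.MK.S_mul_right hnr h1x, ← h1]

private theorem st_prod {F : Type v} [Field F] {p : ℕ} (x : F) {κ : Type*} (I : Finset κ)
    (f : κ → F) (h0 : ∀ i ∈ I, f i ≠ 0)
    (h : ∀ i ∈ I, ∃ w : Pool.Agent.MK.K2 F, Pool.Agent.MK.S x (f i) = (p : ℤ) • w) :
    ∃ w : Pool.Agent.MK.K2 F, Pool.Agent.MK.S x (∏ i ∈ I, f i) = (p : ℤ) • w := by
  classical
  induction I using Finset.induction_on with
  | empty =>
    refine ⟨0, ?_⟩
    rw [Finset.prod_empty, Pool.Agent.MK.S_one_right, smul_zero]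
  | insert i I hi ih =>
    obtain ⟨w, hw⟩ := ih (fun j hj => h0 j (Finset.mem_insert_of_mem hj))
      (fun j hj => h j (Finset.mem_insert_of_mem hj))
    obtain ⟨w', hw'⟩ := h i (Finset.mem_insert_self i I)
    refine ⟨w' + w, ?_⟩
    rw [Finset.prod_insert hi, Pool.Agent.MK.S_mul_right (h0 i (Finset.mem_insert_self i I))
      (Finset.prod_ne_zero_iff.mpr fun j hj => h0 j (Finset.mem_insert_of_mem hj)), hw, hw', smul_add]

private theorem km_gpow [IsAlgClosed Ω] (hz : PZ p ζ) (hζ : ∀ g : G, g • ζ = ζ) {a : Ω}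
    (ha : Fx G a) (g : G) (k : ℕ) : km p ζ a (g ^ k) = (k : ZMod p) * km p ζ a g := by
  have h1 : km p ζ a (1 : G) = 0 := by
    have := km_hom hz ha.1 (hζ (1 : G)) (hζ 1) (ha.2 1) (ha.2 1)
    rw [mul_one] at this
    simpa using this
  induction k with
  | zero => rw [pow_zero, h1, Nat.cast_zero, zero_mul]
  | succ k ih =>
    rw [pow_succ, km_hom hz ha.1 (hζ _) (hζ _) (ha.2 _) (ha.2 _), ih]
    push_cast
    ring

theorem k2_div (hG : GA G Ω) (hp : p.Prime) (hz : PZ p ζ) (hζ : ∀ g : G, g • ζ = ζ) (hPS : PS p G)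
    (x y : FixedPoints.subfield G Ω) (hx : x ≠ 0) (hy : y ≠ 0) (h : Co (kk (G := G) p ζ (x : Ω) (y : Ω)) (fun _ _ => 0)) :
    ∃ w : Pool.Agent.MK.K2 (FixedPoints.subfield G Ω), Pool.Agent.MK.S x y = (p : ℤ) • w := by
  haveI := hG.alg
  have hxF : Fx G (x : Ω) := ⟨fun h0 => hx (Subtype.ext h0), fun g => x.2 g⟩
  have hyF : Fx G (y : Ω) := ⟨fun h0 => hy (Subtype.ext h0), fun g => y.2 g⟩
  by_cases hall : ∀ g : G, km p ζ (x : Ω) g = 0
  · obtain ⟨c, hc, hcx⟩ := (km_zero_iff hG hz hζ hxF).mp hall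
    have hxc : x = (⟨c, hc.2⟩ : FixedPoints.subfield G Ω) ^ p := Subtype.ext hcx.symm
    refine ⟨Pool.Agent.MK.S (⟨c, hc.2⟩ : FixedPoints.subfield G Ω) y, ?_⟩
    rw [natCast_zsmul, ← Pool.Agent.MK.S_pow_left, ← hxc]
  · push Not at hall
    obtain ⟨g, hg⟩ := hall
    haveI : Fact p.Prime := ⟨hp⟩
    have hg₀ : km p ζ (x : Ω) (g ^ (km p ζ (x : Ω) g)⁻¹.val) = 1 := by
      rw [km_gpow hz hζ hxF, ZMod.natCast_zmod_val]
      exact inv_mul_cancel₀ hg
    obtain ⟨l, hl, hyl⟩ := norm_of_nc hG hp hz hζ hxF hyF hg₀ h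
    obtain ⟨c, m, r, hc, hr, hlc⟩ := bt_gen hG hp hz hζ hPS hxF hg₀ hl
    have hodd : Odd p := hz.odd
    have hyp : (y : Ω) = c ^ p * ∏ i, ((x : Ω) - r i ^ p) := by
      let φ : Ω →* Ω :=
        { toFun := nL p (g ^ (km p ζ (x : Ω) g)⁻¹.val)
          map_one' := by
            unfold nL
            exact Finset.prod_eq_one fun i _ => smul_one _
          map_mul' := nL_mul _ }
      have h1 : nL p (g ^ (km p ζ (x : Ω) g)⁻¹.val) (∏ i, (rt p (x : Ω) - r i))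
          = ∏ i, nL p (g ^ (km p ζ (x : Ω) g)⁻¹.val) (rt p (x : Ω) - r i) :=
        map_prod φ _ _
      rw [hyl, hlc, nL_mul, nL_fixed _ (hc.2 _), h1]
      congr 1
      exact Finset.prod_congr rfl fun i _ => nL_lin hG hp hz hζ hxF hg₀ (hr i)
    have hyF' : y = (⟨c, hc.2⟩ : FixedPoints.subfield G Ω) ^ p
        * ∏ i, (x - (⟨r i, hr i⟩ : FixedPoints.subfield G Ω) ^ p) := by
      apply Subtype.ext
      have h2 : (((⟨c, hc.2⟩ : FixedPoints.subfield G Ω) ^ p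
          * ∏ i, (x - (⟨r i, hr i⟩ : FixedPoints.subfield G Ω) ^ p) :
          FixedPoints.subfield G Ω) : Ω) = c ^ p * ∏ i, ((x : Ω) - r i ^ p) := by
        have h3 := map_prod (FixedPoints.subfield G Ω).subtype
          (fun i => (x - (⟨r i, hr i⟩ : FixedPoints.subfield G Ω) ^ p)) Finset.univ
        show c ^ p * (FixedPoints.subfield G Ω).subtype
          (∏ i, (x - (⟨r i, hr i⟩ : FixedPoints.subfield G Ω) ^ p)) = _
        rw [h3]
        rfl
      rw [h2]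
      exact hyp
    have hne : (∏ i, (x - (⟨r i, hr i⟩ : FixedPoints.subfield G Ω) ^ p)) ≠ 0 := by
      intro h0
      rw [h0, mul_zero] at hyF'
      exact hy hyF'
    have hci : (⟨c, hc.2⟩ : FixedPoints.subfield G Ω) ^ p ≠ 0 := by
      intro h0
      rw [h0, zero_mul] at hyF'
      exact hy hyF'
    have hne' : ∀ i ∈ (Finset.univ : Finset (Fin m)),
        (x - (⟨r i, hr i⟩ : FixedPoints.subfield G Ω) ^ p) ≠ 0 :=
      Finset.prod_ne_zero_iff.mp hne
    obtain ⟨w, hw⟩ := st_prod (p := p) x Finset.univ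
      (fun i => (x - (⟨r i, hr i⟩ : FixedPoints.subfield G Ω) ^ p)) hne'
      (fun i hi => st_div hodd hx (hne' i hi))
    refine ⟨Pool.Agent.MK.S x (⟨c, hc.2⟩ : FixedPoints.subfield G Ω) + w, ?_⟩
    rw [hyF', Pool.Agent.MK.S_mul_right hci hne, hw, smul_add, Pool.Agent.MK.S_pow_right,
      natCast_zsmul, natCast_zsmul]

end MSG
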