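import Pool.Agent.MSG.Rlt

/-! # MSG / KP: bundled p-special pairs, classes of good morphisms -/

set_option autoImplicit false

namespace MSG

universe u

open Pool.Agent.Helper14.Massey

/-- a p-special pair `(G, Ω)` with a primitive `p`-th root of unity fixed by `G` -/
structure KP (p : ℕ) : Type (u + 1) where
  /-- the group -/
  G : Type u
  /-- the field -/
  Ω : Type u
  [gr : Group G]
  [tp : TopologicalSpace G]
  [fd : Field Ω]
  [ac : MulSemiringAction G Ω]
  /-- the root of unity -/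
  ζ : Ω
  ga : GA G Ω
  pz : PZ p ζ
  fx : ∀ g : G, g • ζ = ζ
  ps : PS p G

attribute [instance] KP.gr KP.tp KP.fd KP.ac

instance {p : ℕ} (A : KP.{u} p) : IsAlgClosed A.Ω := A.ga.alg

instance {p : ℕ} (A : KP.{u} p) : IsTopologicalGroup A.G := A.ga.top

/-- morphisms of p-special pairs -/
structure KM {p : ℕ} (A B : KP.{u} p) extends Mo A.G A.Ω B.G B.Ω where
  zz : ψ A.ζ = B.ζ

/-- identity -/
def KM.id {p : ℕ} (A : KP.{u} p) : KM A A where
  toMo := Mo.idm A.G A.Ω
  zz := rfl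

/-- composition -/
def KM.cmp {p : ℕ} {A B C : KP.{u} p} (f : KM A B) (g : KM B C) : KM A C where
  toMo := f.toMo.cmp g.toMo
  zz := by
    show g.ψ (f.ψ A.ζ) = C.ζ
    rw [f.zz, g.zz]

/-- a class of good morphisms: contains the identities, closed under composition, kills symbols -/
structure GC (p : ℕ) where
  /-- the class -/
  Gd : ∀ A B : KP.{u} p, KM A B → Prop
  gid : ∀ A, Gd A A (KM.id A)
  gcmp : ∀ (A B C : KP.{u} p) (f : KM A B) (g : KM B C), Gd A B f → Gd B C g → Gd A C (f.cmp g)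
  kill : ∀ (A : KP.{u} p) (a b : A.Ω), Fx A.G a → Fx A.G b → ∃ (B : KP.{u} p) (f : KM A B), Gd A B f ∧
    Co (kk (G := B.G) p B.ζ (f.ψ a) (f.ψ b)) (fun _ _ => 0)

/-- pull back of a cochain -/
def KM.pb {p : ℕ} {A B : KP.{u} p} (f : KM A B) (v : A.G → A.G → ZMod p) (g h : B.G) : ZMod p := v (f.r g) (f.r h)

/-- every symbol over `P` can be killed by a good morphism, for all open subgroups `P` of index at most `p ^ k` -/
def KillAt {p : ℕ} (C : GC.{u} p) (k : ℕ) : Prop :=
  ∀ (A : KP.{u} p) (P : Subgroup A.G), IsOpen (P : Set A.G) → P.index ≤ p ^ k → ∀ v : A.G → A.G → ZMod p,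
    SyM p A.ζ P v → ∃ (B : KP.{u} p) (f : KM A B), C.Gd A B f ∧ CoM (P.comap f.r) (f.pb v) (fun _ _ => 0)

end MSG
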