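import Pool.Agent.MSG.Rel1
import Pool.Agent.MSG.Kg

/-! # MSG / Ovr: a subgroup of index `p` above

PROOF.
* `exists_over`: `M ≠ ⊤` open.  Let `V ≤ M` be an open normal subgroup of `G` (the normal core of `M`, finite index); `Q = G ⧸ V` is a finite p-group (`ps`).  The image `M'` of `M` is a proper
  subgroup, so it is properly contained in its normalizer, and there is `P' > M'` with `M'` normal of index `p` in `P'` (an element of order `p` in the nontrivial p-group `N(M')/M'`).
  Let `P` be the preimage of `P'`: `M` is normal of index `p` in `P`.  A surjection `P → P/M ≅ ZMod p` is a continuous character `c` of `P` with kernel `M`; `km_surj` for the group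
  `P` gives `a` fixed by `P` with `c = km a` on `P`; so `M = ms P a`.
-/

set_option autoImplicit false
set_option linter.unusedVariables false

namespace MSG

universe u

open Pool.Agent.Helper14.Massey

variable {p : ℕ}

/-- the group theoretic part: a subgroup in which `M` is normal of index `p` -/
private theorem exists_over_grp {G : Type u} [Group G] (hp : p.Prime) {M V : Subgroup G} [V.Normal]
    (hV : V ≤ M) {m k : ℕ} (hVi : V.index = p ^ m) (hMi : M.index = p ^ k) (hM : M ≠ ⊤) :
    ∃ P : Subgroup G, M ≤ P ∧ p * P.index = M.index ∧ ∀ g ∈ P, ∀ x ∈ M, g * x * g⁻¹ ∈ M := by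
  have := Fact.mk hp
  set π := QuotientGroup.mk' V with hπ
  have hsurj : Function.Surjective π := QuotientGroup.mk'_surjective V
  have hker : π.ker ≤ M := by rw [hπ, QuotientGroup.ker_mk']; exact hV
  have hQ : Nat.card (G ⧸ V) = p ^ m := hVi
  have hfin : Finite (G ⧸ V) := Nat.finite_of_card_ne_zero (by rw [hQ]; exact (pow_pos hp.pos m).ne')
  have hidx : (M.map π).index = p ^ k := by
    rw [M.index_map_eq hsurj hker, hMi]
  have hcm := (M.map π).card_mul_index
  rw [hQ, hidx] at hcm
  have hdvd : Nat.card (M.map π) ∣ p ^ m := ⟨_, hcm.symm⟩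
  obtain ⟨n, hn, hn'⟩ := (Nat.dvd_prime_pow hp).1 hdvd
  rw [hn', ← pow_add] at hcm
  have hnk : n + k = m := Nat.pow_right_injective hp.two_le hcm
  have hk : k ≠ 0 := by
    intro h
    rw [h, pow_zero, Subgroup.index_eq_one] at hMi
    exact hM hMi
  obtain ⟨K, hK, hMK⟩ := Sylow.exists_subgroup_card_pow_succ (G := G ⧸ V) (p := p) (n := n)
    (by rw [hQ]; exact pow_dvd_pow p (by omega)) hn'
  have h3 : K.index = p ^ (k - 1) := by
    have h1 := K.card_mul_index
    rw [hK, hQ] at h1
    have h2 : p ^ (n + 1) * K.index = p ^ (n + 1) * p ^ (k - 1) := by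
      rw [h1, ← pow_add]
      congr 1
      omega
    exact Nat.eq_of_mul_eq_mul_left (pow_pos hp.pos _) h2
  have hpk : p * p ^ (k - 1) = p ^ k := by
    rw [← pow_succ']
    congr 1
    omega
  refine ⟨K.comap π, ?_, ?_, ?_⟩
  · exact Subgroup.map_le_iff_le_comap.1 hMK
  · rw [K.index_comap_of_surjective hsurj, hMi, h3, hpk]
  · have hcardK : Nat.card K = p ^ (n + 1) := hK
    have hrel : ((M.map π).subgroupOf K).index = p := by
      have h1 := Subgroup.relIndex_mul_index hMK
      rw [hidx, h3, ← hpk] at h1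
      exact Nat.eq_of_mul_eq_mul_right (pow_pos hp.pos _) h1
    have hnorm : ((M.map π).subgroupOf K).Normal := by
      apply Subgroup.normal_of_index_eq_minFac_card
      rw [hrel, hcardK, hp.pow_minFac (by omega)]
    intro g hg x hx
    have h1 : π g ∈ K := hg
    have h2 : π x ∈ M.map π := Subgroup.mem_map_of_mem π hx
    have h3 := hnorm.conj_mem ⟨π x, hMK h2⟩ (Subgroup.mem_subgroupOf.2 h2) ⟨π g, h1⟩
    have h4 : π (g * x * g⁻¹) ∈ M.map π := by
      rw [map_mul, map_mul, map_inv]
      exact Subgroup.mem_subgroupOf.1 h3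
    have h5 : g * x * g⁻¹ ∈ (M.map π).comap π := h4
    rwa [Subgroup.comap_map_eq_self hker] at h5

/-- a character of `P` with kernel `M` -/
private theorem exists_char {G : Type u} [Group G] [TopologicalSpace G] [IsTopologicalGroup G] (hp : p.Prime)
    {M P : Subgroup G} (hMo : IsOpen (M : Set G)) (hMP : M ≤ P)
    (hidx : M.relIndex P = p) (hn : ∀ g ∈ P, ∀ x ∈ M, g * x * g⁻¹ ∈ M) :
    ∃ c : P → ZMod p, Continuous c ∧ (∀ g h, c (g * h) = c g + c h) ∧
      ∀ g : P, c g = 0 ↔ (g : G) ∈ M := by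
  have := Fact.mk hp
  have hnorm : (M.subgroupOf P).Normal := by
    refine ⟨fun x hx g => ?_⟩
    rw [Subgroup.mem_subgroupOf] at hx ⊢
    exact hn g g.2 x hx
  have hcard : Nat.card (P ⧸ M.subgroupOf P) = p := hidx
  have hz : Nat.card (Multiplicative (ZMod p)) = p := by
    rw [Nat.card_congr Multiplicative.toAdd, Nat.card_zmod]
  let e : (P ⧸ M.subgroupOf P) ≃* Multiplicative (ZMod p) := mulEquivOfPrimeCardEq hcard hz
  let c : P → ZMod p := fun g => Multiplicative.toAdd (e (QuotientGroup.mk' (M.subgroupOf P) g))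
  have hadd : ∀ g h, c (g * h) = c g + c h := by
    intro g h
    show Multiplicative.toAdd (e (QuotientGroup.mk' (M.subgroupOf P) (g * h))) = _
    rw [map_mul, map_mul, toAdd_mul]
  have hzero : ∀ g : P, c g = 0 ↔ (g : G) ∈ M := by
    intro g
    show Multiplicative.toAdd (e (QuotientGroup.mk' (M.subgroupOf P) g)) = 0 ↔ _
    rw [toAdd_eq_zero, map_eq_one_iff e e.injective, QuotientGroup.mk'_apply, QuotientGroup.eq_one_iff,
      Subgroup.mem_subgroupOf]
  refine ⟨c, ?_, hadd, hzero⟩
  refine IsLocallyConstant.continuous ((IsLocallyConstant.iff_exists_open _).2 fun g => ?_)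
  have h1 : Continuous fun g' : P => (g : G)⁻¹ * (g' : G) := by fun_prop
  refine ⟨_, hMo.preimage h1, ?_, ?_⟩
  · show (g : G)⁻¹ * (g : G) ∈ M
    rw [inv_mul_cancel]
    exact M.one_mem
  · intro g' hg'
    have h2 : (((g⁻¹ * g' : P)) : G) ∈ M := hg'
    have h3 := (hzero _).2 h2
    have h4 := hadd g (g⁻¹ * g')
    rw [mul_inv_cancel_left, h3, add_zero] at h4
    exact h4

theorem exists_over (hp : p.Prime) (A : KP.{u} p) {M : Subgroup A.G} (hM : IsOpen (M : Set A.G)) (hM' : M ≠ ⊤) :
    ∃ (P : Subgroup A.G) (a : A.Ω), IsOpen (P : Set A.G) ∧ FxM P a ∧ M = ms A P a ∧ p * P.index = M.index := by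
  have := A.ga.cpt
  have hf : Finite (A.G ⧸ M) := M.quotient_finite_of_isOpen hM
  have hfi : M.FiniteIndex := Subgroup.finiteIndex_of_finite_quotient
  have hMc : IsClosed (M : Set A.G) := M.isClosed_of_isOpen hM
  have hVo : IsOpen (M.normalCore : Set A.G) :=
    M.normalCore.isOpen_of_isClosed_of_finiteIndex (M.normalCore_isClosed hMc)
  obtain ⟨m, hm⟩ := A.ps _ hVo
  obtain ⟨k, hk⟩ := A.ps _ hM
  obtain ⟨P, hMP, hidx, hn⟩ := exists_over_grp hp M.normalCore_le hm hk hM'
  have hPo : IsOpen (P : Set A.G) := Subgroup.isOpen_mono hMP hM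
  have hrel : M.relIndex P = p := by
    have h1 := Subgroup.relIndex_mul_index hMP
    rw [← hidx] at h1
    have h2 : P.index ≠ 0 := by
      intro h
      rw [h, mul_zero, hk] at hidx
      exact (pow_pos hp.pos k).ne' hidx.symm
    exact Nat.eq_of_mul_eq_mul_right (Nat.pos_of_ne_zero h2) h1
  obtain ⟨c, hc, hadd, hzero⟩ := exists_char hp hM hMP hrel hn
  have hGA : GA P A.Ω := A.ga.sub P (P.isClosed_of_isOpen hPo)
  have hfx : ∀ g : P, g • A.ζ = A.ζ := fun g => A.fx g
  obtain ⟨a, ha, hca⟩ := km_surj hGA A.pz hfx c hc hadd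
  refine ⟨P, a, hPo, ⟨ha.1, fun g hg => ha.2 ⟨g, hg⟩⟩, ?_, hidx⟩
  ext g
  unfold ms
  rw [Subgroup.mem_inf]
  constructor
  · intro hg
    refine ⟨hMP hg, ?_⟩
    have h1 : c ⟨g, hMP hg⟩ = 0 := (hzero _).2 hg
    rw [hca] at h1
    exact (mem_kr hGA A.pz hfx ha).2 h1
  · rintro ⟨hg, hg'⟩
    have h1 : (⟨g, hg⟩ : P) ∈ kr P p a := hg'
    rw [mem_kr hGA A.pz hfx ha, ← hca, hzero] at h1
    exact h1

end MSG
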