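import Pool.Agent.MSG.Kir
import Pool.Agent.MSG.Ovr

/-! # MSG / Kia: every sum of symbols can be killed

PROOF.
* `kill_all`: induction on `k`, `kill_zero`.  Step: `M` open of index `≤ p ^ (k+1)`, `v` a sum of symbols over `M`.  If the index is `≤ p ^ k` use the hypothesis.  Otherwise `M ≠ ⊤`,
  `exists_over`: `M = ms P a`, `p * P.index = M.index`, so `P.index ≤ p ^ k`.  `rounds` gives a good `f`: either `f.pb v ~ 0` on `M.comap f.r`, done; or `P.comap f.r ≤ kr (f.ψ a)`, so
  `M.comap f.r = P.comap f.r` (`mo_ms`) has index `≤ p ^ k` and `f.pb v` is a sum of symbols over it: apply the hypothesis to `f.pb v` and compose.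
-/

set_option autoImplicit false
set_option linter.unusedVariables false

namespace MSG

universe u

open Pool.Agent.Helper14.Massey

variable {p : ℕ}

theorem kill_all (hp : p.Prime) (C : GC.{u} p) (k : ℕ) : KillAt C k := by
  induction k with
  | zero => exact kill_zero hp C
  | succ k hK =>
    intro A M hM hi v hv
    rcases le_or_gt M.index (p ^ k) with hle | hgt
    · exact hK A M hM hle v hv
    · have hM' : M ≠ ⊤ := by
        rintro rfl
        rw [Subgroup.index_top] at hgt
        exact absurd hgt (not_lt.2 (Nat.one_le_pow _ _ hp.pos))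
      obtain ⟨P, a, hP, ha, hMP, hidx⟩ := exists_over hp A hM hM'
      have hPi : P.index ≤ p ^ k := by
        have h1 : p * P.index ≤ p * p ^ k := by
          rw [hidx, ← pow_succ']
          exact hi
        exact Nat.le_of_mul_le_mul_left h1 hp.pos
      have hv' : SyM p A.ζ (ms A P a) v := by
        rw [← hMP]
        exact hv
      obtain ⟨B, f, hf, hcase⟩ := rounds hp C hK A P hP hPi ha hv'
      have hcomap : M.comap f.r = ms B (P.comap f.r) (f.ψ a) := by
        rw [hMP]
        exact mo_ms f ha
      rcases hcase with h1 | h1
      · have h2 : M.comap f.r = P.comap f.r := by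
          rw [hcomap]
          exact inf_eq_left.2 h1
        have hsy : SyM p B.ζ (P.comap f.r) (f.pb v) := by
          rw [← h2]
          exact SyM_pb f hv
        obtain ⟨B', f', hf', hco⟩ := hK B (P.comap f.r) (comap_open f hP)
          ((comap_index f hP).trans hPi) (f.pb v) hsy
        refine ⟨B', f.cmp f', C.gcmp _ _ _ f f' hf hf', ?_⟩
        rw [← h2] at hco
        exact hco
      · refine ⟨B, f, hf, ?_⟩
        rw [hcomap]
        exact h1

end MSG
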