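import Pool.Agent.MSG.Rnd

/-! # MSG / Kil: p rounds; every symbol over every open subgroup can be killed

PROOFS.
* `dl g₀ v = v - cj g₀ v`.  `cj_cj`: `cj c (cj d f) = cj (c * d) f`.
* `dl_p`: `v` a sum of symbols over `M = ms P a`, `g₀ ∈ P`: `dl^p v = v - cj (g₀ ^ p) v` (in the ring of additive endomorphisms of the group of cochains, which is
  killed by `p`: `(1 - T) ^ p = 1 - T ^ p`, `p` odd prime, e.g. by `sub_pow_char`-like argument or the binomial theorem and `p ∣ choose p i`), and `cj (g₀ ^ p) v ~ v` on `M`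
  because `g₀ ^ p ∈ M` (`CoM_cj_self`, `SyM_Z2`).
* `pb_dl`: `g₁ ∈ P.comap f.r` with `km (f.ψ a) g₁ = 1`, so `f.r g₁ = g₀ m` with `m ∈ M`; for `v` a cocycle on `M`: `f.pb (cj g₀ v) ~ cj g₁ (f.pb v)` on `M.comap f.r`:
  `cj g₁ (f.pb v) = f.pb (cj (g₀ m) v) = f.pb (cj g₀ (cj m v))` and `cj m v ~ v` (`CoM_cj_self`), `CoM_cj`, `CoM_mo`.
-/

set_option autoImplicit false
set_option linter.unusedVariables false

namespace MSG

universe u

open Pool.Agent.Helper14.Massey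

variable {p : ℕ}

/-- `v - v^s` -/
def dl {G : Type u} [Group G] {n : ℕ} (g₀ : G) (v : G → G → ZMod n) (x y : G) : ZMod n := v x y - cj g₀ v x y

private theorem cj_cj40 {G : Type u} [Group G] {n : ℕ} (c d : G) (f : G → G → ZMod n) :
    cj c (cj d f) = cj (c * d) f := by
  funext x y
  unfold cj
  rw [mul_inv_rev]
  simp only [mul_assoc]

private theorem cj_one40 {G : Type u} [Group G] {n : ℕ} (f : G → G → ZMod n) : cj 1 f = f := by
  funext x y
  unfold cj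
  simp

/-- conjugation as a linear map -/
private def cjL {G : Type u} [Group G] {n : ℕ} (c : G) :
    (G → G → ZMod n) →ₗ[ZMod n] (G → G → ZMod n) where
  toFun := cj c
  map_add' _ _ := rfl
  map_smul' _ _ := rfl

private theorem cjL_pow {G : Type u} [Group G] {n : ℕ} (c : G) (f : G → G → ZMod n) (k : ℕ) :
    ((cjL c : Module.End (ZMod n) (G → G → ZMod n)) ^ k) f = cj (c ^ k) f := by
  induction k with
  | zero => rw [pow_zero, pow_zero, cj_one40]; rfl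
  | succ k ih =>
    rw [pow_succ', pow_succ', Module.End.mul_apply, ih, ← cj_cj40]
    rfl

private theorem dl_iter {G : Type u} [Group G] (hp : p.Prime) (c : G) (f : G → G → ZMod p) :
    (dl c)^[p] f = fun x y => f x y - cj (c ^ p) f x y := by
  have h0 : ∀ k : ℕ, (dl c)^[k] f =
      (((1 : Module.End (ZMod p) (G → G → ZMod p)) - cjL c) ^ k : Module.End (ZMod p) (G → G → ZMod p)) f := by
    intro k
    rw [Module.End.pow_apply]
    rfl
  have : Fact p.Prime := ⟨hp⟩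
  have h1 : ((1 : Module.End (ZMod p) (G → G → ZMod p)) - cjL c) ^ p = 1 - (cjL c) ^ p := by
    have h2 : ((1 : Polynomial (ZMod p)) - Polynomial.X) ^ p = 1 - Polynomial.X ^ p := by
      rw [sub_pow_char, one_pow]
    have h3 := congrArg (Polynomial.aeval (cjL c : Module.End (ZMod p) (G → G → ZMod p))) h2
    simpa using h3
  rw [h0, h1, LinearMap.sub_apply, cjL_pow]
  rfl

private theorem dl_sy (hp : p.Prime) (A : KP.{u} p) (P : Subgroup A.G) (hP : IsOpen (P : Set A.G)) {a : A.Ω}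
    (ha : FxM P a) {g₀ : A.G} (hg₀ : g₀ ∈ P) {v : A.G → A.G → ZMod p} (hv : SyM p A.ζ (ms A P a) v) :
    SyM p A.ζ (ms A P a) (dl g₀ v) := by
  have h1 : SyM p A.ζ (ms A P a) (cj g₀ v) :=
    SyM_cj A.ga A.pz (A.fx g₀) (fun g _ => A.fx g) (fun g => ms_conj A P hP ha hg₀ g) hv
  have h2 := SyM_add hv (SyM_neg A.ga A.pz (fun g _ => A.fx g) h1)
  have e : dl g₀ v = fun x y => v x y + -cj g₀ v x y := by
    funext x y
    exact sub_eq_add_neg _ _
  rw [e]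
  exact h2

private theorem dl_sy_iter (hp : p.Prime) (A : KP.{u} p) (P : Subgroup A.G) (hP : IsOpen (P : Set A.G)) {a : A.Ω}
    (ha : FxM P a) {g₀ : A.G} (hg₀ : g₀ ∈ P) {v : A.G → A.G → ZMod p} (hv : SyM p A.ζ (ms A P a) v) (j : ℕ) :
    SyM p A.ζ (ms A P a) ((dl g₀)^[j] v) := by
  induction j with
  | zero => exact hv
  | succ j ih =>
    rw [Function.iterate_succ_apply']
    exact dl_sy hp A P hP ha hg₀ ih

theorem dl_p (hp : p.Prime) (A : KP.{u} p) (P : Subgroup A.G) (hP : IsOpen (P : Set A.G)) {a : A.Ω} (ha : FxM P a)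
    {g₀ : A.G} (hg₀ : g₀ ∈ P) {v : A.G → A.G → ZMod p} (hv : SyM p A.ζ (ms A P a) v) :
    CoM (ms A P a) ((dl g₀)^[p] v) (fun _ _ => 0) := by
  rw [dl_iter hp]
  have h1 : CoM (ms A P a) (cj (g₀ ^ p) v) v :=
    CoM_cj_self A.ga (ms_open A P hP a) (ms_pow A P hP ha hg₀)
      (SyM_Z2 A.ga A.pz (ms_open A P hP a) (fun g _ => A.fx g) hv)
  have h2 : CoM (ms A P a) v v := CoM_of_eq fun _ _ _ _ => rfl
  refine CoM_trans (CoM_sub' h2 h1) (CoM_of_eq fun x _ y _ => ?_)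
  exact sub_self _

private theorem ms_quot (hp : p.Prime) {A B : KP.{u} p} (f : KM A B) (P : Subgroup A.G)
    (hP : IsOpen (P : Set A.G)) {a : A.Ω} (ha : FxM P a) {g₀ : A.G} (hg₀ : g₀ ∈ P)
    (hk : km p A.ζ a g₀ = 1) {g₁ : B.G} (hg₁ : g₁ ∈ P.comap f.r) (hk₁ : km p B.ζ (f.ψ a) g₁ = 1) :
    g₀⁻¹ * f.r g₁ ∈ ms A P a := by
  have hg₁' : f.r g₁ ∈ P := hg₁
  have h1 : km p A.ζ a (f.r g₁) = 1 := by
    have h2 := Mo.km f.toMo A.pz ha.1 (g := g₁) (A.fx _) (ha.2 _ hg₁')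
    rw [f.zz, hk₁] at h2
    exact h2.symm
  have h3 := km_root A.pz ha.1 (rt_pow A.pz a) (A.fx g₀) (ha.2 _ hg₀)
  have h4 := km_root A.pz ha.1 (rt_pow A.pz a) (A.fx (f.r g₁)) (ha.2 _ hg₁')
  rw [hk] at h3
  rw [h1, ← h3] at h4
  refine ⟨P.mul_mem (P.inv_mem hg₀) hg₁', ?_⟩
  change (g₀⁻¹ * f.r g₁) • rt p a = rt p a
  rw [mul_smul, h4, inv_smul_smul]

theorem pb_dl (hp : p.Prime) {A B : KP.{u} p} (f : KM A B) (P : Subgroup A.G) (hP : IsOpen (P : Set A.G)) {a : A.Ω}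
    (ha : FxM P a) {g₀ : A.G} (hg₀ : g₀ ∈ P) (hk : km p A.ζ a g₀ = 1) {g₁ : B.G} (hg₁ : g₁ ∈ P.comap f.r)
    (hk₁ : km p B.ζ (f.ψ a) g₁ = 1) {v : A.G → A.G → ZMod p} (hv : SyM p A.ζ (ms A P a) v) (j : ℕ) :
    CoM (ms B (P.comap f.r) (f.ψ a)) (f.pb ((dl g₀)^[j] v)) ((dl g₁)^[j] (f.pb v)) := by
  have hm := ms_quot hp f P hP ha hg₀ hk hg₁ hk₁
  -- one step
  have h1 : ∀ w : A.G → A.G → ZMod p, SyM p A.ζ (ms A P a) w →
      CoM (ms B (P.comap f.r) (f.ψ a)) (f.pb (cj g₀ w)) (cj g₁ (f.pb w)) := by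
    intro w hw
    have h2 : CoM (ms A P a) (cj (g₀⁻¹ * f.r g₁) w) w :=
      CoM_cj_self A.ga (ms_open A P hP a) hm
        (SyM_Z2 A.ga A.pz (ms_open A P hP a) (fun g _ => A.fx g) hw)
    have h3 : CoM (ms A P a) (cj g₀ (cj (g₀⁻¹ * f.r g₁) w)) (cj g₀ w) :=
      CoM_cj A.ga (fun g hg => (ms_conj A P hP ha hg₀ g).1 hg) h2
    rw [cj_cj40, mul_inv_cancel_left] at h3
    have h4 := CoM_mo f.toMo h3
    rw [mo_ms f ha] at h4
    refine CoM_symm (CoM_trans (CoM_of_eq fun x _ y _ => ?_) h4)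
    change w (f.r (g₁⁻¹ * x * g₁)) (f.r (g₁⁻¹ * y * g₁)) =
      w ((f.r g₁)⁻¹ * f.r x * f.r g₁) ((f.r g₁)⁻¹ * f.r y * f.r g₁)
    rw [map_mul, map_mul, map_inv, map_mul, map_mul, map_inv]
  induction j with
  | zero => exact CoM_of_eq fun _ _ _ _ => rfl
  | succ j ih =>
    rw [Function.iterate_succ_apply', Function.iterate_succ_apply']
    have hw := dl_sy_iter hp A P hP ha hg₀ hv j
    have h2 := CoM_sub' ih (CoM_trans (h1 _ hw) (CoM_cj B.ga
      (fun g hg => (ms_conj B (P.comap f.r) (comap_open f hP) (mo_fxM f ha) hg₁ g).1 hg) ih))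
    exact h2

end MSG
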