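import Pool.Agent.MSG.Rnr
import Pool.Agent.MSG.Kil

/-! # MSG / Kir: p rounds

PROOF (`dl`, `dl_p`, `pb_dl` are in Kil.lean, `round` in Rnr.lean).
* `rounds`: claim for `j ≤ p`: there is a good `f` with `P.comap f.r ≤ kr (f.ψ a)`, or `g₀ ∈ P.comap f.r` with `km (f.ψ a) g₀ = 1` and `v'`, `SyM (ms ..) v'`, `f.pb v ~ dl^j v'` on `ms ..`.  `j = 0`: the
  identity (`ms_alt`).  Step: `round` for `v'` gives `f'`, `g₁`, `v''` with `f'.pb v' ~ dl g₁ v''`; `(f.cmp f').pb v = f'.pb (f.pb v) ~ f'.pb (dl g₀^j v') ~ dl g₁^j (f'.pb v')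
  ~ dl g₁^(j+1) v''` (`pb_dl` j times; `dl` preserves `~` by `CoM_cj`).  For `j = p`: `dl_p` gives `f.pb v ~ 0`.
-/

set_option autoImplicit false
set_option linter.unusedVariables false

namespace MSG

universe u

open Pool.Agent.Helper14.Massey

variable {p : ℕ}

theorem CoM_dl {G Ω : Type u} [Group G] [TopologicalSpace G] [Field Ω] [MulSemiringAction G Ω] {n : ℕ} (hG : GA G Ω)
    {M : Subgroup G} {c : G} (hc : ∀ g, g ∈ M → c⁻¹ * g * c ∈ M) {f f' : G → G → ZMod n} (hf : CoM M f f') (j : ℕ) :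
    CoM M ((dl c)^[j] f) ((dl c)^[j] f') := by
  induction j generalizing f f' with
  | zero => exact hf
  | succ j ih =>
    rw [Function.iterate_succ_apply, Function.iterate_succ_apply]
    exact ih (CoM_sub' hf (CoM_cj hG hc hf))

theorem rounds (hp : p.Prime) (C : GC.{u} p) {k : ℕ} (hK : KillAt C k) (A : KP.{u} p) (P : Subgroup A.G)
    (hP : IsOpen (P : Set A.G)) (hi : P.index ≤ p ^ k) {a : A.Ω} (ha : FxM P a) {v : A.G → A.G → ZMod p}
    (hv : SyM p A.ζ (ms A P a) v) :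
    ∃ (B : KP.{u} p) (f : KM A B), C.Gd A B f ∧ (P.comap f.r ≤ kr B.G p (f.ψ a) ∨
      CoM (ms B (P.comap f.r) (f.ψ a)) (f.pb v) (fun _ _ => 0)) := by
  have key : ∀ j : ℕ, ∃ (B : KP.{u} p) (f : KM A B), C.Gd A B f ∧ (P.comap f.r ≤ kr B.G p (f.ψ a) ∨
      ∃ g₀ ∈ P.comap f.r, km p B.ζ (f.ψ a) g₀ = 1 ∧ ∃ v' : B.G → B.G → ZMod p,
        SyM p B.ζ (ms B (P.comap f.r) (f.ψ a)) v' ∧
        CoM (ms B (P.comap f.r) (f.ψ a)) (f.pb v) ((dl g₀)^[j] v')) := by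
    intro j
    induction j with
    | zero =>
      refine ⟨A, KM.id A, C.gid A, ?_⟩
      rcases ms_alt A P hp hP ha with h | ⟨g₀, hg₀, hk⟩
      · exact Or.inl h
      · exact Or.inr ⟨g₀, hg₀, hk, v, hv, CoM_of_eq (fun _ _ _ _ => rfl)⟩
    | succ j ih =>
      obtain ⟨B, f, hf, h | ⟨g₀, hg₀, hk, v', hv', hc⟩⟩ := ih
      · exact ⟨B, f, hf, Or.inl h⟩
      · obtain ⟨B', f', hf', h | ⟨g₁, hg₁, hk₁, v'', hv'', hc'⟩⟩ :=
          round hp C hK B (P.comap f.r) (comap_open f hP) ((comap_index f hP).trans hi) (mo_fxM f ha) hv'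
        · exact ⟨B', f.cmp f', C.gcmp _ _ _ f f' hf hf', Or.inl h⟩
        · refine ⟨B', f.cmp f', C.gcmp _ _ _ f f' hf hf', Or.inr ⟨g₁, hg₁, hk₁, v'', hv'', ?_⟩⟩
          have e1 : CoM ((ms B (P.comap f.r) (f.ψ a)).comap f'.r) (f'.pb (f.pb v)) (f'.pb ((dl g₀)^[j] v')) :=
            CoM_mo f'.toMo hc
          rw [mo_ms f' (mo_fxM f ha)] at e1
          have e2 := pb_dl hp f' (P.comap f.r) (comap_open f hP) (mo_fxM f ha) hg₀ hk hg₁ hk₁ hv' j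
          have hc1 : ∀ g, g ∈ ms B' ((P.comap f.r).comap f'.r) (f'.ψ (f.ψ a)) →
              g₁⁻¹ * g * g₁ ∈ ms B' ((P.comap f.r).comap f'.r) (f'.ψ (f.ψ a)) := fun g hg =>
            (ms_conj B' ((P.comap f.r).comap f'.r) (comap_open f' (comap_open f hP)) (mo_fxM f' (mo_fxM f ha)) hg₁ g).1 hg
          have e3 := CoM_dl B'.ga hc1 hc' j
          have e4 := CoM_trans e1 (CoM_trans e2 e3)
          rw [Function.iterate_succ_apply]
          exact e4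
  obtain ⟨B, f, hf, h | ⟨g₀, hg₀, hk, v', hv', hc⟩⟩ := key p
  · exact ⟨B, f, hf, Or.inl h⟩
  · exact ⟨B, f, hf, Or.inr (CoM_trans hc (dl_p hp B (P.comap f.r) (comap_open f hP) (mo_fxM f ha) hg₀ hv'))⟩

end MSG
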