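import Pool.Agent.MSG.H0
import Pool.Agent.MSG.Nc

/-! # MSG / Kl: the kernel of the restriction to a cyclic extension of degree `p`

PROOFS (`p` prime, `M = kr G p a`, `km a g₀ = 1`; write `k = (km a g).val`, `0 ≤ k < p`, `g = g₀ ^ k * m`, `m ∈ M`).
* `kl_norm` (normalisation): `f` a cocycle on `G` with `f = dχ` on `M`.  Replace `f` by `f - dχ` (`χ` continuous on `G`): `f = 0` on `M × M`.  Then put
  `χ₁ (g₀ ^ k m) = f (g₀ ^ k) m` (continuous; `χ₁ = 0` on `M` and at the `g₀ ^ k` because `f (g, 1) = f (1, 1) = 0`) and replace `f` by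
  `f + dχ₁`: now `f (g₀ ^ k) m = 0`, still `f = 0` on `M × M`, and the cocycle identity for `(g₀ ^ k, m', m)` gives `f g m = 0` for all
  `g ∈ G`, `m ∈ M`.
* Then `f g (h m) = f g h` (identity for `(g, h, m)`), so `f g h = ε_i g`, `i = km a h`, `ε_i g = f g (g₀ ^ i)`, `ε_0 = 0`.  The identity for `(g, h, g₀ ^ j)`:
  `ε_j (g h) = ε_j h + ε_(i + j) g - ε_i g`, `i = km a h`.  So `ε_j` is additive on `M`; `kg` for the group `M` gives `θ_j ≠ 0` with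
  `m • θ_j = zp ζ (ε_j m) * θ_j`, `θ_0 = 1`.
* `c (g, h) = zp ζ (- f g h) * (g • θ_i) * θ_k / θ_(k+i)`, `k = km a g`, `i = km a h`, indices in `ZMod p`.  It does not change if `g` is replaced by `g m`
  (`ε_i (g m) = ε_i m + ε_i g`) or `h` by `h m`.  It satisfies `g • c (h, l) * c (g, h l) = c (g h, l) * c (g, h)` and `c (m, h) = 1` for `m ∈ M`, hence
  `m • c (h, l) = c (m h, l) = c (h, l)`: values fixed by `M`.  Let `C k i = c (g₀ ^ k, g₀ ^ i)`, `Λ j = ∏_{i < j} C i 1` (`0 ≤ j < p`),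
  `b = ∏_{i < p} C i 1`.  From the identity `C k (j+1) = C k j * C (k+j) 1 / (g₀ ^ k • C j 1)`, so `C k j = b ^ [k + j ≥ p] * Λ (k+j mod p) / (Λ k * g₀ ^ k • Λ j)`
  for `0 ≤ k, j < p`, and for `j = p`: `1 = b / (g₀ ^ k • b)`: `b` is fixed by `G`.
* So `zp ζ (f g h) = b ^ (-[k + i ≥ p]) * Φ g * (g • Φ h) / Φ (g h)` with `Φ g = θ_k * Λ k`.  With `b' = b⁻¹`, `β = rt b'`, `Ψ g = β ^ k`: `Ψ g * (g • Ψ h) / Ψ (g h)
  = zp ζ (km b' g * km a h) * b' ^ [k + i ≥ p]`.  So `zp ζ (f g h + km b' g * km a h) = Ξ g * (g • Ξ h) / Ξ (g h)`, `Ξ = Φ Ψ` (locally constant).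
* `kl_h90`: if `zp ζ (F g h) = Ξ g * (g • Ξ h) / Ξ (g h)` with `Ξ` locally constant, nonzero, then `F ~ 0`: `Ξ ^ p` is a cocycle, `Ξ g ^ p = g • θ / θ`
  (`h90cont`), `τ = rt θ`, `(Ξ g * τ / (g • τ)) ^ p = 1`, `Ξ g = zp ζ (χ g) * (g • τ) / τ`, so `F g h = χ g + χ h - χ (g h)`.
* `kl`: `f ~ - km b' ∪ km a ~ km a ∪ km b'` (antisymmetry: `χ g = km a g * km b' g`), `c = b'`.
-/

set_option autoImplicit false
set_option linter.unusedVariables false

namespace MSG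

universe u v w

open Pool.Agent.Helper14.Massey

variable {G : Type u} {Ω : Type v} [Group G] [TopologicalSpace G] [Field Ω] [MulSemiringAction G Ω] {p : ℕ} {ζ : Ω}

private theorem smul_lc (hG : GA G Ω) (τ : Ω) : IsLocallyConstant (fun g : G => g • τ) := by
  letI : TopologicalSpace Ω := ⊥
  haveI : DiscreteTopology Ω := ⟨rfl⟩
  exact (IsLocallyConstant.iff_continuous _).mpr (cont_of hG τ (fun g : G => g • τ) (fun g h e => e))

private theorem z2_add (hG : GA G Ω) {f : G → G → ZMod p} (hf : f ∈ Z2 p G) (χ : G → ZMod p)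
    (hχ : Continuous χ) : (fun g h => f g h + (χ g + χ h - χ (g * h))) ∈ Z2 p G := by
  haveI := hG.top
  refine ⟨?_, ?_⟩
  · have h1 : Continuous (fun x : G × G => f x.1 x.2) := hf.1
    exact h1.add (((hχ.comp continuous_fst).add (hχ.comp continuous_snd)).sub (hχ.comp continuous_mul))
  · intro σ τ υ
    have h1 := hf.2 σ τ υ
    simp only [mul_assoc] at h1 ⊢
    linear_combination h1

private theorem km_gpow' [IsAlgClosed Ω] (hz : PZ p ζ) (hζ : ∀ g : G, g • ζ = ζ) {a : Ω}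
    (ha : Fx G a) (g : G) (k : ℕ) : km p ζ a (g ^ k) = (k : ZMod p) * km p ζ a g := by
  have h1 : km p ζ a (1 : G) = 0 := by
    have := km_hom hz ha.1 (hζ (1 : G)) (hζ 1) (ha.2 1) (ha.2 1)
    rw [mul_one] at this
    simpa using this
  induction k with
  | zero => rw [pow_zero, h1, Nat.cast_zero, zero_mul]
  | succ k ih =>
    rw [pow_succ, km_hom hz ha.1 (hζ _) (hζ _) (ha.2 _) (ha.2 _), ih]
    push_cast
    ring

theorem kl_h90 (hG : GA G Ω) (hp : p.Prime) (hz : PZ p ζ) (hζ : ∀ g : G, g • ζ = ζ) (F : G → G → ZMod p) (Ξ : G → Ω)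
    (h0 : ∀ g, Ξ g ≠ 0) (hl : IsLocallyConstant Ξ) (h : ∀ g h : G, zp ζ (F g h) = Ξ g * g • Ξ h / Ξ (g * h)) :
    Co F (fun _ _ => 0) := by
  haveI := hG.alg
  have hpw : ∀ g h : G, Ξ (g * h) ^ p = Ξ g ^ p * g • (Ξ h ^ p) := by
    intro g h'
    have h1 := h g h'
    have h2 : (Ξ g * g • Ξ h' / Ξ (g * h')) ^ p = 1 := by
      rw [← h1]
      exact zp_pow hz _
    rw [div_pow, div_eq_one_iff_eq (pow_ne_zero p (h0 _)), mul_pow] at h2
    rw [← h2, smul_pow']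
  obtain ⟨θ, hθ, hθ'⟩ := h90cont hG (fun g => Ξ g ^ p) (fun g => pow_ne_zero p (h0 g))
    (hl.comp (fun x => x ^ p)) hpw
  have hτp : rt p θ ^ p = θ := rt_pow hz θ
  have hτ0 : rt p θ ≠ 0 := rt_ne hz hθ
  have hgτ0 : ∀ g : G, g • rt p θ ≠ 0 := fun g => (smul_ne_zero_iff_ne g).mpr hτ0
  have hu : ∀ g : G, (Ξ g * rt p θ / (g • rt p θ)) ^ p = 1 := by
    intro g
    have h3 : (g • rt p θ) ^ p = g • θ := by rw [← smul_pow', hτp]
    have h4 : Ξ g ^ p = g • θ / θ := hθ' g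
    have hgθ : g • θ ≠ 0 := (smul_ne_zero_iff_ne g).mpr hθ
    rw [div_pow, mul_pow, h3, hτp, h4]
    field_simp
  refine ⟨fun g => lg p ζ (Ξ g * rt p θ / (g • rt p θ)), ?_, ?_⟩
  · exact (hl.comp₂ (smul_lc hG (rt p θ)) (fun x y => lg p ζ (x * rt p θ / y))).continuous
  · intro g h'
    apply zp_inj hz
    rw [zero_add, sub_eq_add_neg, zp_add hz, zp_add hz, zp_neg hz, zp_lg hz (hu g), zp_lg hz (hu (g * h')), h g h']
    have h5 : zp ζ (lg p ζ (Ξ h' * rt p θ / (h' • rt p θ)))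
        = (g • Ξ h') * (g • rt p θ) / ((g * h') • rt p θ) := by
      rw [← smul_zp (hζ g), zp_lg hz (hu h'), smul_div₀', smul_mul', mul_smul]
    rw [h5]
    have h6 := hgτ0 g
    have h7 := hgτ0 (g * h')
    have h8 := h0 (g * h')
    field_simp

/-- normalisation -/
theorem kl_norm (hG : GA G Ω) (hp : p.Prime) (hz : PZ p ζ) (hζ : ∀ g : G, g • ζ = ζ) {a : Ω} (ha : Fx G a)
    {g₀ : G} (hg₀ : km p ζ a g₀ = 1) {f : G → G → ZMod p} (hf : f ∈ Z2 p G) (h : CoM (kr G p a) f (fun _ _ => 0)) :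
    ∃ f' : G → G → ZMod p, f' ∈ Z2 p G ∧ Co f f' ∧ ∀ g, ∀ m ∈ kr G p a, f' g m = 0 := by
  haveI := hG.alg
  haveI := hG.top
  haveI := hz.neZero
  obtain ⟨χ, hχ, hχM⟩ := h
  -- first correction
  let f₁ : G → G → ZMod p := fun g h => f g h + ((-χ) g + (-χ) h - (-χ) (g * h))
  have hf₁ : f₁ ∈ Z2 p G := z2_add hG hf (-χ) hχ.neg
  have hf₁M : ∀ g ∈ kr G p a, ∀ h ∈ kr G p a, f₁ g h = 0 := by
    intro g hg h hh
    have h1 := hχM g hg h hh
    show f g h + ((-χ) g + (-χ) h - (-χ) (g * h)) = 0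
    rw [h1]
    simp only [Pi.neg_apply]
    ring
  have h1M : (1 : G) ∈ kr G p a := one_mem _
  have hf₁1 : ∀ g : G, f₁ g 1 = 0 := by
    intro g
    have h2 := hf₁.2 g 1 1
    rw [mul_one, mul_one, hf₁M 1 h1M 1 h1M] at h2
    linear_combination - h2
  -- second correction
  let c : G → G := fun g => g₀ ^ (km p ζ a g).val
  have hkc : ∀ g : G, km p ζ a (c g) = km p ζ a g := by
    intro g
    show km p ζ a (g₀ ^ (km p ζ a g).val) = km p ζ a g
    rw [km_gpow' hz hζ ha, hg₀, mul_one, ZMod.natCast_zmod_val]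
  have hcM : ∀ m ∈ kr G p a, c m = 1 := by
    intro m hm
    have h3 : km p ζ a m = 0 := (mem_kr hG hz hζ ha).mp hm
    show g₀ ^ (km p ζ a m).val = 1
    rw [h3, ZMod.val_zero, pow_zero]
  have hccm : ∀ g : G, ∀ m ∈ kr G p a, c (c g * m) = c g := by
    intro g m hm
    have h3 : km p ζ a m = 0 := (mem_kr hG hz hζ ha).mp hm
    show g₀ ^ (km p ζ a (c g * m)).val = g₀ ^ (km p ζ a g).val
    rw [km_hom hz ha.1 (hζ _) (hζ _) (ha.2 _) (ha.2 _), hkc, h3, add_zero]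
  have hcc : ∀ g : G, c (c g) = c g := by
    intro g
    show g₀ ^ (km p ζ a (c g)).val = g₀ ^ (km p ζ a g).val
    rw [hkc]
  have hdec : ∀ g : G, (c g)⁻¹ * g ∈ kr G p a := fun g => kr_dec hG hz hζ ha hg₀ g
  have hcc' : Continuous c := by
    have h4 : Continuous (fun g : G => km p ζ a g) := km_cont hG p ζ a
    have h5 : Continuous (fun i : ZMod p => g₀ ^ i.val) := continuous_of_discreteTopology
    exact h5.comp h4
  let χ₁ : G → ZMod p := fun g => f₁ (c g) ((c g)⁻¹ * g)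
  have hχ₁ : Continuous χ₁ := by
    have h6 : Continuous (fun x : G × G => f₁ x.1 x.2) := hf₁.1
    exact h6.comp (hcc'.prodMk (hcc'.inv.mul continuous_id))
  have hχ₁M : ∀ m ∈ kr G p a, χ₁ m = 0 := by
    intro m hm
    show f₁ (c m) ((c m)⁻¹ * m) = 0
    rw [hcM m hm, inv_one, one_mul]
    exact hf₁M 1 h1M m hm
  have hχ₁c : ∀ g : G, χ₁ (c g) = 0 := by
    intro g
    show f₁ (c (c g)) ((c (c g))⁻¹ * c g) = 0
    rw [hcc g, inv_mul_cancel]
    exact hf₁1 _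
  have hχ₁cm : ∀ g : G, ∀ m ∈ kr G p a, χ₁ (c g * m) = f₁ (c g) m := by
    intro g m hm
    show f₁ (c (c g * m)) ((c (c g * m))⁻¹ * (c g * m)) = _
    rw [hccm g m hm, inv_mul_cancel_left]
  let f₂ : G → G → ZMod p := fun g h => f₁ g h + (χ₁ g + χ₁ h - χ₁ (g * h))
  have hf₂ : f₂ ∈ Z2 p G := z2_add hG hf₁ χ₁ hχ₁
  have hf₂M : ∀ g ∈ kr G p a, ∀ h ∈ kr G p a, f₂ g h = 0 := by
    intro g hg h hh
    show f₁ g h + (χ₁ g + χ₁ h - χ₁ (g * h)) = 0
    rw [hf₁M g hg h hh, hχ₁M g hg, hχ₁M h hh, hχ₁M (g * h) (mul_mem hg hh)]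
    ring
  have hf₂c : ∀ g : G, ∀ m ∈ kr G p a, f₂ (c g) m = 0 := by
    intro g m hm
    show f₁ (c g) m + (χ₁ (c g) + χ₁ m - χ₁ (c g * m)) = 0
    rw [hχ₁c g, hχ₁M m hm, hχ₁cm g m hm]
    ring
  refine ⟨f₂, hf₂, ⟨fun g => χ g - χ₁ g, hχ.sub hχ₁, ?_⟩, ?_⟩
  · intro g h
    show f g h = (f g h + ((-χ) g + (-χ) h - (-χ) (g * h))) + (χ₁ g + χ₁ h - χ₁ (g * h))
      + ((χ g - χ₁ g) + (χ h - χ₁ h) - (χ (g * h) - χ₁ (g * h)))
    simp only [Pi.neg_apply]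
    ring
  · intro g m hm
    have h7 := hf₂.2 (c g) ((c g)⁻¹ * g) m
    rw [hf₂M _ (hdec g) m hm, mul_inv_cancel_left, hf₂c g _ (mul_mem (hdec g) hm), hf₂c g _ (hdec g)] at h7
    linear_combination - h7

end MSG
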