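import Pool.Agent.MSG.Kl
import Pool.Agent.MSG.Kg

/-! # MSG / Klb: the kernel of the restriction, main theorem (`kl_h90`, `kl_norm` are in Kl.lean)

PROOFS (`p` prime, `M = kr G p a`, `km a g₀ = 1`; write `k = (km a g).val`, `0 ≤ k < p`, `g = g₀ ^ k * m`, `m ∈ M`).
* `kl_norm` (normalisation): `f` a cocycle on `G` with `f = dχ` on `M`.  Replace `f` by `f - dχ` (`χ` continuous on `G`): `f = 0` on `M × M`.  Then put
  `χ₁ (g₀ ^ k m) = f (g₀ ^ k) m` (continuous; `χ₁ = 0` on `M` and at the `g₀ ^ k` because `f (g, 1) = f (1, 1) = 0`) and replace `f` by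
  `f + dχ₁`: now `f (g₀ ^ k) m = 0`, still `f = 0` on `M × M`, and the cocycle identity for `(g₀ ^ k, m', m)` gives `f g m = 0` for all
  `g ∈ G`, `m ∈ M`.
* Then `f g (h m) = f g h` (identity for `(g, h, m)`), so `f g h = ε_i g`, `i = km a h`, `ε_i g = f g (g₀ ^ i)`, `ε_0 = 0`.  The identity for `(g, h, g₀ ^ j)`:
  `ε_j (g h) = ε_j h + ε_(i + j) g - ε_i g`, `i = km a h`.  So `ε_j` is additive on `M`; `kg` for the group `M` gives `θ_j ≠ 0` with
  `m • θ_j = zp ζ (ε_j m) * θ_j`, `θ_0 = 1`.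
* `c (g, h) = zp ζ (- f g h) * (g • θ_i) * θ_k / θ_(k+i)`, `k = km a g`, `i = km a h`, indices in `ZMod p`.  It does not change if `g` is replaced by `g m`
  (`ε_i (g m) = ε_i m + ε_i g`) or `h` by `h m`.  It satisfies `g • c (h, l) * c (g, h l) = c (g h, l) * c (g, h)` and `c (m, h) = 1` for `m ∈ M`, hence
  `m • c (h, l) = c (m h, l) = c (h, l)`: values fixed by `M`.  Let `C k i = c (g₀ ^ k, g₀ ^ i)`, `Λ j = ∏_{i < j} C i 1` (`0 ≤ j < p`),
  `b = ∏_{i < p} C i 1`.  From the identity `C k (j+1) = C k j * C (k+j) 1 / (g₀ ^ k • C j 1)`, so `C k j = b ^ [k + j ≥ p] * Λ (k+j mod p) / (Λ k * g₀ ^ k • Λ j)`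
  for `0 ≤ k, j < p`, and for `j = p`: `1 = b / (g₀ ^ k • b)`: `b` is fixed by `G`.
* So `zp ζ (f g h) = b ^ (-[k + i ≥ p]) * Φ g * (g • Φ h) / Φ (g h)` with `Φ g = θ_k * Λ k`.  With `b' = b⁻¹`, `β = rt b'`, `Ψ g = β ^ k`: `Ψ g * (g • Ψ h) / Ψ (g h)
  = zp ζ (km b' g * km a h) * b' ^ [k + i ≥ p]`.  So `zp ζ (f g h + km b' g * km a h) = Ξ g * (g • Ξ h) / Ξ (g h)`, `Ξ = Φ Ψ` (locally constant).
* `kl_h90`: if `zp ζ (F g h) = Ξ g * (g • Ξ h) / Ξ (g h)` with `Ξ` locally constant, nonzero, then `F ~ 0`: `Ξ ^ p` is a cocycle, `Ξ g ^ p = g • θ / θ`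
  (`h90cont`), `τ = rt θ`, `(Ξ g * τ / (g • τ)) ^ p = 1`, `Ξ g = zp ζ (χ g) * (g • τ) / τ`, so `F g h = χ g + χ h - χ (g h)`.
* `kl`: `f ~ - km b' ∪ km a ~ km a ∪ km b'` (antisymmetry: `χ g = km a g * km b' g`), `c = b'`.
-/

set_option autoImplicit false
set_option linter.unusedVariables false

namespace MSG

universe u v w

open Pool.Agent.Helper14.Massey

variable {G : Type u} {Ω : Type v} [Group G] [TopologicalSpace G] [Field Ω] [MulSemiringAction G Ω] {p : ℕ} {ζ : Ω}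

/-- exponents of roots of unity -/
private theorem zp_mul_nat (hz : PZ p ζ) (x : ZMod p) (i : ℕ) : zp ζ (x * (i : ZMod p)) = zp ζ x ^ i := by
  induction i with
  | zero => rw [Nat.cast_zero, mul_zero, zp_zero hz, pow_zero]
  | succ i ih => rw [Nat.cast_succ, mul_add, mul_one, zp_add hz, ih, pow_succ]

private theorem kl_core (hz : PZ p ζ) (hζ : ∀ g : G, g • ζ = ζ) [NeZero p] (κ : G → ZMod p)
    (hκ : ∀ g h, κ (g * h) = κ g + κ h) {g₀ : G} (h1 : κ g₀ = 1) (F : G → G → ZMod p)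
    (hcoc : ∀ g h l, F h l - F (g * h) l + F g (h * l) - F g h = 0)
    (hm : ∀ g m, κ m = 0 → F g m = 0) (θ : ZMod p → Ω) (hθ0 : ∀ j, θ j ≠ 0) (hθ1 : θ 0 = 1)
    (hθ : ∀ j m, κ m = 0 → m • θ j = zp ζ (F m (g₀ ^ j.val)) * θ j) :
    ∃ (b : Ω) (D : ℕ → Ω), Fx G b ∧ (∀ j, D j ≠ 0) ∧ (∀ j k, D (j + k * p) = D j * b ^ k) ∧
      ∀ g h, zp ζ (F g h) * θ (κ (g * h)) * D ((κ g).val + (κ h).val) =
        (θ (κ g) * D (κ g).val) * g • (θ (κ h) * D (κ h).val) := by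
  -- the character
  have κ1 : κ 1 = 0 := by
    have h := hκ 1 1
    rw [mul_one] at h
    exact left_eq_add.1 h
  have κinv : ∀ g, κ g⁻¹ = - κ g := by
    intro g
    have h := hκ g⁻¹ g
    rw [inv_mul_cancel, κ1] at h
    exact eq_neg_of_add_eq_zero_left h.symm
  have κpow : ∀ j : ℕ, κ (g₀ ^ j) = (j : ZMod p) := by
    intro j
    induction j with
    | zero => rw [pow_zero, κ1, Nat.cast_zero]
    | succ j ih => rw [pow_succ, hκ, ih, h1, Nat.cast_succ]
  -- `F g h` depends on the class of `h` only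
  have A1 : ∀ g h h', κ h = κ h' → F g h = F g h' := by
    intro g h h' he
    have h0 : κ (h⁻¹ * h') = 0 := by rw [hκ, κinv, he, neg_add_cancel]
    have h2 := hcoc g h (h⁻¹ * h')
    rw [hm h _ h0, hm (g * h) _ h0, mul_inv_cancel_left] at h2
    linear_combination -h2
  have A2 : ∀ g m h, κ m = 0 → F (g * m) h = F m h + F g h := by
    intro g m h h0
    have h2 := hcoc g m h
    rw [hm g m h0, A1 g (m * h) h (by rw [hκ, h0, zero_add])] at h2
    linear_combination -h2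
  have A3 : ∀ m h, κ m = 0 → m • θ (κ h) = zp ζ (F m h) * θ (κ h) := by
    intro m h h0
    rw [hθ _ m h0, A1 m (g₀ ^ (κ h).val) h]
    rw [κpow, ZMod.natCast_zmod_val]
  -- the cocycle
  obtain ⟨c, hc⟩ : ∃ c : G → G → Ω, ∀ g h, c g h = zp ζ (-F g h) * g • θ (κ h) * θ (κ g) / θ (κ g + κ h) :=
    ⟨_, fun _ _ => rfl⟩
  have c0 : ∀ g h, c g h ≠ 0 := by
    intro g h
    rw [hc]
    refine div_ne_zero (mul_ne_zero (mul_ne_zero (zp_ne hz _) ?_) (hθ0 _)) (hθ0 _)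
    exact (smul_ne_zero_iff_ne g).2 (hθ0 _)
  have B1 : ∀ g m h, κ m = 0 → c (g * m) h = c g h := by
    intro g m h h0
    rw [hc, hc, A2 g m h h0, mul_smul, A3 m h h0, smul_mul', smul_zp (hζ g), hκ, h0, add_zero,
      neg_add, zp_add hz, zp_neg hz (F m h)]
    have := zp_ne hz (F m h)
    field_simp
  have B2 : ∀ g h h', κ h = κ h' → c g h = c g h' := by
    intro g h h' he
    rw [hc, hc, A1 g h h' he, he]
  have B2' : ∀ g g' h, κ g = κ g' → c g h = c g' h := by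
    intro g g' h he
    have h0 : κ (g⁻¹ * g') = 0 := by rw [hκ, κinv, he, neg_add_cancel]
    have h2 := B1 g (g⁻¹ * g') h h0
    rw [mul_inv_cancel_left] at h2
    exact h2.symm
  have B3 : ∀ g h l, g • c h l * c g (h * l) = c (g * h) l * c g h := by
    intro g h l
    have e1 : zp ζ (-F h l) * zp ζ (-F g (h * l)) = zp ζ (-F (g * h) l) * zp ζ (-F g h) := by
      rw [← zp_add hz, ← zp_add hz]
      congr 1
      linear_combination -(hcoc g h l)
    rw [hc h l, hc g (h * l), hc (g * h) l, hc g h, smul_div₀', smul_mul', smul_mul', smul_zp (hζ g),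
      hκ h l, hκ g h, mul_smul]
    have n1 : g • θ (κ h + κ l) ≠ 0 := (smul_ne_zero_iff_ne g).2 (hθ0 _)
    have n2 := hθ0 (κ h + κ l)
    have n3 := hθ0 (κ g + κ h)
    have n4 := hθ0 (κ g + κ h + κ l)
    rw [← add_assoc]
    field_simp
    linear_combination (g • h • θ (κ l)) * (g • θ (κ h)) * θ (κ g) * e1
  have B4 : ∀ m h, κ m = 0 → c m h = 1 := by
    intro m h h0
    rw [hc, A3 m h h0, h0, hθ1, zero_add, mul_one, zp_neg hz]
    have := zp_ne hz (F m h)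
    have := hθ0 (κ h)
    field_simp
  have B5 : ∀ g m, κ m = 0 → c g m = 1 := by
    intro g m h0
    rw [hc, hm g m h0, h0, hθ1, add_zero, neg_zero, zp_zero hz, smul_one, one_mul, one_mul,
      div_self (hθ0 _)]
  have B6 : ∀ m h l, κ m = 0 → m • c h l = c h l := by
    intro m h l h0
    have h2 := B3 m h l
    rw [B4 m _ h0, B4 m _ h0, mul_one, mul_one] at h2
    rw [h2]
    exact B2' _ _ _ (by rw [hκ, h0, zero_add])
  -- the products
  obtain ⟨D, hD0, hDs⟩ : ∃ D : ℕ → Ω, D 0 = 1 ∧ ∀ j, D (j + 1) = D j * c (g₀ ^ j) g₀ :=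
    ⟨fun j => ∏ i ∈ Finset.range j, c (g₀ ^ i) g₀, Finset.prod_range_zero _,
      fun j => Finset.prod_range_succ _ _⟩
  have C1 : ∀ j, D j ≠ 0 := by
    intro j
    induction j with
    | zero => rw [hD0]; exact one_ne_zero
    | succ j ih => rw [hDs]; exact mul_ne_zero ih (c0 _ _)
  have C2 : ∀ m j, κ m = 0 → m • D j = D j := by
    intro m j h0
    induction j with
    | zero => rw [hD0, smul_one]
    | succ j ih => rw [hDs, smul_mul', ih, B6 m _ _ h0]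
  have C3 : ∀ k j : ℕ, c (g₀ ^ k) (g₀ ^ j) * D k * g₀ ^ k • D j = D (k + j) := by
    intro k j
    induction j with
    | zero => rw [pow_zero, B5 _ 1 κ1, hD0, smul_one, one_mul, mul_one, add_zero]
    | succ j ih =>
      have h2 := B3 (g₀ ^ k) (g₀ ^ j) g₀
      rw [← pow_add, ← pow_succ] at h2
      rw [← add_assoc, hDs, hDs, smul_mul', ← ih]
      linear_combination (D k * g₀ ^ k • D j) * h2
  have C4 : ∀ k, D (k + p) = D k * D p := by
    intro k
    induction k with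
    | zero => rw [zero_add, hD0, one_mul]
    | succ k ih =>
      rw [add_right_comm, hDs, hDs, ih, B2' (g₀ ^ (k + p)) (g₀ ^ k) g₀]
      · ring
      · rw [κpow, κpow, Nat.cast_add, ZMod.natCast_self, add_zero]
  have C5 : ∀ k : ℕ, g₀ ^ k • D p = D p := by
    intro k
    have h2 := C3 k p
    rw [B5 _ (g₀ ^ p) (by rw [κpow, ZMod.natCast_self]), one_mul, C4] at h2
    exact mul_left_cancel₀ (C1 k) h2
  have dec : ∀ g : G, ∃ m, κ m = 0 ∧ g = g₀ ^ (κ g).val * m := by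
    intro g
    refine ⟨(g₀ ^ (κ g).val)⁻¹ * g, ?_, by rw [mul_inv_cancel_left]⟩
    rw [hκ, κinv, κpow, ZMod.natCast_zmod_val, neg_add_cancel]
  have C6 : ∀ g : G, g • D p = D p := by
    intro g
    obtain ⟨m, h0, hg⟩ := dec g
    rw [hg, mul_smul, C2 m p h0, C5]
  have C7 : ∀ j k, D (j + k * p) = D j * D p ^ k := by
    intro j k
    induction k with
    | zero => rw [zero_mul, add_zero, pow_zero, mul_one]
    | succ k ih => rw [add_mul, one_mul, ← add_assoc, C4, ih, pow_succ, mul_assoc]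
  refine ⟨D p, D, ⟨C1 p, C6⟩, C1, C7, fun g h => ?_⟩
  have e1 : c g h = c (g₀ ^ (κ g).val) (g₀ ^ (κ h).val) := by
    rw [B2' g (g₀ ^ (κ g).val) h, B2 _ h (g₀ ^ (κ h).val)]
    · rw [κpow, ZMod.natCast_zmod_val]
    · rw [κpow, ZMod.natCast_zmod_val]
  have e2 : g • D (κ h).val = g₀ ^ (κ g).val • D (κ h).val := by
    obtain ⟨m, h0, hg⟩ := dec g
    nth_rewrite 1 [hg]
    rw [mul_smul, C2 m _ h0]
  have e3 : zp ζ (F g h) * θ (κ (g * h)) * c g h = θ (κ g) * g • θ (κ h) := by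
    rw [hc, hκ, zp_neg hz]
    have := zp_ne hz (F g h)
    have := hθ0 (κ g + κ h)
    field_simp
  rw [← C3, ← e1, ← e2, smul_mul']
  linear_combination (D (κ g).val * g • D (κ h).val) * e3

theorem kl (hG : GA G Ω) (hp : p.Prime) (hz : PZ p ζ) (hζ : ∀ g : G, g • ζ = ζ) {a : Ω} (ha : Fx G a)
    {g₀ : G} (hg₀ : km p ζ a g₀ = 1) {f : G → G → ZMod p} (hf : f ∈ Z2 p G) (h : CoM (kr G p a) f (fun _ _ => 0)) :
    ∃ c : Ω, Fx G c ∧ Co f (kk p ζ a c) := by
  have := hz.neZero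
  have := hG.alg
  have := hG.top
  obtain ⟨F, hF, hfF, hFm⟩ := kl_norm hG hp hz hζ ha hg₀ hf h
  have hκ : ∀ g h : G, km p ζ a (g * h) = km p ζ a g + km p ζ a h := fun g h =>
    km_hom hz ha.1 (hζ g) (hζ h) (ha.2 g) (ha.2 h)
  have hmem : ∀ g : G, g ∈ kr G p a ↔ km p ζ a g = 0 := fun g => mem_kr hG hz hζ ha
  have hFm' : ∀ g m : G, km p ζ a m = 0 → F g m = 0 := fun g m h0 => hFm g m ((hmem m).2 h0)
  have hcoc := hF.2
  have hcl : IsClosed (kr G p a : Set G) := Subgroup.isClosed_of_isOpen _ (kr_open hG a)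
  have κ1 : km p ζ a (1 : G) = 0 := by
    have h := hκ 1 1
    rw [mul_one] at h
    exact left_eq_add.1 h
  -- the numbers `θ`
  have hθex : ∀ j : ZMod p, ∃ θ : Ω, θ ≠ 0 ∧
      (∀ m : G, km p ζ a m = 0 → m • θ = zp ζ (F m (g₀ ^ j.val)) * θ) ∧ (j = 0 → θ = 1) := by
    intro j
    by_cases hj : j = 0
    · refine ⟨1, one_ne_zero, fun m h0 => ?_, fun _ => rfl⟩
      rw [hj, ZMod.val_zero, pow_zero, hFm' m 1 κ1, zp_zero hz, smul_one, mul_one]
    · have hcont : Continuous fun m : kr G p a => F (m : G) (g₀ ^ j.val) := by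
        have h2 : Continuous fun m : kr G p a => (((m : G), g₀ ^ j.val) : G × G) := by fun_prop
        exact hF.1.comp h2
      obtain ⟨θ, h0, hθ⟩ := kg (hG.sub (kr G p a) hcl) hz (fun g => hζ (g : G))
        (fun m : kr G p a => F (m : G) (g₀ ^ j.val)) hcont (by
          intro m m'
          have h2 := hcoc m m' (g₀ ^ j.val)
          have h3 := hcoc m (g₀ ^ j.val) ((g₀ ^ j.val)⁻¹ * ((m' : G) * g₀ ^ j.val))
          have h4 : km p ζ a ((g₀ ^ j.val)⁻¹ * ((m' : G) * g₀ ^ j.val)) = 0 := by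
            have h5 := hκ (g₀ ^ j.val) ((g₀ ^ j.val)⁻¹ * ((m' : G) * g₀ ^ j.val))
            rw [mul_inv_cancel_left, hκ, (hmem _).1 m'.2, zero_add] at h5
            exact (left_eq_add.1 h5)
          rw [hFm' _ _ h4, hFm' _ _ h4, mul_inv_cancel_left] at h3
          have h6 := hFm' (m : G) (m' : G) ((hmem _).1 m'.2)
          show F ((m : G) * (m' : G)) (g₀ ^ j.val) = F (m : G) (g₀ ^ j.val) + F (m' : G) (g₀ ^ j.val)
          linear_combination -h2 + h3 - h6)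
      exact ⟨θ, h0, fun m hm0 => hθ ⟨m, (hmem m).2 hm0⟩, fun h2 => absurd h2 hj⟩
  choose θ hθ0 hθm hθ1 using hθex
  obtain ⟨b, D, hb, hD, hDp, hmain⟩ := kl_core hz hζ (fun g : G => km p ζ a g) hκ hg₀ F hcoc hFm' θ
    hθ0 (hθ1 0 rfl) hθm
  have hb' : Fx G b⁻¹ := ⟨inv_ne_zero hb.1, fun g => by rw [smul_inv₀', hb.2 g]⟩
  obtain ⟨β, hβ⟩ : ∃ β : Ω, β ^ p = b⁻¹ := ⟨rt p b⁻¹, rt_pow hz _⟩
  have hβ0 : β ≠ 0 := by
    intro h0
    rw [h0, zero_pow hp.ne_zero] at hβ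
    exact hb'.1 hβ.symm
  have hgβ : ∀ g : G, g • β = zp ζ (km p ζ b⁻¹ g) * β := fun g =>
    km_root hz hb'.1 hβ (hζ g) (hb'.2 g)
  -- the trivialisation
  have hco : Co (fun g h : G => F g h + km p ζ b⁻¹ g * km p ζ a h) (fun _ _ => 0) := by
    refine kl_h90 hG hp hz hζ _ (fun g : G => θ (km p ζ a g) * D (km p ζ a g).val * β ^ (km p ζ a g).val)
      (fun g => mul_ne_zero (mul_ne_zero (hθ0 _) (hD _)) (pow_ne_zero _ hβ0)) ?_ ?_
    · have h2 : IsLocallyConstant fun g : G => km p ζ a g :=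
        (IsLocallyConstant.iff_continuous _).2 (km_cont hG p ζ a)
      exact h2.comp fun j => θ j * D j.val * β ^ j.val
    · intro g h
      have h2 := hmain g h
      obtain ⟨r, hr⟩ : ∃ r : ℕ, (km p ζ a g).val + (km p ζ a h).val = (km p ζ a (g * h)).val + r * p := by
        refine ⟨((km p ζ a g).val + (km p ζ a h).val) / p, ?_⟩
        rw [hκ, ZMod.val_add]
        exact (Nat.mod_add_div' _ _).symm
      have h3 : zp ζ (km p ζ b⁻¹ g * km p ζ a h) = zp ζ (km p ζ b⁻¹ g) ^ (km p ζ a h).val := by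
        rw [← zp_mul_nat hz, ZMod.natCast_zmod_val]
      have h4 : β ^ (km p ζ a g).val * g • β ^ (km p ζ a h).val =
          zp ζ (km p ζ b⁻¹ g * km p ζ a h) * (β ^ (km p ζ a (g * h)).val * b⁻¹ ^ r) := by
        rw [smul_pow', hgβ, mul_pow, ← h3, ← hβ, ← pow_mul, mul_comm p r, ← pow_add β, ← hr, pow_add]
        ring
      have h5 : b ^ r * b⁻¹ ^ r = 1 := by
        rw [← mul_pow, mul_inv_cancel₀ hb.1, one_pow]
      have n0 : θ (km p ζ a (g * h)) * D (km p ζ a (g * h)).val * β ^ (km p ζ a (g * h)).val ≠ 0 :=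
        mul_ne_zero (mul_ne_zero (hθ0 _) (hD _)) (pow_ne_zero _ hβ0)
      rw [eq_div_iff n0, zp_add hz]
      have h6 : (θ (km p ζ a g) * D (km p ζ a g).val * β ^ (km p ζ a g).val) *
          g • (θ (km p ζ a h) * D (km p ζ a h).val * β ^ (km p ζ a h).val) =
          ((θ (km p ζ a g) * D (km p ζ a g).val) * g • (θ (km p ζ a h) * D (km p ζ a h).val)) *
            (β ^ (km p ζ a g).val * g • β ^ (km p ζ a h).val) := by
        rw [smul_mul' g (θ (km p ζ a h) * D (km p ζ a h).val)]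
        ring
      show _ = (θ (km p ζ a g) * D (km p ζ a g).val * β ^ (km p ζ a g).val) *
          g • (θ (km p ζ a h) * D (km p ζ a h).val * β ^ (km p ζ a h).val)
      rw [h6, h4, ← h2]
      show _ = zp ζ (F g h) * θ (km p ζ a (g * h)) * D ((km p ζ a g).val + (km p ζ a h).val) * _
      rw [hr, hDp]
      linear_combination (-(zp ζ (F g h) * zp ζ (km p ζ b⁻¹ g * km p ζ a h) * θ (km p ζ a (g * h)) *
        D (km p ζ a (g * h)).val * β ^ (km p ζ a (g * h)).val)) * h5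
  obtain ⟨χ₁, hχ₁, e1⟩ := hfF
  obtain ⟨χ₂, hχ₂, e2⟩ := hco
  refine ⟨b⁻¹, hb', fun g => χ₁ g + χ₂ g + km p ζ a g * km p ζ b⁻¹ g, ?_, fun g h => ?_⟩
  · exact (hχ₁.add hχ₂).add ((km_cont hG p ζ a).mul (km_cont hG p ζ b⁻¹))
  · have hκ' : km p ζ b⁻¹ (g * h) = km p ζ b⁻¹ g + km p ζ b⁻¹ h :=
      km_hom hz hb'.1 (hζ g) (hζ h) (hb'.2 g) (hb'.2 h)
    have e3 := e1 g h
    have e4 := e2 g h
    unfold kk
    simp only [hκ, hκ'] at e4 ⊢
    linear_combination e3 + e4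

end MSG
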