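import Pool.Agent.MSG.Defs

/-! # MSG / Km: roots of unity, logarithms, Kummer characters

PROOFS. `ζ` is a primitive `n`-th root of unity, `n > 1` odd; `NeZero n`; `(n : Ω) ≠ 0` (`IsPrimitiveRoot.neZero'` or: if
`n = 0` in `Ω` then the characteristic `q` divides `n` and `(ζ ^ (n / q)) ^ q = 1` gives `ζ ^ (n / q) = 1`).
* `zp_*`: `zp ζ j = ζ ^ j.val`, `ZMod.val_add`, `ζ ^ n = 1`, `IsPrimitiveRoot.pow_inj`; `zp_nat`: `ZMod.val_natCast`.
* `zp_lg`: `IsPrimitiveRoot.eq_pow_of_pow_eq_one` gives `j` with `u = ζ ^ j`; then the definition of `lg` and `zp_nat`.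
* `lg_zp`: from `zp_lg` and `zp_inj`.  `lg_mul`: apply `zp_inj`.
* `rt_pow`: `IsAlgClosed.exists_pow_nat_eq`.
* `km_root`: for `r = rt n a` this is `zp_lg` for `u = g • rt a / rt a` (`u ^ n = g • a / a = 1`).  Any other root is
  `r = zp ζ j * rt a` (`(r / rt a) ^ n = 1`), and `g` fixes `zp ζ j`.
* `km_eq`: cancel `r ≠ 0`, `zp_inj`.  `km_hom`, `km_mul`, `km_pow`, `km_inv`, `km_one`: `km_eq` for the roots `rt a`, `rt a * rt b`, `x`, ...
* `cont_of`: the set `{g' | c g' = c g}` contains the open set `g • stab x` (`hG.stab`, `hG.top`); a locally constant function is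
  continuous.  `km_cont`: `km a g` depends only on `g • rt n a`.
* `km_zero_iff`: if `km a = 0` then `rt a` is fixed (`km_root`).  Conversely `km_pow`.
-/

set_option autoImplicit false
set_option linter.unusedVariables false

namespace MSG

universe u v w

open Pool.Agent.Helper14.Massey

section fld

variable {Ω : Type v} [Field Ω] {n : ℕ} {ζ : Ω}

theorem PZ.neZero (hz : PZ n ζ) : NeZero n := ⟨by have := hz.one_lt; omega⟩

theorem PZ.cast_ne (hz : PZ n ζ) : (n : Ω) ≠ 0 := by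
  have := hz.neZero
  exact (hz.prim.neZero').out

/-- `2` is invertible modulo `n` -/
theorem PZ.two (hz : PZ n ζ) : ∃ i : ZMod n, 2 * i = 1 := by
  obtain ⟨k, hk⟩ := hz.odd
  refine ⟨((k + 1 : ℕ) : ZMod n), ?_⟩
  have h : ((2 * (k + 1) : ℕ) : ZMod n) = ((n + 1 : ℕ) : ZMod n) := by
    congr 1; omega
  have h2 : ((n + 1 : ℕ) : ZMod n) = 1 := by
    rw [Nat.cast_add, ZMod.natCast_self, zero_add, Nat.cast_one]
  rw [← h2, ← h, Nat.cast_mul]
  norm_num

theorem zp_zero (hz : PZ n ζ) : zp ζ (0 : ZMod n) = 1 := by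
  have := hz.neZero
  unfold zp
  rw [ZMod.val_zero, pow_zero]

theorem zp_nat (hz : PZ n ζ) (k : ℕ) : zp ζ (k : ZMod n) = ζ ^ k := by
  have := hz.neZero
  unfold zp
  rw [ZMod.val_natCast]
  conv_rhs => rw [← Nat.mod_add_div k n, pow_add, pow_mul, hz.prim.pow_eq_one, one_pow, mul_one]

theorem zp_add (hz : PZ n ζ) (i j : ZMod n) : zp ζ (i + j) = zp ζ i * zp ζ j := by
  have := hz.neZero
  have hi : ((i.val : ℕ) : ZMod n) = i := ZMod.natCast_zmod_val i
  have hj : ((j.val : ℕ) : ZMod n) = j := ZMod.natCast_zmod_val j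
  have h : zp ζ (i + j) = zp ζ ((i.val + j.val : ℕ) : ZMod n) := by
    rw [Nat.cast_add, hi, hj]
  rw [h, zp_nat hz, pow_add]
  rfl

theorem zp_ne (hz : PZ n ζ) (i : ZMod n) : zp ζ i ≠ 0 := by
  have := hz.neZero
  exact pow_ne_zero _ (hz.prim.ne_zero (by have := hz.one_lt; omega))

theorem zp_neg (hz : PZ n ζ) (i : ZMod n) : zp ζ (-i) = (zp ζ i)⁻¹ := by
  have h := zp_add hz (-i) i
  rw [neg_add_cancel, zp_zero hz] at h
  exact eq_inv_of_mul_eq_one_left h.symm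

theorem zp_pow (hz : PZ n ζ) (i : ZMod n) : zp ζ i ^ n = 1 := by
  unfold zp
  rw [← pow_mul, mul_comm, pow_mul, hz.prim.pow_eq_one, one_pow]

theorem zp_inj (hz : PZ n ζ) {i j : ZMod n} (h : zp ζ i = zp ζ j) : i = j := by
  have := hz.neZero
  exact ZMod.val_injective n (hz.prim.pow_inj (ZMod.val_lt i) (ZMod.val_lt j) h)

theorem zp_lg (hz : PZ n ζ) {x : Ω} (hx : x ^ n = 1) : zp ζ (lg n ζ x) = x := by
  have := hz.neZero
  have h : ∃ j : ℕ, x = ζ ^ j := by
    obtain ⟨i, _, hi⟩ := hz.prim.eq_pow_of_pow_eq_one hx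
    exact ⟨i, hi.symm⟩
  unfold lg
  rw [dif_pos h, zp_nat hz]
  exact h.choose_spec.symm

theorem lg_zp (hz : PZ n ζ) (i : ZMod n) : lg n ζ (zp ζ i) = i :=
  zp_inj hz (zp_lg hz (zp_pow hz i))

theorem lg_mul (hz : PZ n ζ) {x y : Ω} (hx : x ^ n = 1) (hy : y ^ n = 1) :
    lg n ζ (x * y) = lg n ζ x + lg n ζ y := by
  apply zp_inj hz
  rw [zp_add hz, zp_lg hz hx, zp_lg hz hy, zp_lg hz (by rw [mul_pow, hx, hy, one_mul])]

theorem lg_one (hz : PZ n ζ) : lg n ζ (1 : Ω) = 0 := by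
  have h := lg_zp hz 0
  rwa [zp_zero hz] at h

theorem rt_pow [IsAlgClosed Ω] (hz : PZ n ζ) (a : Ω) : rt n a ^ n = a := by
  have h : ∃ r : Ω, r ^ n = a := IsAlgClosed.exists_pow_nat_eq a (by have := hz.one_lt; omega)
  unfold rt
  rw [dif_pos h]
  exact h.choose_spec

theorem rt_ne [IsAlgClosed Ω] (hz : PZ n ζ) {a : Ω} (ha : a ≠ 0) : rt n a ≠ 0 := by
  intro h
  have h2 := rt_pow hz a
  rw [h, zero_pow (by have := hz.one_lt; omega)] at h2
  exact ha h2.symm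

end fld

section act

variable {G : Type u} {Ω : Type v} [Group G] [Field Ω] [MulSemiringAction G Ω] {n : ℕ} {ζ : Ω}

theorem smul_zp {g : G} (hg : g • ζ = ζ) (i : ZMod n) : g • zp ζ i = zp ζ i := by
  unfold zp
  rw [smul_pow', hg]

variable [IsAlgClosed Ω]

theorem km_root (hz : PZ n ζ) {a r : Ω} (ha : a ≠ 0) (hr : r ^ n = a) {g : G} (hg : g • ζ = ζ)
    (hga : g • a = a) : g • r = zp ζ (km n ζ a g) * r := by
  have hrt : rt n a ≠ 0 := rt_ne hz ha
  have h1 : (g • rt n a / rt n a) ^ n = 1 := by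
    rw [div_pow, ← smul_pow', rt_pow hz, hga, div_self ha]
  have h2 : g • rt n a = zp ζ (km n ζ a g) * rt n a := by
    unfold km
    rw [zp_lg hz h1, div_mul_cancel₀ _ hrt]
  have h3 : (r / rt n a) ^ n = 1 := by
    rw [div_pow, hr, rt_pow hz, div_self ha]
  have h4 : r = zp ζ (lg n ζ (r / rt n a)) * rt n a := by
    rw [zp_lg hz h3, div_mul_cancel₀ _ hrt]
  rw [h4, smul_mul', smul_zp hg, h2]
  ring

theorem km_eq (hz : PZ n ζ) {a r : Ω} (ha : a ≠ 0) (hr : r ^ n = a) {g : G} (hg : g • ζ = ζ)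
    (hga : g • a = a) {j : ZMod n} (h : g • r = zp ζ j * r) : km n ζ a g = j := by
  have hr0 : r ≠ 0 := by
    intro h0
    rw [h0, zero_pow (by have := hz.one_lt; omega)] at hr
    exact ha hr.symm
  apply zp_inj hz
  have h1 := km_root hz ha hr hg hga
  rw [h] at h1
  exact (mul_right_cancel₀ hr0 h1).symm

theorem km_hom (hz : PZ n ζ) {a : Ω} (ha : a ≠ 0) {g h : G} (hg : g • ζ = ζ) (hh : h • ζ = ζ)
    (hga : g • a = a) (hha : h • a = a) : km n ζ a (g * h) = km n ζ a g + km n ζ a h := by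
  apply km_eq hz ha (rt_pow hz a) (by rw [mul_smul, hh, hg]) (by rw [mul_smul, hha, hga])
  rw [mul_smul, km_root hz ha (rt_pow hz a) hh hha, smul_mul', smul_zp hg,
    km_root hz ha (rt_pow hz a) hg hga, zp_add hz]
  ring

theorem km_mul (hz : PZ n ζ) {a b : Ω} (ha : a ≠ 0) (hb : b ≠ 0) {g : G} (hg : g • ζ = ζ)
    (hga : g • a = a) (hgb : g • b = b) : km n ζ (a * b) g = km n ζ a g + km n ζ b g := by
  apply km_eq hz (mul_ne_zero ha hb) (r := rt n a * rt n b) (by rw [mul_pow, rt_pow hz, rt_pow hz]) hg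
    (by rw [smul_mul', hga, hgb])
  rw [smul_mul', km_root hz ha (rt_pow hz a) hg hga, km_root hz hb (rt_pow hz b) hg hgb, zp_add hz]
  ring

theorem km_one (hz : PZ n ζ) {g : G} (hg : g • ζ = ζ) : km n ζ (1 : Ω) g = 0 := by
  apply km_eq hz one_ne_zero (r := 1) (one_pow n) hg (smul_one g)
  rw [smul_one, zp_zero hz, one_mul]

theorem km_inv (hz : PZ n ζ) {a : Ω} (ha : a ≠ 0) {g : G} (hg : g • ζ = ζ)
    (hga : g • a = a) : km n ζ a⁻¹ g = - km n ζ a g := by
  have hga' : g • a⁻¹ = a⁻¹ := by rw [smul_inv'', hga]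
  have h := km_mul hz (inv_ne_zero ha) ha hg hga' hga
  rw [inv_mul_cancel₀ ha, km_one hz hg] at h
  exact eq_neg_of_add_eq_zero_left h.symm

theorem km_pow (hz : PZ n ζ) {x : Ω} (hx : x ≠ 0) {g : G} (hg : g • ζ = ζ) (hgx : g • x = x) :
    km n ζ (x ^ n) g = 0 := by
  apply km_eq hz (pow_ne_zero n hx) (r := x) rfl hg (by rw [smul_pow', hgx])
  rw [zp_zero hz, one_mul, hgx]

/-- `-1 = (-1) ^ n` -/
theorem km_neg_one (hz : PZ n ζ) {g : G} (hg : g • ζ = ζ) : km n ζ (-1 : Ω) g = 0 := by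
  have h := km_pow hz (x := (-1 : Ω)) (neg_ne_zero.mpr one_ne_zero) hg (by rw [smul_neg, smul_one])
  rwa [hz.odd.neg_one_pow] at h

end act

section top

variable {G : Type u} {Ω : Type v} [Group G] [TopologicalSpace G] [Field Ω] [MulSemiringAction G Ω] {n : ℕ} {ζ : Ω}

theorem cont_of {X : Type w} [TopologicalSpace X] (hG : GA G Ω) (x : Ω) (c : G → X)
    (hc : ∀ g h : G, g • x = h • x → c g = c h) : Continuous c := by
  have := hG.top
  apply IsLocallyConstant.continuous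
  rw [IsLocallyConstant.iff_eventually_eq]
  intro g
  have ho : IsOpen {h : G | g⁻¹ * h ∈ {k : G | k • x = x}} :=
    (hG.stab x).preimage (continuous_const.mul continuous_id)
  have hm : g ∈ {h : G | g⁻¹ * h ∈ {k : G | k • x = x}} := by
    simp
  filter_upwards [ho.mem_nhds hm] with h hh
  apply hc
  have h1 : (g⁻¹ * h) • x = x := hh
  rw [mul_smul, inv_smul_eq_iff] at h1
  exact h1

theorem km_cont (hG : GA G Ω) (n : ℕ) (ζ a : Ω) : Continuous (fun g : G => km n ζ a g) := by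
  apply cont_of hG (rt n a)
  intro g h hgh
  unfold km
  rw [hgh]

theorem km_zero_iff (hG : GA G Ω) (hz : PZ n ζ) (hζ : ∀ g : G, g • ζ = ζ) {a : Ω} (ha : Fx G a) :
    (∀ g : G, km n ζ a g = 0) ↔ ∃ x : Ω, Fx G x ∧ x ^ n = a := by
  have := hG.alg
  constructor
  · intro h
    refine ⟨rt n a, ⟨rt_ne hz ha.1, fun g => ?_⟩, rt_pow hz a⟩
    have h1 := km_root hz ha.1 (rt_pow hz a) (hζ g) (ha.2 g)
    rwa [h g, zp_zero hz, one_mul] at h1
  · rintro ⟨x, hx, rfl⟩ g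
    exact km_pow hz hx.1 (hζ g) (hx.2 g)

end top

end MSG
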