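import Pool.Agent.MSG.Sya
import Pool.Agent.MSG.Art

/-! # MSG / Mor: morphisms of pairs

PROOFS.
* `Mo.km`: `ψ (rt a)` is an `n`-th root of `ψ a` and `g • ψ (rt a) = ψ (r g • rt a) = ψ (zp ζ (km a (r g))) * ψ (rt a)`; `km_eq`.
* `Mo.fx`: clear.  `Mo.pz`: `IsPrimitiveRoot.map_of_injective`.
* `Mo.sy`: the entries `ψ (a i)`, `ψ (b i)`, the coboundary of `χ ∘ s` (`Co_comp`, `Mo.km`).
* `exists_Mo`: `Ω` is algebraic over `F = FixedPoints.subfield G Ω` (`GA.algebraic`), `Ω'` is algebraically closed, so `φ` extends to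
  `ψ : Ω →+* Ω'` (`IsAlgClosed.lift` for the `F`-algebra structure on `Ω'` given by `φ`).  For `g ∈ G'` and `x ∈ Ω` the element
  `g • ψ x` is a root of the image under `φ` of `∏_{y ∈ G x} (X - y)` (coefficients in `F`, their images are fixed by `G'`), so it is in
  `ψ (G x)`.  So `σ = ψ⁻¹ ∘ g ∘ ψ` is a ring homomorphism `Ω → Ω` which fixes `F`; by `GA.exists_smul` `σ = r g • ·` for a unique
  `r g ∈ G` (`GA.faithful`).  `r` is a homomorphism by uniqueness.  Continuity (it is enough at `1`, `continuous_of_continuousAt_one`): for an open `U ∋ 1`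
  choose `x` with `stab x ⊆ U` (`basis`); if `g ∈ G'` fixes `ψ x` then `r g` fixes `x`.
* `Mo.conj`: `m'.ψ x` is a root of the image of `∏_{y ∈ G x} (X - y)` under `m.ψ` (which agrees with `m'.ψ` on the fixed elements), so
  `m'.ψ x ∈ m.ψ Ω`; `σ = m.ψ⁻¹ ∘ m'.ψ` fixes the fixed elements, so `σ = c • ·`.  Then
  `m.ψ (c • m'.r g • x) = m'.ψ (m'.r g • x) = g • m'.ψ x = g • m.ψ (c • x) = m.ψ (m.r g • c • x)`, so `c m'.r g = m.r g c`.
* `Mo.conj_co`: `Mo.conj` and `Co_conj`.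
* `Mo.cmp`, `Mo.idm`: composition and identity.
-/

set_option autoImplicit false
set_option linter.unusedVariables false

namespace MSG

universe u v w

open Pool.Agent.Helper14.Massey

variable {G Ω G' Ω' G'' Ω'' : Type u} [Group G] [TopologicalSpace G] [Field Ω] [MulSemiringAction G Ω]
  [Group G'] [TopologicalSpace G'] [Field Ω'] [MulSemiringAction G' Ω']
  [Group G''] [TopologicalSpace G''] [Field Ω''] [MulSemiringAction G'' Ω''] {n : ℕ} {ζ : Ω}

/-- composition of morphisms -/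
def Mo.cmp (m : Mo G Ω G' Ω') (m' : Mo G' Ω' G'' Ω'') : Mo G Ω G'' Ω'' where
  ψ := m'.ψ.comp m.ψ
  r := m.r.comp m'.r
  cont := m.cont.comp m'.cont
  comp g x := by
    show m'.ψ (m.ψ (m.r (m'.r g) • x)) = g • m'.ψ (m.ψ x)
    rw [m.comp, m'.comp]

/-- the identity morphism -/
def Mo.idm (G Ω : Type u) [Group G] [TopologicalSpace G] [Field Ω] [MulSemiringAction G Ω] : Mo G Ω G Ω where
  ψ := RingHom.id Ω
  r := MonoidHom.id G
  cont := continuous_id
  comp _ _ := rfl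

theorem Mo.km (m : Mo G Ω G' Ω') [IsAlgClosed Ω] [IsAlgClosed Ω'] (hz : PZ n ζ) {a : Ω} (ha : a ≠ 0) {g : G'}
    (hg : m.r g • ζ = ζ) (hga : m.r g • a = a) : km n (m.ψ ζ) (m.ψ a) g = MSG.km n ζ a (m.r g) := by
  have hz' : PZ n (m.ψ ζ) := ⟨hz.odd, hz.one_lt, hz.prim.map_of_injective m.ψ.injective⟩
  refine km_eq (r := m.ψ (rt n a)) hz' ((map_ne_zero m.ψ).2 ha) ?_ ?_ ?_ ?_
  · rw [← map_pow, rt_pow hz]
  · rw [← m.comp, hg]
  · rw [← m.comp, hga]
  · rw [← m.comp, km_root hz ha (rt_pow hz a) hg hga, map_mul]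
    unfold zp
    rw [map_pow]

theorem Mo.fx (m : Mo G Ω G' Ω') {a : Ω} (ha : Fx G a) : Fx G' (m.ψ a) := by
  refine ⟨(map_ne_zero m.ψ).2 ha.1, fun g => ?_⟩
  rw [← m.comp, ha.2]

theorem Mo.pz (m : Mo G Ω G' Ω') (hz : PZ n ζ) : PZ n (m.ψ ζ) :=
  ⟨hz.odd, hz.one_lt, hz.prim.map_of_injective m.ψ.injective⟩

theorem Mo.sy (m : Mo G Ω G' Ω') [IsAlgClosed Ω] [IsAlgClosed Ω'] (hz : PZ n ζ) {H H' : Type*} [Group H] [TopologicalSpace H]
    [Group H'] [TopologicalSpace H'] (ι : H →* G) (ι' : H' →* G') (s : H' →* H) (hs : Continuous s)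
    (hc : ∀ h, m.r (ι' h) = ι (s h)) (hι : ∀ h, ι h • ζ = ζ) {f : H → H → ZMod n} (hf : Sy n ζ ι f) :
    Sy n (m.ψ ζ) ι' (fun g h => f (s g) (s h)) := by
  obtain ⟨M, a, b, ha, hb, hco⟩ := hf
  refine ⟨M, fun i => m.ψ (a i), fun i => m.ψ (b i), fun i => m.fx (ha i), fun i => m.fx (hb i), ?_⟩
  have h1 := Co_comp s hs hco
  have key : ∀ {c : Ω}, Fx G c → ∀ x : H', MSG.km n (m.ψ ζ) (m.ψ c) (ι' x) = MSG.km n ζ c (ι (s x)) := by
    intro c hc' x
    rw [Mo.km m hz hc'.1 (by rw [hc]; exact hι _) (hc'.2 _), hc]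
  have e : (fun g h => ∑ i, MSG.km n (m.ψ ζ) (m.ψ (a i)) (ι' g) * MSG.km n (m.ψ ζ) (m.ψ (b i)) (ι' h)) =
      fun x y => ∑ i, MSG.km n ζ (a i) (ι (s x)) * MSG.km n ζ (b i) (ι (s y)) := by
    funext x y
    exact Finset.sum_congr rfl fun i _ => by rw [key (ha i), key (hb i)]
  rw [e]
  exact h1

/-- the inclusion of a subgroup as a morphism -/
def Mo.incl (G Ω : Type u) [Group G] [TopologicalSpace G] [Field Ω] [MulSemiringAction G Ω] (N : Subgroup G) :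
    Mo G Ω N Ω where
  ψ := RingHom.id Ω
  r := N.subtype
  cont := continuous_subtype_val
  comp _ _ := rfl

end MSG
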