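import Pool.Agent.MSG.Jsb

/-! # MSG / Psq: the inverse of the norm on symbols

`F = FixedPoints.subfield G Ω`, `M = kr G p a`, `km a g₀ = 1`.  `D` is a set of units of `F` which are norms from `M`.
If `∑ [nL (l i), c i] - p τ` lies in the subgroup `RelD D` of relations of `K₂(F)` with first entries in `D`, then `∑ km (l i) ∪ km (c i)` is `v - v^s`
modulo coboundaries on `M`, `v` a sum of symbols over `M`.

PROOF (as in `Pool/Agent/MK/H90.lean`).  Let `J` be the additive subgroup of `G → G → ZMod p` of all `f` with `JS p ζ M g₀ f` (`js_zero`, `js_add`, `js_neg`).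
Choose for every unit `d` of `F` an element `pre d`, fixed by `M`, with `nL (pre d) = d` if there is one, and `1` otherwise.
`Ψ : FreeAbelianGroup (Fˣ × Fˣ) →+ (G → G → ZMod p) ⧸ J`, `[d, c] ↦ kk (pre d) c`.
(1) `Ψ` kills `RelD D` (closure induction): `kk (pre (d d')) c - kk (pre d) c - kk (pre d') c` is in `J` by `js_norm` for `pre (d d')` and `pre d * pre d'`
(`nL_mul`) and bilinearity of `kk` on `M` (`km_mul`); `kk (pre d) (c c') = kk (pre d) c + kk (pre d) c'` on `M`; `kk (pre d) (1 - d)` by `js_steinberg` (`d ≠ 1`).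
(2) `Ψ [nL l, c] = kk l c` modulo `J` for `l` fixed by `M` (`js_norm`: `pre (nL l)` and `l` have the same norm).
(3) `Ψ (p τ) = p Ψ τ = 0` because `p • f = 0` for cochains with values in `ZMod p`.
-/

set_option autoImplicit false
set_option linter.unusedVariables false

namespace MSG

universe u v w

open Pool.Agent.Helper14.Massey

open Pool.Agent.MK (RelD)

section

variable {G : Type u} {Ω : Type v} [Group G] [TopologicalSpace G] [Field Ω] [MulSemiringAction G Ω] {p : ℕ} {ζ : Ω}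

omit [TopologicalSpace G] in
private theorem psq_fx (c : (FixedPoints.subfield G Ω)ˣ) :
    Fx G (((c : FixedPoints.subfield G Ω)) : Ω) :=
  ⟨fun h => c.ne_zero (Subtype.ext h), fun g => (c : FixedPoints.subfield G Ω).2 g⟩

open Classical in
/-- an element with the given norm (`1` if there is none) -/
private noncomputable def psqPre (p : ℕ) (a : Ω) (g₀ : G) (d : (FixedPoints.subfield G Ω)ˣ) : Ω :=
  if h : ∃ z : Ω, FxM (kr G p a) z ∧ nL p g₀ z = ((d : FixedPoints.subfield G Ω) : Ω) then h.choose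
  else 1

omit [TopologicalSpace G] in
private theorem psqPre_fx (p : ℕ) (a : Ω) (g₀ : G) (d : (FixedPoints.subfield G Ω)ˣ) :
    FxM (kr G p a) (psqPre p a g₀ d) := by
  unfold psqPre
  split_ifs with h
  · exact h.choose_spec.1
  · exact ⟨one_ne_zero, fun g _ => smul_one g⟩

omit [TopologicalSpace G] in
private theorem psqPre_nL {a : Ω} {g₀ : G} {d : (FixedPoints.subfield G Ω)ˣ}
    (h : ∃ z : Ω, FxM (kr G p a) z ∧ nL p g₀ z = ((d : FixedPoints.subfield G Ω) : Ω)) :
    nL p g₀ (psqPre p a g₀ d) = ((d : FixedPoints.subfield G Ω) : Ω) := by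
  unfold psqPre
  rw [dif_pos h]
  exact h.choose_spec.2

theorem psq (hG : GA G Ω) (hp : p.Prime) (hz : PZ p ζ) (hζ : ∀ g : G, g • ζ = ζ) {a : Ω} (ha : Fx G a)
    {g₀ : G} (hg₀ : km p ζ a g₀ = 1) {m : ℕ} (l : Fin m → Ω) (hl : ∀ i, FxM (kr G p a) (l i))
    (c : Fin m → (FixedPoints.subfield G Ω)ˣ) (Nl : Fin m → (FixedPoints.subfield G Ω)ˣ)
    (hN : ∀ i, (((Nl i : FixedPoints.subfield G Ω)) : Ω) = nL p g₀ (l i))
    (D : Set (FixedPoints.subfield G Ω)ˣ) (hD : ∀ d ∈ D, ∃ z : Ω, FxM (kr G p a) z ∧ nL p g₀ z = ((d : FixedPoints.subfield G Ω) : Ω))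
    (τ : FreeAbelianGroup ((FixedPoints.subfield G Ω)ˣ × (FixedPoints.subfield G Ω)ˣ))
    (h : (∑ i, FreeAbelianGroup.of (Nl i, c i)) - (p : ℤ) • τ ∈ RelD D) :
    JS p ζ (kr G p a) g₀ (fun x y => ∑ i, kk p ζ (l i) ((c i : FixedPoints.subfield G Ω) : Ω) x y) := by
  have := hG.alg
  let M := kr G p a
  let J : AddSubgroup (G → G → ZMod p) :=
    { carrier := {f | JS p ζ (kr G p a) g₀ f}
      zero_mem' := js_zero hG hp hz hζ ha hg₀
      add_mem' := fun h h' => js_add hG hp hz hζ ha hg₀ h h'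
      neg_mem' := fun h => js_neg hG hp hz hζ ha hg₀ h }
  have hJ : ∀ f : G → G → ZMod p, f ∈ J ↔ JS p ζ (kr G p a) g₀ f := fun f => Iff.rfl
  let Ψ : FreeAbelianGroup ((FixedPoints.subfield G Ω)ˣ × (FixedPoints.subfield G Ω)ˣ) →+
      (G → G → ZMod p) ⧸ J :=
    FreeAbelianGroup.lift fun q => (QuotientAddGroup.mk
      (kk p ζ (psqPre p a g₀ q.1) ((q.2 : FixedPoints.subfield G Ω) : Ω)) : (G → G → ZMod p) ⧸ J)
  have hΨ : ∀ d e, Ψ (FreeAbelianGroup.of (d, e)) = (QuotientAddGroup.mk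
      (kk p ζ (psqPre p a g₀ d) ((e : FixedPoints.subfield G Ω) : Ω)) : (G → G → ZMod p) ⧸ J) := by
    intro d e
    exact FreeAbelianGroup.lift_apply_of _ _
  have hrel : ∀ t ∈ RelD D, Ψ t = 0 := by
    intro t ht
    induction ht using AddSubgroup.closure_induction with
    | mem t h =>
      rcases h with (⟨d, e, c, hd, he, hde, rfl⟩ | ⟨d, b, c, hd, rfl⟩) | ⟨d, b, hd, hdb, rfl⟩
      · rw [map_sub, map_sub, hΨ, hΨ, hΨ, ← QuotientAddGroup.mk_sub, ← QuotientAddGroup.mk_sub,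
          QuotientAddGroup.eq_zero_iff, hJ]
        have hd1 := psqPre_fx p a g₀ d
        have he1 := psqPre_fx p a g₀ e
        have hpe : FxM (kr G p a) (psqPre p a g₀ d * psqPre p a g₀ e) :=
          ⟨mul_ne_zero hd1.1 he1.1, fun g hg => by rw [smul_mul', hd1.2 g hg, he1.2 g hg]⟩
        have h1 := js_norm hG hp hz hζ ha hg₀ (psqPre_fx p a g₀ (d * e)) hpe (psq_fx c) (by
          rw [nL_mul, psqPre_nL (hD _ hde), psqPre_nL (hD _ hd), psqPre_nL (hD _ he)]
          rfl)
        refine js_congr hG hp hz hζ ha hg₀ (CoM_of_eq ?_) h1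
        intro x hx y hy
        change kk p ζ (psqPre p a g₀ (d * e)) _ x y - kk p ζ (psqPre p a g₀ d) _ x y -
          kk p ζ (psqPre p a g₀ e) _ x y = _
        unfold kk
        rw [km_mul hz hd1.1 he1.1 (hζ x) (hd1.2 x hx) (he1.2 x hx)]
        ring
      · rw [map_sub, map_sub, hΨ, hΨ, hΨ, ← QuotientAddGroup.mk_sub, ← QuotientAddGroup.mk_sub,
          QuotientAddGroup.eq_zero_iff, hJ]
        refine js_congr hG hp hz hζ ha hg₀ (CoM_of_eq ?_) (js_zero hG hp hz hζ ha hg₀)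
        intro x hx y hy
        change kk p ζ (psqPre p a g₀ d) (((b * c : (FixedPoints.subfield G Ω)ˣ) :
            FixedPoints.subfield G Ω) : Ω) x y - kk p ζ (psqPre p a g₀ d) _ x y -
          kk p ζ (psqPre p a g₀ d) _ x y = _
        have e1 : (((b * c : (FixedPoints.subfield G Ω)ˣ) : FixedPoints.subfield G Ω) : Ω) =
            ((b : FixedPoints.subfield G Ω) : Ω) * ((c : FixedPoints.subfield G Ω) : Ω) := rfl
        unfold kk
        rw [e1, km_mul hz (psq_fx (G := G) b).1 (psq_fx (G := G) c).1 (hζ y) ((psq_fx b).2 y)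
          ((psq_fx c).2 y)]
        ring
      · rw [hΨ, QuotientAddGroup.eq_zero_iff, hJ]
        have h2 := psqPre_nL (p := p) (a := a) (g₀ := g₀) (hD _ hd)
        have h3 : ((d : FixedPoints.subfield G Ω) : Ω) + ((b : FixedPoints.subfield G Ω) : Ω) = 1 :=
          congrArg Subtype.val hdb
        have h4 : ((b : FixedPoints.subfield G Ω) : Ω) = 1 - nL p g₀ (psqPre p a g₀ d) := by
          rw [h2, ← h3]
          ring
        rw [h4]
        refine js_steinberg hG hp hz hζ ha hg₀ (psqPre_fx p a g₀ d) ?_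
        rw [h2]
        intro h5
        rw [h5] at h3
        exact (psq_fx (G := G) b).1 (by linear_combination h3)
    | zero => exact map_zero _
    | add x y _ _ hx hy => rw [map_add, hx, hy, add_zero]
    | neg x _ hx => rw [map_neg, hx, neg_zero]
  have h1 := hrel _ h
  rw [map_sub, map_sum, map_zsmul] at h1
  have h2 : (p : ℤ) • Ψ τ = 0 := by
    obtain ⟨f, hf⟩ := QuotientAddGroup.mk_surjective (Ψ τ)
    rw [← hf]
    have h3 : (p : ℤ) • f = 0 := by
      funext x y
      change (p : ℤ) • f x y = 0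
      rw [zsmul_eq_mul]
      simp
    have h4 : (p : ℤ) • (QuotientAddGroup.mk f : (G → G → ZMod p) ⧸ J) =
        QuotientAddGroup.mk ((p : ℤ) • f) := (QuotientAddGroup.mk_zsmul J f (p : ℤ)).symm
    rw [h4, h3]
    rfl
  rw [h2, sub_zero] at h1
  have h3 : ∀ i, Ψ (FreeAbelianGroup.of (Nl i, c i)) = (QuotientAddGroup.mk
      (kk p ζ (l i) ((c i : FixedPoints.subfield G Ω) : Ω)) : (G → G → ZMod p) ⧸ J) := by
    intro i
    rw [hΨ, QuotientAddGroup.eq_iff_sub_mem, hJ]
    refine js_norm hG hp hz hζ ha hg₀ (psqPre_fx p a g₀ (Nl i)) (hl i) (psq_fx (c i)) ?_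
    rw [psqPre_nL ⟨l i, hl i, (hN i).symm⟩, hN i]
  have h4 : (QuotientAddGroup.mk (∑ i, kk p ζ (l i) ((c i : FixedPoints.subfield G Ω) : Ω)) :
      (G → G → ZMod p) ⧸ J) = 0 := by
    rw [← h1]
    have h5 : (QuotientAddGroup.mk (∑ i, kk p ζ (l i) ((c i : FixedPoints.subfield G Ω) : Ω)) :
        (G → G → ZMod p) ⧸ J) = QuotientAddGroup.mk' J
          (∑ i, kk p ζ (l i) ((c i : FixedPoints.subfield G Ω) : Ω)) := rfl
    rw [h5, map_sum]
    exact Finset.sum_congr rfl fun i _ => (h3 i).symm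
  rw [QuotientAddGroup.eq_zero_iff, hJ] at h4
  have h5 : (fun x y : G => ∑ i, kk p ζ (l i) ((c i : FixedPoints.subfield G Ω) : Ω) x y) =
      ∑ i, (kk p ζ (l i) ((c i : FixedPoints.subfield G Ω) : Ω) : G → G → ZMod p) := by
    funext x y
    rw [Finset.sum_apply, Finset.sum_apply]
  rw [h5]
  exact h4

end

end MSG
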