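import Pool.Agent.MSG.KP
import Pool.Agent.MSG.Psq
import Pool.Agent.MSG.K2d
import Pool.Agent.MSG.Klb

/-! # MSG / Rel1: the theorems of Bt, Nc, Psq, Kl for an open subgroup `P` of `G`

`A : KP p`, `P ≤ A.G` open, `a` fixed by `P`, `M = ms P a = P ⊓ kr A.G p a`, `g₀ ∈ P` with `km a g₀ = 1`.

PROOFS.  The group `P` with its action on `Ω` is again a p-special pair: `GA.sub` (open subgroups are closed), `PS p P` (an open subgroup `U` of `P` is open in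
`G`, so `[G : U]` and hence `[P : U]` is a power of `p`).  `kr P p a = (kr A.G p a).subgroupOf P = (ms P a).subgroupOf P`.  Use `SyM_sub`, `CoM_sub`
(for `ms P a ≤ P` and for `P ≤ P`, `P.subgroupOf P = ⊤`, `CoM_top`, `SyM_top`) to transfer `bt_sym`, `k2_div`, `norm_of_nc`, `psq`, `kl` from the group `P` to functions on
`A.G`; `FxM` for the subgroups of the group `P` is `FxM` for the images.  A cochain on `A.G` which is a cocycle on `P` restricts to an element of `Z2 p P`.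
`nL_indep`: if `g₁ ∈ P`, `km a g₁ = 1`, then `g₁ = g₀ m`, `m ∈ M`, `g₁ ^ i = g₀ ^ i m_i` (`M` is normal in `P`), so `g₁ ^ i • l = g₀ ^ i • l`.
-/

set_option autoImplicit false
set_option linter.unusedVariables false

namespace MSG

universe u

open Pool.Agent.Helper14.Massey

open Pool.Agent.MK (RelD K2 S)

variable {p : ℕ} (A : KP.{u} p) (P : Subgroup A.G)

/-- the subgroup of `P` fixing `rt p a` -/
noncomputable def ms (a : A.Ω) : Subgroup A.G := P ⊓ kr A.G p a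

/-- the fixed field of `P` -/
abbrev fld : Subfield A.Ω := FixedPoints.subfield P A.Ω

variable (hp : p.Prime) (hP : IsOpen (P : Set A.G)) {a : A.Ω} (ha : FxM P a) {g₀ : A.G} (hg₀ : g₀ ∈ P)
  (hk : km p A.ζ a g₀ = 1)

private theorem fx_iff {b : A.Ω} : FxM P b ↔ Fx P b :=
  ⟨fun h => ⟨h.1, fun g => h.2 g g.2⟩, fun h => ⟨h.1, fun g hg => h.2 ⟨g, hg⟩⟩⟩

private theorem ms_sub_eq (a : A.Ω) : (ms A P a).subgroupOf P = kr P p a := by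
  ext g
  rw [Subgroup.mem_subgroupOf]
  exact ⟨fun h => h.2, fun h => ⟨g.2, h⟩⟩

private theorem fxm_iff {a b : A.Ω} : FxM (ms A P a) b ↔ FxM (kr P p a) b :=
  ⟨fun h => ⟨h.1, fun g hg => h.2 g ⟨g.2, hg⟩⟩, fun h => ⟨h.1, fun g hg => h.2 ⟨g, hg.1⟩ hg.2⟩⟩

private theorem ms_le (a : A.Ω) : ms A P a ≤ P := inf_le_left

private theorem ga_sub (hP : IsOpen (P : Set A.G)) : GA P A.Ω :=
  A.ga.sub P (Subgroup.isClosed_of_isOpen P hP)

private theorem fx_sub (g : P) : g • A.ζ = A.ζ := A.fx g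

private theorem nL_coe {g₀ : A.G} (hg₀ : g₀ ∈ P) (y : A.Ω) :
    nL p (⟨g₀, hg₀⟩ : P) y = nL p g₀ y := rfl

private theorem km_pow_nat {a : A.Ω} (ha : a ≠ 0) {g : A.G} (hg : g • a = a) (i : ℕ) :
    (g ^ i) • a = a ∧ km p A.ζ a (g ^ i) = i * km p A.ζ a g := by
  induction i with
  | zero =>
    refine ⟨by rw [pow_zero, one_smul], ?_⟩
    rw [pow_zero, Nat.cast_zero, zero_mul]
    have h1 := km_hom A.pz ha (A.fx 1) (A.fx 1) (one_smul _ a) (one_smul _ a)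
    rw [mul_one] at h1
    exact left_eq_add.1 h1
  | succ i ih =>
    refine ⟨by rw [pow_succ, mul_smul, hg, ih.1], ?_⟩
    rw [pow_succ, km_hom A.pz ha (A.fx _) (A.fx _) ih.1 hg, ih.2]
    push_cast
    ring

theorem ps_sub (hP : IsOpen (P : Set A.G)) : PS p P := by
  intro U hU
  obtain ⟨i, hi⟩ := A.ps P hP
  have hopen : IsOpen ((U.map P.subtype : Subgroup A.G) : Set A.G) := by
    rw [Subgroup.coe_map]
    exact hP.isOpenEmbedding_subtypeVal.isOpenMap _ hU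
  obtain ⟨j, hj⟩ := A.ps _ hopen
  rw [Subgroup.index_map_subtype, hi] at hj
  have hp1 := A.pz.one_lt
  have hij : i ≤ j := (Nat.pow_dvd_pow_iff_le_right hp1).1 ⟨U.index, by rw [← hj, mul_comm]⟩
  refine ⟨j - i, Nat.eq_of_mul_eq_mul_right (pow_pos (by omega : 0 < p) i) ?_⟩
  rw [hj, ← pow_add, Nat.sub_add_cancel hij]

theorem ms_open (hP : IsOpen (P : Set A.G)) (a : A.Ω) : IsOpen (ms A P a : Set A.G) := by
  unfold ms
  rw [Subgroup.coe_inf]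
  exact hP.inter (kr_open A.ga a)

theorem ms_conj (hP : IsOpen (P : Set A.G)) {a : A.Ω} (ha : FxM P a) {c : A.G} (hc : c ∈ P) (g : A.G) :
    g ∈ ms A P a ↔ c⁻¹ * g * c ∈ ms A P a := by
  have hkr : ∀ hg : g ∈ P, g ∈ kr A.G p a ↔ c⁻¹ * g * c ∈ kr A.G p a := fun hg =>
    kr_conj (ga_sub A P hP) A.pz (fx_sub A P) ((fx_iff A P).1 ha) (⟨c, hc⟩ : P) ⟨g, hg⟩
  constructor
  · intro h
    exact ⟨P.mul_mem (P.mul_mem (P.inv_mem hc) h.1) hc, (hkr h.1).1 h.2⟩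
  · intro h
    have hg : g ∈ P := by
      have h1 := P.mul_mem (P.mul_mem hc h.1) (P.inv_mem hc)
      have h2 : c * (c⁻¹ * g * c) * c⁻¹ = g := by group
      rwa [h2] at h1
    exact ⟨hg, (hkr hg).2 h.2⟩

theorem ms_pow (hP : IsOpen (P : Set A.G)) {a : A.Ω} (ha : FxM P a) {c : A.G} (hc : c ∈ P) : c ^ p ∈ ms A P a := by
  exact ⟨P.pow_mem hc p,
    kr_pow (ga_sub A P hP) A.pz (fx_sub A P) ((fx_iff A P).1 ha) (⟨c, hc⟩ : P)⟩

/-- either `P` fixes `rt p a` or there is `g₀` -/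
theorem ms_alt (hp : p.Prime) (hP : IsOpen (P : Set A.G)) {a : A.Ω} (ha : FxM P a) :
    P ≤ kr A.G p a ∨ ∃ g₀ ∈ P, km p A.ζ a g₀ = 1 := by
  have : Fact p.Prime := ⟨hp⟩
  by_cases hall : ∀ g ∈ P, km p A.ζ a g = 0
  · refine Or.inl fun g hg => ?_
    exact (mem_kr (ga_sub A P hP) A.pz (fx_sub A P) ((fx_iff A P).1 ha) (g := (⟨g, hg⟩ : P))).2
      (hall g hg)
  · push Not at hall
    obtain ⟨g, hg, hne⟩ := hall
    refine Or.inr ⟨g ^ (km p A.ζ a g)⁻¹.val, P.pow_mem hg _, ?_⟩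
    rw [(km_pow_nat A ha.1 (ha.2 g hg) _).2, ZMod.natCast_zmod_val, inv_mul_cancel₀ hne]

include hp hP ha hg₀ hk

theorem nL_fxM {l : A.Ω} (hl : FxM (ms A P a) l) : FxM P (nL p g₀ l) := by
  have h1 := nL_fx (ga_sub A P hP) A.pz (fx_sub A P) ((fx_iff A P).1 ha) (g₀ := (⟨g₀, hg₀⟩ : P)) hk
    ((fxm_iff A P).1 hl)
  exact (fx_iff A P).2 h1

theorem nL_indep {g₁ : A.G} (hg₁ : g₁ ∈ P) (hk₁ : km p A.ζ a g₁ = 1) {l : A.Ω} (hl : FxM (ms A P a) l) :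
    nL p g₁ l = nL p g₀ l := by
  unfold nL
  refine Finset.prod_congr rfl fun i _ => ?_
  have h0 := km_pow_nat A ha.1 (ha.2 g₀ hg₀) i
  have h1 := km_pow_nat A ha.1 (ha.2 g₁ hg₁) i
  rw [hk, mul_one] at h0
  rw [hk₁, mul_one] at h1
  have hinv : (g₀ ^ i)⁻¹ • a = a := by rw [inv_smul_eq_iff, h0.1]
  have hkinv : km p A.ζ a (g₀ ^ i)⁻¹ = - (i : ZMod p) := by
    have h2 := km_hom A.pz ha.1 (A.fx (g₀ ^ i)⁻¹) (A.fx (g₀ ^ i)) hinv h0.1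
    have h3 := (km_pow_nat A ha.1 (ha.2 g₀ hg₀) 0).2
    rw [pow_zero, Nat.cast_zero, zero_mul] at h3
    rw [inv_mul_cancel, h3, h0.2] at h2
    exact eq_neg_of_add_eq_zero_left h2.symm
  have hP1 : (g₀ ^ i)⁻¹ * g₁ ^ i ∈ P := P.mul_mem (P.inv_mem (P.pow_mem hg₀ i)) (P.pow_mem hg₁ i)
  have hmem : (g₀ ^ i)⁻¹ * g₁ ^ i ∈ ms A P a := by
    refine ⟨hP1, ?_⟩
    refine (mem_kr (ga_sub A P hP) A.pz (fx_sub A P) ((fx_iff A P).1 ha)
      (g := (⟨(g₀ ^ i)⁻¹ * g₁ ^ i, hP1⟩ : P))).2 ?_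
    have h2 := km_hom A.pz ha.1 (A.fx (g₀ ^ i)⁻¹) (A.fx (g₁ ^ i)) hinv h1.1
    rw [hkinv, h1.2, neg_add_cancel] at h2
    exact h2
  have h4 := hl.2 _ hmem
  rw [mul_smul] at h4
  exact inv_smul_eq_iff.1 h4

theorem r_bt {f : A.G → A.G → ZMod p} (hf : SyM p A.ζ (ms A P a) f) :
    ∃ (m : ℕ) (l c : Fin m → A.Ω), (∀ i, FxM (ms A P a) (l i)) ∧ (∀ i, FxM P (c i)) ∧
      CoM (ms A P a) f (fun x y => ∑ i, kk p A.ζ (l i) (c i) x y) := by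
  have h1 := (SyM_sub A.ga hP (ms_le A P a)).1 hf
  rw [ms_sub_eq] at h1
  obtain ⟨m, l, c, hl, hc, h2⟩ := bt_sym (ga_sub A P hP) hp A.pz (fx_sub A P) (ps_sub A P hP)
    ((fx_iff A P).1 ha) (g₀ := (⟨g₀, hg₀⟩ : P)) hk h1
  refine ⟨m, l, c, fun i => (fxm_iff A P).2 (hl i), fun i => (fx_iff A P).2 (hc i), ?_⟩
  refine (CoM_sub A.ga hP (ms_le A P a)).2 ?_
  rw [ms_sub_eq]
  exact h2

theorem r_nc {b : A.Ω} (hb : FxM P b) (h : CoM P (kk p A.ζ a b) (fun _ _ => 0)) :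
    ∃ y : A.Ω, FxM (ms A P a) y ∧ b = nL p g₀ y := by
  have h1 := (CoM_iff A.ga hP).1 h
  obtain ⟨y, hy, hb'⟩ := norm_of_nc (ga_sub A P hP) hp A.pz (fx_sub A P) ((fx_iff A P).1 ha)
    ((fx_iff A P).1 hb) (g₀ := (⟨g₀, hg₀⟩ : P)) hk h1
  exact ⟨y, (fxm_iff A P).2 hy, hb'⟩

theorem r_kl {f : A.G → A.G → ZMod p} (hf : (fun g h : P => f g h) ∈ Z2 p P) (h : CoM (ms A P a) f (fun _ _ => 0)) :
    ∃ c : A.Ω, FxM P c ∧ CoM P f (kk p A.ζ a c) := by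
  have h1 := (CoM_sub A.ga hP (ms_le A P a)).1 h
  rw [ms_sub_eq] at h1
  obtain ⟨c, hc, h2⟩ := kl (ga_sub A P hP) hp A.pz (fx_sub A P) ((fx_iff A P).1 ha)
    (g₀ := (⟨g₀, hg₀⟩ : P)) hk hf h1
  exact ⟨c, (fx_iff A P).2 hc, (CoM_iff A.ga hP).2 h2⟩

theorem r_psq {m : ℕ} (l : Fin m → A.Ω) (hl : ∀ i, FxM (ms A P a) (l i))
    (c Nl : Fin m → (fld A P)ˣ) (hN : ∀ i, (((Nl i : fld A P)) : A.Ω) = nL p g₀ (l i))
    (D : Set (fld A P)ˣ) (hD : ∀ d ∈ D, ∃ z : A.Ω, FxM (ms A P a) z ∧ nL p g₀ z = ((d : fld A P) : A.Ω))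
    (τ : FreeAbelianGroup ((fld A P)ˣ × (fld A P)ˣ))
    (h : (∑ i, FreeAbelianGroup.of (Nl i, c i)) - (p : ℤ) • τ ∈ RelD D) :
    ∃ v : A.G → A.G → ZMod p, SyM p A.ζ (ms A P a) v ∧
      CoM (ms A P a) (fun x y => ∑ i, kk p A.ζ (l i) ((c i : fld A P) : A.Ω) x y) (fun x y => v x y - cj g₀ v x y) := by
  classical
  obtain ⟨v, hv1, hv2⟩ := psq (ga_sub A P hP) hp A.pz (fx_sub A P) ((fx_iff A P).1 ha)
    (g₀ := (⟨g₀, hg₀⟩ : P)) hk l (fun i => (fxm_iff A P).1 (hl i)) c Nl hN D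
    (fun d hd => by
      obtain ⟨z, hz1, hz2⟩ := hD d hd
      exact ⟨z, (fxm_iff A P).1 hz1, hz2⟩) τ h
  let v' : A.G → A.G → ZMod p := fun x y =>
    if hx : x ∈ P then if hy : y ∈ P then v ⟨x, hx⟩ ⟨y, hy⟩ else 0 else 0
  have hv' : ∀ x y : P, v' x y = v x y := by
    intro x y
    change (if hx : (x : A.G) ∈ P then if hy : (y : A.G) ∈ P then v ⟨x, hx⟩ ⟨y, hy⟩ else 0 else 0) =
      v x y
    rw [dif_pos x.2, dif_pos y.2]
  refine ⟨v', ?_, ?_⟩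
  · refine (SyM_sub A.ga hP (ms_le A P a)).2 ?_
    rw [ms_sub_eq]
    have e : (fun g h : P => v' g h) = v := by
      funext x y
      exact hv' x y
    rw [e]
    exact hv1
  · refine (CoM_sub A.ga hP (ms_le A P a)).2 ?_
    rw [ms_sub_eq]
    have e : (fun g h : P => v' g h - cj g₀ v' g h) =
        fun g h : P => v g h - cj (⟨g₀, hg₀⟩ : P) v g h := by
      funext x y
      have e1 : cj g₀ v' x y = cj (⟨g₀, hg₀⟩ : P) v x y :=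
        hv' ((⟨g₀, hg₀⟩ : P)⁻¹ * x * (⟨g₀, hg₀⟩ : P)) ((⟨g₀, hg₀⟩ : P)⁻¹ * y * (⟨g₀, hg₀⟩ : P))
      rw [hv', e1]
    rw [e]
    exact hv2

omit hp hP ha hg₀ hk in
theorem r_k2 (hp : p.Prime) (hP : IsOpen (P : Set A.G)) (x y : fld A P) (hx : x ≠ 0) (hy : y ≠ 0)
    (h : CoM P (kk p A.ζ (x : A.Ω) (y : A.Ω)) (fun _ _ => 0)) :
    ∃ w : K2 (fld A P), S x y = (p : ℤ) • w := by
  exact k2_div (ga_sub A P hP) hp A.pz (fx_sub A P) (ps_sub A P hP) x y hx hy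
    ((CoM_iff A.ga hP).1 h)

end MSG
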