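import Pool.Agent.MSG.Rel1

/-! # MSG / Rnd: one round

PROOFS.
* `comap_open`, `comap_index`: `(P.comap r).index ≤ P.index` (`Subgroup.index_comap`, relative index), preimages of open sets.
* `mo_fxM`, `mo_ms`: `(ms A P a).comap f.r = ms B (P.comap f.r) (f.ψ a)`: `f.r g` fixes `rt p a` iff `g` fixes `f.ψ (rt p a)` iff `g` fixes `rt p (f.ψ a)` (the two roots differ by
  a power of `ζ`, which is fixed).
* `pb_kk`: on `P.comap f.r`: `f.pb (kk a b) = kk (f.ψ a) (f.ψ b)` (`Mo.km`).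
* `pb_nL`: `f.ψ (nL g₀ l) = nL g₁ (f.ψ l)` if `g₁ ∈ P.comap f.r`, `km (f.ψ a) g₁ = 1`: `km a (f.r g₁) = 1`, `nL_indep`.
-/

set_option autoImplicit false
set_option linter.unusedVariables false

namespace MSG

universe u

open Pool.Agent.Helper14.Massey

variable {p : ℕ} {A B : KP.{u} p}

theorem mo_km (f : KM A B) {P : Subgroup A.G} {a : A.Ω} (ha : FxM P a) {g : B.G} (hg : g ∈ P.comap f.r) :
    km p B.ζ (f.ψ a) g = km p A.ζ a (f.r g) := by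
  rw [← f.zz]
  exact Mo.km f.toMo A.pz ha.1 (A.fx _) (ha.2 _ hg)

theorem comap_open (f : KM A B) {P : Subgroup A.G} (hP : IsOpen (P : Set A.G)) : IsOpen (P.comap f.r : Set B.G) := by
  exact hP.preimage f.cont

theorem comap_index (f : KM A B) {P : Subgroup A.G} (hP : IsOpen (P : Set A.G)) : (P.comap f.r).index ≤ P.index := by
  have := A.ga.cpt
  have h1 : Finite (A.G ⧸ P) := Subgroup.quotient_finite_of_isOpen P hP
  have h2 : P.index ≠ 0 := Subgroup.index_ne_zero_of_finite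
  rw [Subgroup.index_comap]
  have h3 : P.relIndex ⊤ ≠ 0 := by rwa [Subgroup.relIndex_top_right]
  have h4 := Subgroup.relIndex_le_of_le_right (le_top : f.r.range ≤ ⊤) h3
  rwa [Subgroup.relIndex_top_right] at h4

theorem mo_fxM (f : KM A B) {P : Subgroup A.G} {a : A.Ω} (ha : FxM P a) : FxM (P.comap f.r) (f.ψ a) := by
  refine ⟨(map_ne_zero f.ψ).2 ha.1, fun g hg => ?_⟩
  rw [← f.comp, ha.2 _ hg]

theorem mo_ms (f : KM A B) {P : Subgroup A.G} {a : A.Ω} (ha : FxM P a) :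
    (ms A P a).comap f.r = ms B (P.comap f.r) (f.ψ a) := by
  ext g
  show (f.r g ∈ P ∧ f.r g • rt p a = rt p a) ↔ (f.r g ∈ P ∧ g • rt p (f.ψ a) = rt p (f.ψ a))
  have h0 : f.ψ (rt p a) ≠ 0 := (map_ne_zero f.ψ).2 (rt_ne A.pz ha.1)
  have h1 : (rt p (f.ψ a) / f.ψ (rt p a)) ^ p = 1 := by
    rw [div_pow, rt_pow B.pz, ← map_pow, rt_pow A.pz]
    exact div_self ((map_ne_zero f.ψ).2 ha.1)
  have h2 := zp_lg B.pz h1
  have h3 : rt p (f.ψ a) = zp B.ζ (lg p B.ζ (rt p (f.ψ a) / f.ψ (rt p a))) * f.ψ (rt p a) := by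
    rw [h2, div_mul_cancel₀ _ h0]
  have h4 : g • rt p (f.ψ a) = rt p (f.ψ a) ↔ f.r g • rt p a = rt p a := by
    rw [h3, smul_mul', smul_zp (B.fx g), ← f.comp, mul_right_inj' (zp_ne B.pz _)]
    exact f.ψ.injective.eq_iff
  rw [h4]

theorem pb_kk (f : KM A B) {P : Subgroup A.G} {a b : A.Ω} (ha : FxM P a) (hb : FxM P b) {g h : B.G}
    (hg : g ∈ P.comap f.r) (hh : h ∈ P.comap f.r) :
    f.pb (kk p A.ζ a b) g h = kk p B.ζ (f.ψ a) (f.ψ b) g h := by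
  show km p A.ζ a (f.r g) * km p A.ζ b (f.r h) = km p B.ζ (f.ψ a) g * km p B.ζ (f.ψ b) h
  rw [mo_km f ha hg, mo_km f hb hh]

theorem pb_nL (hp : p.Prime) (f : KM A B) {P : Subgroup A.G} (hP : IsOpen (P : Set A.G)) {a : A.Ω} (ha : FxM P a) {g₀ : A.G}
    (hg₀ : g₀ ∈ P) (hk : km p A.ζ a g₀ = 1) {g₁ : B.G} (hg₁ : g₁ ∈ P.comap f.r) (hk₁ : km p B.ζ (f.ψ a) g₁ = 1)
    {l : A.Ω} (hl : FxM (ms A P a) l) : f.ψ (nL p g₀ l) = nL p g₁ (f.ψ l) := by
  have h1 : km p A.ζ a (f.r g₁) = 1 := by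
    rw [← mo_km f ha hg₁, hk₁]
  rw [← nL_indep A P hp hP ha hg₀ hk hg₁ h1 hl]
  unfold nL
  rw [map_prod]
  refine Finset.prod_congr rfl fun i _ => ?_
  rw [← map_pow, f.comp]

theorem SyM_pb (f : KM A B) {M : Subgroup A.G} {v : A.G → A.G → ZMod p} (hv : SyM p A.ζ M v) :
    SyM p B.ζ (M.comap f.r) (f.pb v) := by
  obtain ⟨m, a, b, ha, hb, χ, hχ, h⟩ := hv
  refine ⟨m, fun i => f.ψ (a i), fun i => f.ψ (b i), fun i => mo_fxM f (ha i),
    fun i => mo_fxM f (hb i), fun g => χ (f.r g), hχ.comp f.cont, fun g hg k hk => ?_⟩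
  have h1 := h (f.r g) hg (f.r k) hk
  show v (f.r g) (f.r k) = (∑ i, kk p B.ζ (f.ψ (a i)) (f.ψ (b i)) g k) +
    (χ (f.r g) + χ (f.r k) - χ (f.r (g * k)))
  rw [h1, map_mul]
  congr 1
  refine Finset.sum_congr rfl fun i _ => ?_
  exact pb_kk f (ha i) (hb i) hg hk

end MSG
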