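import Pool.Agent.MSG.Rnd

/-! # MSG / Rnf: killing finitely many cochains; the case `P = ⊤`

PROOFS.
* `kill_fin`: kill `v 0`, then the pull back of `v 1`, ...: induction on `m`; a killed cochain stays killed (`CoM_mo`), pull backs of `SyM` are `SyM` (`SyM_mo`), the index of
  `P.comap f.r` is at most that of `P`.
* `kill_zero`: `P = ⊤` (index 1).  `v ~ ∑ kk (a i) (b i)`; kill the symbols one after the other with `C.kill`.
-/

set_option autoImplicit false
set_option linter.unusedVariables false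

namespace MSG

universe u

open Pool.Agent.Helper14.Massey

variable {p : ℕ}

theorem kill_fin (hp : p.Prime) (C : GC.{u} p) {k : ℕ} (hK : KillAt C k) (A : KP.{u} p) (P : Subgroup A.G)
    (hP : IsOpen (P : Set A.G)) (hi : P.index ≤ p ^ k) {m : ℕ} (v : Fin m → A.G → A.G → ZMod p)
    (hv : ∀ i, SyM p A.ζ P (v i)) :
    ∃ (B : KP.{u} p) (f : KM A B), C.Gd A B f ∧ ∀ i, CoM (P.comap f.r) (f.pb (v i)) (fun _ _ => 0) := by
  induction m generalizing A with
  | zero => exact ⟨A, KM.id A, C.gid A, fun i => i.elim0⟩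
  | succ m ih =>
    obtain ⟨B, f, hf, h0⟩ := hK A P hP hi (v 0) (hv 0)
    obtain ⟨D, g, hg, h1⟩ := ih B (P.comap f.r) (comap_open f hP) ((comap_index f hP).trans hi)
      (fun i => f.pb (v i.succ)) (fun i => SyM_pb f (hv i.succ))
    refine ⟨D, f.cmp g, C.gcmp A B D f g hf hg, fun i => ?_⟩
    refine Fin.cases ?_ (fun j => ?_) i
    · exact CoM_mo g.toMo h0
    · exact h1 j

/-- a symbol with fixed entries pulls back to a symbol -/
theorem rnf_pb {A B : KP.{u} p} (f : KM A B) {a b : A.Ω} (ha : Fx A.G a) (hb : Fx A.G b) :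
    f.pb (kk p A.ζ a b) = kk p B.ζ (f.ψ a) (f.ψ b) := by
  funext g h
  exact pb_kk (P := ⊤) f ⟨ha.1, fun g _ => ha.2 g⟩ ⟨hb.1, fun g _ => hb.2 g⟩ (by simp) (by simp)

/-- finitely many symbols with fixed entries can be killed -/
theorem rnf_kill (C : GC.{u} p) {m : ℕ} (A : KP.{u} p) (a b : Fin m → A.Ω) (ha : ∀ i, Fx A.G (a i))
    (hb : ∀ i, Fx A.G (b i)) :
    ∃ (B : KP.{u} p) (f : KM A B), C.Gd A B f ∧ ∀ i, Co (f.pb (kk p A.ζ (a i) (b i))) (fun _ _ => 0) := by
  induction m generalizing A with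
  | zero => exact ⟨A, KM.id A, C.gid A, fun i => i.elim0⟩
  | succ m ih =>
    obtain ⟨B, f, hf, h0⟩ := C.kill A (a 0) (b 0) (ha 0) (hb 0)
    obtain ⟨D, g, hg, h1⟩ := ih B (fun i => f.ψ (a i.succ)) (fun i => f.ψ (b i.succ))
      (fun i => f.toMo.fx (ha i.succ)) (fun i => f.toMo.fx (hb i.succ))
    refine ⟨D, f.cmp g, C.gcmp A B D f g hf hg, fun i => ?_⟩
    refine Fin.cases ?_ (fun j => ?_) i
    · rw [← rnf_pb f (ha 0) (hb 0)] at h0
      have h2 := CoM_mo g.toMo (CoM_top.2 h0)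
      exact CoM_top.1 h2
    · have h2 := h1 j
      simp only [← rnf_pb f (ha j.succ) (hb j.succ)] at h2
      exact h2

theorem kill_zero (hp : p.Prime) (C : GC.{u} p) : KillAt C 0 := by
  intro A P hP hi v hv
  have hc : CompactSpace A.G := A.ga.cpt
  have h1 : P.index = 1 := by
    obtain ⟨k, hk⟩ := A.ps P hP
    have h2 : 0 < P.index := by rw [hk]; exact pow_pos hp.pos k
    rw [pow_zero] at hi
    omega
  have hT : P = ⊤ := Subgroup.index_eq_one.1 h1
  subst hT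
  obtain ⟨m, a, b, ha, hb, hco⟩ := hv
  obtain ⟨B, f, hf, h0⟩ := rnf_kill C A a b (fun i => ⟨(ha i).1, fun g => (ha i).2 g (Subgroup.mem_top g)⟩)
    (fun i => ⟨(hb i).1, fun g => (hb i).2 g (Subgroup.mem_top g)⟩)
  refine ⟨B, f, hf, ?_⟩
  have h2 := CoM_mo f.toMo hco
  refine CoM_trans h2 ?_
  have h3 : CoM (⊤ : Subgroup B.G) (fun x y => ∑ i ∈ (Finset.univ : Finset (Fin m)), f.pb (kk p A.ζ (a i) (b i)) x y)
      (fun x y => ∑ i ∈ (Finset.univ : Finset (Fin m)), (fun (_ : Fin m) (_ _ : B.G) => (0 : ZMod p)) i x y) :=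
    CoM_sum _ _ _ fun i _ => CoM_top.2 (h0 i)
  simp only [Finset.sum_const_zero] at h3
  exact h3

end MSG
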