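import Pool.Agent.MSG.Rnf

/-! # MSG / Rnr: one round

PROOF.
* `round`: If `P ≤ kr A.G p a` take the identity.  Otherwise (`ms_alt`) `g₀ ∈ P`, `km a g₀ = 1`.  `r_bt`: `v ~ ∑ kk (l i) (c i)` on `M`, `c i` fixed by `P`.  By `kill_fin`
  (hypothesis `hK` for `P`) there is a good `f₁` which kills all `kk (nL g₀ (l i)) (c i)` on `P₁ = P.comap f₁.r`.  If `P₁ ≤ kr (f₁.ψ a)`: done.  Otherwise choose `g₁ ∈ P₁`, `km (f₁.ψ a) g₁ = 1`;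
  `f₁.ψ (nL g₀ (l i)) = nL g₁ (f₁.ψ (l i))`.  By `r_k2` each symbol `{nL g₁ (f₁.ψ (l i)), f₁.ψ (c i)}` in `K₂(fld B P₁)` is `p w_i`; `w_i = symF τ_i` (`symF` is
  surjective: `K2_rep` or `K2_induction`), `τ = ∑ τ_i`.  So `symF (∑ [Nl i, c i] - p τ) = 0` and `exists_finite` gives a finite `D` with
  `∑ [Nl i, c i] - p τ ∈ RelD D`.  By `kill_fin` there is a good `f₂` which kills all `kk (f₁.ψ a) d`, `d ∈ D`, on `P₂ = P₁.comap f₂.r`.  Put `f = f₁.cmp f₂`.  If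
  `P₂ ≤ kr (f.ψ a)`: done.  Otherwise `g₂ ∈ P₂`, `km (f.ψ a) g₂ = 1`, and by `r_nc` each `f₂.ψ d` is `nL g₂ z`, `z` fixed by `ms P₂ (f.ψ a)`.  The relation is mapped to a relation over
  `fld C P₂` with first entries in the image of `D` (`map_mem` for the field homomorphism `fld B P₁ → fld C P₂` induced by `f₂.ψ`).  `r_psq` with
  `l i := f.ψ (l i)` gives `v'` with `∑ kk (f.ψ (l i)) (f.ψ (c i)) ~ v' - cj g₂ v'` on `ms P₂ (f.ψ a)`, and the left side is `~ f.pb v` there.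
-/

set_option autoImplicit false
set_option linter.unusedVariables false

namespace MSG

universe u

open Pool.Agent.Helper14.Massey

open Pool.Agent.MK (RelD K2 S symF mapFr)

variable {p : ℕ}

/-- every element of `K₂` is represented by a formal sum of pairs -/
theorem symF_surj (F : Type u) [Field F] (w : K2 F) : ∃ τ : FreeAbelianGroup (Fˣ × Fˣ), symF F τ = w := by
  induction w using Pool.Agent.MK.K2_induction with
  | hS a b ha hb =>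
    refine ⟨FreeAbelianGroup.of (Units.mk0 a ha, Units.mk0 b hb), ?_⟩
    rw [symF, FreeAbelianGroup.lift_apply_of]
    rfl
  | hz => exact ⟨0, map_zero _⟩
  | hadd x y hx hy =>
    obtain ⟨s, hs⟩ := hx
    obtain ⟨t, ht⟩ := hy
    exact ⟨s + t, by rw [map_add, hs, ht]⟩

/-- an element fixed by `P` as a unit of the fixed field -/
noncomputable def fu (A : KP.{u} p) (P : Subgroup A.G) {x : A.Ω} (hx : FxM P x) : (fld A P)ˣ :=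
  Units.mk0 (⟨x, fun g => hx.2 g.1 g.2⟩ : fld A P) (fun h => hx.1 (congrArg Subtype.val h))

theorem fu_coe (A : KP.{u} p) (P : Subgroup A.G) {x : A.Ω} (hx : FxM P x) :
    ((fu A P hx : fld A P) : A.Ω) = x := rfl

theorem fxM_unit (A : KP.{u} p) (P : Subgroup A.G) (x : (fld A P)ˣ) : FxM P ((x : fld A P) : A.Ω) := by
  refine ⟨fun h => x.ne_zero (Subtype.ext h), fun g hg => ?_⟩
  exact (x : fld A P).2 ⟨g, hg⟩

/-- the induced map of the fixed fields -/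
noncomputable def fmap {A B : KP.{u} p} (f : KM A B) (P : Subgroup A.G) : fld A P →+* fld B (P.comap f.r) :=
  (f.ψ.comp (fld A P).subtype).codRestrict (fld B (P.comap f.r)) (fun x g => by
    have h := f.comp g.1 (x : A.Ω)
    have h2 : (f.r g.1) • (x : A.Ω) = x := x.2 ⟨f.r g.1, g.2⟩
    rw [h2] at h
    exact h.symm)

theorem fmap_coe {A B : KP.{u} p} (f : KM A B) (P : Subgroup A.G) (x : fld A P) :
    ((fmap f P x : fld B (P.comap f.r)) : B.Ω) = f.ψ (x : A.Ω) := rfl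

/-- the statement of the lemma for given data -/
def RndGoal (C : GC.{u} p) (A : KP.{u} p) (P : Subgroup A.G) (a : A.Ω) (v : A.G → A.G → ZMod p) : Prop :=
    ∃ (B : KP.{u} p) (f : KM A B), C.Gd A B f ∧ (P.comap f.r ≤ kr B.G p (f.ψ a) ∨
      ∃ g₀ ∈ P.comap f.r, km p B.ζ (f.ψ a) g₀ = 1 ∧ ∃ v' : B.G → B.G → ZMod p,
        SyM p B.ζ (ms B (P.comap f.r) (f.ψ a)) v' ∧
        CoM (ms B (P.comap f.r) (f.ψ a)) (f.pb v) (fun x y => v' x y - cj g₀ v' x y))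

/-- second half: the norms are killed already -/
theorem round_two (hp : p.Prime) (C : GC.{u} p) {k : ℕ} (hK : KillAt C k) (B : KP.{u} p) (P : Subgroup B.G)
    (hP : IsOpen (P : Set B.G)) (hi : P.index ≤ p ^ k) {a : B.Ω} (ha : FxM P a) {g₁ : B.G} (hg₁ : g₁ ∈ P)
    (hk₁ : km p B.ζ a g₁ = 1) {m : ℕ} (l c : Fin m → B.Ω) (hl : ∀ i, FxM (ms B P a) (l i))
    (hc : ∀ i, FxM P (c i)) (h0 : ∀ i, CoM P (kk p B.ζ (nL p g₁ (l i)) (c i)) (fun _ _ => 0)) :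
    RndGoal C B P a (fun x y => ∑ i, kk p B.ζ (l i) (c i) x y) := by
  have hN : ∀ i, FxM P (nL p g₁ (l i)) := fun i => nL_fxM B P hp hP ha hg₁ hk₁ (hl i)
  have hw : ∀ i, ∃ w : K2 (fld B P), S ((fu B P (hN i) : (fld B P)ˣ) : fld B P) ((fu B P (hc i) : (fld B P)ˣ) : fld B P) = (p : ℤ) • w :=
    fun i => r_k2 B P hp hP _ _ (fu B P (hN i)).ne_zero (fu B P (hc i)).ne_zero (h0 i)
  choose w hw using hw
  have hτ : ∀ i, ∃ τ : FreeAbelianGroup ((fld B P)ˣ × (fld B P)ˣ), symF (fld B P) τ = w i := fun i => symF_surj _ (w i)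
  choose τ hτ using hτ
  have h1 : symF (fld B P) ((∑ i, FreeAbelianGroup.of (fu B P (hN i), fu B P (hc i))) - (p : ℤ) • ∑ i, τ i) = 0 := by
    rw [map_sub, map_zsmul, map_sum, map_sum, Finset.smul_sum, ← Finset.sum_sub_distrib]
    refine Finset.sum_eq_zero fun i _ => ?_
    rw [hτ, ← hw, symF, FreeAbelianGroup.lift_apply_of, sub_self]
  obtain ⟨D, hDf, hD⟩ := Pool.Agent.MK.exists_finite h1
  obtain ⟨m', d, -, hd⟩ := hDf.fin_param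
  obtain ⟨B₂, f₂, hf₂, hk₂⟩ := kill_fin hp C hK B P hP hi (fun j => kk p B.ζ a ((d j : fld B P) : B.Ω))
    (fun j => SyM_kk ha (fxM_unit B P (d j)))
  have hP₂ := comap_open f₂ hP
  have ha₂ := mo_fxM f₂ ha
  refine ⟨B₂, f₂, hf₂, ?_⟩
  rcases ms_alt B₂ (P.comap f₂.r) hp hP₂ ha₂ with h | ⟨g₂, hg₂, hkg₂⟩
  · exact Or.inl h
  refine Or.inr ⟨g₂, hg₂, hkg₂, ?_⟩
  have hl₂ : ∀ i, FxM (ms B₂ (P.comap f₂.r) (f₂.ψ a)) (f₂.ψ (l i)) := by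
    intro i
    have h2 := mo_fxM f₂ (hl i)
    rwa [mo_ms f₂ ha] at h2
  have hle : ms B P a ≤ P := inf_le_left
  have h3 : ∀ d' ∈ (Units.map ((fmap f₂ P : fld B P →+* fld B₂ (P.comap f₂.r)) : fld B P →* fld B₂ (P.comap f₂.r))) '' D,
      ∃ z : B₂.Ω, FxM (ms B₂ (P.comap f₂.r) (f₂.ψ a)) z ∧
        nL p g₂ z = ((d' : fld B₂ (P.comap f₂.r)) : B₂.Ω) := by
    rintro _ ⟨d', hd', rfl⟩
    rw [← hd] at hd'
    obtain ⟨j, rfl⟩ := hd'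
    have h4 : CoM (P.comap f₂.r) (kk p B₂.ζ (f₂.ψ a) (f₂.ψ ((d j : fld B P) : B.Ω))) (fun _ _ => 0) := by
      refine CoM_trans (CoM_of_eq fun x hx y hy => ?_) (hk₂ j)
      exact (pb_kk f₂ ha (fxM_unit B P (d j)) hx hy).symm
    obtain ⟨z, hz, hz2⟩ := r_nc B₂ (P.comap f₂.r) hp hP₂ ha₂ hg₂ hkg₂ (mo_fxM f₂ (fxM_unit B P (d j))) h4
    exact ⟨z, hz, hz2.symm⟩
  have h5 := Pool.Agent.MK.map_mem (fmap f₂ P) hD
  rw [map_sub, map_zsmul, map_sum] at h5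
  simp only [Pool.Agent.MK.mapFr_of] at h5
  obtain ⟨v', hv', hv''⟩ := r_psq B₂ (P.comap f₂.r) hp hP₂ ha₂ hg₂ hkg₂ (fun i => f₂.ψ (l i)) hl₂
    (fun i => Units.map ((fmap f₂ P : fld B P →+* fld B₂ (P.comap f₂.r)) : fld B P →* fld B₂ (P.comap f₂.r)) (fu B P (hc i)))
    (fun i => Units.map ((fmap f₂ P : fld B P →+* fld B₂ (P.comap f₂.r)) : fld B P →* fld B₂ (P.comap f₂.r)) (fu B P (hN i)))
    (fun i => pb_nL hp f₂ hP ha hg₁ hk₁ hg₂ hkg₂ (hl i)) _ h3 _ h5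
  refine ⟨v', hv', CoM_trans (CoM_of_eq fun x hx y hy => ?_) hv''⟩
  show (∑ i, kk p B.ζ (l i) (c i) (f₂.r x) (f₂.r y)) = ∑ i, kk p B₂.ζ (f₂.ψ (l i)) (f₂.ψ (c i)) x y
  refine Finset.sum_congr rfl fun i _ => ?_
  rw [← mo_ms f₂ ha] at hx hy
  exact pb_kk f₂ (hl i) ⟨(hc i).1, fun g hg => (hc i).2 g (hle hg)⟩ hx hy

theorem round (hp : p.Prime) (C : GC.{u} p) {k : ℕ} (hK : KillAt C k) (A : KP.{u} p) (P : Subgroup A.G)
    (hP : IsOpen (P : Set A.G)) (hi : P.index ≤ p ^ k) {a : A.Ω} (ha : FxM P a) {v : A.G → A.G → ZMod p}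
    (hv : SyM p A.ζ (ms A P a) v) :
    ∃ (B : KP.{u} p) (f : KM A B), C.Gd A B f ∧ (P.comap f.r ≤ kr B.G p (f.ψ a) ∨
      ∃ g₀ ∈ P.comap f.r, km p B.ζ (f.ψ a) g₀ = 1 ∧ ∃ v' : B.G → B.G → ZMod p,
        SyM p B.ζ (ms B (P.comap f.r) (f.ψ a)) v' ∧
        CoM (ms B (P.comap f.r) (f.ψ a)) (f.pb v) (fun x y => v' x y - cj g₀ v' x y)) := by
  rcases ms_alt A P hp hP ha with h | ⟨g₀, hg₀, hk₀⟩
  · exact ⟨A, KM.id A, C.gid A, Or.inl h⟩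
  obtain ⟨m, l, c, hl, hc, hv2⟩ := r_bt A P hp hP ha hg₀ hk₀ hv
  have hN : ∀ i, FxM P (nL p g₀ (l i)) := fun i => nL_fxM A P hp hP ha hg₀ hk₀ (hl i)
  obtain ⟨B₁, f₁, hf₁, hk₁⟩ := kill_fin hp C hK A P hP hi (fun i => kk p A.ζ (nL p g₀ (l i)) (c i))
    (fun i => SyM_kk (hN i) (hc i))
  have hP₁ := comap_open f₁ hP
  have hi₁ := (comap_index f₁ hP).trans hi
  have ha₁ := mo_fxM f₁ ha
  rcases ms_alt B₁ (P.comap f₁.r) hp hP₁ ha₁ with h | ⟨g₁, hg₁, hkg₁⟩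
  · exact ⟨B₁, f₁, hf₁, Or.inl h⟩
  have hle : ms A P a ≤ P := inf_le_left
  have hl₁ : ∀ i, FxM (ms B₁ (P.comap f₁.r) (f₁.ψ a)) (f₁.ψ (l i)) := by
    intro i
    have h2 := mo_fxM f₁ (hl i)
    rwa [mo_ms f₁ ha] at h2
  have h0 : ∀ i, CoM (P.comap f₁.r) (kk p B₁.ζ (nL p g₁ (f₁.ψ (l i))) (f₁.ψ (c i))) (fun _ _ => 0) := by
    intro i
    refine CoM_trans (CoM_of_eq fun x hx y hy => ?_) (hk₁ i)
    rw [pb_kk f₁ (hN i) (hc i) hx hy, pb_nL hp f₁ hP ha hg₀ hk₀ hg₁ hkg₁ (hl i)]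
  obtain ⟨B₂, f₂, hf₂, h2⟩ := round_two hp C hK B₁ (P.comap f₁.r) hP₁ hi₁ ha₁ hg₁ hkg₁
    (fun i => f₁.ψ (l i)) (fun i => f₁.ψ (c i)) hl₁ (fun i => mo_fxM f₁ (hc i)) h0
  refine ⟨B₂, f₁.cmp f₂, C.gcmp _ _ _ f₁ f₂ hf₁ hf₂, ?_⟩
  rcases h2 with h | ⟨g₂, hg₂, hkg₂, v', hv', hv''⟩
  · exact Or.inl h
  refine Or.inr ⟨g₂, hg₂, hkg₂, v', hv', CoM_trans ?_ hv''⟩
  have h3 := CoM_mo f₁.toMo hv2
  have h4 := CoM_mo f₂.toMo h3
  have h5 : ((ms A P a).comap f₁.r).comap f₂.r = ms B₂ ((P.comap f₁.r).comap f₂.r) (f₂.ψ (f₁.ψ a)) := by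
    rw [mo_ms f₁ ha, mo_ms f₂ ha₁]
  have h6 : CoM (ms B₂ ((P.comap f₁.r).comap f₂.r) (f₂.ψ (f₁.ψ a))) ((f₁.cmp f₂).pb v)
      (fun x y => ∑ i, kk p A.ζ (l i) (c i) (f₁.r (f₂.r x)) (f₁.r (f₂.r y))) := by
    rw [← h5]
    exact h4
  refine CoM_trans h6 (CoM_of_eq fun x hx y hy => ?_)
  show (∑ i, kk p A.ζ (l i) (c i) (f₁.r (f₂.r x)) (f₁.r (f₂.r y))) =
    ∑ i, kk p B₁.ζ (f₁.ψ (l i)) (f₁.ψ (c i)) (f₂.r x) (f₂.r y)
  refine Finset.sum_congr rfl fun i _ => ?_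
  have hx' : x ∈ ((ms A P a).comap f₁.r).comap f₂.r := by rw [h5]; exact hx
  have hy' : y ∈ ((ms A P a).comap f₁.r).comap f₂.r := by rw [h5]; exact hy
  exact pb_kk f₁ (hl i) ⟨(hc i).1, fun g hg => (hc i).2 g (hle hg)⟩ hx' hy'

end MSG
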