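import Pool.Agent.MSG.Km

/-! # MSG / Sub: subgroups, Galois groups, Artin's lemma

PROOFS.
* `GA.sub`: `N` closed in the compact `G` is compact; `stab`: preimage of an open set under the inclusion; `basis`: an open set
  of `N` containing `1` is `U ∩ N` with `U` open in `G` (`isOpen_induced_iff`); `sep`: a closed subgroup `M` of `N` is closed
  in `G` (`M.map N.subtype`, closed embedding), use `hG.sep`.
* `GA.gal`: `stab`: `stabilizer_isOpen_of_isIntegral` or `krullTopology`; `basis`: an open set containing `1` contains
  `E.fixingSubgroup` for a finite-dimensional `E` (`krullTopology_mem_nhds_one_iff`); `E/F` is separable, so `E = F⟮x⟯`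
  (`Field.exists_primitive_element`), and an automorphism fixing `x` is in `E.fixingSubgroup`.  `sep`: if `g` fixes all elements fixed by the
  closed subgroup `N` then `g ∈ fixingSubgroup (fixedField N) = N` (`InfiniteGalois.fixingSubgroup_fixedField`).  Compactness:
  the instance for profinite Galois groups in Mathlib (`InfiniteGalois`, or `krullTopology` files), `T2`: `krullTopology_t2`.
* `GA.faithful`: if `g` acts trivially it is in every open `U ∋ 1` (`basis`); `G` is Hausdorff.
* `GA.orbit_finite`: the stabilizer is open in a compact group, so of finite index.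
* `GA.exists_smul`: for `x : Ω` the polynomial `∏_{y ∈ G x} (X - y)` has coefficients fixed by `G`, hence by `σ`; so `σ x` is a
  root: `σ x ∈ G x`.  For `x₁, ..., x_k` choose (`basis`) an `x` with `stab x ⊆ ⋂ stab x_i` (if `g x = x` then `g x_i = x_i`).  Let
  `P_i` be the interpolation polynomial with `P_i (g x) = g x_i` (well defined), of degree `< #G x`; by uniqueness its
  coefficients are fixed by `G`, so by `σ`.  With `σ x = g x` we get `σ x_i = σ (P_i x) = P_i (g x) = g x_i`.  So the closed sets
  `{g | g • x = σ x}` have the finite intersection property, and `G` is compact.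
* `GA.alg`: every element of `Ω` is integral over the subfield of the fixed elements (the same polynomial).
-/

set_option autoImplicit false
set_option linter.unusedVariables false

namespace MSG

universe u v w

open Pool.Agent.Helper14.Massey

section

variable {G : Type u} {Ω : Type v} [Group G] [TopologicalSpace G] [Field Ω] [MulSemiringAction G Ω]

theorem GA.sub (hG : GA G Ω) (N : Subgroup G) (hN : IsClosed (N : Set G)) : GA N Ω := by
  have h1 := hG.top
  have h2 := hG.cpt
  have h3 := hG.t2
  refine ⟨inferInstance, isCompact_iff_compactSpace.mp hN.isCompact, inferInstance, hG.alg, ?_, ?_, ?_⟩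
  · intro x
    exact (hG.stab x).preimage continuous_subtype_val
  · intro U hU h1U
    obtain ⟨V, hV, hVU⟩ := isOpen_induced_iff.mp hU
    have h1V : (1 : G) ∈ V := by
      have h : (1 : N) ∈ Subtype.val ⁻¹' V := by rw [hVU]; exact h1U
      exact h
    obtain ⟨x, hx⟩ := hG.basis V hV h1V
    refine ⟨x, fun g hg => ?_⟩
    rw [← hVU]
    exact hx g.1 hg
  · intro M hM g hg
    have hcl : IsClosed ((M.map N.subtype : Subgroup G) : Set G) := by
      rw [Subgroup.coe_map]
      exact hN.isClosedEmbedding_subtypeVal.isClosedMap _ hM
    have hg' : (g : G) ∉ M.map N.subtype := by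
      rintro ⟨m, hm, hmg⟩
      apply hg
      have h : m = g := Subtype.ext hmg
      rw [← h]
      exact hm
    obtain ⟨x, hx, hgx⟩ := hG.sep _ hcl g hg'
    exact ⟨x, fun n hn => hx n.1 ⟨n, hn, rfl⟩, hgx⟩

theorem GA.faithful (hG : GA G Ω) {g : G} (h : ∀ x : Ω, g • x = x) : g = 1 := by
  have h3 := hG.t2
  by_contra hg
  obtain ⟨x, hx⟩ := hG.basis ({g}ᶜ : Set G) isOpen_compl_singleton (fun h1 => hg h1.symm)
  exact hx g (h x) rfl

theorem GA.orbit_finite (hG : GA G Ω) (x : Ω) : (MulAction.orbit G x).Finite := by
  have h1 := hG.top
  have h2 := hG.cpt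
  have hop : IsOpen ((MulAction.stabilizer G x : Subgroup G) : Set G) := hG.stab x
  have h4 : Finite (G ⧸ MulAction.stabilizer G x) := Subgroup.quotient_finite_of_isOpen _ hop
  have h5 : Finite (MulAction.orbit G x) := Finite.of_equiv _ (MulAction.orbitEquivQuotientStabilizer G x).symm
  exact Set.toFinite _

end

theorem GA.gal (F : Type u) (Ω : Type v) [Field F] [Field Ω] [Algebra F Ω] [IsGalois F Ω] [IsAlgClosed Ω] :
    GA Gal(Ω/F) Ω := by
  refine ⟨inferInstance, inferInstance, krullTopology_t2, inferInstance, ?_, ?_, ?_⟩
  · intro x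
    exact stabilizer_isOpen_of_isIntegral x
  · intro U hU h1U
    obtain ⟨E, hE, hEU⟩ := (krullTopology_mem_nhds_one_iff F Ω U).mp (hU.mem_nhds h1U)
    have hsep : Algebra.IsSeparable F E := inferInstance
    obtain ⟨α, hα⟩ := Field.exists_primitive_element F E
    refine ⟨(α : Ω), fun g hg => hEU ?_⟩
    rw [SetLike.mem_coe, IntermediateField.mem_fixingSubgroup_iff]
    intro y hy
    have key : (g.toAlgHom.comp E.val) = E.val := by
      have : ∀ z : E, z ∈ IntermediateField.adjoin F {α} → g (z : Ω) = z := by
        intro z hz
        induction hz using IntermediateField.adjoin_induction with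
        | mem w hw => rw [Set.mem_singleton_iff.mp hw]; exact hg
        | algebraMap c => exact g.commutes c
        | add a b _ _ ha hb => rw [AddMemClass.coe_add, map_add, ha, hb]
        | inv a _ ha =>
          have e : ((a⁻¹ : E) : Ω) = ((a : E) : Ω)⁻¹ := rfl
          rw [e, map_inv₀, ha]
        | mul a b _ _ ha hb => rw [MulMemClass.coe_mul, map_mul, ha, hb]
      ext z
      exact this z (by rw [hα]; exact IntermediateField.mem_top)
    exact DFunLike.congr_fun key ⟨y, hy⟩
  · intro N hN g hg
    have h : g ∉ (IntermediateField.fixedField N).fixingSubgroup := by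
      have h' := InfiniteGalois.fixingSubgroup_fixedField (⟨N, hN⟩ : ClosedSubgroup Gal(Ω/F))
      rw [show (IntermediateField.fixedField N) = IntermediateField.fixedField
        (⟨N, hN⟩ : ClosedSubgroup Gal(Ω/F)).toSubgroup from rfl, h']
      exact hg
    rw [IntermediateField.mem_fixingSubgroup_iff] at h
    push Not at h
    obtain ⟨x, hx, hgx⟩ := h
    refine ⟨x, fun n hn => ?_, hgx⟩
    exact (IntermediateField.mem_fixedField_iff _ _).mp hx n hn

end MSG
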