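import Pool.Agent.MSG.Sya
import Pool.Agent.MSG.Sub

/-! # MSG / TS1: the cochains `tS`, bilinearity and antisymmetry

`x, y : S → Ω` are equivariant families of nonzero elements on a finite `G`-set `S`.  In the proofs `g, h` are elements of `G` fixing `ζ`
(they are `ι g`, `ι h`), `ρ` is a family of `n`-th roots of `x`.

PROOFS.
* `cS_spec`: `g • rt (x (g⁻¹ s))` and `rt (x s)` are roots of `g • x (g⁻¹ s) = x s`; `zp_lg`.
* `cS_eq`: if `g • rt (x (g⁻¹ s)) = zp ζ c * rt (x s)` then `cS x g s = c` (cancel, `zp_inj`).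
* `cS_root`: `rt (x s) = zp ζ (ε s) * ρ s`; then `g • rt (x (g⁻¹ s)) = zp ζ (ε (g⁻¹ s)) * (g • ρ (g⁻¹ s))
  = zp ζ (ε (g⁻¹ s) + c - ε s) * rt (x s)`.
* `cS_hom`: `g • (h • rt (x (h⁻¹ g⁻¹ s))) = g • (zp ζ (cS h (g⁻¹ s)) * rt (x (g⁻¹ s)))`, `g` fixes `zp ζ _`.
* `cS_cont`: `cS x g s` depends only on `g⁻¹ • s` and `g • rt (x (g⁻¹ s))`: it is constant on
  `g * (stab (g⁻¹ s) ∩ stab (rt (x (g⁻¹ s))))`, which is open.
* `tH_cont`: `(g, h) ↦ tH g h` is continuous: `g ↦ g⁻¹ • s` is locally constant (`OS`), products and sums of locally constant functions.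
* `tH_mul_left`: `ρ s = rt (x s) * rt (x' s)` gives `cS (x x') g s = cS x g s + cS x' g s + ε (g⁻¹ s) - ε s`, and
  `∑_s (ε (g⁻¹ s) - ε s) cS y h (g⁻¹ s)` is `χ g + χ h - χ (g h)` for `χ g = ∑_s ε s * cS y g s`
  (`cS y (g h) s = cS y g s + cS y h (g⁻¹ s)`, and substitute `s ↦ g⁻¹ s` in `χ h`).
* `tH_mul_right`: similarly `∑_s cS x g s (ε (h⁻¹ g⁻¹ s) - ε (g⁻¹ s)) = -(χ g + χ h - χ (g h))` for `χ g = ∑_s cS x g s * ε (g⁻¹ s)`.
* `tH_self_anti`: `tH x y + tH y x` is `-(χ g + χ h - χ (g h))` for `χ g = ∑_s cS x g s * cS y g s`.  `tH_self`: for `x = y` multiply by the inverse `1 / 2`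
  (`PZ.two`).
* `tH_pow_left`: `cS (x ^ n) g s = ε (g⁻¹ s) - ε s` (`ρ = x` is a family of roots of `x ^ n`, `c = 0`), then as in `tH_mul_left`.  `tH_pow_right`: the same on the
  other side.  `tH_inv_*`, `tH_div_*`, `tH_one_*`: from bilinearity (`x * x⁻¹ = 1`; `cS 1 = ε (g⁻¹ s) - ε s` as well).
-/

set_option autoImplicit false
set_option linter.unusedVariables false

namespace MSG

universe u v w

open Pool.Agent.Helper14.Massey

section alg

variable {G : Type u} {Ω : Type v} {S : Type w} [Group G] [Field Ω] [MulSemiringAction G Ω] [MulAction G S]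
  [IsAlgClosed Ω] {n : ℕ} {ζ : Ω}

theorem cS_spec (hz : PZ n ζ) {x : S → Ω} (hx : Ev G x) (g : G) (s : S) :
    g • rt n (x (g⁻¹ • s)) = zp ζ (cS n ζ x g s) * rt n (x s) := by
  have h0 : rt n (x s) ≠ 0 := rt_ne hz (hx s).1
  have h1 : (g • rt n (x (g⁻¹ • s)) / rt n (x s)) ^ n = 1 := by
    rw [div_pow, ← smul_pow', rt_pow hz, rt_pow hz, ← (hx _).2 g, smul_inv_smul,
      div_self (hx s).1]
  unfold cS
  rw [zp_lg hz h1, div_mul_cancel₀ _ h0]

theorem cS_eq (hz : PZ n ζ) {x : S → Ω} (hx : Ev G x) {g : G} {s : S} {c : ZMod n}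
    (h : g • rt n (x (g⁻¹ • s)) = zp ζ c * rt n (x s)) : cS n ζ x g s = c := by
  have h0 : rt n (x s) ≠ 0 := rt_ne hz (hx s).1
  rw [cS_spec hz hx] at h
  exact zp_inj hz (mul_right_cancel₀ h0 h)

theorem cS_root (hz : PZ n ζ) {x : S → Ω} (hx : Ev G x) {ρ : S → Ω} (hρ : ∀ s, ρ s ^ n = x s) :
    ∃ ε : S → ZMod n, (∀ s, rt n (x s) = zp ζ (ε s) * ρ s) ∧ ∀ (g : G) (s : S) (c : ZMod n), g • ζ = ζ →
      g • ρ (g⁻¹ • s) = zp ζ c * ρ s → cS n ζ x g s = c + ε (g⁻¹ • s) - ε s := by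
  have := hz.neZero
  have hρ0 : ∀ s, ρ s ≠ 0 := by
    intro s h
    have h1 := hρ s
    rw [h, zero_pow (NeZero.ne n)] at h1
    exact (hx s).1 h1.symm
  obtain ⟨ε, hε⟩ : ∃ ε : S → ZMod n, ∀ s, rt n (x s) = zp ζ (ε s) * ρ s := by
    refine ⟨fun s => lg n ζ (rt n (x s) / ρ s), fun s => ?_⟩
    have h1 : (rt n (x s) / ρ s) ^ n = 1 := by
      rw [div_pow, rt_pow hz, hρ, div_self (hx s).1]
    rw [zp_lg hz h1, div_mul_cancel₀ _ (hρ0 s)]
  refine ⟨ε, hε, ?_⟩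
  intro g s c hg hc
  refine cS_eq hz hx ?_
  have h2 := zp_ne hz (ε s)
  rw [hε (g⁻¹ • s), smul_mul', smul_zp hg, hc, hε s, sub_eq_add_neg, zp_add hz, zp_add hz,
    zp_neg hz]
  field_simp

theorem cS_hom (hz : PZ n ζ) {x : S → Ω} (hx : Ev G x) {g : G} (hg : g • ζ = ζ) (h : G) (s : S) :
    cS n ζ x (g * h) s = cS n ζ x g s + cS n ζ x h (g⁻¹ • s) := by
  refine cS_eq hz hx ?_
  rw [mul_inv_rev, mul_smul, mul_smul, cS_spec hz hx h, smul_mul', smul_zp hg, cS_spec hz hx g,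
    zp_add hz]
  ring

theorem Ev.mul {x y : S → Ω} (hx : Ev G x) (hy : Ev G y) : Ev G (fun s => x s * y s) := by
  intro s
  refine ⟨mul_ne_zero (hx s).1 (hy s).1, fun g => ?_⟩
  show x (g • s) * y (g • s) = g • (x s * y s)
  rw [smul_mul', (hx s).2, (hy s).2]

theorem Ev.inv {x : S → Ω} (hx : Ev G x) : Ev G (fun s => (x s)⁻¹) := by
  intro s
  refine ⟨inv_ne_zero (hx s).1, fun g => ?_⟩
  show (x (g • s))⁻¹ = g • (x s)⁻¹
  rw [smul_inv'', (hx s).2]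

theorem Ev.pow {x : S → Ω} (hx : Ev G x) (k : ℕ) : Ev G (fun s => x s ^ k) := by
  intro s
  refine ⟨pow_ne_zero k (hx s).1, fun g => ?_⟩
  show x (g • s) ^ k = g • (x s ^ k)
  rw [smul_pow', (hx s).2]

end alg

section top

variable {G : Type u} {H : Type*} {Ω : Type v} {S : Type w} [Group G] [TopologicalSpace G] [Group H] [TopologicalSpace H]
  [Field Ω] [MulSemiringAction G Ω] [MulAction G S] [Fintype S] {n : ℕ} {ζ : Ω} {ι : H →* G}

omit [Fintype S] in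
private theorem isOpen_inv_smul (hG : GA G Ω) (hS : OS G S) (g : G) (s : S) :
    IsOpen {g' : G | g'⁻¹ • s = g⁻¹ • s} := by
  have := hG.top
  have h1 : Continuous fun g' : G => g * g'⁻¹ := by fun_prop
  have h2 := (hS s).preimage h1
  have e : {g' : G | g'⁻¹ • s = g⁻¹ • s} = (fun g' : G => g * g'⁻¹) ⁻¹' {k : G | k • s = s} := by
    ext g'
    show g'⁻¹ • s = g⁻¹ • s ↔ (g * g'⁻¹) • s = s
    rw [mul_smul]
    exact (smul_eq_iff_eq_inv_smul g).symm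
  rw [e]
  exact h2

omit [Fintype S] in
theorem cS_cont' (hG : GA G Ω) (hS : OS G S) (n : ℕ) (ζ : Ω) (x : S → Ω) (s : S) :
    Continuous (fun g : G => cS n ζ x g s) := by
  have := hG.top
  refine IsLocallyConstant.continuous ((IsLocallyConstant.iff_exists_open _).2 fun g => ?_)
  refine ⟨{g' : G | g'⁻¹ • s = g⁻¹ • s} ∩
    {g' : G | g' • rt n (x (g⁻¹ • s)) = g • rt n (x (g⁻¹ • s))},
    (isOpen_inv_smul hG hS g s).inter ?_, ⟨rfl, rfl⟩, ?_⟩
  · have h1 : Continuous fun g' : G => g⁻¹ * g' := by fun_prop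
    have h2 := (hG.stab (rt n (x (g⁻¹ • s)))).preimage h1
    have e : {g' : G | g' • rt n (x (g⁻¹ • s)) = g • rt n (x (g⁻¹ • s))} =
        (fun g' : G => g⁻¹ * g') ⁻¹' {k : G | k • rt n (x (g⁻¹ • s)) = rt n (x (g⁻¹ • s))} := by
      ext g'
      show g' • rt n (x (g⁻¹ • s)) = g • rt n (x (g⁻¹ • s)) ↔
        (g⁻¹ * g') • rt n (x (g⁻¹ • s)) = rt n (x (g⁻¹ • s))
      rw [mul_smul, inv_smul_eq_iff]
    rw [e]
    exact h2
  · rintro g' ⟨h1, h2⟩
    have h1' : g'⁻¹ • s = g⁻¹ • s := h1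
    have h2' : g' • rt n (x (g⁻¹ • s)) = g • rt n (x (g⁻¹ • s)) := h2
    show lg n ζ (g' • rt n (x (g'⁻¹ • s)) / rt n (x s)) =
      lg n ζ (g • rt n (x (g⁻¹ • s)) / rt n (x s))
    rw [h1', h2']

theorem cS_cont (hG : GA G Ω) (hS : OS G S) (n : ℕ) (ζ : Ω) (x : S → Ω) (s : S) :
    Continuous (fun g : G => cS n ζ x g s) :=
  cS_cont' hG hS n ζ x s

theorem tH_cont (hG : GA G Ω) (hS : OS G S) (hc : Continuous ι) (n : ℕ) (ζ : Ω) (x y : S → Ω) :
    Continuous (fun q : H × H => tH n ζ ι x y q.1 q.2) := by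
  have := hG.top
  let _ : TopologicalSpace S := ⊥
  have : DiscreteTopology S := ⟨rfl⟩
  unfold tH tS
  refine continuous_finsetSum _ fun s _ => ?_
  have h1 : Continuous fun q : H × H => cS n ζ x (ι q.1) s :=
    (cS_cont hG hS n ζ x s).comp (hc.comp continuous_fst)
  have h2 : Continuous fun g : G => g⁻¹ • s :=
    IsLocallyConstant.continuous ((IsLocallyConstant.iff_exists_open _).2 fun g =>
      ⟨{g' : G | g'⁻¹ • s = g⁻¹ • s}, isOpen_inv_smul hG hS g s, rfl, fun g' h => h⟩)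
  have h3 : Continuous fun w : G × S => cS n ζ y w.1 w.2 :=
    continuous_prod_of_discrete_right.2 fun s' => cS_cont hG hS n ζ y s'
  have h4 : Continuous fun q : H × H => ((ι q.2, (ι q.1)⁻¹ • s) : G × S) :=
    (hc.comp continuous_snd).prodMk (h2.comp (hc.comp continuous_fst))
  exact h1.mul (h3.comp h4)

end top

end MSG
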