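import Pool.Agent.MSG.TSb

/-! # MSG / TS2: projection formula, points, disjoint unions, conjugation

`π : S → S'` is an equivariant map of finite `G`-sets, `nm π x s' = ∏_{π s = s'} x s`.

PROOFS.
* `Ev.nm`: `g • ∏_{π s = s'} x s = ∏_{π s = s'} x (g s) = ∏_{π t = g s'} x t` (`t = g s`).
* `nm_mul`, `nm_const`: products.
* `tH_proj_left`: put `ρ' s' = ∏_{π s = s'} rt (x s)`, a family of roots of `nm π x`; `g • ρ' (g⁻¹ s') = ∏_{π s = s'} g • rt (x (g⁻¹ s))
  = zp ζ (∑_{π s = s'} cS x g s) * ρ' s'`, so (`cS_root`) `cS (nm π x) g s' = ∑_{π s = s'} cS x g s + ε (g⁻¹ s') - ε s'`.  `cS (y ∘ π) h s = cS y h (π s)` by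
  definition.  So `tH x (y ∘ π) g h = ∑_{s'} (∑_{π s = s'} cS x g s) * cS y h (g⁻¹ s')`, and the correction term
  `∑_{s'} (ε (g⁻¹ s') - ε s') cS y h (g⁻¹ s')` is a coboundary as in `tH_mul_left` (TS1).
* `tH_proj_right`: the same on the other side (correction as in `tH_mul_right`), or from `tH_self_anti` twice.
* `tH_point`: for `S = PUnit` the definitions agree (`g⁻¹ • s = s`).
* `tH_const_right`: projection to the point: `y = b ∘ π`, `nm π x = ∏_s x s`.  `tH_const_left` similarly.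
* `tH_sum`: `S = S₁ ⊕ S₂`: not needed; instead `tH_equiv`: a bijection `e : S ≃ S'` of `G`-sets: reindex the sums (equality of cochains).
* `tH_conj`: `c ∈ G`, `x^c s = c • x (c⁻¹ • s)` (for an `N`-equivariant family, `N` normalised by `c`, see Cj.lean).
-/

set_option autoImplicit false
set_option linter.unusedVariables false

namespace MSG

universe u v w

open Pool.Agent.Helper14.Massey

open Classical in
/-- the norm of a family along `π` -/
noncomputable def nm {Ω : Type v} [Field Ω] {S S' : Type*} [Fintype S] (π : S → S') (x : S → Ω) (s' : S') : Ω :=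
  ∏ s ∈ Finset.univ.filter (fun s => π s = s'), x s

section aux

variable {G : Type u} {S S' : Type*} [Group G] [MulAction G S] [Fintype S] [MulAction G S'] [Fintype S']

open Classical in
private theorem prod_fib {M : Type*} [CommMonoid M] {π : S → S'} (hπ : ∀ (g : G) s, π (g • s) = g • π s)
    (F : S → M) (g : G) (s' : S') :
    ∏ s ∈ Finset.univ.filter (fun s => π s = g • s'), F s =
      ∏ s ∈ Finset.univ.filter (fun s => π s = s'), F (g • s) := by
  refine (Finset.prod_equiv (MulAction.toPerm g) (fun s => ?_) (fun s _ => rfl)).symm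
  simp only [Finset.mem_filter, Finset.mem_univ, true_and, MulAction.toPerm_apply, hπ,
    smul_left_cancel_iff]

open Classical in
private theorem sum_fib {M : Type*} [AddCommMonoid M] {π : S → S'} (hπ : ∀ (g : G) s, π (g • s) = g • π s)
    (F : S → M) (g : G) (s' : S') :
    ∑ s ∈ Finset.univ.filter (fun s => π s = g • s'), F s =
      ∑ s ∈ Finset.univ.filter (fun s => π s = s'), F (g • s) := by
  refine (Finset.sum_equiv (MulAction.toPerm g) (fun s => ?_) (fun s _ => rfl)).symm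
  simp only [Finset.mem_filter, Finset.mem_univ, true_and, MulAction.toPerm_apply, hπ,
    smul_left_cancel_iff]

open Classical in
private theorem sum_split {M : Type*} [AddCommMonoid M] (π : S → S') (F : S → M) :
    ∑ s, F s = ∑ s', ∑ s ∈ Finset.univ.filter (fun s => π s = s'), F s :=
  (Finset.sum_fiberwise Finset.univ π F).symm

end aux

section root

variable {G : Type u} {Ω : Type v} {S S' : Type*} [Group G] [Field Ω] [MulSemiringAction G Ω]
  [MulAction G S] [Fintype S] [MulAction G S'] [Fintype S'] [IsAlgClosed Ω] {n : ℕ} {ζ : Ω}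

private theorem smul_prod' (g : G) {ι : Type*} (t : Finset ι) (f : ι → Ω) :
    g • ∏ i ∈ t, f i = ∏ i ∈ t, g • f i := by
  classical
  induction t using Finset.induction_on with
  | empty => simp
  | insert a t ha ih => rw [Finset.prod_insert ha, Finset.prod_insert ha, smul_mul', ih]

private theorem zp_sum (hz : PZ n ζ) {ι : Type*} (t : Finset ι) (c : ι → ZMod n) :
    zp ζ (∑ i ∈ t, c i) = ∏ i ∈ t, zp ζ (c i) := by
  classical
  induction t using Finset.induction_on with
  | empty => simpa using zp_zero hz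
  | insert a t ha ih => rw [Finset.sum_insert ha, Finset.prod_insert ha, zp_add hz, ih]

open Classical in
/-- the sums of the cocycles over the fibres -/
private theorem cS_fib (hz : PZ n ζ) {π : S → S'} (hπ : ∀ (g : G) s, π (g • s) = g • π s) {x : S → Ω}
    (hx : Ev G x) (hnx : Ev G (nm π x)) : ∃ ε : S' → ZMod n, ∀ (g : G) (s' : S'), g • ζ = ζ →
      ∑ s ∈ Finset.univ.filter (fun s => π s = s'), cS n ζ x g s =
        cS n ζ (nm π x) g s' - (ε (g⁻¹ • s') - ε s') := by
  obtain ⟨ε, -, hε⟩ := cS_root hz hnx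
    (ρ := fun s' => ∏ s ∈ Finset.univ.filter (fun s => π s = s'), rt n (x s)) (fun s' => by
      rw [← Finset.prod_pow]
      exact Finset.prod_congr rfl fun s _ => rt_pow hz (x s))
  refine ⟨ε, fun g s' hg => ?_⟩
  rw [hε g s' (∑ s ∈ Finset.univ.filter (fun s => π s = s'), cS n ζ x g s) hg ?_]
  · ring
  · rw [prod_fib hπ (fun s => rt n (x s)) g⁻¹ s', smul_prod', zp_sum hz, ← Finset.prod_mul_distrib]
    exact Finset.prod_congr rfl fun s _ => cS_spec hz hx g s

private theorem cS_comp {π : S → S'} (hπ : ∀ (g : G) s, π (g • s) = g • π s) (y : S' → Ω) (g : G)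
    (s : S) : cS n ζ (fun s => y (π s)) g s = cS n ζ y g (π s) := by
  unfold cS
  dsimp only
  rw [hπ]

/-- the Kummer character of a product -/
private theorem km_prod (hz : PZ n ζ) {x : S → Ω} (hx : Ev G x) {g : G} (hg : g • ζ = ζ) :
    km n ζ (∏ s, x s) g = ∑ s, cS n ζ x g s := by
  have h0 : (∏ s, x s) ≠ 0 := Finset.prod_ne_zero_iff.2 fun s _ => (hx s).1
  refine km_eq hz (r := ∏ s, rt n (x s)) h0 ?_ hg ?_ ?_
  · rw [← Finset.prod_pow]
    exact Finset.prod_congr rfl fun s _ => rt_pow hz (x s)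
  · rw [smul_prod', ← Equiv.prod_comp (MulAction.toPerm g) x]
    exact Finset.prod_congr rfl fun s _ => ((hx s).2 g).symm
  · rw [smul_prod', ← Equiv.prod_comp (MulAction.toPerm g⁻¹), zp_sum hz, ← Finset.prod_mul_distrib]
    exact Finset.prod_congr rfl fun s _ => cS_spec hz hx g s

end root

section

variable {G : Type u} {H : Type*} {Ω : Type v} {S S' : Type*} [Group G] [TopologicalSpace G] [Group H] [TopologicalSpace H]
  [Field Ω] [MulSemiringAction G Ω] [MulAction G S] [Fintype S] [MulAction G S'] [Fintype S'] {n : ℕ} {ζ : Ω} {ι : H →* G}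

omit [TopologicalSpace G] in
theorem Ev.nm {π : S → S'} (hπ : ∀ (g : G) s, π (g • s) = g • π s) {x : S → Ω} (hx : Ev G x) : Ev G (nm π x) := by
  intro s'
  refine ⟨Finset.prod_ne_zero_iff.2 fun s _ => (hx s).1, fun g => ?_⟩
  unfold MSG.nm
  rw [prod_fib hπ x g s', Finset.smul_prod']
  exact Finset.prod_congr rfl fun s _ => (hx s).2 g

omit [TopologicalSpace G] in
theorem Ev.comp {π : S → S'} (hπ : ∀ (g : G) s, π (g • s) = g • π s) {y : S' → Ω} (hy : Ev G y) :
    Ev G (fun s => y (π s)) := by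
  intro s
  refine ⟨(hy (π s)).1, fun g => ?_⟩
  dsimp only
  rw [hπ, (hy (π s)).2 g]

variable (hG : GA G Ω) (hz : PZ n ζ) (hS : OS G S) (hS' : OS G S') (hc : Continuous ι) (hι : ∀ h : H, ι h • ζ = ζ)

include hG hz hS hS' hc hι

theorem tH_proj_left {π : S → S'} (hπ : ∀ (g : G) s, π (g • s) = g • π s) {x : S → Ω} {y : S' → Ω} (hx : Ev G x)
    (hy : Ev G y) : Co (tH n ζ ι x (fun s => y (π s))) (tH n ζ ι (nm π x) y) := by
  classical
  have := hG.alg
  obtain ⟨ε, hε⟩ := cS_fib hz hπ hx (Ev.nm hπ hx)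
  obtain ⟨χ, hχ, hχ2⟩ := corr_left hG hz hS' hc hι hy ε
  refine ⟨fun g => - χ g, hχ.neg, fun g h => ?_⟩
  have h1 := hχ2 g h
  dsimp only at h1
  have h2 : tH n ζ ι x (fun s => y (π s)) g h =
      ∑ s', (∑ s ∈ Finset.univ.filter (fun s => π s = s'), cS n ζ x (ι g) s) *
        cS n ζ y (ι h) ((ι g)⁻¹ • s') := by
    unfold tH tS
    rw [sum_split π]
    refine Finset.sum_congr rfl fun s' _ => ?_
    rw [Finset.sum_mul]
    refine Finset.sum_congr rfl fun s hs => ?_
    rw [cS_comp hπ, hπ, (Finset.mem_filter.1 hs).2]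
  rw [h2]
  have h3 : ∀ s', (∑ s ∈ Finset.univ.filter (fun s => π s = s'), cS n ζ x (ι g) s) *
        cS n ζ y (ι h) ((ι g)⁻¹ • s') = cS n ζ (nm π x) (ι g) s' * cS n ζ y (ι h) ((ι g)⁻¹ • s') -
          (ε ((ι g)⁻¹ • s') - ε s') * cS n ζ y (ι h) ((ι g)⁻¹ • s') := by
    intro s'
    rw [hε (ι g) s' (hι g)]
    ring
  rw [Finset.sum_congr rfl fun s' _ => h3 s', Finset.sum_sub_distrib, h1]
  unfold tH tS
  ring

theorem tH_proj_right {π : S → S'} (hπ : ∀ (g : G) s, π (g • s) = g • π s) {x : S' → Ω} {y : S → Ω} (hx : Ev G x)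
    (hy : Ev G y) : Co (tH n ζ ι (fun s => x (π s)) y) (tH n ζ ι x (nm π y)) := by
  classical
  have := hG.alg
  obtain ⟨ε, hε⟩ := cS_fib hz hπ hy (Ev.nm hπ hy)
  obtain ⟨χ, hχ, hχ2⟩ := corr_right hG hz hS' hc hι hx ε
  refine ⟨fun g => - χ g, hχ.neg, fun g h => ?_⟩
  have h1 := hχ2 g h
  dsimp only at h1
  have h2 : tH n ζ ι (fun s => x (π s)) y g h =
      ∑ s', cS n ζ x (ι g) s' *
        ∑ s ∈ Finset.univ.filter (fun s => π s = (ι g)⁻¹ • s'), cS n ζ y (ι h) s := by
    unfold tH tS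
    rw [sum_split π]
    refine Finset.sum_congr rfl fun s' _ => ?_
    rw [sum_fib hπ, Finset.mul_sum]
    refine Finset.sum_congr rfl fun s hs => ?_
    rw [cS_comp hπ, (Finset.mem_filter.1 hs).2]
  rw [h2]
  have h3 : ∀ s', cS n ζ x (ι g) s' *
        (∑ s ∈ Finset.univ.filter (fun s => π s = (ι g)⁻¹ • s'), cS n ζ y (ι h) s) =
        cS n ζ x (ι g) s' * cS n ζ (nm π y) (ι h) ((ι g)⁻¹ • s') -
          cS n ζ x (ι g) s' * (ε ((ι h)⁻¹ • (ι g)⁻¹ • s') - ε ((ι g)⁻¹ • s')) := by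
    intro s'
    rw [hε (ι h) ((ι g)⁻¹ • s') (hι h)]
    ring
  rw [Finset.sum_congr rfl fun s' _ => h3 s', Finset.sum_sub_distrib, h1]
  unfold tH tS
  ring

omit hS' hc in
theorem tH_equiv (e : S ≃ S') (he : ∀ (g : G) s, e (g • s) = g • e s) (x y : S' → Ω) :
    tH n ζ ι (fun s => x (e s)) (fun s => y (e s)) = tH n ζ ι x y := by
  have := hG.alg
  funext g h
  unfold tH tS
  rw [← Equiv.sum_comp e]
  refine Finset.sum_congr rfl fun s _ => ?_
  rw [cS_comp he, cS_comp he, he]

omit hS' in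
/-- projection to the point -/
theorem tH_const_right {x : S → Ω} {b : Ω} (hx : Ev G x) (hb : Fx G b) :
    Co (tH n ζ ι x (fun _ => b)) (fun g h => km n ζ (∏ s, x s) (ι g) * km n ζ b (ι h)) := by
  have := hG.alg
  refine ⟨fun _ => 0, continuous_const, fun g h => ?_⟩
  dsimp only
  rw [km_prod hz hx (hι g), Finset.sum_mul]
  have h1 : tH n ζ ι x (fun _ => b) g h = ∑ s, cS n ζ x (ι g) s * km n ζ b (ι h) := rfl
  rw [h1]
  ring

omit hS' in
theorem tH_const_left {y : S → Ω} {a : Ω} (hy : Ev G y) (ha : Fx G a) :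
    Co (tH n ζ ι (fun _ => a) y) (fun g h => km n ζ a (ι g) * km n ζ (∏ s, y s) (ι h)) := by
  have := hG.alg
  refine ⟨fun _ => 0, continuous_const, fun g h => ?_⟩
  dsimp only
  rw [km_prod hz hy (hι h)]
  have h1 : tH n ζ ι (fun _ => a) y g h = ∑ s, km n ζ a (ι g) * cS n ζ y (ι h) ((ι g)⁻¹ • s) := rfl
  have h2 : ∑ s, cS n ζ y (ι h) ((ι g)⁻¹ • s) = ∑ s, cS n ζ y (ι h) s :=
    Equiv.sum_comp (MulAction.toPerm (ι g)⁻¹) (fun s => cS n ζ y (ι h) s)
  rw [h1, ← Finset.mul_sum, h2]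
  ring

omit hS' hS hc hι hG hz [TopologicalSpace H] [Fintype S'] [MulAction G S'] [TopologicalSpace G] in
theorem Fx_prod {x : S → Ω} (hx : Ev G x) : Fx G (∏ s, x s) := by
  refine ⟨Finset.prod_ne_zero_iff.2 fun s _ => (hx s).1, fun g => ?_⟩
  rw [Finset.smul_prod', ← Equiv.prod_comp (MulAction.toPerm g) x]
  exact Finset.prod_congr rfl fun s _ => ((hx s).2 g).symm

end

end MSG
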