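import Pool.Agent.MSG.TS1

/-! # MSG / TSb: bilinearity and antisymmetry of the cochains `tH`

PROOFS: see the header of TS1.lean (items `tH_mul_left`, `tH_mul_right`, `tH_self_anti`, `tH_self`, `tH_pow_*`, ...), repeated here:
* `tH_mul_left`: `ρ s = rt (x s) * rt (x' s)` gives (`cS_root`) `cS (x x') g s = cS x g s + cS x' g s + ε (g⁻¹ s) - ε s`, and
  `∑_s (ε (g⁻¹ s) - ε s) cS y h (g⁻¹ s)` is `χ g + χ h - χ (g h)` for `χ g = ∑_s ε s * cS y g s`
  (`cS y (g h) s = cS y g s + cS y h (g⁻¹ s)`, and substitute `s ↦ g⁻¹ s` in `χ h`).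
* `tH_mul_right`: similarly `∑_s cS x g s (ε (h⁻¹ g⁻¹ s) - ε (g⁻¹ s)) = -(χ g + χ h - χ (g h))` for `χ g = ∑_s cS x g s * ε (g⁻¹ s)`.
  (`corr_left`, `corr_right` state these two computations for arbitrary `ε : S → ZMod n`.)
* `tH_self_anti`: `tH x y + tH y x` is `-(χ g + χ h - χ (g h))` for `χ g = ∑_s cS x g s * cS y g s`.  `tH_self`: for `x = y` multiply by the inverse of `2`
  (`PZ.two`).
* `tH_pow_left`: `cS (x ^ n) g s = ε (g⁻¹ s) - ε s` (`ρ = x` is a family of roots of `x ^ n`, `c = 0`), then `corr_left`.  `tH_pow_right`: `corr_right`.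
  `tH_inv_*`, `tH_div_*`, `tH_one_*`: from bilinearity (`x * x⁻¹ = 1`; `cS 1 = ε (g⁻¹ s) - ε s` as well).
-/

set_option autoImplicit false
set_option linter.unusedVariables false

namespace MSG

universe u v w

open Pool.Agent.Helper14.Massey

section aux

theorem Co_of_eq {H : Type*} [Mul H] [TopologicalSpace H] {n : ℕ} {f f' k k' : H → H → ZMod n}
    (h : Co f f') (h1 : ∀ x y, k x y = f x y) (h2 : ∀ x y, k' x y = f' x y) : Co k k' := by
  have e1 : k = f := funext fun x => funext fun y => h1 x y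
  have e2 : k' = f' := funext fun x => funext fun y => h2 x y
  rw [e1, e2]
  exact h

theorem sum_shift {G : Type*} {S : Type*} {M : Type*} [Group G] [MulAction G S] [Fintype S] [AddCommMonoid M]
    (a : G) (f : S → M) : ∑ s : S, f (a • s) = ∑ s : S, f s :=
  Equiv.sum_comp (MulAction.toPerm a) f

variable {G : Type u} {Ω : Type v} {S : Type w} [Group G] [Field Ω] [MulSemiringAction G Ω] [MulAction G S]
  {n : ℕ} {ζ : Ω}

theorem Ev_one : Ev G (fun _ : S => (1 : Ω)) :=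
  fun _ => ⟨one_ne_zero, fun g => (smul_one g).symm⟩

theorem cont_shift [TopologicalSpace G] (hG : GA G Ω) (hS : OS G S) (ε : S → ZMod n) (s : S) :
    Continuous (fun g : G => ε (g⁻¹ • s)) := by
  have := hG.top
  refine IsLocallyConstant.continuous ((IsLocallyConstant.iff_exists_open _).2 fun g => ?_)
  refine ⟨{h : G | (g * h⁻¹) • s = s}, ?_, ?_, ?_⟩
  · have h1 : Continuous fun h : G => g * h⁻¹ := continuous_const.mul continuous_inv
    exact (hS s).preimage h1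
  · show (g * g⁻¹) • s = s
    rw [mul_inv_cancel, one_smul]
  · intro h hh
    have h2 : (g * h⁻¹) • s = s := hh
    have h3 : h⁻¹ • s = g⁻¹ • s := by
      rw [mul_smul] at h2
      exact eq_inv_smul_iff.2 h2
    rw [h3]

variable [IsAlgClosed Ω]

theorem cS_mul_eps (hz : PZ n ζ) {x x' : S → Ω} (hx : Ev G x) (hx' : Ev G x') :
    ∃ ε : S → ZMod n, ∀ (g : G) (s : S), g • ζ = ζ →
      cS n ζ (fun s => x s * x' s) g s = cS n ζ x g s + cS n ζ x' g s + (ε (g⁻¹ • s) - ε s) := by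
  obtain ⟨ε, -, hε⟩ := cS_root hz (hx.mul hx') (ρ := fun s => rt n (x s) * rt n (x' s))
    (fun s => by rw [mul_pow, rt_pow hz, rt_pow hz])
  refine ⟨ε, fun g s hg => ?_⟩
  rw [hε g s (cS n ζ x g s + cS n ζ x' g s) hg ?_]
  · ring
  · rw [smul_mul', cS_spec hz hx, cS_spec hz hx', zp_add hz]
    ring

theorem cS_pow_eps (hz : PZ n ζ) {x : S → Ω} (hx : Ev G x) :
    ∃ ε : S → ZMod n, ∀ (g : G) (s : S), g • ζ = ζ →
      cS n ζ (fun s => x s ^ n) g s = ε (g⁻¹ • s) - ε s := by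
  obtain ⟨ε, -, hε⟩ := cS_root hz (hx.pow n) (ρ := x) (fun s => rfl)
  refine ⟨ε, fun g s hg => ?_⟩
  rw [hε g s 0 hg ?_]
  · ring
  · rw [← (hx (g⁻¹ • s)).2 g, smul_inv_smul, zp_zero hz, one_mul]

end aux

section top

variable {G : Type u} {H : Type*} {Ω : Type v} {S : Type w} [Group G] [TopologicalSpace G] [Group H] [TopologicalSpace H]
  [Field Ω] [MulSemiringAction G Ω] [MulAction G S] [Fintype S] {n : ℕ} {ζ : Ω} {ι : H →* G}

variable (hG : GA G Ω) (hz : PZ n ζ) (hS : OS G S) (hc : Continuous ι) (hι : ∀ h : H, ι h • ζ = ζ)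

include hG hz hS hc hι

theorem corr_left {y : S → Ω} (hy : Ev G y) (ε : S → ZMod n) :
    Co (fun g h : H => ∑ s : S, (ε ((ι g)⁻¹ • s) - ε s) * cS n ζ y (ι h) ((ι g)⁻¹ • s)) (fun _ _ => 0) := by
  have := hG.alg
  refine ⟨fun g => ∑ s : S, ε s * cS n ζ y (ι g) s, ?_, ?_⟩
  · refine continuous_finsetSum _ fun s _ => continuous_const.mul ?_
    exact (cS_cont hG hS n ζ y s).comp hc
  · intro g h
    have h1 : (∑ s : S, ε s * cS n ζ y (ι h) s) =
        ∑ s : S, ε ((ι g)⁻¹ • s) * cS n ζ y (ι h) ((ι g)⁻¹ • s) :=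
      (sum_shift (ι g)⁻¹ (fun s => ε s * cS n ζ y (ι h) s)).symm
    simp only [h1, map_mul, zero_add]
    rw [← Finset.sum_add_distrib, ← Finset.sum_sub_distrib]
    refine Finset.sum_congr rfl fun s _ => ?_
    rw [cS_hom hz hy (hι g)]
    ring

theorem corr_right {x : S → Ω} (hx : Ev G x) (ε : S → ZMod n) :
    Co (fun g h : H => ∑ s : S, cS n ζ x (ι g) s * (ε ((ι h)⁻¹ • (ι g)⁻¹ • s) - ε ((ι g)⁻¹ • s))) (fun _ _ => 0) := by
  have := hG.alg
  refine ⟨fun g => - ∑ s : S, cS n ζ x (ι g) s * ε ((ι g)⁻¹ • s), ?_, ?_⟩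
  · refine (continuous_finsetSum _ fun s _ => ?_).neg
    exact ((cS_cont hG hS n ζ x s).comp hc).mul ((cont_shift hG hS ε s).comp hc)
  · intro g h
    have h1 : (∑ s : S, cS n ζ x (ι h) s * ε ((ι h)⁻¹ • s)) =
        ∑ s : S, cS n ζ x (ι h) ((ι g)⁻¹ • s) * ε ((ι h)⁻¹ • (ι g)⁻¹ • s) :=
      (sum_shift (ι g)⁻¹ (fun s => cS n ζ x (ι h) s * ε ((ι h)⁻¹ • s))).symm
    simp only [h1, map_mul, zero_add]
    rw [← neg_add, ← Finset.sum_add_distrib, sub_neg_eq_add, neg_add_eq_sub,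
      ← Finset.sum_sub_distrib]
    refine Finset.sum_congr rfl fun s _ => ?_
    rw [cS_hom hz hx (hι g), mul_inv_rev, mul_smul]
    ring

theorem tH_mul_left {x x' y : S → Ω} (hx : Ev G x) (hx' : Ev G x') (hy : Ev G y) :
    Co (tH n ζ ι (fun s => x s * x' s) y) (fun g h => tH n ζ ι x y g h + tH n ζ ι x' y g h) := by
  have := hG.alg
  obtain ⟨ε, hε⟩ := cS_mul_eps hz hx hx'
  have h1 := Co_add (Co_refl (fun g h : H => tH n ζ ι x y g h + tH n ζ ι x' y g h))
    (corr_left hG hz hS hc hι hy ε)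
  refine Co_of_eq h1 (fun g h => ?_) (fun g h => ?_)
  · simp only [tH, tS]
    rw [← Finset.sum_add_distrib, ← Finset.sum_add_distrib]
    refine Finset.sum_congr rfl fun s _ => ?_
    rw [hε (ι g) s (hι g)]
    ring
  · rw [add_zero]

theorem tH_mul_right {x y y' : S → Ω} (hx : Ev G x) (hy : Ev G y) (hy' : Ev G y') :
    Co (tH n ζ ι x (fun s => y s * y' s)) (fun g h => tH n ζ ι x y g h + tH n ζ ι x y' g h) := by
  have := hG.alg
  obtain ⟨ε, hε⟩ := cS_mul_eps hz hy hy'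
  have h1 := Co_add (Co_refl (fun g h : H => tH n ζ ι x y g h + tH n ζ ι x y' g h))
    (corr_right hG hz hS hc hι hx ε)
  refine Co_of_eq h1 (fun g h => ?_) (fun g h => ?_)
  · simp only [tH, tS]
    rw [← Finset.sum_add_distrib, ← Finset.sum_add_distrib]
    refine Finset.sum_congr rfl fun s _ => ?_
    rw [hε (ι h) _ (hι h)]
    ring
  · rw [add_zero]

theorem tH_self_anti {x y : S → Ω} (hx : Ev G x) (hy : Ev G y) :
    Co (tH n ζ ι y x) (fun g h => - tH n ζ ι x y g h) := by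
  have := hG.alg
  refine ⟨fun g => - ∑ s : S, cS n ζ x (ι g) s * cS n ζ y (ι g) s, ?_, ?_⟩
  · refine (continuous_finsetSum _ fun s _ => ?_).neg
    exact ((cS_cont hG hS n ζ x s).comp hc).mul ((cS_cont hG hS n ζ y s).comp hc)
  · intro g h
    have h1 : (∑ s : S, cS n ζ x (ι h) s * cS n ζ y (ι h) s) =
        ∑ s : S, cS n ζ x (ι h) ((ι g)⁻¹ • s) * cS n ζ y (ι h) ((ι g)⁻¹ • s) :=
      (sum_shift (ι g)⁻¹ (fun s => cS n ζ x (ι h) s * cS n ζ y (ι h) s)).symm
    simp only [h1, map_mul, tH, tS]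
    rw [← sub_eq_zero]
    have h2 : ∀ A B C D E : ZMod n, A - (-B + (-C + -D - -E)) = (A + B + C + D) - E := by
      intro A B C D E
      ring
    rw [h2, ← Finset.sum_add_distrib, ← Finset.sum_add_distrib, ← Finset.sum_add_distrib,
      ← Finset.sum_sub_distrib]
    refine Finset.sum_eq_zero fun s _ => ?_
    rw [cS_hom hz hx (hι g), cS_hom hz hy (hι g)]
    ring

theorem tH_self {x : S → Ω} (hx : Ev G x) : Co (tH n ζ ι x x) (fun _ _ => 0) := by
  obtain ⟨χ, hχ, h1⟩ := tH_self_anti hG hz hS hc hι hx hx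
  obtain ⟨i, hi⟩ := hz.two
  refine ⟨fun g => i * χ g, continuous_const.mul hχ, fun g h => ?_⟩
  have h2 := h1 g h
  have h3 : tH n ζ ι x x g h = i * (tH n ζ ι x x g h + tH n ζ ι x x g h) := by
    linear_combination (- tH n ζ ι x x g h) * hi
  rw [h3]
  nth_rewrite 1 [h2]
  ring

theorem tH_pow_left {x y : S → Ω} (hx : Ev G x) (hy : Ev G y) :
    Co (tH n ζ ι (fun s => x s ^ n) y) (fun _ _ => 0) := by
  have := hG.alg
  obtain ⟨ε, hε⟩ := cS_pow_eps hz hx
  refine Co_of_eq (corr_left hG hz hS hc hι hy ε) (fun g h => ?_) (fun g h => rfl)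
  simp only [tH, tS]
  refine Finset.sum_congr rfl fun s _ => ?_
  rw [hε (ι g) s (hι g)]

theorem tH_pow_right {x y : S → Ω} (hx : Ev G x) (hy : Ev G y) :
    Co (tH n ζ ι x (fun s => y s ^ n)) (fun _ _ => 0) := by
  have := hG.alg
  obtain ⟨ε, hε⟩ := cS_pow_eps hz hy
  refine Co_of_eq (corr_right hG hz hS hc hι hx ε) (fun g h => ?_) (fun g h => rfl)
  simp only [tH, tS]
  refine Finset.sum_congr rfl fun s _ => ?_
  rw [hε (ι h) _ (hι h)]

theorem tH_one_left {y : S → Ω} (hy : Ev G y) : Co (tH n ζ ι (fun _ => 1) y) (fun _ _ => 0) := by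
  have h1 := tH_pow_left hG hz hS hc hι (Ev_one (G := G) (Ω := Ω) (S := S)) hy
  simpa only [one_pow] using h1

theorem tH_one_right {x : S → Ω} (hx : Ev G x) : Co (tH n ζ ι x (fun _ => 1)) (fun _ _ => 0) := by
  have h1 := tH_pow_right hG hz hS hc hι hx (Ev_one (G := G) (Ω := Ω) (S := S))
  simpa only [one_pow] using h1

theorem tH_inv_left {x y : S → Ω} (hx : Ev G x) (hy : Ev G y) :
    Co (tH n ζ ι (fun s => (x s)⁻¹) y) (fun g h => - tH n ζ ι x y g h) := by
  have := hG.alg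
  have h1 := tH_mul_left hG hz hS hc hι hx hx.inv hy
  have h2 : (fun s => x s * (x s)⁻¹) = fun _ => (1 : Ω) :=
    funext fun s => mul_inv_cancel₀ (hx s).1
  rw [h2] at h1
  have h3 := Co_trans (Co_symm h1) (tH_one_left hG hz hS hc hι hy)
  have h4 := Co_add h3 (Co_refl (fun g h : H => - tH n ζ ι x y g h))
  refine Co_of_eq h4 (fun g h => ?_) (fun g h => ?_)
  · ring
  · ring

theorem tH_inv_right {x y : S → Ω} (hx : Ev G x) (hy : Ev G y) :
    Co (tH n ζ ι x (fun s => (y s)⁻¹)) (fun g h => - tH n ζ ι x y g h) := by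
  have := hG.alg
  have h1 := tH_mul_right hG hz hS hc hι hx hy hy.inv
  have h2 : (fun s => y s * (y s)⁻¹) = fun _ => (1 : Ω) :=
    funext fun s => mul_inv_cancel₀ (hy s).1
  rw [h2] at h1
  have h3 := Co_trans (Co_symm h1) (tH_one_right hG hz hS hc hι hx)
  have h4 := Co_add h3 (Co_refl (fun g h : H => - tH n ζ ι x y g h))
  refine Co_of_eq h4 (fun g h => ?_) (fun g h => ?_)
  · ring
  · ring

theorem tH_div_left {x x' y : S → Ω} (hx : Ev G x) (hx' : Ev G x') (hy : Ev G y) :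
    Co (tH n ζ ι (fun s => x s / x' s) y) (fun g h => tH n ζ ι x y g h - tH n ζ ι x' y g h) := by
  have := hG.alg
  have h1 := tH_mul_left hG hz hS hc hι hx hx'.inv hy
  have h2 := Co_add (Co_refl (fun g h : H => tH n ζ ι x y g h)) (tH_inv_left hG hz hS hc hι hx' hy)
  refine Co_of_eq (Co_trans h1 h2) (fun g h => ?_) (fun g h => ?_)
  · simp only [div_eq_mul_inv]
  · ring

theorem tH_div_right {x y y' : S → Ω} (hx : Ev G x) (hy : Ev G y) (hy' : Ev G y') :
    Co (tH n ζ ι x (fun s => y s / y' s)) (fun g h => tH n ζ ι x y g h - tH n ζ ι x y' g h) := by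
  have := hG.alg
  have h1 := tH_mul_right hG hz hS hc hι hx hy hy'.inv
  have h2 := Co_add (Co_refl (fun g h : H => tH n ζ ι x y g h)) (tH_inv_right hG hz hS hc hι hx hy')
  refine Co_of_eq (Co_trans h1 h2) (fun g h => ?_) (fun g h => ?_)
  · simp only [div_eq_mul_inv]
  · ring

end top

end MSG
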