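import Pool.Agent.MSG.Kia

/-! # MSG / Tow: every class in `H²(G, ℤ/p)` can be killed by a good morphism

PROOFS.
* `tow_aux`: induction on `k` for all `A` and `f`: if `f ~ 0` on an open subgroup `U` with `U.index ≤ p ^ k` then `f` can be killed.  If `U = ⊤` (in particular `k = 0`): `CoM_top`, identity.
  Otherwise `exists_over`: `U = ms P a`, `P.index ≤ p ^ (k-1)`.  If `P ≤ kr a` then `U = P`, impossible (`p * P.index = U.index`), so there is `g₀` (`ms_alt`) and `r_kl` gives `c` fixed by `P` with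
  `f ~ kk a c` on `P`.  `kill_all` (for the index of `P`) gives a good `φ : A → B` with `φ.pb (kk a c) ~ 0` on `P.comap φ.r`, so `φ.pb f ~ 0` there, index `≤ p ^ (k-1)`; the
  induction hypothesis for `B` and `φ.pb f` (again a cocycle) gives a second good morphism; compose.
* `tow`: a continuous cocycle `f` on the compact group `G` with values in the discrete group: `f (g, h) = f (1, 1)` for `g, h` in an open subgroup `U` (continuity at `(1, 1)` and
  `basis`); there `f = dχ` with `χ` constant `f (1, 1)`.  `U.index` is a power of `p` (`ps`).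
-/

set_option autoImplicit false
set_option linter.unusedVariables false

namespace MSG

universe u

open Pool.Agent.Helper14.Massey

variable {p : ℕ}

private theorem tow_restr {A : KP.{u} p} {f : A.G → A.G → ZMod p} (hf : f ∈ Z2 p A.G) (P : Subgroup A.G) :
    (fun g h : P => f g h) ∈ Z2 p P := by
  refine ⟨?_, fun x y z => hf.2 x y z⟩
  exact hf.1.comp ((continuous_subtype_val.comp continuous_fst).prodMk
    (continuous_subtype_val.comp continuous_snd))

private theorem tow_pb {A B : KP.{u} p} (φ : KM A B) {f : A.G → A.G → ZMod p} (hf : f ∈ Z2 p A.G) :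
    φ.pb f ∈ Z2 p B.G := by
  refine ⟨?_, fun x y z => ?_⟩
  · exact hf.1.comp ((φ.cont.comp continuous_fst).prodMk (φ.cont.comp continuous_snd))
  · have h := hf.2 (φ.r x) (φ.r y) (φ.r z)
    rw [← map_mul, ← map_mul] at h
    exact h

private theorem tow_index (hp : p.Prime) {A : KP.{u} p} {P : Subgroup A.G} (hP : IsOpen (P : Set A.G)) :
    P.index ≠ 0 := by
  obtain ⟨k, hk⟩ := A.ps P hP
  rw [hk]
  exact (pow_pos hp.pos k).ne'

theorem tow_aux (hp : p.Prime) (C : GC.{u} p) (k : ℕ) : ∀ (A : KP.{u} p) (f : A.G → A.G → ZMod p), f ∈ Z2 p A.G →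
    ∀ U : Subgroup A.G, IsOpen (U : Set A.G) → U.index ≤ p ^ k → CoM U f (fun _ _ => 0) →
    ∃ (B : KP.{u} p) (φ : KM A B), C.Gd A B φ ∧ Co (φ.pb f) (fun _ _ => 0) := by
  induction k with
  | zero =>
    intro A f hf U hU hi hco
    have h0 := tow_index hp hU
    have h1 : U = ⊤ := by
      rw [← Subgroup.index_eq_one]
      rw [pow_zero] at hi
      omega
    subst h1
    exact ⟨A, KM.id A, C.gid A, CoM_top.1 hco⟩
  | succ k ih =>
    intro A f hf U hU hi hco
    by_cases h1 : U = ⊤
    · subst h1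
      exact ⟨A, KM.id A, C.gid A, CoM_top.1 hco⟩
    · obtain ⟨P, a, hP, ha, hUP, hidx⟩ := exists_over hp A hU h1
      have hPi : P.index ≤ p ^ k := by
        have h2 : p * P.index ≤ p * p ^ k := by
          rw [hidx, ← pow_succ']
          exact hi
        exact Nat.le_of_mul_le_mul_left h2 hp.pos
      have hP0 := tow_index hp hP
      obtain ⟨g₀, hg₀, hk₀⟩ : ∃ g₀ ∈ P, km p A.ζ a g₀ = 1 := by
        rcases ms_alt A P hp hP ha with h2 | h2
        · exfalso
          have h3 : U = P := by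
            rw [hUP]
            exact inf_eq_left.2 h2
          rw [h3] at hidx
          have h4 := hp.two_le
          have h5 : 2 * P.index ≤ P.index := by
            calc 2 * P.index ≤ p * P.index := Nat.mul_le_mul_right _ h4
              _ = P.index := hidx
          omega
        · exact h2
      rw [hUP] at hco
      obtain ⟨c, hc, hfc⟩ := r_kl A P hp hP ha hg₀ hk₀ (tow_restr hf P) hco
      obtain ⟨B, φ, hφ, hv⟩ := kill_all hp C k A P hP hPi (kk p A.ζ a c) (SyM_kk ha hc)
      have h6 : CoM (P.comap φ.r) (φ.pb f) (fun _ _ => 0) :=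
        CoM_trans (CoM_mo φ.toMo hfc) hv
      obtain ⟨B', φ', hφ', h7⟩ := ih B (φ.pb f) (tow_pb φ hf) (P.comap φ.r) (comap_open φ hP)
        ((comap_index φ hP).trans hPi) h6
      exact ⟨B', φ.cmp φ', C.gcmp _ _ _ φ φ' hφ hφ', h7⟩

theorem tow (hp : p.Prime) (C : GC.{u} p) (A : KP.{u} p) (f : A.G → A.G → ZMod p) (hf : f ∈ Z2 p A.G) :
    ∃ (B : KP.{u} p) (φ : KM A B), C.Gd A B φ ∧ Co (φ.pb f) (fun _ _ => 0) := by
  have h1 : IsOpen {x : A.G × A.G | f x.1 x.2 = f 1 1} :=
    (isOpen_discrete ({f 1 1} : Set (ZMod p))).preimage hf.1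
  have h2 : {x : A.G × A.G | f x.1 x.2 = f 1 1} ∈ nhds ((1 : A.G), (1 : A.G)) :=
    h1.mem_nhds rfl
  rw [nhds_prod_eq, Filter.mem_prod_self_iff] at h2
  obtain ⟨V, hV, hVV⟩ := h2
  obtain ⟨W, hWV, hW, h1W⟩ := mem_nhds_iff.1 hV
  obtain ⟨x, hx⟩ := A.ga.basis W hW h1W
  have hU : IsOpen ((MulAction.stabilizer A.G x : Subgroup A.G) : Set A.G) := A.ga.stab x
  obtain ⟨k, hk⟩ := A.ps _ hU
  refine tow_aux hp C k A f hf (MulAction.stabilizer A.G x) hU hk.le ?_
  refine ⟨fun _ => f 1 1, continuous_const, fun g hg h hh => ?_⟩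
  have h3 : f g h = f 1 1 := hVV (Set.mk_mem_prod (hWV (hx g (MulAction.mem_stabilizer_iff.1 hg)))
    (hWV (hx h (MulAction.mem_stabilizer_iff.1 hh))))
  rw [h3]
  ring

end MSG
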