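import Pool.Agent.MSG.Sya
import Pool.Agent.MSG.Sub

/-! # MSG / Uc: 2-cocycles with values in `Ωˣ`

`Zu G f`: `f : G → G → Ω` is a locally constant 2-cocycle with nonzero values; `Cu f f'`: `f / f'` is a coboundary; `CuN N f f'`: the same for the
restrictions to the subgroup `N` (the coboundary is defined on `N`).

PROOFS.
* The rules: products, inverses, powers of the witnesses `Ξ`.  `Zu_of_Cu`: a coboundary of a locally constant function is a locally constant cocycle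
  (`(g, h) ↦ g • Ξ h`: `Ξ` has finitely many values (compactness) or directly: `g • Ξ h` is constant for `g` in `g₀ * stab (Ξ h₀)` and `h` in `Ξ ⁻¹ {Ξ h₀}`).
* `Zu_zp`: `zp ζ (f g h)` for a continuous `ZMod n`-cocycle `f`: `g` fixes `ζ` (`Z2` of Massey/Defs: the cocycle identity is additive).
* `Cu_conj`: `f` a cocycle, `c ∈ G`: `c • f (c⁻¹ x c) (c⁻¹ y c) = f x y * (Ξ x * x • Ξ y / Ξ (x y))` with `Ξ x = f c (c⁻¹ x c) / f x c`: apply the cocycle identity to the triples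
  `(c, c⁻¹ x c, c⁻¹ y c)`, `(x, c, c⁻¹ y c)`, `(x, y, c)`.
* `CuN_conj`: `N` normal, `f / f' = dΞ` on `N`: on `N`, `c • (f / f') (c⁻¹ x c) (c⁻¹ y c)` is the coboundary of `x ↦ c • Ξ (c⁻¹ x c)`: `c • (c⁻¹ x c) • Ξ (c⁻¹ y c) = x • c • Ξ (c⁻¹ y c)`.
* `CuN_cju_self`: `f` a cocycle on `G`: restrict `Cu_conj`.
* `CuN_mono`, `CuN_of_Cu`, `CuN_top`: restriction.
-/

set_option autoImplicit false
set_option linter.unusedVariables false

namespace MSG

universe u v w

open Pool.Agent.Helper14.Massey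

/-- locally constant 2-cocycle with values in `Ωˣ` -/
structure Zu (G : Type u) {Ω : Type v} [Group G] [TopologicalSpace G] [Field Ω] [MulSemiringAction G Ω]
    (f : G → G → Ω) : Prop where
  ne : ∀ g h, f g h ≠ 0
  lc : IsLocallyConstant (fun q : G × G => f q.1 q.2)
  co : ∀ g h l, g • f h l * f g (h * l) = f (g * h) l * f g h

section

variable {G : Type u} {Ω : Type v} [Group G] [TopologicalSpace G] [Field Ω] [MulSemiringAction G Ω]

/-- equal up to a coboundary -/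
def Cu (f f' : G → G → Ω) : Prop :=
  ∃ Ξ : G → Ω, (∀ g, Ξ g ≠ 0) ∧ IsLocallyConstant Ξ ∧ ∀ g h, f g h = f' g h * (Ξ g * g • Ξ h / Ξ (g * h))

/-- equal up to a coboundary on the subgroup `N` -/
def CuN (N : Subgroup G) (f f' : G → G → Ω) : Prop :=
  Cu (G := N) (fun g h : N => f g h) (fun g h : N => f' g h)

/-- the conjugate cochain -/
def cju (c : G) (f : G → G → Ω) (g h : G) : Ω := c • f (c⁻¹ * g * c) (c⁻¹ * h * c)

variable {f f' f'' f₁ f₁' : G → G → Ω} {N N' : Subgroup G}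

omit [TopologicalSpace G] in
theorem smul_ne_z (g : G) {x : Ω} (hx : x ≠ 0) : g • x ≠ 0 := by
  intro h
  apply hx
  have h1 := congrArg (fun z => g⁻¹ • z) h
  simpa using h1

omit [TopologicalSpace G] in
theorem smul_div_z (g : G) (x y : Ω) : g • (x / y) = g • x / g • y := by
  rw [div_eq_mul_inv, smul_mul', smul_inv'', div_eq_mul_inv]

theorem lc_smul (hG : GA G Ω) {X : Type*} [TopologicalSpace X] {u : X → G} (hu : Continuous u)
    {F : X → Ω} (hF : IsLocallyConstant F) : IsLocallyConstant fun x => u x • F x := by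
  have := hG.top
  refine (IsLocallyConstant.iff_exists_open _).2 fun x₀ => ?_
  refine ⟨F ⁻¹' {F x₀} ∩ (fun x => (u x₀)⁻¹ * u x) ⁻¹' {g : G | g • F x₀ = F x₀}, ?_, ?_, ?_⟩
  · exact (hF.isOpen_fiber _).inter ((hG.stab _).preimage (continuous_const.mul hu))
  · refine ⟨rfl, ?_⟩
    show ((u x₀)⁻¹ * u x₀) • F x₀ = F x₀
    rw [inv_mul_cancel, one_smul]
  · rintro x ⟨h1, h2⟩
    have h1' : F x = F x₀ := h1
    have h2' : ((u x₀)⁻¹ * u x) • F x₀ = F x₀ := h2
    rw [mul_smul, inv_smul_eq_iff] at h2'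
    rw [h1', h2']

theorem Cu_refl (f : G → G → Ω) : Cu f f := by
  refine ⟨fun _ => 1, fun _ => one_ne_zero, IsLocallyConstant.const 1, fun g h => ?_⟩
  rw [smul_one, mul_one, div_one, mul_one]

theorem Cu_symm (h : Cu f f') : Cu f' f := by
  obtain ⟨Ξ, h0, hl, e⟩ := h
  refine ⟨fun g => (Ξ g)⁻¹, fun g => inv_ne_zero (h0 g), hl.comp (fun x => x⁻¹), fun x y => ?_⟩
  have h1 := h0 x
  have h2 := smul_ne_z x (h0 y)
  have h3 := h0 (x * y)
  simp only [smul_inv'']
  rw [e]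
  field_simp

theorem Cu_trans (h : Cu f f') (h' : Cu f' f'') : Cu f f'' := by
  obtain ⟨Ξ, h0, hl, e⟩ := h
  obtain ⟨Ξ', h0', hl', e'⟩ := h'
  refine ⟨fun g => Ξ g * Ξ' g, fun g => mul_ne_zero (h0 g) (h0' g), hl.comp₂ hl' (fun x y => x * y),
    fun x y => ?_⟩
  simp only [smul_mul']
  rw [e, e']
  have h3 := h0 (x * y)
  have h3' := h0' (x * y)
  field_simp

theorem Cu_mul (h : Cu f f') (h' : Cu f₁ f₁') : Cu (fun x y => f x y * f₁ x y) (fun x y => f' x y * f₁' x y) := by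
  obtain ⟨Ξ, h0, hl, e⟩ := h
  obtain ⟨Ξ', h0', hl', e'⟩ := h'
  refine ⟨fun g => Ξ g * Ξ' g, fun g => mul_ne_zero (h0 g) (h0' g), hl.comp₂ hl' (fun x y => x * y),
    fun x y => ?_⟩
  simp only [smul_mul']
  rw [e, e']
  have h3 := h0 (x * y)
  have h3' := h0' (x * y)
  field_simp

theorem Cu_inv (h : Cu f f') : Cu (fun x y => (f x y)⁻¹) (fun x y => (f' x y)⁻¹) := by
  obtain ⟨Ξ, h0, hl, e⟩ := h
  refine ⟨fun g => (Ξ g)⁻¹, fun g => inv_ne_zero (h0 g), hl.comp (fun x => x⁻¹), fun x y => ?_⟩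
  simp only [smul_inv'']
  rw [e, mul_inv, inv_div, mul_comm ((Ξ x)⁻¹), ← mul_inv, div_eq_mul_inv, div_eq_mul_inv, inv_inv,
    mul_comm (x • Ξ y)]
  ring

theorem Cu_pow (k : ℕ) (h : Cu f f') : Cu (fun x y => f x y ^ k) (fun x y => f' x y ^ k) := by
  obtain ⟨Ξ, h0, hl, e⟩ := h
  refine ⟨fun g => Ξ g ^ k, fun g => pow_ne_zero k (h0 g), hl.comp (fun x => x ^ k), fun x y => ?_⟩
  simp only [smul_pow']
  rw [e, mul_pow, div_pow, mul_pow]

theorem Cu_prod {κ : Type*} (s : Finset κ) (F F' : κ → G → G → Ω) (h : ∀ i ∈ s, Cu (F i) (F' i)) :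
    Cu (fun x y => ∏ i ∈ s, F i x y) (fun x y => ∏ i ∈ s, F' i x y) := by
  classical
  induction s using Finset.induction_on with
  | empty =>
    simp only [Finset.prod_empty]
    exact Cu_refl _
  | insert i s hi ih =>
    simp only [Finset.prod_insert hi]
    exact Cu_mul (h i (Finset.mem_insert_self i s))
      (ih fun j hj => h j (Finset.mem_insert_of_mem hj))

theorem Zu_one : Zu G (fun _ _ => (1 : Ω)) := by
  refine ⟨fun _ _ => one_ne_zero, IsLocallyConstant.const 1, fun g h l => ?_⟩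
  rw [smul_one]

theorem Zu_mul (h : Zu G f) (h' : Zu G f') : Zu G (fun x y => f x y * f' x y) := by
  refine ⟨fun x y => mul_ne_zero (h.ne x y) (h'.ne x y), h.lc.comp₂ h'.lc (fun x y => x * y),
    fun x y l => ?_⟩
  have e1 := h.co x y l
  have e2 := h'.co x y l
  simp only [smul_mul']
  calc (x • f y l) * (x • f' y l) * (f x (y * l) * f' x (y * l))
      = (x • f y l * f x (y * l)) * (x • f' y l * f' x (y * l)) := by ring
    _ = (f (x * y) l * f x y) * (f' (x * y) l * f' x y) := by rw [e1, e2]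
    _ = f (x * y) l * f' (x * y) l * (f x y * f' x y) := by ring

theorem Zu_inv (h : Zu G f) : Zu G (fun x y => (f x y)⁻¹) := by
  refine ⟨fun x y => inv_ne_zero (h.ne x y), h.lc.comp (fun x => x⁻¹), fun x y l => ?_⟩
  simp only [smul_inv'']
  rw [← mul_inv, h.co, mul_inv]

theorem Zu_pow (k : ℕ) (h : Zu G f) : Zu G (fun x y => f x y ^ k) := by
  refine ⟨fun x y => pow_ne_zero k (h.ne x y), h.lc.comp (fun x => x ^ k), fun x y l => ?_⟩
  simp only [smul_pow']
  rw [← mul_pow, h.co, mul_pow]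

theorem Zu_of_Cu (hG : GA G Ω) (h : Cu f f') (hf : Zu G f') : Zu G f := by
  have := hG.top
  obtain ⟨Ξ, h0, hl, e⟩ := h
  refine ⟨fun x y => ?_, ?_, fun x y l => ?_⟩
  · rw [e]
    exact mul_ne_zero (hf.ne x y) (div_ne_zero (mul_ne_zero (h0 x) (smul_ne_z x (h0 y))) (h0 _))
  · have e1 : (fun q : G × G => f q.1 q.2) =
        fun q : G × G => f' q.1 q.2 * (Ξ q.1 * q.1 • Ξ q.2 / Ξ (q.1 * q.2)) := by
      funext q
      exact e q.1 q.2
    rw [e1]
    have l1 : IsLocallyConstant fun q : G × G => Ξ q.1 := hl.comp_continuous continuous_fst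
    have l2 : IsLocallyConstant fun q : G × G => Ξ q.2 := hl.comp_continuous continuous_snd
    have l3 : IsLocallyConstant fun q : G × G => q.1 • Ξ q.2 := lc_smul hG continuous_fst l2
    have l4 : IsLocallyConstant fun q : G × G => Ξ (q.1 * q.2) :=
      hl.comp_continuous (continuous_fst.mul continuous_snd)
    exact hf.lc.comp₂ ((l1.comp₂ l3 (fun x y => x * y)).comp₂ l4 (fun x y => x / y))
      (fun x y => x * y)
  · have e1 := hf.co x y l
    have a2 := h0 (x * y)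
    have a3 := smul_ne_z x (h0 (y * l))
    rw [e y l, e x (y * l), e (x * y) l, e x y, smul_mul', smul_div_z, smul_mul', smul_smul,
      ← mul_assoc x y l]
    have c1 : x • f' y l * (x • Ξ y * (x * y) • Ξ l / x • Ξ (y * l)) *
        (f' x (y * l) * (Ξ x * x • Ξ (y * l) / Ξ (x * y * l))) =
        (x • f' y l * f' x (y * l)) * (Ξ x * x • Ξ y * (x * y) • Ξ l / Ξ (x * y * l)) := by
      field_simp
    have c2 : f' (x * y) l * (Ξ (x * y) * (x * y) • Ξ l / Ξ (x * y * l)) *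
        (f' x y * (Ξ x * x • Ξ y / Ξ (x * y))) =
        (f' (x * y) l * f' x y) * (Ξ x * x • Ξ y * (x * y) • Ξ l / Ξ (x * y * l)) := by
      field_simp
    rw [c2, ← e1, ← c1, mul_assoc x y l]

theorem Zu_sub (h : Zu G f) (N : Subgroup G) : Zu N (fun g h : N => f g h) := by
  refine ⟨fun x y => h.ne x y, ?_, fun x y l => h.co x y l⟩
  exact h.lc.comp_continuous ((continuous_subtype_val.comp continuous_fst).prodMk
    (continuous_subtype_val.comp continuous_snd))

theorem Zu_zp {n : ℕ} {ζ : Ω} (hG : GA G Ω) (hz : PZ n ζ) (hζ : ∀ g : G, g • ζ = ζ) {F : G → G → ZMod n} (hF : F ∈ Z2 n G) :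
    Zu G (fun g h => zp ζ (F g h)) := by
  refine ⟨fun x y => zp_ne hz _, ?_, fun x y l => ?_⟩
  · have h1 : IsLocallyConstant fun q : G × G => F q.1 q.2 :=
      (IsLocallyConstant.iff_continuous _).2 hF.1
    exact h1.comp (fun j => zp ζ j)
  · rw [smul_zp (hζ x), ← zp_add hz, ← zp_add hz]
    congr 1
    linear_combination hF.2 x y l

theorem Cu_conj (hG : GA G Ω) (hf : Zu G f) (c : G) : Cu (cju c f) f := by
  have := hG.top
  refine ⟨fun x => f c (c⁻¹ * x * c) / f x c, fun x => div_ne_zero (hf.ne _ _) (hf.ne _ _), ?_,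
    fun x y => ?_⟩
  · have l1 : IsLocallyConstant fun x : G => f c (c⁻¹ * x * c) :=
      hf.lc.comp_continuous (continuous_const.prodMk
        ((continuous_const.mul continuous_id).mul continuous_const))
    have l2 : IsLocallyConstant fun x : G => f x c :=
      hf.lc.comp_continuous (continuous_id.prodMk continuous_const)
    exact l1.comp₂ l2 (fun x y => x / y)
  · have e1 := hf.co c (c⁻¹ * x * c) (c⁻¹ * y * c)
    have e2 := hf.co x c (c⁻¹ * y * c)
    have e3 := hf.co x y c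
    have g1 : c * (c⁻¹ * x * c) = x * c := by group
    have g2 : c * (c⁻¹ * y * c) = y * c := by group
    have g3 : c⁻¹ * x * c * (c⁻¹ * y * c) = c⁻¹ * (x * y) * c := by group
    rw [g1, g3] at e1
    rw [g2] at e2
    show c • f (c⁻¹ * x * c) (c⁻¹ * y * c) = f x y * (f c (c⁻¹ * x * c) / f x c *
      x • (f c (c⁻¹ * y * c) / f y c) / (f c (c⁻¹ * (x * y) * c) / f (x * y) c))
    rw [smul_div_z]
    have n1 := hf.ne x c
    have n2 := smul_ne_z x (hf.ne y c)
    have n3 := hf.ne c (c⁻¹ * (x * y) * c)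
    have n4 := hf.ne (x * y) c
    set A := c • f (c⁻¹ * x * c) (c⁻¹ * y * c)
    set B := f c (c⁻¹ * (x * y) * c)
    set C := f (x * c) (c⁻¹ * y * c)
    set D := f c (c⁻¹ * x * c)
    set E := x • f c (c⁻¹ * y * c)
    set F := f x (y * c)
    set H := f x c
    set I := x • f y c
    set J := f (x * y) c
    set K := f x y
    have k1 : K * (D / H * (E / I) / (B / J)) = (K * D * E * J) / (B * H * I) := by
      field_simp
    rw [k1, eq_div_iff (mul_ne_zero (mul_ne_zero n3 n1) n2)]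
    linear_combination (H * I) * e1 - (D * I) * e2 + (D * E) * e3

theorem CuN_refl (N : Subgroup G) (f : G → G → Ω) : CuN N f f := by
  exact Cu_refl _

theorem CuN_symm (h : CuN N f f') : CuN N f' f := by
  exact Cu_symm h

theorem CuN_trans (h : CuN N f f') (h' : CuN N f' f'') : CuN N f f'' := by
  exact Cu_trans h h'

theorem CuN_mul (h : CuN N f f') (h' : CuN N f₁ f₁') :
    CuN N (fun x y => f x y * f₁ x y) (fun x y => f' x y * f₁' x y) := by
  exact Cu_mul h h'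

theorem CuN_inv (h : CuN N f f') : CuN N (fun x y => (f x y)⁻¹) (fun x y => (f' x y)⁻¹) := by
  exact Cu_inv h

theorem CuN_pow (k : ℕ) (h : CuN N f f') : CuN N (fun x y => f x y ^ k) (fun x y => f' x y ^ k) := by
  exact Cu_pow k h

theorem CuN_prod {κ : Type*} (s : Finset κ) (F F' : κ → G → G → Ω) (h : ∀ i ∈ s, CuN N (F i) (F' i)) :
    CuN N (fun x y => ∏ i ∈ s, F i x y) (fun x y => ∏ i ∈ s, F' i x y) := by
  exact Cu_prod s (fun i (g h : N) => F i g h) (fun i (g h : N) => F' i g h) h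

theorem CuN_of_Cu (h : Cu f f') (N : Subgroup G) : CuN N f f' := by
  obtain ⟨Ξ, h0, hl, e⟩ := h
  exact ⟨fun g : N => Ξ g, fun g => h0 g, hl.comp_continuous continuous_subtype_val,
    fun x y => e x y⟩

theorem CuN_mono (hN : N' ≤ N) (h : CuN N f f') : CuN N' f f' := by
  obtain ⟨Ξ, h0, hl, e⟩ := h
  refine ⟨fun g : N' => Ξ ⟨g, hN g.2⟩, fun g => h0 _,
    hl.comp_continuous (continuous_subtype_val.subtype_mk fun g : N' => hN g.2), fun x y => ?_⟩
  exact e ⟨x, hN x.2⟩ ⟨y, hN y.2⟩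

theorem CuN_of_eq (h : ∀ x ∈ N, ∀ y ∈ N, f x y = f' x y) : CuN N f f' := by
  refine ⟨fun _ => 1, fun _ => one_ne_zero, IsLocallyConstant.const 1, fun x y => ?_⟩
  rw [smul_one, mul_one, div_one, mul_one]
  exact h x x.2 y y.2

theorem CuN_conj (hG : GA G Ω) [N.Normal] (c : G) (h : CuN N f f') : CuN N (cju c f) (cju c f') := by
  have := hG.top
  obtain ⟨Ξ, h0, hl, e⟩ := h
  have hm : ∀ g : N, c⁻¹ * g * c ∈ N := by
    intro g
    have h1 := Subgroup.Normal.conj_mem (inferInstance : N.Normal) (g : G) g.2 c⁻¹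
    rwa [inv_inv] at h1
  refine ⟨fun g : N => c • Ξ ⟨c⁻¹ * g * c, hm g⟩, fun g => smul_ne_z c (h0 _), ?_, fun x y => ?_⟩
  · have l1 : Continuous fun g : N => (⟨c⁻¹ * g * c, hm g⟩ : N) :=
      ((continuous_const.mul continuous_subtype_val).mul continuous_const).subtype_mk _
    exact (hl.comp_continuous l1).comp (fun z => c • z)
  · have e1 := e ⟨c⁻¹ * x * c, hm x⟩ ⟨c⁻¹ * y * c, hm y⟩
    have e2 : (⟨c⁻¹ * x * c, hm x⟩ * ⟨c⁻¹ * y * c, hm y⟩ : N) = ⟨c⁻¹ * ((x * y : N) : G) * c, hm (x * y)⟩ := by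
      apply Subtype.ext
      show c⁻¹ * x * c * (c⁻¹ * y * c) = c⁻¹ * (x * y) * c
      group
    rw [e2] at e1
    have e3 : (⟨c⁻¹ * x * c, hm x⟩ : N) • Ξ ⟨c⁻¹ * y * c, hm y⟩ =
        (c⁻¹ * (x : G) * c) • Ξ ⟨c⁻¹ * y * c, hm y⟩ := rfl
    rw [e3] at e1
    have e4 := congrArg (fun z => c • z) e1
    simp only [smul_mul', smul_div_z, smul_smul] at e4
    have e5 : c * (c⁻¹ * (x : G) * c) = x * c := by group
    rw [e5] at e4
    show c • f (c⁻¹ * x * c) (c⁻¹ * y * c) = c • f' (c⁻¹ * x * c) (c⁻¹ * y * c) *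
      (c • Ξ ⟨c⁻¹ * x * c, hm x⟩ * (x : G) • c • Ξ ⟨c⁻¹ * y * c, hm y⟩ /
        c • Ξ ⟨c⁻¹ * ((x * y : N) : G) * c, hm (x * y)⟩)
    rw [smul_smul (x : G) c]
    exact e4

theorem CuN_cju_self (hG : GA G Ω) (hf : Zu G f) (c : G) (N : Subgroup G) : CuN N (cju c f) f := by
  exact CuN_of_Cu (Cu_conj hG hf c) N

end

end MSG
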