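import Pool.Agent.MSG.Uc
import Pool.Agent.MSG.H0

/-! # MSG / Um: comparison of `ZMod n`-cochains and `Ωˣ`-cochains

`ζ` is a primitive `n`-th root of unity fixed by `G`; a `ZMod n`-cochain `F` gives the `Ωˣ`-cochain `zp ζ (F g h)`.

PROOFS.
* `Cu_of_Co`: `Ξ g = zp ζ (χ g)` (`g` fixes `zp ζ _`; `χ` continuous with values in a discrete space is locally constant).
* `Co_of_Cu`: `zp ζ (F g h) = zp ζ (F' g h) * (Ξ g * g • Ξ h / Ξ (g h))`.  The `n`-th powers (`zp_pow`): `Ξ ^ n` satisfies `Ξ (g h) ^ n = Ξ g ^ n * g • Ξ h ^ n`, so `Ξ g ^ n = g • θ / θ` (`h90cont`).  With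
  `τ = rt n θ`: `(Ξ g * τ / (g • τ)) ^ n = 1`, so `Ξ g = zp ζ (χ g) * (g • τ) / τ`, `χ g = lg n ζ (Ξ g * τ / (g • τ))` (`zp_lg`), `χ` continuous (locally constant: `Ξ` and `g • τ` are), and
  `Ξ g * g • Ξ h / Ξ (g h) = zp ζ (χ g + χ h - χ (g h))`.
* `exists_zp`: `f ^ n = dΞ`; `ξ g = rt n (Ξ g)` is locally constant; `(f / dξ) ^ n = 1`, `F g h = lg n ζ (f g h / dξ g h)` is a continuous cocycle (`zp_inj`).
* `kl_of`: the same as `kl_h90` in Kl.lean.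
-/

set_option autoImplicit false
set_option linter.unusedVariables false

namespace MSG

universe u v w

open Pool.Agent.Helper14.Massey

variable {G : Type u} {Ω : Type v} [Group G] [TopologicalSpace G] [Field Ω] [MulSemiringAction G Ω] {n : ℕ} {ζ : Ω}

theorem Cu_of_Co (hz : PZ n ζ) (hζ : ∀ g : G, g • ζ = ζ) {F F' : G → G → ZMod n} (h : Co F F') :
    Cu (fun g h => zp ζ (F g h)) (fun g h => zp ζ (F' g h)) := by
  obtain ⟨χ, hχ, h⟩ := h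
  refine ⟨fun g => zp ζ (χ g), fun g => zp_ne hz _,
    ((IsLocallyConstant.iff_continuous χ).2 hχ).comp (zp ζ), fun g l => ?_⟩
  change zp ζ (F g l) = zp ζ (F' g l) * (zp ζ (χ g) * g • zp ζ (χ l) / zp ζ (χ (g * l)))
  rw [smul_zp (hζ g), h, sub_eq_add_neg, zp_add hz, zp_add hz, zp_add hz, zp_neg hz, div_eq_mul_inv]

private theorem um_lc_smul (hG : GA G Ω) (x : Ω) : IsLocallyConstant (fun g : G => g • x) := by
  let _ : TopologicalSpace Ω := ⊥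
  have : DiscreteTopology Ω := ⟨rfl⟩
  exact (IsLocallyConstant.iff_continuous _).2 (cont_of hG x _ fun g h e => e)

theorem Co_of_Cu (hG : GA G Ω) (hz : PZ n ζ) (hζ : ∀ g : G, g • ζ = ζ) {F F' : G → G → ZMod n}
    (h : Cu (fun g h => zp ζ (F g h)) (fun g h => zp ζ (F' g h))) : Co F F' := by
  have := hG.alg
  obtain ⟨Ξ, h0, hl, h⟩ := h
  have h' : ∀ g l, zp ζ (F g l) = zp ζ (F' g l) * (Ξ g * g • Ξ l / Ξ (g * l)) := h
  have hpow : ∀ g l, (fun g => Ξ g ^ n) (g * l) = (fun g => Ξ g ^ n) g * g • (fun g => Ξ g ^ n) l := by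
    intro g l
    change Ξ (g * l) ^ n = Ξ g ^ n * g • Ξ l ^ n
    have h1 := congrArg (fun x : Ω => x ^ n) (h' g l)
    change zp ζ (F g l) ^ n = (zp ζ (F' g l) * (Ξ g * g • Ξ l / Ξ (g * l))) ^ n at h1
    rw [mul_pow, zp_pow hz, zp_pow hz, one_mul, div_pow, eq_div_iff (pow_ne_zero _ (h0 _)),
      one_mul, mul_pow] at h1
    rw [h1, smul_pow']
  obtain ⟨θ, hθ, hΞ⟩ := h90cont hG (fun g => Ξ g ^ n) (fun g => pow_ne_zero _ (h0 g))
    (hl.comp fun x : Ω => x ^ n) hpow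
  have hτ : rt n θ ^ n = θ := rt_pow hz θ
  have hτ0 : rt n θ ≠ 0 := rt_ne hz hθ
  set τ : Ω := rt n θ with hτdef
  have hgτ : ∀ g : G, g • τ ≠ 0 := fun g => (smul_ne_zero_iff_ne g).2 hτ0
  have hχ : ∀ g, zp ζ (lg n ζ (Ξ g * τ / (g • τ))) = Ξ g * τ / (g • τ) := by
    intro g
    apply zp_lg hz
    have h1 : Ξ g ^ n = g • θ / θ := hΞ g
    have h2 : g • θ ≠ 0 := (smul_ne_zero_iff_ne g).2 hθ
    rw [div_pow, mul_pow, ← smul_pow', hτ, h1]
    field_simp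
  refine ⟨fun g => lg n ζ (Ξ g * τ / (g • τ)),
    (hl.comp₂ (um_lc_smul hG τ) fun a b => lg n ζ (a * τ / b)).continuous, fun g l => ?_⟩
  change F g l = F' g l + (lg n ζ (Ξ g * τ / (g • τ)) + lg n ζ (Ξ l * τ / (l • τ)) -
    lg n ζ (Ξ (g * l) * τ / ((g * l) • τ)))
  apply zp_inj hz
  have h3 : zp ζ (lg n ζ (Ξ l * τ / (l • τ))) = g • Ξ l * g • τ / ((g * l) • τ) := by
    rw [← smul_zp (hζ g), hχ l, smul_div₀', smul_mul', smul_smul]
  rw [sub_eq_add_neg, zp_add hz, zp_add hz, zp_add hz, zp_neg hz, h3, hχ, hχ, h' g l]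
  have e1 := hgτ g
  have e2 := hgτ (g * l)
  have e3 := h0 (g * l)
  field_simp

theorem exists_zp (hG : GA G Ω) (hz : PZ n ζ) (hζ : ∀ g : G, g • ζ = ζ) {f : G → G → Ω} (hf : Zu G f)
    (h : Cu (fun g h => f g h ^ n) (fun _ _ => 1)) : ∃ F : G → G → ZMod n, F ∈ Z2 n G ∧ Cu f (fun g h => zp ζ (F g h)) := by
  have := hG.alg
  obtain ⟨Ξ, h0, hl, h⟩ := h
  have h' : ∀ g l, f g l ^ n = Ξ g * g • Ξ l / Ξ (g * l) := by
    intro g l
    have h1 := h g l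
    rwa [one_mul] at h1
  have hξ : ∀ g, rt n (Ξ g) ^ n = Ξ g := fun g => rt_pow hz _
  have hξ0 : ∀ g, rt n (Ξ g) ≠ 0 := fun g => rt_ne hz (h0 g)
  have hgξ : ∀ g l : G, g • rt n (Ξ l) ≠ 0 := fun g l => (smul_ne_zero_iff_ne g).2 (hξ0 l)
  have hu : ∀ g l, zp ζ (lg n ζ (f g l / (rt n (Ξ g) * g • rt n (Ξ l) / rt n (Ξ (g * l))))) =
      f g l / (rt n (Ξ g) * g • rt n (Ξ l) / rt n (Ξ (g * l))) := by
    intro g l
    apply zp_lg hz
    rw [div_pow, div_pow, mul_pow, ← smul_pow', hξ, hξ, hξ, h']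
    have e1 := h0 g
    have e2 : g • Ξ l ≠ 0 := (smul_ne_zero_iff_ne g).2 (h0 l)
    have e3 := h0 (g * l)
    field_simp
  set F : G → G → ZMod n := fun g l =>
    lg n ζ (f g l / (rt n (Ξ g) * g • rt n (Ξ l) / rt n (Ξ (g * l)))) with hF
  have hCu : Cu f (fun g h => zp ζ (F g h)) := by
    refine ⟨fun g => rt n (Ξ g), hξ0, hl.comp (rt n), fun g l => ?_⟩
    change f g l = zp ζ (F g l) * (rt n (Ξ g) * g • rt n (Ξ l) / rt n (Ξ (g * l)))
    rw [hF]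
    change f g l = zp ζ (lg n ζ (f g l / (rt n (Ξ g) * g • rt n (Ξ l) / rt n (Ξ (g * l))))) *
      (rt n (Ξ g) * g • rt n (Ξ l) / rt n (Ξ (g * l)))
    rw [hu]
    have e1 := hξ0 g
    have e2 := hgξ g l
    have e3 := hξ0 (g * l)
    field_simp
  have hZ := Zu_of_Cu hG (Cu_symm hCu) hf
  refine ⟨F, ⟨?_, ?_⟩, hCu⟩
  · have h1 := hZ.lc.comp (lg n ζ)
    have h2 : (lg n ζ ∘ fun q : G × G => zp ζ (F q.1 q.2)) = fun q : G × G => F q.1 q.2 := by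
      funext q
      exact lg_zp hz _
    rw [h2] at h1
    exact h1.continuous
  · intro σ τ υ
    have h1 := hZ.co σ τ υ
    change σ • zp ζ (F τ υ) * zp ζ (F σ (τ * υ)) = zp ζ (F (σ * τ) υ) * zp ζ (F σ τ) at h1
    rw [smul_zp (hζ σ), ← zp_add hz, ← zp_add hz] at h1
    have h2 := zp_inj hz h1
    linear_combination h2

end MSG
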